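import Mathlib

/-!
# Exponential sums: geometric bound, quasi-orthogonality, and the Jackson kernel
-/

set_option autoImplicit false

open Finset

namespace Run7.h770

/-- `e t = exp (2 π i t)`. -/
noncomputable def e (t : ℝ) : ℂ := Complex.exp (Complex.I * ((2 * Real.pi * t : ℝ) : ℂ))

theorem e_add (s t : ℝ) : e (s + t) = e s * e t := by
  rw [e, e, e, ← Complex.exp_add]
  congr 1
  push_cast
  ring

@[simp] theorem e_zero : e 0 = 1 := by simp [e]

theorem norm_e (t : ℝ) : ‖e t‖ = 1 := Complex.norm_exp_I_mul_ofReal _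

theorem conj_e (t : ℝ) : (starRingEnd ℂ) (e t) = e (-t) := by
  rw [e, e, ← Complex.exp_conj]
  congr 1
  rw [map_mul, Complex.conj_I, Complex.conj_ofReal]
  push_cast
  ring

theorem e_nat_mul (n : ℕ) (t : ℝ) : e (n * t) = e t ^ n := by
  rw [e, e, ← Complex.exp_nat_mul]
  congr 1
  push_cast
  ring

theorem e_int (n : ℤ) : e n = 1 := by
  rw [e, Complex.exp_eq_one_iff]
  exact ⟨n, by push_cast; ring⟩

theorem e_ne_zero (t : ℝ) : e t ≠ 0 := Complex.exp_ne_zero _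

/-- `|e t - 1| ≥ 4 |t|` for `|t| ≤ 1/2`. -/
theorem norm_e_sub_one {t : ℝ} (ht : |t| ≤ 1 / 2) : 4 * |t| ≤ ‖e t - 1‖ := by
  rw [e, Complex.norm_exp_I_mul_ofReal_sub_one, Real.norm_eq_abs, abs_mul]
  have h1 : 2 * Real.pi * t / 2 = Real.pi * t := by ring
  rw [h1, show |(2:ℝ)| = 2 by norm_num]
  have h2 : |Real.sin (Real.pi * t)| = Real.sin (Real.pi * |t|) := by
    rcases le_total 0 t with h | h
    · rw [abs_of_nonneg h, abs_of_nonneg]
      apply Real.sin_nonneg_of_nonneg_of_le_pi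
      · positivity
      · rw [abs_of_nonneg h] at ht
        nlinarith [Real.pi_pos]
    · rw [abs_of_nonpos h, mul_neg, Real.sin_neg, abs_of_nonpos]
      rw [abs_of_nonpos h] at ht
      apply Real.sin_nonpos_of_nonpos_of_neg_pi_le
      · nlinarith [Real.pi_pos]
      · nlinarith [Real.pi_pos]
  rw [h2]
  have h3 := Real.mul_le_sin (x := Real.pi * |t|) (by positivity) (by nlinarith [Real.pi_pos])
  have h4 : 2 / Real.pi * (Real.pi * |t|) = 2 * |t| := by
    field_simp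
  rw [h4] at h3
  linarith

/-- Geometric sum bound. -/
theorem norm_geom_le (t a : ℝ) (n : ℕ) (ht0 : t ≠ 0) (ht : |t| ≤ 1 / 2) :
    ‖∑ j ∈ range n, e (t * (j + a))‖ ≤ 1 / (2 * |t|) := by
  have h1 : ∑ j ∈ range n, e (t * (j + a)) = (∑ j ∈ range n, e t ^ j) * e (t * a) := by
    rw [Finset.sum_mul]
    refine Finset.sum_congr rfl fun j _ => ?_
    rw [← e_nat_mul, ← e_add]
    congr 1
    ring
  have h2 : 0 < |t| := abs_pos.mpr ht0
  have h3 := norm_e_sub_one ht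
  have h4 : 0 < ‖e t - 1‖ := by linarith
  have h5 : e t ≠ 1 := by
    intro h
    rw [h, sub_self, norm_zero] at h4
    exact lt_irrefl _ h4
  rw [h1, norm_mul, norm_e, mul_one, geom_sum_eq h5, norm_div]
  have h6 : ‖e t ^ n - 1‖ ≤ 2 := by
    calc ‖e t ^ n - 1‖ ≤ ‖e t ^ n‖ + ‖(1 : ℂ)‖ := norm_sub_le _ _
      _ = 2 := by rw [norm_pow, norm_e, one_pow, norm_one]; norm_num
  rw [div_le_div_iff₀ h4 (by positivity)]
  nlinarith [norm_nonneg (e t ^ n - 1)]

/-- **Quasi-orthogonality.** -/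
theorem quasi_orth {ι : Type*} [DecidableEq ι] (U : Finset ι) (A : ι → ℂ) (lam : ι → ℝ) (δ : ℝ)
    (hδ : 0 < δ) (h1 : ∀ u ∈ U, ∀ v ∈ U, u ≠ v → δ ≤ |lam u - lam v|)
    (h2 : ∀ u ∈ U, ∀ v ∈ U, |lam u - lam v| ≤ 1 / 2) (a : ℝ) (n : ℕ) :
    ∑ j ∈ range n, ‖∑ u ∈ U, A u * e (lam u * (j + a))‖ ^ 2 ≤
      (n + U.card / (2 * δ)) * ∑ u ∈ U, ‖A u‖ ^ 2 := by
  have key : ((∑ j ∈ range n, ‖∑ u ∈ U, A u * e (lam u * (j + a))‖ ^ 2 : ℝ) : ℂ) =
      ∑ u ∈ U, ∑ v ∈ U, A u * (starRingEnd ℂ) (A v) *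
        ∑ j ∈ range n, e ((lam u - lam v) * (j + a)) := by
    push_cast
    have hj : ∀ j ∈ range n, ((‖∑ u ∈ U, A u * e (lam u * (j + a))‖ : ℝ) : ℂ) ^ 2 =
        ∑ u ∈ U, ∑ v ∈ U, A u * (starRingEnd ℂ) (A v) * e ((lam u - lam v) * (j + a)) := by
      intro j _
      rw [← Complex.mul_conj', map_sum, Finset.sum_mul_sum]
      refine Finset.sum_congr rfl fun u _ => Finset.sum_congr rfl fun v _ => ?_
      rw [map_mul, conj_e]
      have : e ((lam u - lam v) * (j + a)) = e (lam u * (j + a)) * e (-(lam v * (j + a))) := by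
        rw [← e_add]; congr 1; ring
      rw [this]; ring
    rw [Finset.sum_congr rfl hj, Finset.sum_comm]
    refine Finset.sum_congr rfl fun u _ => ?_
    rw [Finset.sum_comm]
    refine Finset.sum_congr rfl fun v _ => ?_
    rw [Finset.mul_sum]
  have hreal : ∑ j ∈ range n, ‖∑ u ∈ U, A u * e (lam u * (j + a))‖ ^ 2 =
      ‖∑ u ∈ U, ∑ v ∈ U, A u * (starRingEnd ℂ) (A v) *
        ∑ j ∈ range n, e ((lam u - lam v) * (j + a))‖ := by
    rw [← key, Complex.norm_real, Real.norm_of_nonneg (by positivity)]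
  rw [hreal]
  have hb : ∀ u ∈ U, ∀ v ∈ U, ‖A u * (starRingEnd ℂ) (A v) *
      ∑ j ∈ range n, e ((lam u - lam v) * (j + a))‖ ≤
      ‖A u‖ * ‖A v‖ * (if u = v then (n : ℝ) else 0) + ‖A u‖ * ‖A v‖ * (1 / (2 * δ)) := by
    intro u hu v hv
    rw [norm_mul, norm_mul, RCLike.norm_conj]
    by_cases huv : u = v
    · subst huv
      rw [if_pos rfl]
      have : ‖∑ j ∈ range n, e ((lam u - lam u) * (j + a))‖ ≤ n := by
        simp
      have h3 : ‖A u‖ * ‖A u‖ * ‖∑ j ∈ range n, e ((lam u - lam u) * (j + a))‖ ≤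
          ‖A u‖ * ‖A u‖ * n := mul_le_mul_of_nonneg_left this (by positivity)
      have h4 : 0 ≤ ‖A u‖ * ‖A u‖ * (1 / (2 * δ)) := by positivity
      linarith
    · rw [if_neg huv, mul_zero, zero_add]
      apply mul_le_mul_of_nonneg_left _ (by positivity)
      have h3 := h1 u hu v hv huv
      have h4 : lam u - lam v ≠ 0 := by
        intro h; rw [h, abs_zero] at h3; linarith
      refine le_trans (norm_geom_le _ _ _ h4 (h2 u hu v hv)) ?_
      apply one_div_le_one_div_of_le (by positivity)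
      linarith
  have hcs : (∑ u ∈ U, ‖A u‖) ^ 2 ≤ U.card * ∑ u ∈ U, ‖A u‖ ^ 2 := sq_sum_le_card_mul_sum_sq
  calc ‖∑ u ∈ U, ∑ v ∈ U, A u * (starRingEnd ℂ) (A v) *
        ∑ j ∈ range n, e ((lam u - lam v) * (j + a))‖
      ≤ ∑ u ∈ U, ∑ v ∈ U, (‖A u‖ * ‖A v‖ * (if u = v then (n : ℝ) else 0) +
          ‖A u‖ * ‖A v‖ * (1 / (2 * δ))) := by
        refine le_trans (norm_sum_le _ _) (Finset.sum_le_sum fun u hu => ?_)
        refine le_trans (norm_sum_le _ _) (Finset.sum_le_sum fun v hv => ?_)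
        exact hb u hu v hv
    _ = n * (∑ u ∈ U, ‖A u‖ ^ 2) + (∑ u ∈ U, ‖A u‖) ^ 2 * (1 / (2 * δ)) := by
        simp only [Finset.sum_add_distrib]
        congr 1
        · rw [Finset.mul_sum]
          refine Finset.sum_congr rfl fun u hu => ?_
          have : ∀ v ∈ U, ‖A u‖ * ‖A v‖ * (if u = v then (n : ℝ) else 0) =
              if u = v then ‖A u‖ * ‖A v‖ * n else 0 := by
            intro v _
            split_ifs <;> simp
          rw [Finset.sum_congr rfl this, Finset.sum_ite_eq, if_pos hu]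
          ring
        · rw [pow_two, Finset.sum_mul_sum, Finset.sum_mul]
          refine Finset.sum_congr rfl fun u _ => ?_
          rw [Finset.sum_mul]
    _ ≤ n * (∑ u ∈ U, ‖A u‖ ^ 2) + (U.card * ∑ u ∈ U, ‖A u‖ ^ 2) * (1 / (2 * δ)) := by
        have : (∑ u ∈ U, ‖A u‖) ^ 2 * (1 / (2 * δ)) ≤
            (U.card * ∑ u ∈ U, ‖A u‖ ^ 2) * (1 / (2 * δ)) :=
          mul_le_mul_of_nonneg_right hcs (by positivity)
        linarith
    _ = (n + U.card / (2 * δ)) * ∑ u ∈ U, ‖A u‖ ^ 2 := by ring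

end Run7.h770
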