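import Mathlib
import Pool.Agent.Run7.h770.Sieve

/-!
# The generalised Jackson kernel `|∑_{a<H} e(a t)|^(2r)`, `r = s + 1`
-/

set_option autoImplicit false

open Finset

namespace Run7.h770

/-- Tuples of elements of `range H`. -/
def Tup (s H : ℕ) : Finset (Fin (s + 1) → ℕ) := Fintype.piFinset (fun _ => range H)

/-- The difference of the sums of two tuples. -/
def phi {s : ℕ} (x : (Fin (s + 1) → ℕ) × (Fin (s + 1) → ℕ)) : ℤ :=
  ((∑ i, x.1 i : ℕ) : ℤ) - ((∑ i, x.2 i : ℕ) : ℤ)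

/-- Number of pairs of tuples with difference of sums equal to `h`. -/
def cK (s H : ℕ) (h : ℤ) : ℕ := ((Tup s H ×ˢ Tup s H).filter (fun x => phi x = h)).card

/-- The Dirichlet-type sum. -/
noncomputable def PP (H : ℕ) (t : ℝ) : ℂ := ∑ a ∈ range H, e (a * t)

theorem card_Tup (s H : ℕ) : (Tup s H).card = H ^ (s + 1) := by
  rw [Tup, Fintype.card_piFinset]
  simp

theorem sum_le_of_mem_Tup {s H : ℕ} {x : Fin (s + 1) → ℕ} (hx : x ∈ Tup s H) :
    ∑ i, x i ≤ (s + 1) * H := by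
  rw [Tup, Fintype.mem_piFinset] at hx
  calc ∑ i, x i ≤ ∑ i : Fin (s + 1), H := Finset.sum_le_sum fun i _ => (mem_range.mp (hx i)).le
    _ = (s + 1) * H := by simp

theorem sum_lt_of_mem_Tup {s H : ℕ} {x : Fin (s + 1) → ℕ} (hx : x ∈ Tup s H) :
    ∑ i, x i < (s + 1) * H := by
  rw [Tup, Fintype.mem_piFinset] at hx
  calc ∑ i, x i < ∑ i : Fin (s + 1), H :=
        Finset.sum_lt_sum_of_nonempty ⟨0, mem_univ _⟩ fun i _ => mem_range.mp (hx i)
    _ = (s + 1) * H := by simp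

theorem phi_mem {s H : ℕ} {x : (Fin (s + 1) → ℕ) × (Fin (s + 1) → ℕ)}
    (hx : x ∈ Tup s H ×ˢ Tup s H) :
    phi x ∈ Icc (-(((s + 1) * H : ℕ) : ℤ)) (((s + 1) * H : ℕ) : ℤ) := by
  rw [mem_product] at hx
  have h1 := sum_le_of_mem_Tup hx.1
  have h2 := sum_le_of_mem_Tup hx.2
  rw [mem_Icc, phi]
  omega

theorem sum_cK (s H : ℕ) :
    ∑ h ∈ Icc (-(((s + 1) * H : ℕ) : ℤ)) (((s + 1) * H : ℕ) : ℤ), cK s H h = H ^ (2 * s + 2) := by
  have h := Finset.card_eq_sum_card_fiberwise (s := Tup s H ×ˢ Tup s H)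
    (t := Icc (-(((s + 1) * H : ℕ) : ℤ)) (((s + 1) * H : ℕ) : ℤ)) (f := phi)
    (fun x hx => phi_mem hx)
  rw [card_product, card_Tup] at h
  rw [show H ^ (2 * s + 2) = H ^ (s + 1) * H ^ (s + 1) by rw [← pow_add]; congr 1; ring, h]
  rfl

theorem cK_le (s H : ℕ) (h : ℤ) : cK s H h ≤ H ^ (2 * s + 1) := by
  rw [cK]
  calc ((Tup s H ×ˢ Tup s H).filter (fun x => phi x = h)).card
      ≤ (Tup s H ×ˢ Fintype.piFinset (fun _ : Fin s => range H)).card := by
        apply Finset.card_le_card_of_injOn (fun x => (x.1, fun i => x.2 i.succ))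
        · intro x hx
          rw [mem_coe, mem_filter, mem_product] at hx
          rw [mem_coe, mem_product]
          refine ⟨hx.1.1, ?_⟩
          have := hx.1.2
          rw [Tup, Fintype.mem_piFinset] at this
          rw [Fintype.mem_piFinset]
          exact fun i => this _
        · rintro ⟨a, b⟩ hx ⟨a', b'⟩ hy hxy
          rw [mem_coe, mem_filter] at hx hy
          simp only [Prod.mk.injEq] at hxy ⊢
          obtain ⟨h1, h2⟩ := hxy
          subst h1
          refine ⟨rfl, ?_⟩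
          have h3 := hx.2
          have h4 := hy.2
          rw [← h4] at h3
          simp only [phi] at h3
          have h5 : ∑ i, b i = ∑ i, b' i := by omega
          rw [Fin.sum_univ_succ, Fin.sum_univ_succ] at h5
          have h6 : ∑ i : Fin s, b i.succ = ∑ i : Fin s, b' i.succ :=
            Finset.sum_congr rfl fun i _ => congrFun h2 i
          have h7 : b 0 = b' 0 := by omega
          funext i
          refine Fin.cases h7 (fun j => congrFun h2 j) i
    _ = H ^ (2 * s + 1) := by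
        rw [card_product, card_Tup, Fintype.card_piFinset]
        simp only [card_range, prod_const, card_univ, Fintype.card_fin]
        rw [← pow_add]; congr 1; ring

theorem le_cK_zero (s H : ℕ) (hH : 0 < H) : H ^ (2 * s + 1) ≤ (s + 1) * cK s H 0 := by
  set r : ℕ → ℕ := fun m => ((Tup s H).filter (fun p => ∑ i, p i = m)).card with hr
  have h1 : ∑ m ∈ range ((s + 1) * H), r m = H ^ (s + 1) := by
    rw [← card_Tup]
    symm
    apply Finset.card_eq_sum_card_fiberwise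
    intro x hx
    rw [mem_coe, mem_range]
    exact sum_lt_of_mem_Tup hx
  have h2 : cK s H 0 = ∑ m ∈ range ((s + 1) * H), r m ^ 2 := by
    rw [cK, Finset.card_eq_sum_card_fiberwise (f := fun x => ∑ i, x.1 i)
      (t := range ((s + 1) * H))]
    · refine Finset.sum_congr rfl fun m _ => ?_
      rw [hr, pow_two]
      simp only
      rw [← card_product]
      congr 1
      ext ⟨a, b⟩
      simp only [phi, mem_filter, mem_product]
      constructor
      · rintro ⟨⟨⟨h3, h4⟩, h5⟩, h6⟩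
        refine ⟨⟨h3, h6⟩, h4, ?_⟩
        omega
      · rintro ⟨⟨h3, h4⟩, h5, h6⟩
        refine ⟨⟨⟨h3, h5⟩, ?_⟩, h4⟩
        omega
    · intro x hx
      rw [mem_coe, mem_filter, mem_product] at hx
      rw [mem_coe, mem_range]
      exact sum_lt_of_mem_Tup hx.1.1
  have h3 : (∑ m ∈ range ((s + 1) * H), r m) ^ 2 ≤
      (range ((s + 1) * H)).card * ∑ m ∈ range ((s + 1) * H), r m ^ 2 := sq_sum_le_card_mul_sum_sq
  rw [h1, card_range, ← h2] at h3
  have h4 : H * H ^ (2 * s + 1) ≤ H * ((s + 1) * cK s H 0) := by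
    calc H * H ^ (2 * s + 1) = (H ^ (s + 1)) ^ 2 := by
          rw [← pow_succ', ← pow_mul]; congr 1; ring
      _ ≤ (s + 1) * H * cK s H 0 := h3
      _ = H * ((s + 1) * cK s H 0) := by ring
  exact Nat.le_of_mul_le_mul_left h4 hH

theorem PP_pow (s H : ℕ) (t : ℝ) :
    PP H t ^ (s + 1) = ∑ p ∈ Tup s H, e (((∑ i, p i : ℕ) : ℝ) * t) := by
  have h1 : PP H t ^ (s + 1) = ∏ _i : Fin (s + 1), ∑ a ∈ range H, e (a * t) := by
    rw [Finset.prod_const, card_univ, Fintype.card_fin, PP]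
  rw [h1, Finset.prod_univ_sum, Tup]
  refine Finset.sum_congr rfl fun p _ => ?_
  have h2 : ∀ (S : Finset (Fin (s + 1))) (f : Fin (s + 1) → ℝ),
      e (∑ i ∈ S, f i) = ∏ i ∈ S, e (f i) := by
    intro S f
    induction S using Finset.induction_on with
    | empty => simp
    | insert a S ha ih => rw [Finset.sum_insert ha, Finset.prod_insert ha, e_add, ih]
  rw [← h2]
  congr 1
  push_cast
  rw [Finset.sum_mul]

/-- Fourier expansion of the kernel. -/
theorem norm_PP_pow (s H : ℕ) (t : ℝ) :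
    ((‖PP H t‖ ^ (2 * (s + 1)) : ℝ) : ℂ) =
      ∑ h ∈ Icc (-(((s + 1) * H : ℕ) : ℤ)) (((s + 1) * H : ℕ) : ℤ), (cK s H h : ℂ) * e (h * t) := by
  have h1 : ((‖PP H t‖ ^ (2 * (s + 1)) : ℝ) : ℂ) = (PP H t ^ (s + 1)) *
      ((starRingEnd ℂ) (PP H t ^ (s + 1))) := by
    rw [Complex.mul_conj', norm_pow]
    push_cast
    rw [← pow_mul, mul_comm 2]
  have h4 : (starRingEnd ℂ) (PP H t ^ (s + 1)) =
      ∑ p ∈ Tup s H, e (-(((∑ i, p i : ℕ) : ℝ) * t)) := by
    rw [PP_pow, map_sum]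
    exact Finset.sum_congr rfl fun p _ => conj_e _
  rw [h1, h4, PP_pow, Finset.sum_mul_sum, ← Finset.sum_product', ← Finset.sum_fiberwise_of_maps_to
    (fun x hx => phi_mem hx)]
  refine Finset.sum_congr rfl fun h _ => ?_
  rw [cK, ← nsmul_eq_mul, ← Finset.sum_const]
  refine Finset.sum_congr rfl fun x hx => ?_
  rw [mem_filter] at hx
  rw [← e_add, ← hx.2, phi]
  congr 1
  push_cast
  ring

/-- Decay of the kernel away from the integers. -/
theorem norm_PP_le (s H : ℕ) (t w : ℝ) (hw : 0 < w) (ht : w ≤ |t - round t|) :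
    ‖PP H t‖ ^ (2 * (s + 1)) ≤ (1 / (4 * w ^ 2)) ^ (s + 1) := by
  set t' : ℝ := t - round t with ht'
  have h1 : PP H t = ∑ j ∈ range H, e (t' * (j + 0)) := by
    rw [PP]
    refine Finset.sum_congr rfl fun a _ => ?_
    have h2 : (a : ℝ) * t = t' * (a + 0) + (((a : ℤ) * round t : ℤ) : ℝ) := by
      rw [ht']; push_cast; ring
    rw [h2, e_add, e_int, mul_one]
  have h3 : |t'| ≤ 1 / 2 := abs_sub_round t
  have h4 : t' ≠ 0 := by
    intro h; rw [h, abs_zero] at ht; linarith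
  have h5 : ‖PP H t‖ ≤ 1 / (2 * w) := by
    rw [h1]
    refine le_trans (norm_geom_le _ _ _ h4 h3) ?_
    apply one_div_le_one_div_of_le (by positivity)
    linarith
  calc ‖PP H t‖ ^ (2 * (s + 1)) ≤ (1 / (2 * w)) ^ (2 * (s + 1)) :=
        pow_le_pow_left₀ (norm_nonneg _) h5 _
    _ = (1 / (4 * w ^ 2)) ^ (s + 1) := by
      rw [pow_mul]
      congr 1
      rw [div_pow, one_pow, mul_pow]; norm_num

/-- Sum of squares of the coefficients. -/
theorem sum_cK_sq (s H : ℕ) :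
    ∑ h ∈ (Icc (-(((s + 1) * H : ℕ) : ℤ)) (((s + 1) * H : ℕ) : ℤ)).erase 0, ((cK s H h : ℝ)) ^ 2 ≤
    (H : ℝ) ^ (4 * s + 3) := by
  calc ∑ h ∈ (Icc (-(((s + 1) * H : ℕ) : ℤ)) (((s + 1) * H : ℕ) : ℤ)).erase 0, ((cK s H h : ℝ)) ^ 2
      ≤ ∑ h ∈ Icc (-(((s + 1) * H : ℕ) : ℤ)) (((s + 1) * H : ℕ) : ℤ), ((cK s H h : ℝ)) ^ 2 :=
        Finset.sum_le_sum_of_subset_of_nonneg (Finset.erase_subset _ _) (fun _ _ _ => by positivity)
    _ ≤ ∑ h ∈ Icc (-(((s + 1) * H : ℕ) : ℤ)) (((s + 1) * H : ℕ) : ℤ),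
          (H : ℝ) ^ (2 * s + 1) * (cK s H h : ℝ) := by
        refine Finset.sum_le_sum fun h _ => ?_
        rw [pow_two]
        apply mul_le_mul_of_nonneg_right _ (by positivity)
        exact_mod_cast cK_le s H h
    _ = (H : ℝ) ^ (4 * s + 3) := by
        rw [← Finset.mul_sum]
        have h1 : ∑ h ∈ Icc (-(((s + 1) * H : ℕ) : ℤ)) (((s + 1) * H : ℕ) : ℤ), (cK s H h : ℝ) =
            (H : ℝ) ^ (2 * s + 2) := by
          exact_mod_cast sum_cK s H
        rw [h1, ← pow_add]; congr 1; ring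

end Run7.h770
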