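import Mathlib
import Pool.Agent.N770.Sqrt

/-!
# Lower bounds for integer combinations of square roots

If `D i` (`i ∈ S`) are distinct squarefree positive integers and `g i` are integers, not all zero,
then `∑ g i √(D i)` is not zero and its modulus is at least `B ^ (-2^|S|)` with
`B ≥ max 1 (∑ |g i| √(D i))`: the product over all choices of signs is a nonzero integer.
-/

set_option autoImplicit false

open Polynomial

namespace Run7.h770

theorem squarefree_eq_of_mul_sq {i j : ℕ} (hi : Squarefree i) (hj : Squarefree j) {u v : ℤ}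
    (huv : IsCoprime u v) (h : (i : ℤ) * v ^ 2 = u ^ 2 * j) : i = j := by
  have hi' : Squarefree (i : ℤ) := Int.squarefree_natCast.mpr hi
  have hj' : Squarefree (j : ℤ) := Int.squarefree_natCast.mpr hj
  have h1 : v ^ 2 ∣ (j : ℤ) := by
    have h2 : v ^ 2 ∣ u ^ 2 * (j : ℤ) := ⟨i, by rw [← h]; ring⟩
    exact (IsCoprime.pow huv.symm).dvd_of_dvd_mul_left h2
  have h2 : u ^ 2 ∣ (i : ℤ) := by
    have h3 : u ^ 2 ∣ (i : ℤ) * v ^ 2 := ⟨j, by rw [h]⟩
    exact (IsCoprime.pow huv).dvd_of_dvd_mul_right h3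
  have hvu : IsUnit v := hj' v (by rw [← pow_two]; exact h1)
  have huu : IsUnit u := hi' u (by rw [← pow_two]; exact h2)
  have hv2 : v ^ 2 = 1 := by
    rcases Int.isUnit_iff.mp hvu with h | h <;> rw [h] <;> norm_num
  have hu2 : u ^ 2 = 1 := by
    rcases Int.isUnit_iff.mp huu with h | h <;> rw [h] <;> norm_num
  rw [hv2, hu2] at h
  have : (i : ℤ) = j := by linarith
  exact_mod_cast this

/-- Square roots of distinct squarefree natural numbers are linearly independent over `ℚ`. -/
theorem linearIndependent_sqrt_nat {ι : Type*} (D : ι → ℕ) (hD : ∀ i, Squarefree (D i))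
    (hinj : Function.Injective D) : LinearIndependent ℚ (fun i => ((√(D i : ℝ) : ℝ) : ℂ)) := by
  apply Pool.Agent.N770.linearIndependent_sqrt (E := ℚ) (L := ℂ) (by norm_num)
  · intro i
    refine ⟨(D i : ℚ), ?_⟩
    rw [← Complex.ofReal_mul, Real.mul_self_sqrt (by positivity)]
    simp
  · intro i
    have : 0 < D i := Nat.pos_of_ne_zero (hD i).ne_zero
    have h1 : (0 : ℝ) < √(D i : ℝ) := Real.sqrt_pos.mpr (by exact_mod_cast this)
    exact_mod_cast h1.ne'
  · intro i j hij a ha
    apply hij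
    apply hinj
    have hj0 : 0 < D j := Nat.pos_of_ne_zero (hD j).ne_zero
    have h1 : √(D i : ℝ) = (a : ℝ) * √(D j : ℝ) := by
      have h2 : ((√(D i : ℝ) : ℝ) : ℂ) = (((a : ℝ) * √(D j : ℝ) : ℝ) : ℂ) := by
        rw [ha, Complex.ofReal_mul, Complex.ofReal_ratCast]
        rfl
      exact Complex.ofReal_injective h2
    have h2 : (D i : ℝ) = (a : ℝ) ^ 2 * (D j : ℝ) := by
      have h3 : √(D i : ℝ) * √(D i : ℝ) = ((a : ℝ) * √(D j : ℝ)) * ((a : ℝ) * √(D j : ℝ)) := by
        rw [h1]
      rw [Real.mul_self_sqrt (by positivity)] at h3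
      rw [h3]
      have h4 : √(D j : ℝ) * √(D j : ℝ) = (D j : ℝ) := Real.mul_self_sqrt (by positivity)
      linear_combination (a : ℝ) ^ 2 * h4
    have h3 : (D i : ℚ) = a ^ 2 * (D j : ℚ) := by exact_mod_cast h2
    have hden : (a.den : ℤ) ≠ 0 := by exact_mod_cast a.den_nz
    have hcop : IsCoprime a.num (a.den : ℤ) := by
      rw [Int.isCoprime_iff_nat_coprime, Int.natAbs_natCast]
      exact a.reduced
    refine squarefree_eq_of_mul_sq (hD i) (hD j) hcop ?_
    have h4 : (a : ℚ) * (a.den : ℚ) = (a.num : ℚ) := Rat.mul_den_eq_num a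
    have h5 : (D i : ℚ) * (a.den : ℚ) ^ 2 = (a.num : ℚ) ^ 2 * (D j : ℚ) := by
      rw [← h4, h3]; ring
    exact_mod_cast h5

/-- An integer combination of square roots of distinct squarefree numbers vanishes only trivially. -/
theorem sum_sqrt_ne_zero {ι : Type*} (D : ι → ℕ) (hD : ∀ i, Squarefree (D i))
    (hinj : Function.Injective D) (S : Finset ι) (g : ι → ℤ) {i0 : ι} (hi0 : i0 ∈ S)
    (hg : g i0 ≠ 0) : ∑ i ∈ S, (g i : ℝ) * √(D i : ℝ) ≠ 0 := by
  intro h
  have hli := linearIndependent_sqrt_nat D hD hinj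
  rw [linearIndependent_iff'] at hli
  have h1 := hli S (fun i => (g i : ℚ)) (by
    have h2 : ((∑ i ∈ S, (g i : ℝ) * √(D i : ℝ) : ℝ) : ℂ) = 0 := by rw [h]; simp
    rw [← h2]
    push_cast
    refine Finset.sum_congr rfl fun i _ => ?_
    rw [Rat.smul_def]
    push_cast
    rfl) i0 hi0
  exact hg (by exact_mod_cast h1)

/-- Shifting a polynomial by a square root. -/
theorem shift_split (r : ℝ) (a : ℤ) (hr : r ^ 2 = a) (Q : ℤ[X]) :
    ∃ U V : ℤ[X], ∀ y : ℝ, aeval (y + r) Q = aeval y U + r * aeval y V ∧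
      aeval (y - r) Q = aeval y U - r * aeval y V := by
  induction Q using Polynomial.induction_on with
  | C c => exact ⟨C c, 0, fun y => by simp⟩
  | add p q hp hq =>
    obtain ⟨U1, V1, h1⟩ := hp
    obtain ⟨U2, V2, h2⟩ := hq
    refine ⟨U1 + U2, V1 + V2, fun y => ?_⟩
    obtain ⟨h3, h4⟩ := h1 y
    obtain ⟨h5, h6⟩ := h2 y
    constructor
    · rw [map_add, map_add, map_add, h3, h5]; ring
    · rw [map_add, map_add, map_add, h4, h6]; ring
  | monomial n c hn =>
    obtain ⟨U, V, h⟩ := hn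
    refine ⟨X * U + C a * V, U + X * V, fun y => ?_⟩
    obtain ⟨h3, h4⟩ := h y
    have h5 : (C c * X ^ (n + 1) : ℤ[X]) = (C c * X ^ n) * X := by rw [pow_succ, mul_assoc]
    constructor
    · rw [h5, map_mul, h3, aeval_X, map_add, map_mul, map_mul, map_add, map_mul, aeval_X, aeval_C]
      simp only [algebraMap_int_eq, eq_intCast]
      rw [← hr]; ring
    · rw [h5, map_mul, h4, aeval_X, map_add, map_mul, map_mul, map_add, map_mul, aeval_X, aeval_C]
      simp only [algebraMap_int_eq, eq_intCast]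
      rw [← hr]; ring

open Classical in
/-- The product over all sign choices, as an integral polynomial in the shift. -/
theorem exists_norm_poly {ι : Type*} (D : ι → ℕ) (g : ι → ℤ) (S : Finset ι) :
    ∃ Q : ℤ[X], ∀ y : ℝ, ∏ T ∈ S.powerset,
      (y + ∑ i ∈ S, (if i ∈ T then -(g i : ℝ) * √(D i : ℝ) else (g i : ℝ) * √(D i : ℝ))) =
        aeval y Q := by
  induction S using Finset.induction_on with
  | empty => exact ⟨X, fun y => by simp⟩
  | insert d S hd ih =>
    obtain ⟨Q, hQ⟩ := ih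
    set r : ℝ := (g d : ℝ) * √(D d : ℝ) with hr
    obtain ⟨U, V, hUV⟩ := shift_split r ((g d) ^ 2 * (D d : ℤ)) (by
      rw [hr, mul_pow, Real.sq_sqrt (by positivity)]; push_cast; ring) Q
    refine ⟨U ^ 2 - C ((g d) ^ 2 * (D d : ℤ)) * V ^ 2, fun y => ?_⟩
    rw [Finset.prod_powerset_insert hd]
    have h1 : ∏ T ∈ S.powerset, (y + ∑ i ∈ insert d S,
        (if i ∈ T then -(g i : ℝ) * √(D i : ℝ) else (g i : ℝ) * √(D i : ℝ))) =
        aeval (y + r) Q := by
      rw [← hQ]
      refine Finset.prod_congr rfl fun T hT => ?_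
      have hdT : d ∉ T := fun h => hd (Finset.mem_powerset.mp hT h)
      rw [Finset.sum_insert hd, if_neg hdT]; ring
    have h2 : ∏ T ∈ S.powerset, (y + ∑ i ∈ insert d S,
        (if i ∈ insert d T then -(g i : ℝ) * √(D i : ℝ) else (g i : ℝ) * √(D i : ℝ))) =
        aeval (y - r) Q := by
      rw [← hQ]
      refine Finset.prod_congr rfl fun T hT => ?_
      rw [Finset.sum_insert hd, if_pos (Finset.mem_insert_self d T)]
      have h3 : ∀ i ∈ S, (if i ∈ insert d T then -(g i : ℝ) * √(D i : ℝ)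
          else (g i : ℝ) * √(D i : ℝ)) = (if i ∈ T then -(g i : ℝ) * √(D i : ℝ)
          else (g i : ℝ) * √(D i : ℝ)) := by
        intro i hi
        have hid : i ≠ d := fun h => hd (h ▸ hi)
        simp only [Finset.mem_insert, hid, false_or]
      rw [Finset.sum_congr rfl h3, hr]; ring
    rw [h1, h2, (hUV y).1, (hUV y).2]
    rw [map_sub, map_pow, map_mul, aeval_C, map_pow]
    simp only [algebraMap_int_eq, eq_intCast]
    have h4 : (((g d) ^ 2 * (D d : ℤ) : ℤ) : ℝ) = r ^ 2 := by
      rw [hr, mul_pow, Real.sq_sqrt (by positivity)]; push_cast; ring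
    rw [h4]; ring

open Classical in
/-- **Lower bound for integer combinations of square roots.** With `n = |S|` the exponent is
`2^(n-1) - 1`, because the conjugates come in pairs `±`. -/
theorem sqrt_sum_lower {ι : Type*} (D : ι → ℕ) (hD : ∀ i, Squarefree (D i))
    (hinj : Function.Injective D) (S : Finset ι) (g : ι → ℤ) {i0 : ι} (hi0 : i0 ∈ S)
    (hg : g i0 ≠ 0) (B : ℝ) (hB : ∑ i ∈ S, |(g i : ℝ)| * √(D i : ℝ) ≤ B) :
    1 ≤ |∑ i ∈ S, (g i : ℝ) * √(D i : ℝ)| * B ^ (2 ^ (S.card - 1) - 1) := by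
  obtain ⟨Q, hQ⟩ := exists_norm_poly D g S
  have h0 := hQ 0
  set F : Finset ι → ℝ := fun T =>
    ∑ i ∈ S, (if i ∈ T then -(g i : ℝ) * √(D i : ℝ) else (g i : ℝ) * √(D i : ℝ)) with hF
  have hF0 : F ∅ = ∑ i ∈ S, (g i : ℝ) * √(D i : ℝ) := by
    rw [hF]; simp
  have hprod : ∏ T ∈ S.powerset, F T = ((Q.coeff 0 : ℤ) : ℝ) := by
    rw [← Finset.prod_congr rfl (fun T _ => zero_add (F T)), h0, ← coeff_zero_eq_aeval_zero']
    simp
  have hne : ∀ T ∈ S.powerset, F T ≠ 0 := by
    intro T _
    have h1 : F T = ∑ i ∈ S, ((if i ∈ T then -(g i) else g i : ℤ) : ℝ) * √(D i : ℝ) := by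
      refine Finset.sum_congr rfl fun i _ => ?_
      split_ifs <;> push_cast <;> ring
    rw [h1]
    apply sum_sqrt_ne_zero D hD hinj S _ hi0
    split_ifs
    · exact neg_ne_zero.mpr hg
    · exact hg
  have hle : ∀ T : Finset ι, |F T| ≤ B := by
    intro T
    refine le_trans (Finset.abs_sum_le_sum_abs _ _) (le_trans (Finset.sum_le_sum fun i _ => ?_) hB)
    split_ifs
    · rw [abs_mul, abs_neg, abs_of_nonneg (Real.sqrt_nonneg _)]
    · rw [abs_mul, abs_of_nonneg (Real.sqrt_nonneg _)]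
  have h1 : 1 ≤ ∏ T ∈ S.powerset, |F T| := by
    rw [← Finset.abs_prod, hprod]
    have h2 : (Q.coeff 0 : ℤ) ≠ 0 := by
      intro h3
      rw [h3] at hprod
      have := Finset.prod_ne_zero_iff.mpr hne
      rw [hprod] at this
      simp at this
    have h3 : 1 ≤ |Q.coeff 0| := Int.one_le_abs h2
    exact_mod_cast h3
  -- split off the element `i0`
  set S' := S.erase i0 with hS'
  have hSS' : insert i0 S' = S := Finset.insert_erase hi0
  have hi0S' : i0 ∉ S' := Finset.notMem_erase i0 S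
  have hsplit : ∏ T ∈ S.powerset, |F T| =
      (∏ T ∈ S'.powerset, |F T|) * ∏ T ∈ S'.powerset, |F (insert i0 T)| := by
    rw [← hSS', Finset.prod_powerset_insert hi0S']
  have hcompl : ∏ T ∈ S'.powerset, |F (insert i0 T)| = ∏ T ∈ S'.powerset, |F T| := by
    apply Finset.prod_nbij' (fun T => S' \ T) (fun T => S' \ T)
    · intro T _; exact Finset.mem_powerset.mpr Finset.sdiff_subset
    · intro T _; exact Finset.mem_powerset.mpr Finset.sdiff_subset
    · intro T hT
      rw [Finset.sdiff_sdiff_eq_self (Finset.mem_powerset.mp hT)]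
    · intro T hT
      rw [Finset.sdiff_sdiff_eq_self (Finset.mem_powerset.mp hT)]
    · intro T hT
      have hTS := Finset.mem_powerset.mp hT
      have h5 : F (insert i0 T) = -F (S' \ T) := by
        rw [hF]
        simp only
        rw [← Finset.sum_neg_distrib]
        refine Finset.sum_congr rfl fun i hi => ?_
        by_cases h6 : i = i0
        · subst h6
          rw [if_pos (Finset.mem_insert_self _ _), if_neg (by
            intro h7; exact hi0S' (Finset.mem_sdiff.mp h7).1)]
          ring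
        · by_cases h7 : i ∈ T
          · rw [if_pos (Finset.mem_insert_of_mem h7), if_neg (by
              intro h8; exact (Finset.mem_sdiff.mp h8).2 h7)]
            ring
          · rw [if_neg (by rw [Finset.mem_insert]; tauto), if_pos (by
              rw [Finset.mem_sdiff, hS', Finset.mem_erase]; exact ⟨⟨h6, hi⟩, h7⟩)]
            ring
      rw [h5, abs_neg]
  rw [hsplit, hcompl] at h1
  have h2 : 1 ≤ ∏ T ∈ S'.powerset, |F T| := by
    have h3 : 0 ≤ ∏ T ∈ S'.powerset, |F T| := Finset.prod_nonneg fun _ _ => abs_nonneg _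
    by_contra h4
    push Not at h4
    have h5 : (∏ T ∈ S'.powerset, |F T|) * (∏ T ∈ S'.powerset, |F T|) < 1 := by nlinarith
    linarith
  rw [← Finset.mul_prod_erase _ _ (Finset.empty_mem_powerset S')] at h2
  have h3 : ∏ T ∈ S'.powerset.erase ∅, |F T| ≤ B ^ (2 ^ (S.card - 1) - 1) := by
    calc ∏ T ∈ S'.powerset.erase ∅, |F T| ≤ ∏ T ∈ S'.powerset.erase ∅, B :=
          Finset.prod_le_prod (fun _ _ => abs_nonneg _) (fun T _ => hle T)
      _ = B ^ (S'.powerset.erase ∅).card := by rw [Finset.prod_const]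
      _ = B ^ (2 ^ (S.card - 1) - 1) := by
          rw [Finset.card_erase_of_mem (Finset.empty_mem_powerset S'), Finset.card_powerset, hS',
            Finset.card_erase_of_mem hi0]
  rw [← hF0]
  exact le_trans h2 (mul_le_mul_of_nonneg_left h3 (abs_nonneg _))

end Run7.h770
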