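import Mathlib
import Pool.Agent.Run7.h770.SqrtNorm
import Pool.Agent.Run7.h770.Kernel

/-!
# The moment bound

Let `D : Fin k × Fin q → ℕ` be injective with squarefree values `≤ Z²`.  The number of integers `n`
in an interval of length `M` such that all the numbers `√(D (i, j)) n / L` stay at distance `≥ w`
from `c` modulo one is at most `(M + error) (4 (s+1)² H / q)^k` if
`2 (s+1) (1 / (4 w²))^(s+1) ≤ H^(2s+1)`.
-/

set_option autoImplicit false

open Finset

namespace Run7.h770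

/-- The index set of nonzero frequencies. -/
noncomputable def Ier (s H : ℕ) : Finset ℤ :=
  (Icc (-(((s + 1) * H : ℕ) : ℤ)) (((s + 1) * H : ℕ) : ℤ)).erase 0

theorem card_Ier (s H : ℕ) : (Ier s H).card = 2 * ((s + 1) * H) := by
  rw [Ier, Finset.card_erase_of_mem (by simp), Int.card_Icc]
  omega

theorem abs_le_of_mem_Ier {s H : ℕ} {h : ℤ} (hh : h ∈ Ier s H) : |(h : ℝ)| ≤ (s + 1) * H := by
  rw [Ier, mem_erase, mem_Icc] at hh
  have h1 : |h| ≤ (((s + 1) * H : ℕ) : ℤ) := abs_le.mpr hh.2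
  have h2 : ((|h| : ℤ) : ℝ) ≤ ((((s + 1) * H : ℕ) : ℤ) : ℝ) := by exact_mod_cast h1
  push_cast at h2
  exact h2

section
variable {k q : ℕ} (D : Fin k × Fin q → ℕ)

/-- The frequency attached to a choice of `(j, h)` in each group. -/
noncomputable def freq (u : Fin k → Fin q × ℤ) : ℝ :=
  ∑ i, ((u i).2 : ℝ) * √(D (i, (u i).1) : ℝ)

/-- The collected coefficients of a difference of two frequencies. -/
noncomputable def gcoef (u v : Fin k → Fin q × ℤ) (p : Fin k × Fin q) : ℤ :=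
  (if (u p.1).1 = p.2 then (u p.1).2 else 0) - (if (v p.1).1 = p.2 then (v p.1).2 else 0)

theorem freq_sub (u v : Fin k → Fin q × ℤ) :
    freq D u - freq D v = ∑ p : Fin k × Fin q, (gcoef u v p : ℝ) * √(D p : ℝ) := by
  rw [Fintype.sum_prod_type, freq, freq, ← Finset.sum_sub_distrib]
  refine Finset.sum_congr rfl fun i _ => ?_
  have h1 : ∀ j : Fin q, (gcoef u v (i, j) : ℝ) * √(D (i, j) : ℝ) =
      (if (u i).1 = j then ((u i).2 : ℝ) * √(D (i, j) : ℝ) else 0) -
      (if (v i).1 = j then ((v i).2 : ℝ) * √(D (i, j) : ℝ) else 0) := by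
    intro j
    rw [gcoef]
    split_ifs <;> push_cast <;> ring
  rw [Finset.sum_congr rfl fun j _ => h1 j, Finset.sum_sub_distrib, Finset.sum_ite_eq,
    Finset.sum_ite_eq]
  simp

theorem exists_gcoef_ne {s H : ℕ} {u v : Fin k → Fin q × ℤ} (hu : ∀ i, (u i).2 ∈ Ier s H)
    (huv : u ≠ v) : ∃ p, gcoef u v p ≠ 0 := by
  obtain ⟨i, hi⟩ := Function.ne_iff.mp huv
  refine ⟨(i, (u i).1), ?_⟩
  rw [gcoef]
  simp only [if_true]
  have h0 : (u i).2 ≠ 0 := by
    have := hu i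
    rw [Ier, mem_erase] at this
    exact this.1
  by_cases h1 : (v i).1 = (u i).1
  · rw [if_pos h1]
    intro h2
    apply hi
    exact Prod.ext h1.symm (by linarith)
  · rw [if_neg h1, sub_zero]; exact h0

theorem sum_abs_gcoef_le {s H : ℕ} {Z : ℝ} (hZ : ∀ p, √(D p : ℝ) ≤ Z) {u v : Fin k → Fin q × ℤ}
    (hu : ∀ i, (u i).2 ∈ Ier s H) (hv : ∀ i, (v i).2 ∈ Ier s H) :
    ∑ p : Fin k × Fin q, |(gcoef u v p : ℝ)| * √(D p : ℝ) ≤ 2 * k * ((s + 1) * H) * Z := by
  rw [Fintype.sum_prod_type]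
  set W : ℝ := (s + 1) * H with hW
  have hW0 : 0 ≤ W := by positivity
  have h1 : ∀ i : Fin k, ∑ j : Fin q, |(gcoef u v (i, j) : ℝ)| * √(D (i, j) : ℝ) ≤ 2 * W * Z := by
    intro i
    have hZ0 : 0 ≤ Z := le_trans (Real.sqrt_nonneg _) (hZ (i, (u i).1))
    have h2 : ∀ j : Fin q, |(gcoef u v (i, j) : ℝ)| * √(D (i, j) : ℝ) ≤
        (if (u i).1 = j then W * Z else 0) + (if (v i).1 = j then W * Z else 0) := by
      intro j
      have h3 : |(gcoef u v (i, j) : ℝ)| ≤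
          (if (u i).1 = j then W else 0) + (if (v i).1 = j then W else 0) := by
        rw [gcoef]
        push_cast
        refine le_trans (abs_sub _ _) (add_le_add ?_ ?_)
        · split_ifs
          · exact abs_le_of_mem_Ier (hu i)
          · simp
        · split_ifs
          · exact abs_le_of_mem_Ier (hv i)
          · simp
      calc |(gcoef u v (i, j) : ℝ)| * √(D (i, j) : ℝ) ≤
          ((if (u i).1 = j then W else 0) + (if (v i).1 = j then W else 0)) * Z :=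
            mul_le_mul h3 (hZ _) (Real.sqrt_nonneg _) (by split_ifs <;> positivity)
        _ = _ := by split_ifs <;> ring
    calc ∑ j : Fin q, |(gcoef u v (i, j) : ℝ)| * √(D (i, j) : ℝ) ≤
        ∑ j : Fin q, ((if (u i).1 = j then W * Z else 0) +
          (if (v i).1 = j then W * Z else 0)) := Finset.sum_le_sum fun j _ => h2 j
      _ = 2 * W * Z := by
        rw [Finset.sum_add_distrib, Finset.sum_ite_eq, Finset.sum_ite_eq]
        simp only [mem_univ, if_true]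
        ring
  calc ∑ i : Fin k, ∑ j : Fin q, |(gcoef u v (i, j) : ℝ)| * √(D (i, j) : ℝ) ≤
      ∑ i : Fin k, (2 * W * Z : ℝ) := Finset.sum_le_sum fun i _ => h1 i
    _ = 2 * k * W * Z := by
      rw [Finset.sum_const, card_univ, Fintype.card_fin, nsmul_eq_mul]; ring

theorem card_supp_le (u v : Fin k → Fin q × ℤ) :
    (univ.filter (fun p => gcoef u v p ≠ 0)).card ≤ 2 * k := by
  have h1 : univ.filter (fun p => gcoef u v p ≠ 0) ⊆
      (univ.image (fun i => (i, (u i).1))) ∪ (univ.image (fun i => (i, (v i).1))) := by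
    rintro ⟨i, j⟩ hp
    rw [mem_filter] at hp
    rw [mem_union, mem_image, mem_image]
    by_contra h
    push Not at h
    obtain ⟨h1, h2⟩ := h
    apply hp.2
    rw [gcoef]
    simp only
    rw [if_neg, if_neg, sub_zero]
    · intro h3
      exact h2 i (mem_univ _) (by rw [h3])
    · intro h3
      exact h1 i (mem_univ _) (by rw [h3])
  calc _ ≤ _ := Finset.card_le_card h1
    _ ≤ _ := Finset.card_union_le _ _
    _ ≤ k + k := by
      apply add_le_add
      · refine le_trans Finset.card_image_le ?_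
        rw [card_univ, Fintype.card_fin]
      · refine le_trans Finset.card_image_le ?_
        rw [card_univ, Fintype.card_fin]
    _ = 2 * k := by ring

/-- Spacing of the frequencies. -/
theorem freq_spacing (hD : ∀ p, Squarefree (D p)) (hinj : Function.Injective D) {s H : ℕ} {Z B : ℝ}
    (hZ : ∀ p, √(D p : ℝ) ≤ Z) (hB1 : 1 ≤ B) (hB : 2 * k * ((s + 1) * H) * Z ≤ B)
    {u v : Fin k → Fin q × ℤ} (hu : ∀ i, (u i).2 ∈ Ier s H) (hv : ∀ i, (v i).2 ∈ Ier s H)
    (huv : u ≠ v) : 1 ≤ |freq D u - freq D v| * B ^ (2 ^ (2 * k - 1) - 1) := by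
  obtain ⟨p, hp⟩ := exists_gcoef_ne hu huv
  set S := univ.filter (fun p => gcoef u v p ≠ 0) with hS
  have h1 : freq D u - freq D v = ∑ p ∈ S, (gcoef u v p : ℝ) * √(D p : ℝ) := by
    rw [freq_sub]
    symm
    apply Finset.sum_subset (Finset.subset_univ _)
    intro p _ hp
    rw [hS, mem_filter] at hp
    push Not at hp
    rw [hp (mem_univ _)]
    simp
  have h2 : ∑ p ∈ S, |(gcoef u v p : ℝ)| * √(D p : ℝ) ≤ B := by
    refine le_trans ?_ (le_trans (sum_abs_gcoef_le D hZ hu hv) hB)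
    apply Finset.sum_le_sum_of_subset_of_nonneg (Finset.subset_univ _)
    intro i _ _
    positivity
  have h3 := sqrt_sum_lower D hD hinj S (gcoef u v) (i0 := p) (by
    rw [hS, mem_filter]; exact ⟨mem_univ _, hp⟩) hp B h2
  rw [← h1] at h3
  refine le_trans h3 (mul_le_mul_of_nonneg_left ?_ (abs_nonneg _))
  apply pow_le_pow_right₀ hB1
  apply Nat.sub_le_sub_right
  apply Nat.pow_le_pow_right (by norm_num)
  exact Nat.sub_le_sub_right (card_supp_le u v) 1

theorem freq_diff_le {s H : ℕ} {Z B : ℝ}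
    (hZ : ∀ p, √(D p : ℝ) ≤ Z) (hB : 2 * k * ((s + 1) * H) * Z ≤ B)
    {u v : Fin k → Fin q × ℤ} (hu : ∀ i, (u i).2 ∈ Ier s H) (hv : ∀ i, (v i).2 ∈ Ier s H) :
    |freq D u - freq D v| ≤ B := by
  rw [freq_sub]
  refine le_trans (Finset.abs_sum_le_sum_abs _ _) (le_trans ?_ hB)
  refine le_trans (le_of_eq ?_) (sum_abs_gcoef_le D hZ hu hv)
  refine Finset.sum_congr rfl fun p _ => ?_
  rw [abs_mul, abs_of_nonneg (Real.sqrt_nonneg _)]

/-- One group of the exponential sum. -/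
noncomputable def TT (s H : ℕ) (L c : ℝ) (i : Fin k) (n : ℝ) : ℂ :=
  ∑ p ∈ (univ : Finset (Fin q)) ×ˢ Ier s H,
    (cK s H p.2 : ℂ) * e (p.2 * (√(D (i, p.1) : ℝ) * n / L - c))

/-- The product of the groups, expanded. -/
theorem prod_TT (s H : ℕ) (L c : ℝ) (n : ℝ) :
    ∏ i, TT D s H L c i n =
      ∑ u ∈ Fintype.piFinset (fun _ : Fin k => (univ : Finset (Fin q)) ×ˢ Ier s H),
      (∏ i, ((cK s H (u i).2 : ℂ) * e (-((u i).2 * c)))) * e (freq D u / L * n) := by
  simp only [TT]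
  rw [Finset.prod_univ_sum]
  refine Finset.sum_congr rfl fun u _ => ?_
  have h1 : e (freq D u / L * n) = ∏ i, e ((u i).2 * √(D (i, (u i).1) : ℝ) / L * n) := by
    have h2 : ∀ (S : Finset (Fin k)) (f : Fin k → ℝ), e (∑ i ∈ S, f i) = ∏ i ∈ S, e (f i) := by
      intro S f
      induction S using Finset.induction_on with
      | empty => simp
      | insert a S ha ih => rw [Finset.sum_insert ha, Finset.prod_insert ha, e_add, ih]
    rw [← h2]
    congr 1
    rw [freq, Finset.sum_div, Finset.sum_mul]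
  rw [h1, ← Finset.prod_mul_distrib]
  refine Finset.prod_congr rfl fun i _ => ?_
  rw [mul_assoc, ← e_add]
  congr 2
  ring

/-- Relation of `TT` to the kernel. -/
theorem TT_eq (s H : ℕ) (L c : ℝ) (i : Fin k) (n : ℝ) :
    TT D s H L c i n =
      ((∑ j : Fin q, ‖PP H (√(D (i, j) : ℝ) * n / L - c)‖ ^ (2 * (s + 1)) : ℝ) : ℂ) -
      (q : ℂ) * (cK s H 0 : ℂ) := by
  rw [TT, Finset.sum_product]
  push_cast
  have h1 : ∀ j : Fin q, ∑ h ∈ Ier s H, (cK s H h : ℂ) * e (h * (√(D (i, j) : ℝ) * n / L - c)) =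
      ((‖PP H (√(D (i, j) : ℝ) * n / L - c)‖ ^ (2 * (s + 1)) : ℝ) : ℂ) - (cK s H 0 : ℂ) := by
    intro j
    rw [norm_PP_pow, Ier, ← Finset.add_sum_erase _ _
      (show (0 : ℤ) ∈ Icc (-(((s + 1) * H : ℕ) : ℤ)) (((s + 1) * H : ℕ) : ℤ) by simp)]
    simp
  rw [Finset.sum_congr rfl fun j _ => h1 j, Finset.sum_sub_distrib, Finset.sum_const, card_univ,
    Fintype.card_fin, nsmul_eq_mul]
  push_cast
  rfl

/-- On a bad point each group is large. -/
theorem TT_large (s H : ℕ) (hH : 0 < H) (L c w : ℝ) (hw : 0 < w)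
    (hHw : 2 * (s + 1) * (1 / (4 * w ^ 2)) ^ (s + 1) ≤ (H : ℝ) ^ (2 * s + 1))
    (i : Fin k) (n : ℝ)
    (hbad : ∀ j : Fin q, w ≤ |√(D (i, j) : ℝ) * n / L - c - round (√(D (i, j) : ℝ) * n / L - c)|) :
    q * (H : ℝ) ^ (2 * s + 1) / (2 * (s + 1)) ≤ ‖TT D s H L c i n‖ := by
  rw [TT_eq]
  have hs0 : (0 : ℝ) < 2 * (s + 1) := by positivity
  have h1 : ∑ j : Fin q, ‖PP H (√(D (i, j) : ℝ) * n / L - c)‖ ^ (2 * (s + 1)) ≤
      q * ((H : ℝ) ^ (2 * s + 1) / (2 * (s + 1))) := by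
    calc ∑ j : Fin q, ‖PP H (√(D (i, j) : ℝ) * n / L - c)‖ ^ (2 * (s + 1)) ≤
        ∑ j : Fin q, ((H : ℝ) ^ (2 * s + 1) / (2 * (s + 1))) := by
          refine Finset.sum_le_sum fun j _ => ?_
          refine le_trans (norm_PP_le s H _ w hw (hbad j)) ?_
          rw [le_div_iff₀ hs0]
          linarith
      _ = q * ((H : ℝ) ^ (2 * s + 1) / (2 * (s + 1))) := by
          rw [Finset.sum_const, card_univ, Fintype.card_fin, nsmul_eq_mul]
  have h2 : q * ((H : ℝ) ^ (2 * s + 1) / (s + 1)) ≤ q * (cK s H 0 : ℝ) := by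
    apply mul_le_mul_of_nonneg_left _ (by positivity)
    have h3 : ((H ^ (2 * s + 1) : ℕ) : ℝ) ≤ (((s + 1) * cK s H 0 : ℕ) : ℝ) := by
      exact_mod_cast le_cK_zero s H hH
    push_cast at h3
    rw [div_le_iff₀ (by positivity)]
    linarith
  have h3 : ((∑ j : Fin q, ‖PP H (√(D (i, j) : ℝ) * n / L - c)‖ ^ (2 * (s + 1)) : ℝ) : ℂ) -
      (q : ℂ) * (cK s H 0 : ℂ) =
      ((∑ j : Fin q, ‖PP H (√(D (i, j) : ℝ) * n / L - c)‖ ^ (2 * (s + 1)) -
      q * (cK s H 0 : ℝ) : ℝ) : ℂ) := by push_cast; ring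
  rw [h3, Complex.norm_real, Real.norm_eq_abs, le_abs]
  right
  have h4 : q * ((H : ℝ) ^ (2 * s + 1) / (s + 1)) =
      q * ((H : ℝ) ^ (2 * s + 1) / (2 * (s + 1))) + q * ((H : ℝ) ^ (2 * s + 1) / (2 * (s + 1))) := by
    field_simp
    ring
  have h5 : q * (H : ℝ) ^ (2 * s + 1) / (2 * (s + 1)) =
      q * ((H : ℝ) ^ (2 * s + 1) / (2 * (s + 1))) := by ring
  linarith

end

/-- **The moment bound.** -/
theorem moment_bound {k q : ℕ} (D : Fin k × Fin q → ℕ) (hD : ∀ p, Squarefree (D p))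
    (hinj : Function.Injective D) {s H : ℕ} (hH : 0 < H) {Z B L c w : ℝ}
    (hZ : ∀ p, √(D p : ℝ) ≤ Z) (hB1 : 1 ≤ B) (hB : 2 * k * ((s + 1) * H) * Z ≤ B)
    (hL : 2 * B ≤ L) (hw : 0 < w)
    (hHw : 2 * (s + 1) * (1 / (4 * w ^ 2)) ^ (s + 1) ≤ (H : ℝ) ^ (2 * s + 1))
    (n0 M : ℕ) (bad : Finset ℕ)
    (hbad : ∀ n ∈ bad, n < M ∧ ∀ i j, w ≤ |√(D (i, j) : ℝ) * ((n : ℝ) + n0) / L - c -
      round (√(D (i, j) : ℝ) * ((n : ℝ) + n0) / L - c)|) :
    (bad.card : ℝ) * (q : ℝ) ^ k ≤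
      (M + (2 * (s + 1) * H * q) ^ k * L * B ^ (2 ^ (2 * k - 1) - 1)) *
        (4 * (s + 1) ^ 2 * H) ^ k := by
  classical
  have hL0 : 0 < L := by linarith
  set U := Fintype.piFinset (fun _ : Fin k => (univ : Finset (Fin q)) ×ˢ Ier s H) with hU
  set A : (Fin k → Fin q × ℤ) → ℂ := fun u => ∏ i, ((cK s H (u i).2 : ℂ) * e (-((u i).2 * c)))
    with hA
  set Bp : ℝ := B ^ (2 ^ (2 * k - 1) - 1) with hBpdef
  set δ : ℝ := 1 / (L * Bp) with hδ
  have hBp : 0 < Bp := by positivity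
  have hδ0 : 0 < δ := by positivity
  have hmem : ∀ u ∈ U, ∀ i, (u i).2 ∈ Ier s H := by
    intro u hu i
    rw [hU, Fintype.mem_piFinset] at hu
    exact (Finset.mem_product.mp (hu i)).2
  have horth := quasi_orth U A (fun u => freq D u / L) δ hδ0 (by
    intro u hu v hv huv
    rw [← sub_div, abs_div, abs_of_pos hL0]
    have h1 := freq_spacing D hD hinj hZ hB1 hB (hmem u hu) (hmem v hv) huv
    rw [hδ, div_le_div_iff₀ (by positivity) hL0]
    nlinarith) (by
    intro u hu v hv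
    rw [← sub_div, abs_div, abs_of_pos hL0, div_le_iff₀ hL0]
    have h1 := freq_diff_le D hZ hB (hmem u hu) (hmem v hv)
    linarith) n0 M
  -- the coefficients
  have hAsq : ∑ u ∈ U, ‖A u‖ ^ 2 ≤ (q * (H : ℝ) ^ (4 * s + 3)) ^ k := by
    have h1 : ∀ u ∈ U, ‖A u‖ ^ 2 = ∏ i, ((cK s H (u i).2 : ℝ)) ^ 2 := by
      intro u _
      rw [hA, norm_prod, ← Finset.prod_pow]
      refine Finset.prod_congr rfl fun i _ => ?_
      rw [norm_mul, norm_e, mul_one, Complex.norm_natCast]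
    rw [Finset.sum_congr rfl h1, hU]
    have h2 := Finset.prod_univ_sum (fun _ : Fin k => (univ : Finset (Fin q)) ×ˢ Ier s H)
      (fun (_ : Fin k) (p : Fin q × ℤ) => ((cK s H p.2 : ℝ)) ^ 2)
    rw [← h2, Finset.prod_const, card_univ, Fintype.card_fin]
    apply pow_le_pow_left₀ (Finset.sum_nonneg fun _ _ => by positivity)
    rw [Finset.sum_product]
    calc ∑ x : Fin q, ∑ y ∈ Ier s H, ((cK s H y : ℝ)) ^ 2 ≤
          ∑ x : Fin q, (H : ℝ) ^ (4 * s + 3) :=
          Finset.sum_le_sum fun _ _ => sum_cK_sq s H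
      _ = q * (H : ℝ) ^ (4 * s + 3) := by
          rw [Finset.sum_const, card_univ, Fintype.card_fin, nsmul_eq_mul]
  have hcardU : (U.card : ℝ) = (2 * (s + 1) * H * q) ^ k := by
    rw [hU, Fintype.card_piFinset]
    simp only [card_product, card_univ, Fintype.card_fin, card_Ier, Finset.prod_const]
    push_cast
    ring
  -- lower bound
  set E : ℝ := q * (H : ℝ) ^ (2 * s + 1) / (2 * (s + 1)) with hE
  have hE0 : 0 ≤ E := by positivity
  have hlow : (bad.card : ℝ) * (E ^ 2) ^ k ≤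
      ∑ j ∈ range M, ‖∑ u ∈ U, A u * e (freq D u / L * (j + n0))‖ ^ 2 := by
    have hsub : bad ⊆ range M := fun n hn => mem_range.mpr (hbad n hn).1
    calc (bad.card : ℝ) * (E ^ 2) ^ k
        = ∑ n ∈ bad, (E ^ 2) ^ k := by
          rw [Finset.sum_const, nsmul_eq_mul]
      _ ≤ ∑ n ∈ bad, ‖∑ u ∈ U, A u * e (freq D u / L * (n + n0))‖ ^ 2 := by
          refine Finset.sum_le_sum fun n hn => ?_
          rw [← prod_TT, norm_prod, ← Finset.prod_pow]
          have h1 : (E ^ 2) ^ k = ∏ i : Fin k, (E ^ 2) := by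
            rw [Finset.prod_const, card_univ, Fintype.card_fin]
          rw [h1]
          apply Finset.prod_le_prod (fun _ _ => by positivity)
          intro i _
          apply pow_le_pow_left₀ hE0
          exact TT_large D s H hH L c w hw hHw i _ ((hbad n hn).2 i)
      _ ≤ ∑ j ∈ range M, ‖∑ u ∈ U, A u * e (freq D u / L * (j + n0))‖ ^ 2 :=
          Finset.sum_le_sum_of_subset_of_nonneg hsub (fun _ _ _ => by positivity)
  have hδ2 : (U.card : ℝ) / (2 * δ) ≤ (2 * (s + 1) * H * q) ^ k * L * Bp := by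
    rw [hcardU, hδ]
    have h1 : (2 * ((s:ℝ) + 1) * H * q) ^ k / (2 * (1 / (L * Bp))) =
        ((2 * (s + 1) * H * q) ^ k * L * Bp) / 2 := by
      field_simp
    rw [h1]
    have : 0 ≤ (2 * ((s:ℝ) + 1) * H * q) ^ k * L * Bp := by positivity
    linarith
  have hmain : (bad.card : ℝ) * (E ^ 2) ^ k ≤
      (M + (2 * (s + 1) * H * q) ^ k * L * Bp) * (q * (H : ℝ) ^ (4 * s + 3)) ^ k := by
    refine le_trans hlow (le_trans horth ?_)
    apply mul_le_mul _ hAsq (Finset.sum_nonneg fun _ _ => by positivity) (by positivity)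
    linarith
  rcases Nat.eq_zero_or_pos q with h0 | hq
  · rcases Nat.eq_zero_or_pos k with hk | hk
    · subst hk
      simpa using hmain
    · have : (q : ℝ) ^ k = 0 := by
        rw [h0, Nat.cast_zero, zero_pow hk.ne']
      rw [this, mul_zero]
      positivity
  have hHr : (0 : ℝ) < H := by exact_mod_cast hH
  have hqr : (0 : ℝ) < q := by exact_mod_cast hq
  have hsr : (0 : ℝ) < (s : ℝ) + 1 := by positivity
  -- divide by `(q H^(4s+2) / (4 (s+1)^2))^k`
  set W : ℝ := q * (H : ℝ) ^ (4 * s + 2) / (4 * (s + 1) ^ 2) with hW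
  have hW0 : 0 < W := by positivity
  have e1 : (E ^ 2) ^ k = (q : ℝ) ^ k * W ^ k := by
    rw [← mul_pow]; congr 1
    rw [hE, hW, div_pow, mul_pow, ← pow_mul]
    have : (H : ℝ) ^ ((2 * s + 1) * 2) = (H : ℝ) ^ (4 * s + 2) := by congr 1; ring
    rw [this]
    field_simp
    ring
  have e2 : (q * (H : ℝ) ^ (4 * s + 3)) ^ k = (4 * (s + 1) ^ 2 * H) ^ k * W ^ k := by
    rw [← mul_pow]; congr 1
    rw [hW]
    have : (H : ℝ) ^ (4 * s + 3) = (H : ℝ) ^ (4 * s + 2) * H := by rw [← pow_succ]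
    rw [this]
    field_simp
  rw [e1, e2, ← mul_assoc, ← mul_assoc] at hmain
  exact le_of_mul_le_mul_right hmain (by positivity)

end Run7.h770
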