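import Mathlib
import Pool.Agent.R481.S2.Divisor

/-!
# Many squarefree sums of two squares

For every `ε > 0` there are at least `c Z^(1-ε)` squarefree numbers `≤ Z` that are sums of two
squares.
-/

set_option autoImplicit false

open Finset

namespace Run7.h770

open Classical in
/-- Squarefree sums of two squares up to `Z`. -/
noncomputable def NN (Z : ℕ) : Finset ℕ :=
  (Icc 1 Z).filter (fun n => Squarefree n ∧ ∃ a b : ℕ, n = a ^ 2 + b ^ 2)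

/-- The squarefree part of a sum of two squares is a sum of two squares. -/
theorem squarefree_part {n : ℕ} (hn : 0 < n) (h : ∃ a b : ℕ, n = a ^ 2 + b ^ 2) :
    ∃ D f : ℕ, n = D * f ^ 2 ∧ Squarefree D ∧ ∃ a b : ℕ, D = a ^ 2 + b ^ 2 := by
  obtain ⟨x, y, hxy⟩ := h
  obtain ⟨a, b, hab, hsq⟩ := Nat.eq_sq_add_sq_iff_eq_sq_mul.mp ⟨x, y, hxy⟩
  obtain ⟨D, f, hf, hD⟩ := Nat.sq_mul_squarefree b
  have hb : 0 < b := by
    rcases Nat.eq_zero_or_pos b with h | h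
    · rw [h] at hab; omega
    · exact h
  refine ⟨D, a * f, ?_, hD, ?_⟩
  · rw [hab, ← hf]; ring
  · have h1 : D ∣ b := ⟨f ^ 2, by rw [← hf]; ring⟩
    have h2 := ZMod.isSquare_neg_one_of_dvd h1 hsq
    obtain ⟨u, v, huv⟩ := Nat.eq_sq_add_sq_of_isSquare_mod_neg_one h2
    exact ⟨u, v, huv⟩

/-- Solutions of `d² - b² = m` number at most `d(m)`. -/
theorem card_diff_sq_le (Y m : ℕ) (hm : 0 < m) :
    ((Icc 1 Y ×ˢ Icc 1 Y).filter (fun p : ℕ × ℕ => p.2 ^ 2 = p.1 ^ 2 + m)).card ≤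
      m.divisors.card := by
  apply Finset.card_le_card_of_injOn (fun p => p.2 - p.1)
  · intro p hp
    simp only [coe_filter, mem_product, mem_Icc, Set.mem_ofPred_eq] at hp
    obtain ⟨-, h2⟩ := hp
    have h3 : p.1 < p.2 := by
      by_contra h
      have := Nat.pow_le_pow_left (not_lt.mp h) 2
      omega
    simp only [mem_coe, Nat.mem_divisors]
    refine ⟨⟨p.2 + p.1, ?_⟩, hm.ne'⟩
    have h4 : (p.2 - p.1) * (p.2 + p.1) = p.2 ^ 2 - p.1 ^ 2 := by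
      rw [Nat.sq_sub_sq, mul_comm]
    rw [h4]; omega
  · rintro ⟨b, d⟩ hp ⟨b', d'⟩ hp' heq
    simp only [coe_filter, mem_product, mem_Icc, Set.mem_ofPred_eq] at hp hp' heq
    obtain ⟨-, h2⟩ := hp
    obtain ⟨-, h2'⟩ := hp'
    have h3 : b < d := by
      by_contra h
      have := Nat.pow_le_pow_left (not_lt.mp h) 2
      omega
    have h3' : b' < d' := by
      by_contra h
      have := Nat.pow_le_pow_left (not_lt.mp h) 2
      omega
    obtain ⟨u, rfl⟩ : ∃ u, d = b + u := ⟨d - b, by omega⟩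
    have h5 : d' = b' + u := by omega
    subst h5
    have hu : 0 < u := by omega
    have h6 : u * (2 * b + u) = m := by nlinarith
    have h7 : u * (2 * b' + u) = m := by nlinarith
    have h8 : 2 * b + u = 2 * b' + u := Nat.eq_of_mul_eq_mul_left hu (by rw [h6, h7])
    have h9 : b = b' := by omega
    subst h9
    rfl

/-- Number of quadruples `a² + b² = c² + d²`, via the divisor bound. -/
theorem energy_le (Y : ℕ) (T : ℝ) (hT : 0 ≤ T)
    (hdiv : ∀ m : ℕ, 0 < m → m ≤ Y ^ 2 → (m.divisors.card : ℝ) ≤ T) :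
    ((((Icc 1 Y ×ˢ Icc 1 Y) ×ˢ (Icc 1 Y ×ˢ Icc 1 Y)).filter
      (fun x : (ℕ × ℕ) × (ℕ × ℕ) => x.1.1 ^ 2 + x.1.2 ^ 2 = x.2.1 ^ 2 + x.2.2 ^ 2)).card : ℝ) ≤
      (Y : ℝ) ^ 2 * (1 + T) := by
  classical
  set I := Icc 1 Y with hI
  -- reorganise by `(a, c)`
  have h1 : (((I ×ˢ I) ×ˢ (I ×ˢ I)).filter
      (fun x : (ℕ × ℕ) × (ℕ × ℕ) => x.1.1 ^ 2 + x.1.2 ^ 2 = x.2.1 ^ 2 + x.2.2 ^ 2)).card =
      ∑ a ∈ I, ∑ c ∈ I, ((I ×ˢ I).filter
        (fun p : ℕ × ℕ => a ^ 2 + p.1 ^ 2 = c ^ 2 + p.2 ^ 2)).card := by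
    rw [← Finset.sum_product' I I (fun a c => ((I ×ˢ I).filter
        (fun p : ℕ × ℕ => a ^ 2 + p.1 ^ 2 = c ^ 2 + p.2 ^ 2)).card)]
    rw [Finset.card_eq_sum_card_fiberwise (f := fun x => (x.1.1, x.2.1)) (t := I ×ˢ I)]
    · refine Finset.sum_congr rfl fun ac hac => ?_
      obtain ⟨a, c⟩ := ac
      apply Finset.card_bij (fun x _ => (x.1.2, x.2.2))
      · rintro ⟨⟨a', b⟩, ⟨c', d⟩⟩ hx
        simp only [mem_filter, mem_product, Prod.mk.injEq] at hx ⊢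
        obtain ⟨⟨⟨⟨h1, h2⟩, h3, h4⟩, h5⟩, h6, h7⟩ := hx
        subst h6 h7
        exact ⟨⟨h2, h4⟩, h5⟩
      · rintro ⟨⟨a', b⟩, ⟨c', d⟩⟩ hx ⟨⟨a'', b'⟩, ⟨c'', d'⟩⟩ hx' h
        simp only [mem_filter, mem_product, Prod.mk.injEq] at hx hx' h ⊢
        obtain ⟨-, h6, h7⟩ := hx
        obtain ⟨-, h6', h7'⟩ := hx'
        subst h6 h7
        exact ⟨⟨h6'.symm, h.1⟩, h7'.symm, h.2⟩
      · rintro ⟨b, d⟩ hx
        simp only [mem_filter, mem_product] at hx hac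
        refine ⟨((a, b), (c, d)), ?_, rfl⟩
        simp only [mem_filter, mem_product, and_true]
        exact ⟨⟨⟨hac.1, hx.1.1⟩, hac.2, hx.1.2⟩, hx.2⟩
    · intro x hx
      simp only [coe_filter, mem_product, Set.mem_ofPred_eq] at hx
      simp only [coe_product, Set.mem_prod, mem_coe]
      exact ⟨hx.1.1.1, hx.1.2.1⟩
  have hb : ∀ a ∈ I, ∀ c ∈ I, (((I ×ˢ I).filter
        (fun p : ℕ × ℕ => a ^ 2 + p.1 ^ 2 = c ^ 2 + p.2 ^ 2)).card : ℝ) ≤
        (if a = c then (Y : ℝ) else 0) + T := by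
    intro a ha c hc
    rw [hI, mem_Icc] at ha hc
    rcases lt_trichotomy a c with hac | hac | hac
    · rw [if_neg hac.ne, zero_add]
      have h2 : 0 < c ^ 2 - a ^ 2 := Nat.sub_pos_of_lt (Nat.pow_lt_pow_left hac (by norm_num))
      have h3 : c ^ 2 - a ^ 2 ≤ Y ^ 2 := le_trans (Nat.sub_le _ _) (Nat.pow_le_pow_left hc.2 2)
      refine le_trans ?_ (hdiv _ h2 h3)
      have h4 : ((I ×ˢ I).filter
        (fun p : ℕ × ℕ => a ^ 2 + p.1 ^ 2 = c ^ 2 + p.2 ^ 2)).card ≤ ((I ×ˢ I).filter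
        (fun p : ℕ × ℕ => p.2 ^ 2 = p.1 ^ 2 + (c ^ 2 - a ^ 2))).card := by
        apply Finset.card_le_card_of_injOn (fun p => (p.2, p.1))
        · rintro ⟨b, d⟩ hp
          simp only [coe_filter, mem_product, Set.mem_ofPred_eq] at hp ⊢
          refine ⟨⟨hp.1.2, hp.1.1⟩, ?_⟩
          have := Nat.pow_lt_pow_left hac (n := 2) (by norm_num)
          omega
        · rintro ⟨b, d⟩ _ ⟨b', d'⟩ _ h
          simp only [Prod.mk.injEq] at h ⊢
          exact ⟨h.2, h.1⟩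
      exact_mod_cast le_trans h4 (card_diff_sq_le Y _ h2)
    · subst hac
      rw [if_pos rfl]
      have h2 : ((I ×ˢ I).filter
        (fun p : ℕ × ℕ => a ^ 2 + p.1 ^ 2 = a ^ 2 + p.2 ^ 2)).card ≤ Y := by
        calc _ ≤ I.card := by
              apply Finset.card_le_card_of_injOn (fun p => p.1)
              · rintro ⟨b, d⟩ hp
                simp only [coe_filter, mem_product, Set.mem_ofPred_eq] at hp
                exact hp.1.1
              · rintro ⟨b, d⟩ hp ⟨b', d'⟩ hp' h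
                simp only [coe_filter, mem_product, Set.mem_ofPred_eq, Nat.add_left_cancel_iff] at hp hp' h
                have h3 := hp.2
                have h4 := hp'.2
                rw [Nat.pow_left_injective (n := 2) (by norm_num) |>.eq_iff] at h3 h4
                simp only [Prod.mk.injEq]
                omega
          _ = Y := by rw [hI, Nat.card_Icc]; omega
      have h3 : (((I ×ˢ I).filter
        (fun p : ℕ × ℕ => a ^ 2 + p.1 ^ 2 = a ^ 2 + p.2 ^ 2)).card : ℝ) ≤ Y := by exact_mod_cast h2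
      linarith
    · rw [if_neg hac.ne', zero_add]
      have h2 : 0 < a ^ 2 - c ^ 2 := Nat.sub_pos_of_lt (Nat.pow_lt_pow_left hac (by norm_num))
      have h3 : a ^ 2 - c ^ 2 ≤ Y ^ 2 := le_trans (Nat.sub_le _ _) (Nat.pow_le_pow_left ha.2 2)
      refine le_trans ?_ (hdiv _ h2 h3)
      have h4 : ((I ×ˢ I).filter
        (fun p : ℕ × ℕ => a ^ 2 + p.1 ^ 2 = c ^ 2 + p.2 ^ 2)).card ≤ ((I ×ˢ I).filter
        (fun p : ℕ × ℕ => p.2 ^ 2 = p.1 ^ 2 + (a ^ 2 - c ^ 2))).card := by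
        apply Finset.card_le_card
        rintro ⟨b, d⟩ hp
        simp only [mem_filter, mem_product] at hp ⊢
        refine ⟨hp.1, ?_⟩
        have := Nat.pow_lt_pow_left hac (n := 2) (by norm_num)
        omega
      exact_mod_cast le_trans h4 (card_diff_sq_le Y _ h2)
  rw [h1]
  push_cast
  calc ∑ a ∈ I, ∑ c ∈ I, (((I ×ˢ I).filter
        (fun p : ℕ × ℕ => a ^ 2 + p.1 ^ 2 = c ^ 2 + p.2 ^ 2)).card : ℝ)
      ≤ ∑ a ∈ I, ∑ c ∈ I, ((if a = c then (Y : ℝ) else 0) + T) :=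
        Finset.sum_le_sum fun a ha => Finset.sum_le_sum fun c hc => hb a ha c hc
    _ = ∑ a ∈ I, ((Y : ℝ) + Y * T) := by
        refine Finset.sum_congr rfl fun a ha => ?_
        rw [Finset.sum_add_distrib, Finset.sum_ite_eq, if_pos ha, Finset.sum_const, hI,
          Nat.card_Icc, nsmul_eq_mul]
        simp
    _ = (Y : ℝ) ^ 2 * (1 + T) := by
        rw [Finset.sum_const, hI, Nat.card_Icc, nsmul_eq_mul]
        simp only [Nat.add_sub_cancel]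
        ring

/-- Many distinct sums of two squares. -/
theorem card_sums_ge (Y : ℕ) (T : ℝ) (hT : 0 ≤ T)
    (hdiv : ∀ m : ℕ, 0 < m → m ≤ Y ^ 2 → (m.divisors.card : ℝ) ≤ T) :
    (Y : ℝ) ^ 2 ≤ (((Icc 1 Y ×ˢ Icc 1 Y).image (fun p : ℕ × ℕ => p.1 ^ 2 + p.2 ^ 2)).card : ℝ) *
      (1 + T) := by
  classical
  rcases Nat.eq_zero_or_pos Y with h0 | hY
  · subst h0; simp
  set P := Icc 1 Y ×ˢ Icc 1 Y with hP
  set f : ℕ × ℕ → ℕ := fun p => p.1 ^ 2 + p.2 ^ 2 with hf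
  set V := P.image f with hV
  have h1 : ∑ n ∈ V, ((P.filter (fun p => f p = n)).card : ℝ) = (Y : ℝ) ^ 2 := by
    have h2 := Finset.card_eq_sum_card_fiberwise (s := P) (t := V) (f := f)
      (fun x hx => Finset.mem_image_of_mem f hx)
    have h3 : P.card = Y ^ 2 := by
      rw [hP, card_product, Nat.card_Icc, Nat.add_sub_cancel, pow_two]
    rw [h3] at h2
    exact_mod_cast h2.symm
  have h2 : ∑ n ∈ V, ((P.filter (fun p => f p = n)).card : ℝ) ^ 2 =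
      (((P ×ˢ P).filter (fun x : (ℕ × ℕ) × (ℕ × ℕ) => f x.1 = f x.2)).card : ℝ) := by
    rw [Finset.card_eq_sum_card_fiberwise (f := fun x => f x.1) (t := V)]
    · push_cast
      refine Finset.sum_congr rfl fun n _ => ?_
      rw [pow_two, ← Nat.cast_mul, ← card_product]
      congr 2
      ext ⟨p, p'⟩
      simp only [mem_filter, mem_product]
      constructor
      · rintro ⟨⟨h3, h4⟩, h5, h6⟩
        exact ⟨⟨⟨h3, h5⟩, by rw [h4, h6]⟩, h4⟩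
      · rintro ⟨⟨⟨h3, h5⟩, h6⟩, h4⟩
        exact ⟨⟨h3, h4⟩, h5, by rw [← h6, h4]⟩
    · intro x hx
      simp only [coe_filter, mem_product, Set.mem_ofPred_eq] at hx
      exact Finset.mem_image_of_mem f hx.1.1
  have h3 : (∑ n ∈ V, ((P.filter (fun p => f p = n)).card : ℝ)) ^ 2 ≤
      (V.card : ℝ) * ∑ n ∈ V, ((P.filter (fun p => f p = n)).card : ℝ) ^ 2 :=
    sq_sum_le_card_mul_sum_sq
  rw [h1, h2] at h3
  have h4 := energy_le Y T hT hdiv
  have hYr : (0 : ℝ) < (Y : ℝ) ^ 2 := by positivity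
  have h5 : (Y : ℝ) ^ 2 * (Y : ℝ) ^ 2 ≤ (Y : ℝ) ^ 2 * ((V.card : ℝ) * (1 + T)) := by
    calc (Y : ℝ) ^ 2 * (Y : ℝ) ^ 2 = ((Y : ℝ) ^ 2) ^ 2 := by ring
      _ ≤ (V.card : ℝ) * (((P ×ˢ P).filter (fun x : (ℕ × ℕ) × (ℕ × ℕ) => f x.1 = f x.2)).card : ℝ) := h3
      _ ≤ (V.card : ℝ) * ((Y : ℝ) ^ 2 * (1 + T)) := mul_le_mul_of_nonneg_left h4 (by positivity)
      _ = _ := by ring
  exact le_of_mul_le_mul_left h5 hYr

/-- Passing to squarefree parts. -/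
theorem card_sums_le (Z Y : ℕ) (hYZ : 2 * Y ^ 2 ≤ Z) :
    (((Icc 1 Y ×ˢ Icc 1 Y).image (fun p : ℕ × ℕ => p.1 ^ 2 + p.2 ^ 2)).card : ℝ) ^ 2 ≤
      ((NN Z).card : ℝ) * (Z * (1 + Real.log Z)) := by
  classical
  set V := (Icc 1 Y ×ˢ Icc 1 Y).image (fun p : ℕ × ℕ => p.1 ^ 2 + p.2 ^ 2) with hV
  have h1 : V ⊆ (NN Z).biUnion (fun D => (Icc 1 (Nat.sqrt (Z / D))).image (fun f => D * f ^ 2)) := by
    intro n hn
    rw [hV, mem_image] at hn
    obtain ⟨⟨a, b⟩, hab, rfl⟩ := hn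
    simp only [mem_product, mem_Icc] at hab
    have hpos : 0 < a ^ 2 + b ^ 2 := by
      have := Nat.pow_le_pow_left hab.1.1 2
      omega
    have hle : a ^ 2 + b ^ 2 ≤ Z := by
      have h2 := Nat.pow_le_pow_left hab.1.2 2
      have h3 := Nat.pow_le_pow_left hab.2.2 2
      omega
    obtain ⟨D, f, h2, h3, h4⟩ := squarefree_part hpos ⟨a, b, rfl⟩
    have hf : 0 < f := by
      rcases Nat.eq_zero_or_pos f with h | h
      · rw [h] at h2; simp at h2; omega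
      · exact h
    have hD : 0 < D := Nat.pos_of_ne_zero h3.ne_zero
    rw [mem_biUnion]
    refine ⟨D, ?_, ?_⟩
    · rw [NN, mem_filter, mem_Icc]
      refine ⟨⟨hD, ?_⟩, h3, h4⟩
      have h5 : D * 1 ≤ D * f ^ 2 := Nat.mul_le_mul_left D (Nat.one_le_pow _ _ hf)
      omega
    · rw [mem_image]
      refine ⟨f, ?_, h2.symm⟩
      rw [mem_Icc]
      refine ⟨hf, ?_⟩
      rw [Nat.le_sqrt', Nat.le_div_iff_mul_le hD]
      rw [mul_comm, ← h2]; exact hle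
  have h2 : (V.card : ℝ) ≤ ∑ D ∈ NN Z, (Nat.sqrt (Z / D) : ℝ) := by
    have h3 : V.card ≤ ∑ D ∈ NN Z, Nat.sqrt (Z / D) := by
      refine le_trans (Finset.card_le_card h1) (le_trans Finset.card_biUnion_le ?_)
      refine Finset.sum_le_sum fun D _ => ?_
      refine le_trans Finset.card_image_le ?_
      rw [Nat.card_Icc, Nat.add_sub_cancel]
    exact_mod_cast h3
  have h3 : (∑ D ∈ NN Z, (Nat.sqrt (Z / D) : ℝ)) ^ 2 ≤
      ((NN Z).card : ℝ) * ∑ D ∈ NN Z, (Nat.sqrt (Z / D) : ℝ) ^ 2 := sq_sum_le_card_mul_sum_sq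
  have h4 : ∑ D ∈ NN Z, (Nat.sqrt (Z / D) : ℝ) ^ 2 ≤ Z * (1 + Real.log Z) := by
    calc ∑ D ∈ NN Z, (Nat.sqrt (Z / D) : ℝ) ^ 2 ≤ ∑ D ∈ NN Z, (Z : ℝ) * ((D : ℝ))⁻¹ := by
          refine Finset.sum_le_sum fun D _ => ?_
          have h5 : Nat.sqrt (Z / D) ^ 2 ≤ Z / D := Nat.sqrt_le' _
          calc (Nat.sqrt (Z / D) : ℝ) ^ 2 = ((Nat.sqrt (Z / D) ^ 2 : ℕ) : ℝ) := by push_cast; ring
            _ ≤ ((Z / D : ℕ) : ℝ) := by exact_mod_cast h5
            _ ≤ (Z : ℝ) / D := Nat.cast_div_le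
            _ = (Z : ℝ) * ((D : ℝ))⁻¹ := by rw [div_eq_mul_inv]
      _ ≤ ∑ D ∈ Icc 1 Z, (Z : ℝ) * ((D : ℝ))⁻¹ := by
          apply Finset.sum_le_sum_of_subset_of_nonneg
          · rw [NN]; exact Finset.filter_subset _ _
          · intro i _ _; positivity
      _ = Z * ∑ D ∈ Icc 1 Z, ((D : ℝ))⁻¹ := by rw [Finset.mul_sum]
      _ ≤ Z * (1 + Real.log Z) := by
          apply mul_le_mul_of_nonneg_left _ (by positivity)
          have h5 := harmonic_le_one_add_log Z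
          rw [harmonic_eq_sum_Icc] at h5
          push_cast at h5
          exact h5
  calc (V.card : ℝ) ^ 2 ≤ (∑ D ∈ NN Z, (Nat.sqrt (Z / D) : ℝ)) ^ 2 :=
        pow_le_pow_left₀ (by positivity) h2 2
    _ ≤ ((NN Z).card : ℝ) * ∑ D ∈ NN Z, (Nat.sqrt (Z / D) : ℝ) ^ 2 := h3
    _ ≤ _ := mul_le_mul_of_nonneg_left h4 (by positivity)

/-- **Many squarefree sums of two squares.** -/
theorem card_NN_ge (ε : ℝ) (hε : 0 < ε) : ∃ c : ℝ, 0 < c ∧ ∀ Z : ℕ, 1 ≤ Z →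
    c * (Z : ℝ) ^ (1 - ε) ≤ ((NN Z).card : ℝ) := by
  obtain ⟨C, hC, hdiv⟩ := Pool.Agent.R481.S2.divisor_bound_real (ε / 4) (by positivity)
  set c : ℝ := (1 / (64 * (1 + C) ^ 2)) * (1 / (1 + 2 / ε)) with hc
  have hc0 : 0 < c := by positivity
  have hc1 : c ≤ 1 := by
    rw [hc]
    have h1 : 1 / (64 * (1 + C) ^ 2) ≤ 1 := by
      rw [div_le_one (by positivity)]
      nlinarith
    have h2 : 1 / (1 + 2 / ε) ≤ 1 := by
      rw [div_le_one (by positivity)]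
      have : 0 < 2 / ε := by positivity
      linarith
    calc _ ≤ 1 * (1 : ℝ) := mul_le_mul h1 h2 (by positivity) (by norm_num)
      _ = 1 := by norm_num
  refine ⟨c, hc0, fun Z hZ => ?_⟩
  have hZr : (1 : ℝ) ≤ Z := by exact_mod_cast hZ
  have hZ0 : (0 : ℝ) < Z := by linarith
  rcases Nat.lt_or_ge Z 2 with h | hZ2
  · have h1 : Z = 1 := by omega
    subst h1
    have h2 : 1 ≤ (NN 1).card := by
      rw [Nat.one_le_iff_ne_zero, Finset.card_ne_zero]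
      refine ⟨1, ?_⟩
      rw [NN, mem_filter]
      exact ⟨by simp, squarefree_one, 1, 0, by norm_num⟩
    simp only [Nat.cast_one, Real.one_rpow, mul_one]
    calc c ≤ 1 := hc1
      _ ≤ _ := by exact_mod_cast h2
  set Y := Nat.sqrt (Z / 2) with hY
  have hY1 : 1 ≤ Y := by
    rw [hY, Nat.le_sqrt']
    omega
  have hYZ : 2 * Y ^ 2 ≤ Z := by
    have : Y ^ 2 ≤ Z / 2 := Nat.sqrt_le' _
    omega
  have hY8 : (Z : ℝ) / 8 ≤ (Y : ℝ) ^ 2 := by
    have h1 : Z / 2 < (Y + 1) ^ 2 := Nat.lt_succ_sqrt' _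
    have h2 : (Y + 1) ^ 2 ≤ (2 * Y) ^ 2 := Nat.pow_le_pow_left (by omega) 2
    have h3 : Z ≤ 8 * Y ^ 2 := by
      have h4 : (2 * Y) ^ 2 = 4 * Y ^ 2 := by ring
      omega
    have h5 : (Z : ℝ) ≤ 8 * (Y : ℝ) ^ 2 := by exact_mod_cast h3
    linarith
  set E : ℝ := (Z : ℝ) ^ (ε / 4) with hE
  have hE1 : 1 ≤ E := Real.one_le_rpow hZr (by positivity)
  have h1 := card_sums_ge Y (C * E) (by positivity) (by
    intro m hm hmY
    refine le_trans (hdiv m hm.ne') ?_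
    apply mul_le_mul_of_nonneg_left _ hC.le
    apply Real.rpow_le_rpow (by positivity) _ (by positivity)
    have : m ≤ Z := by omega
    exact_mod_cast this)
  have h2 := card_sums_le Z Y hYZ
  set v : ℝ := (((Icc 1 Y ×ˢ Icc 1 Y).image (fun p : ℕ × ℕ => p.1 ^ 2 + p.2 ^ 2)).card : ℝ) with hv
  have hv0 : 0 ≤ v := by positivity
  -- `Z / 8 ≤ v (1 + C E) ≤ v (1 + C) E`
  have h3 : (Z : ℝ) / 8 ≤ v * ((1 + C) * E) := by
    refine le_trans hY8 (le_trans h1 (mul_le_mul_of_nonneg_left ?_ hv0))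
    nlinarith
  have h4 : ((Z : ℝ) / 8) ^ 2 ≤ v ^ 2 * ((1 + C) ^ 2 * E ^ 2) := by
    calc ((Z : ℝ) / 8) ^ 2 ≤ (v * ((1 + C) * E)) ^ 2 := pow_le_pow_left₀ (by positivity) h3 2
      _ = _ := by ring
  have hE2 : E ^ 2 * (Z : ℝ) ^ (ε / 2) = (Z : ℝ) ^ ε := by
    rw [hE, ← Real.rpow_natCast, ← Real.rpow_mul hZ0.le, ← Real.rpow_add hZ0]
    congr 1
    push_cast
    ring
  have hlog : 1 + Real.log Z ≤ (1 + 2 / ε) * (Z : ℝ) ^ (ε / 2) := by
    have h5 := Real.log_le_rpow_div hZ0.le (show 0 < ε / 2 by positivity)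
    have h6 : 1 ≤ (Z : ℝ) ^ (ε / 2) := Real.one_le_rpow hZr (by positivity)
    have h7 : (Z : ℝ) ^ (ε / 2) / (ε / 2) = 2 / ε * (Z : ℝ) ^ (ε / 2) := by
      field_simp
    rw [h7] at h5
    linarith
  have h5 : ((Z : ℝ) / 8) ^ 2 ≤ ((NN Z).card : ℝ) * (Z * ((1 + 2 / ε) * (Z : ℝ) ^ (ε / 2))) *
      ((1 + C) ^ 2 * E ^ 2) := by
    refine le_trans h4 (mul_le_mul_of_nonneg_right ?_ (by positivity))
    refine le_trans h2 (mul_le_mul_of_nonneg_left ?_ (by positivity))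
    exact mul_le_mul_of_nonneg_left hlog hZ0.le
  have h6 : ((Z : ℝ) / 8) ^ 2 ≤ ((NN Z).card : ℝ) * (Z * (Z : ℝ) ^ ε) *
      ((1 + 2 / ε) * (1 + C) ^ 2) := by
    refine le_trans h5 (le_of_eq ?_)
    rw [← hE2]; ring
  have h7 : (Z : ℝ) = (Z : ℝ) ^ (1 - ε) * (Z : ℝ) ^ ε := by
    rw [← Real.rpow_add hZ0]; simp
  have hZe : 0 < (Z : ℝ) ^ ε := Real.rpow_pos_of_pos hZ0 _
  have h8 : (Z * (Z : ℝ) ^ ε) * ((Z : ℝ) ^ (1 - ε) / 64) ≤ (Z * (Z : ℝ) ^ ε) *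
      (((NN Z).card : ℝ) * ((1 + 2 / ε) * (1 + C) ^ 2)) := by
    calc (Z * (Z : ℝ) ^ ε) * ((Z : ℝ) ^ (1 - ε) / 64) =
          Z * ((Z : ℝ) ^ (1 - ε) * (Z : ℝ) ^ ε) / 64 := by ring
      _ = ((Z : ℝ) / 8) ^ 2 := by rw [← h7]; ring
      _ ≤ _ := h6
      _ = _ := by ring
  have h9 := le_of_mul_le_mul_left h8 (by positivity)
  rw [hc]
  have hK : 0 < (1 + 2 / ε) * (1 + C) ^ 2 := by positivity
  calc 1 / (64 * (1 + C) ^ 2) * (1 / (1 + 2 / ε)) * (Z : ℝ) ^ (1 - ε) =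
        ((Z : ℝ) ^ (1 - ε) / 64) / ((1 + 2 / ε) * (1 + C) ^ 2) := by
        field_simp
    _ ≤ ((NN Z).card : ℝ) := by
        rw [div_le_iff₀ hK]; exact h9

end Run7.h770
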