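import Mathlib

/-!
# The rotated greedy argument

If `p, q` are coprime integers and `N = p² + q²`, then lattice points on the line `p a + q b = k` are
those whose other coordinate `s = q a - p b` lies in one residue class modulo `N`, and
`N (a² + b²) = k² + s²`.  Choosing `k` with `D = N R² - k²` small and then `s` greedily gives a sum
of two squares in `[R² - 2√D, R²]`.
-/

set_option autoImplicit false

namespace Run7.h770

/-- Rotated greedy step. -/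
theorem greedy (p q k : ℤ) (h : IsCoprime p q) (N R D : ℝ) (hN : N = (p : ℝ) ^ 2 + (q : ℝ) ^ 2)
    (hD : D = N * R ^ 2 - (k : ℝ) ^ 2) (hN0 : 0 < N) (hD1 : N ^ 2 / 4 ≤ D) :
    ∃ a b : ℤ, R ^ 2 - 2 * √D ≤ (a : ℝ) ^ 2 + (b : ℝ) ^ 2 ∧ (a : ℝ) ^ 2 + (b : ℝ) ^ 2 ≤ R ^ 2 := by
  obtain ⟨u, v, huv⟩ := h
  have hD0 : 0 ≤ D := le_trans (by positivity) hD1
  have hs : √D * √D = D := Real.mul_self_sqrt hD0
  have hsN : N / 2 ≤ √D := by
    apply Real.le_sqrt_of_sq_le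
    calc (N / 2) ^ 2 = N ^ 2 / 4 := by ring
      _ ≤ D := hD1
  set s0 : ℤ := q * (k * u) - p * (k * v) with hs0
  set t : ℤ := ⌈((s0 : ℝ) - √D) / N⌉ with ht
  have ht1 : ((s0 : ℝ) - √D) / N ≤ t := Int.le_ceil _
  have ht2 : (t : ℝ) < ((s0 : ℝ) - √D) / N + 1 := Int.ceil_lt_add_one _
  rw [div_le_iff₀ hN0] at ht1
  have ht3 : (t : ℝ) * N < (s0 : ℝ) - √D + N := by
    have := mul_lt_mul_of_pos_right ht2 hN0
    rwa [add_mul, div_mul_cancel₀ _ hN0.ne', one_mul] at this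
  set a : ℤ := k * u - q * t with ha
  set b : ℤ := k * v + p * t with hb
  set s : ℝ := (s0 : ℝ) - t * N with hs'
  have hs1 : s ≤ √D := by rw [hs']; linarith
  have hs2 : √D - N < s := by rw [hs']; linarith
  have hk : (p : ℝ) * a + (q : ℝ) * b = k := by
    have h1 : p * a + q * b = k := by
      rw [ha, hb]
      linear_combination k * huv
    exact_mod_cast h1
  have hsq : (q : ℝ) * a - (p : ℝ) * b = s := by
    rw [hs', hs0, ha, hb, hN]
    push_cast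
    ring
  have hkey : N * ((a : ℝ) ^ 2 + (b : ℝ) ^ 2) = (k : ℝ) ^ 2 + s ^ 2 := by
    rw [hN, ← hk, ← hsq]; ring
  have h1 : N * (R ^ 2 - ((a : ℝ) ^ 2 + (b : ℝ) ^ 2)) = (√D - s) * (√D + s) := by
    have : (√D - s) * (√D + s) = D - s ^ 2 := by linear_combination hs
    rw [this, hD, mul_sub, hkey]; ring
  have h2 : 0 ≤ √D - s := by linarith
  have h3 : 0 ≤ √D + s := by linarith
  have h4 : √D - s ≤ N := by linarith
  have h5 : √D + s ≤ 2 * √D := by linarith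
  refine ⟨a, b, ?_, ?_⟩
  · have h6 : (√D - s) * (√D + s) ≤ N * (2 * √D) := mul_le_mul h4 h5 h3 hN0.le
    rw [← h1] at h6
    have := le_of_mul_le_mul_left h6 hN0
    linarith
  · have h6 : 0 ≤ (√D - s) * (√D + s) := mul_nonneg h2 h3
    rw [← h1] at h6
    have := nonneg_of_mul_nonneg_right h6 hN0
    linarith

/-- A squarefree sum of two squares is a sum of two coprime squares. -/
theorem coprime_of_squarefree {n : ℕ} (hn : Squarefree n) {a b : ℕ} (h : n = a ^ 2 + b ^ 2) :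
    IsCoprime (a : ℤ) (b : ℤ) := by
  rw [Nat.isCoprime_iff_coprime]
  have h1 : (Nat.gcd a b) * (Nat.gcd a b) ∣ n := by
    rw [h, ← pow_two]
    exact dvd_add (pow_dvd_pow_of_dvd (Nat.gcd_dvd_left a b) 2)
      (pow_dvd_pow_of_dvd (Nat.gcd_dvd_right a b) 2)
  have h2 := hn _ h1
  exact Nat.isUnit_iff.mp h2

/-- The window lemma: if `n = a² + b²` is squarefree, `R > 0`, and the fractional part of `√n R` lies
in `[lo, hi]`, where `n² / 4 ≤ lo · √n · R` and `8 · hi · √n ≤ η²`, then some sum of two squares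
lies in `[R² - η √R, R²]`. -/
theorem window {n : ℕ} (hn : Squarefree n) (h2 : ∃ a b : ℕ, n = a ^ 2 + b ^ 2) {R η lo hi : ℝ}
    (hR : 1 ≤ R) (hη : 0 ≤ η) (hlo : (n : ℝ) ^ 2 / 4 ≤ lo * (√n * R)) (hhi : 8 * (hi * √n) ≤ η ^ 2)
    (h3 : lo ≤ Int.fract (√n * R)) (h4 : Int.fract (√n * R) ≤ hi) :
    ∃ a b : ℕ, R ^ 2 - η * √R ≤ ((a ^ 2 + b ^ 2 : ℕ) : ℝ) ∧ ((a ^ 2 + b ^ 2 : ℕ) : ℝ) ≤ R ^ 2 := by
  obtain ⟨p, q, hpq⟩ := h2
  have hcop := coprime_of_squarefree hn hpq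
  have hn0 : 0 < n := Nat.pos_of_ne_zero hn.ne_zero
  have hn1 : (1 : ℝ) ≤ n := by exact_mod_cast hn0
  have hsn : √(n : ℝ) * √(n : ℝ) = n := Real.mul_self_sqrt (by positivity)
  have hsn1 : 1 ≤ √(n : ℝ) := by rw [Real.one_le_sqrt]; exact hn1
  set t := Int.fract (√n * R) with ht
  have ht0 : 0 ≤ t := Int.fract_nonneg _
  have ht1 : t < 1 := Int.fract_lt_one _
  set k : ℤ := ⌊√n * R⌋ with hk
  have hkt : (k : ℝ) = √n * R - t := by
    rw [ht, hk, Int.fract]; ring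
  have hnR : 1 ≤ √n * R := by nlinarith
  set D : ℝ := (n : ℝ) * R ^ 2 - (k : ℝ) ^ 2 with hD
  have hD2 : D = t * (2 * (√n * R) - t) := by
    rw [hD, hkt]
    have : (n : ℝ) * R ^ 2 = (√n * R) ^ 2 := by rw [mul_pow, pow_two (√(n:ℝ)), hsn]
    rw [this]; ring
  have hDlo : (n : ℝ) ^ 2 / 4 ≤ D := by
    rw [hD2]
    calc (n : ℝ) ^ 2 / 4 ≤ lo * (√n * R) := hlo
      _ ≤ t * (√n * R) := mul_le_mul_of_nonneg_right h3 (by positivity)
      _ ≤ t * (2 * (√n * R) - t) := mul_le_mul_of_nonneg_left (by linarith) ht0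
  have hDhi : 4 * D ≤ η ^ 2 * R := by
    rw [hD2]
    have h5 : t * (2 * (√n * R) - t) ≤ t * (2 * (√n * R)) :=
      mul_le_mul_of_nonneg_left (by linarith) ht0
    have h6 : t * √n ≤ hi * √n := mul_le_mul_of_nonneg_right h4 (by positivity)
    have h7 : 8 * (t * √n) * R ≤ η ^ 2 * R := mul_le_mul_of_nonneg_right (by linarith) (by linarith)
    nlinarith
  have hD0 : 0 ≤ D := le_trans (by positivity) hDlo
  obtain ⟨a, b, hab1, hab2⟩ := greedy p q k hcop (n : ℝ) R D (by rw [hpq]; push_cast; ring) hD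
    (by positivity) hDlo
  refine ⟨a.natAbs, b.natAbs, ?_, ?_⟩
  · have h8 : ((a.natAbs ^ 2 + b.natAbs ^ 2 : ℕ) : ℝ) = (a : ℝ) ^ 2 + (b : ℝ) ^ 2 := by
      push_cast
      rw [Nat.cast_natAbs, Nat.cast_natAbs, Int.cast_abs, Int.cast_abs, sq_abs, sq_abs]
    rw [h8]
    have h9 : 2 * √D ≤ η * √R := by
      have h10 : 2 * √D = √(4 * D) := by
        rw [Real.sqrt_mul (by norm_num : (0:ℝ) ≤ 4)]
        congr 1
        rw [show (4 : ℝ) = 2 ^ 2 by norm_num, Real.sqrt_sq (by norm_num)]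
      have h11 : η * √R = √(η ^ 2 * R) := by
        rw [Real.sqrt_mul (by positivity), Real.sqrt_sq hη]
      rw [h10, h11]
      exact Real.sqrt_le_sqrt hDhi
    linarith
  · have h8 : ((a.natAbs ^ 2 + b.natAbs ^ 2 : ℕ) : ℝ) = (a : ℝ) ^ 2 + (b : ℝ) ^ 2 := by
      push_cast
      rw [Nat.cast_natAbs, Nat.cast_natAbs, Int.cast_abs, Int.cast_abs, sq_abs, sq_abs]
    rw [h8]; exact hab2

end Run7.h770
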