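import Mathlib
import Pool.Agent.Run7.h770.Greedy
import Pool.Agent.Run7.h770.Core
import Pool.Agent.Run7.h770.Count

/-!
# Assembling: windows between consecutive squares
-/

set_option autoImplicit false

open Finset

namespace Run7.h770

/-- The window `[m², (m+1)²]` contains a real `X` with no sum of two squares in
`[X - η X^(1/4), X]`. -/
def BadW (η : ℝ) (m : ℕ) : Prop :=
  ∃ X : ℝ, (m : ℝ) ^ 2 ≤ X ∧ X ≤ ((m : ℝ) + 1) ^ 2 ∧
    ¬ ∃ a b : ℕ, X - η * X ^ (1 / 4 : ℝ) ≤ ((a ^ 2 + b ^ 2 : ℕ) : ℝ) ∧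
      ((a ^ 2 + b ^ 2 : ℕ) : ℝ) ≤ X

theorem BadW.anti {η η' : ℝ} (h : η' ≤ η) {m : ℕ} (hb : BadW η m) : BadW η' m := by
  obtain ⟨X, h1, h2, h3⟩ := hb
  refine ⟨X, h1, h2, ?_⟩
  rintro ⟨a, b, h4, h5⟩
  apply h3
  refine ⟨a, b, ?_, h5⟩
  have hX : 0 ≤ X := le_trans (by positivity) h1
  have : η' * X ^ (1 / 4 : ℝ) ≤ η * X ^ (1 / 4 : ℝ) :=
    mul_le_mul_of_nonneg_right h (Real.rpow_nonneg hX _)
  linarith

/-- A bad window contains a real `R` all of whose multiples `√n R` avoid the target interval. -/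
theorem exists_bad_R {m : ℕ} {η lo hi : ℝ} (hm : 1 ≤ m) (hη : 0 ≤ η) (hb : BadW η m) :
    ∃ R : ℝ, (m : ℝ) ≤ R ∧ R < m + 1 ∧ ∀ n : ℕ, Squarefree n → (∃ a b : ℕ, n = a ^ 2 + b ^ 2) →
      (n : ℝ) ^ 2 / 4 ≤ lo * (√n * R) → 8 * (hi * √n) ≤ η ^ 2 →
      ¬ (lo ≤ Int.fract (√n * R) ∧ Int.fract (√n * R) ≤ hi) := by
  obtain ⟨X, h1, h2, h3⟩ := hb
  have hX0 : 0 ≤ X := le_trans (by positivity) h1
  have hm' : (1 : ℝ) ≤ m := by exact_mod_cast hm
  have hR1 : (m : ℝ) ≤ √X := Real.le_sqrt_of_sq_le h1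
  have hR2 : √X < m + 1 := by
    rw [Real.sqrt_lt' (by positivity)]
    rcases lt_or_eq_of_le h2 with h | h
    · exact h
    · exfalso
      apply h3
      refine ⟨m + 1, 0, ?_, ?_⟩
      · push_cast
        have : 0 ≤ η * X ^ (1 / 4 : ℝ) := mul_nonneg hη (Real.rpow_nonneg hX0 _)
        rw [h] at this ⊢
        nlinarith
      · push_cast
        rw [h]; nlinarith
  refine ⟨√X, hR1, hR2, ?_⟩
  intro n hn hs hlo hhi hfr
  apply h3
  obtain ⟨a, b, h4, h5⟩ := window hn hs (le_trans hm' hR1) hη hlo hhi hfr.1 hfr.2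
  have h6 : √X ^ 2 = X := Real.sq_sqrt hX0
  have h7 : √(√X) = X ^ (1 / 4 : ℝ) := by
    rw [Real.sqrt_eq_rpow, Real.sqrt_eq_rpow, ← Real.rpow_mul hX0]
    norm_num
  rw [h6, h7] at h4
  rw [h6] at h5
  exact ⟨a, b, h4, h5⟩

/-- Passing to a grid point. -/
theorem grid_point {d R τ L : ℝ} (hd : 0 ≤ d) (hL : 0 < L) (hτ0 : 0 < τ) (hτ1 : τ ≤ 1)
    (hdL : d / L ≤ τ / 8) (n : ℕ) (hn1 : (n : ℝ) ≤ R * L) (hn2 : R * L < n + 1)
    (hbad : ¬ (τ / 4 ≤ Int.fract (d * R) ∧ Int.fract (d * R) ≤ τ)) :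
    τ / 8 ≤ |d * n / L - τ / 2 - round (d * n / L - τ / 2)| := by
  by_contra h
  push Not at h
  apply hbad
  set N : ℤ := round (d * n / L - τ / 2) with hN
  rw [abs_lt] at h
  set t : ℝ := d * n / L with ht
  have h1 : t ≤ d * R := by
    rw [ht, div_le_iff₀ hL]
    nlinarith
  have h2 : d * R ≤ t + τ / 8 := by
    have h3 : d * R - t = d / L * (R * L - n) := by
      rw [ht]; field_simp
    have h4 : d / L * (R * L - n) ≤ d / L * 1 :=
      mul_le_mul_of_nonneg_left (by linarith) (by positivity)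
    linarith
  have h5 : Int.fract (d * R) = d * R - N := by
    rw [Int.fract]
    have : ⌊d * R⌋ = N := by
      rw [Int.floor_eq_iff]
      constructor <;> linarith [h.1, h.2]
    rw [this]
  rw [h5]
  constructor <;> linarith [h.1, h.2]

/-- The counting theorem with explicit parameters. -/
theorem count_bad (x Y S G q : ℕ) (hY : 1 ≤ Y) (hYx : Y ≤ x) (hS : 1 ≤ S) (hG : 1 ≤ G)
    (hq : 3 * q ≤ (NN (G ^ 380)).card) (hq1 : 1 ≤ q)
    (hcond : (20 * (64 * (G : ℝ) ^ 200 * (S : ℝ) ^ 3) * q) ^ 3 *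
      (3840 * (G : ℝ) ^ 390 * (S : ℝ) ^ 3) ^ 31 ≤ Y)
    (bad : Finset ℕ) (hbad : ∀ m ∈ bad, x ≤ m ∧ m < x + Y ∧ BadW (1 / S) m) :
    (bad.card : ℝ) * (q : ℝ) ^ 3 ≤ 2 * Y * (7680 * (G : ℝ) ^ 390 * (S : ℝ) ^ 3) *
      (400 * (64 * (G : ℝ) ^ 200 * (S : ℝ) ^ 3)) ^ 3 := by
  classical
  have hGr : (1 : ℝ) ≤ G := by exact_mod_cast hG
  have hSr : (1 : ℝ) ≤ S := by exact_mod_cast hS
  have hqr : (1 : ℝ) ≤ q := by exact_mod_cast hq1
  have hG0 : (0 : ℝ) < G := by linarith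
  have hS0 : (0 : ℝ) < S := by linarith
  -- parameters
  set H : ℕ := 64 * G ^ 200 * S ^ 3 with hH
  have hHr : (H : ℝ) = 64 * (G : ℝ) ^ 200 * (S : ℝ) ^ 3 := by rw [hH]; push_cast; ring
  have hH0 : 0 < H := by rw [hH]; positivity
  set L : ℕ := 7680 * G ^ 390 * S ^ 3 with hL
  have hLr : (L : ℝ) = 7680 * (G : ℝ) ^ 390 * (S : ℝ) ^ 3 := by rw [hL]; push_cast; ring
  have hLpos : 0 < L := by rw [hL]; positivity
  have hLrpos : (0 : ℝ) < L := by exact_mod_cast hLpos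
  set Z1 : ℝ := (G : ℝ) ^ 190 with hZ1
  have hZ1p : 0 < Z1 := by positivity
  set B : ℝ := 3840 * (G : ℝ) ^ 390 * (S : ℝ) ^ 3 with hB
  have hG390 : (1 : ℝ) ≤ (G : ℝ) ^ 390 := one_le_pow₀ hGr
  have hS3 : (1 : ℝ) ≤ (S : ℝ) ^ 3 := one_le_pow₀ hSr
  have hB1 : 1 ≤ B := by
    rw [hB]
    have : (1 : ℝ) ≤ (G : ℝ) ^ 390 * (S : ℝ) ^ 3 := one_le_mul_of_one_le_of_one_le hG390 hS3
    nlinarith
  set τ : ℝ := 1 / (8 * (S : ℝ) ^ 2 * Z1) with hτ
  have hτ0 : 0 < τ := by positivity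
  have hZ11 : 1 ≤ Z1 := one_le_pow₀ hGr
  have hS2 : (1 : ℝ) ≤ (S : ℝ) ^ 2 := one_le_pow₀ hSr
  have hτ1 : τ ≤ 1 := by
    rw [hτ, div_le_one (by positivity)]
    have : (1 : ℝ) ≤ (S : ℝ) ^ 2 * Z1 := one_le_mul_of_one_le_of_one_le hS2 hZ11
    nlinarith
  -- the family of squarefree numbers
  set D : Fin 3 × Fin q → ℕ := fun p =>
    (NN (G ^ 380)).orderEmbOfFin rfl (Fin.castLE hq (finProdFinEquiv p)) with hD
  have hDmem : ∀ p, D p ∈ NN (G ^ 380) := fun p => Finset.orderEmbOfFin_mem _ _ _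
  have hDinj : Function.Injective D := by
    intro p p' h
    have h1 := (RelEmbedding.injective _) h
    have h2 := (Fin.castLE_injective hq) h1
    exact finProdFinEquiv.injective h2
  have hDsq : ∀ p, Squarefree (D p) := fun p => by
    have := hDmem p
    rw [NN, mem_filter] at this
    exact this.2.1
  have hDsum : ∀ p, ∃ a b : ℕ, D p = a ^ 2 + b ^ 2 := fun p => by
    have := hDmem p
    rw [NN, mem_filter] at this
    exact this.2.2
  have hDle : ∀ p, (D p : ℝ) ≤ (G : ℝ) ^ 380 := fun p => by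
    have := hDmem p
    rw [NN, mem_filter, mem_Icc] at this
    exact_mod_cast this.1.2
  have hDpos : ∀ p, (1 : ℝ) ≤ D p := fun p => by
    have := hDmem p
    rw [NN, mem_filter, mem_Icc] at this
    exact_mod_cast this.1.1
  have hsqrtD : ∀ p, √(D p : ℝ) ≤ Z1 := fun p => by
    apply Real.sqrt_le_iff.mpr
    refine ⟨hZ1p.le, le_trans (hDle p) (le_of_eq ?_)⟩
    rw [hZ1, ← pow_mul]
  -- the bad grid points
  set P : ℕ → Prop := fun n => ∀ i : Fin 3, ∀ j : Fin q,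
    τ / 8 ≤ |√(D (i, j) : ℝ) * ((n : ℝ) + (x * L : ℕ)) / L - τ / 2 -
      round (√(D (i, j) : ℝ) * ((n : ℝ) + (x * L : ℕ)) / L - τ / 2)| with hP
  set badn : Finset ℕ := (range (Y * L)).filter P with hbadn
  have hw : 0 < τ / 8 := by positivity
  have hwid : 1 / (4 * (τ / 8) ^ 2) = 1024 * ((G : ℝ) ^ 380 * (S : ℝ) ^ 4) := by
    rw [hτ]
    have : Z1 ^ 2 = (G : ℝ) ^ 380 := by rw [hZ1, ← pow_mul]
    rw [← this]
    field_simp
    norm_num
  have hmom := moment_bound (k := 3) (q := q) D hDsq hDinj (s := 9) (H := H) hH0 (Z := Z1) (B := B)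
    (L := (L : ℝ)) (c := τ / 2) (w := τ / 8) hsqrtD hB1 (by
      rw [hB, hHr, hZ1]
      push_cast
      apply le_of_eq
      ring) (by rw [hLr, hB]; linarith) hw (by
      rw [hwid, hHr]
      have e1 : (1024 * ((G : ℝ) ^ 380 * (S : ℝ) ^ 4)) ^ (9 + 1) =
          2 ^ 100 * ((G : ℝ) ^ 3800 * (S : ℝ) ^ 40) := by
        rw [mul_pow, mul_pow, ← pow_mul, ← pow_mul]
        norm_num
      have e2 : (64 * (G : ℝ) ^ 200 * (S : ℝ) ^ 3) ^ (2 * 9 + 1) =
          2 ^ 114 * ((G : ℝ) ^ 3800 * (S : ℝ) ^ 57) := by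
        rw [mul_assoc, mul_pow, mul_pow, ← pow_mul, ← pow_mul]
        norm_num
      rw [e1, e2]
      have h1 : (G : ℝ) ^ 3800 * (S : ℝ) ^ 40 ≤ (G : ℝ) ^ 3800 * (S : ℝ) ^ 57 :=
        mul_le_mul_of_nonneg_left (pow_le_pow_right₀ hSr (by norm_num)) (by positivity)
      have h2 : 0 ≤ (G : ℝ) ^ 3800 * (S : ℝ) ^ 40 := by positivity
      push_cast
      nlinarith) (x * L) (Y * L) badn (by
      intro n hn
      rw [hbadn, mem_filter, mem_range] at hn
      exact ⟨hn.1, hn.2⟩)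
  -- injection from bad windows to bad grid points
  have hx1 : 1 ≤ x := le_trans hY hYx
  have hYr : (1 : ℝ) ≤ Y := by exact_mod_cast hY
  have hxr : (Y : ℝ) ≤ x := by exact_mod_cast hYx
  have hchoose : ∀ m ∈ bad, ∃ n : ℕ, n ∈ badn ∧ (n + x * L) / L = m := by
    intro m hm
    obtain ⟨hm1, hm2, hm3⟩ := hbad m hm
    obtain ⟨R, hR1, hR2, hR3⟩ := exists_bad_R (lo := τ / 4) (hi := τ) (le_trans hx1 hm1)
      (by positivity : (0 : ℝ) ≤ 1 / S) hm3
    have hmr : (x : ℝ) ≤ m := by exact_mod_cast hm1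
    have hR0 : 0 ≤ R := by linarith
    set N : ℕ := ⌊R * L⌋₊ with hN
    have hN1 : (N : ℝ) ≤ R * L := Nat.floor_le (by positivity)
    have hN2 : R * L < N + 1 := Nat.lt_floor_add_one _
    have hmL : m * L ≤ N := by
      rw [hN, Nat.le_floor_iff (by positivity)]
      push_cast
      exact mul_le_mul_of_nonneg_right hR1 hLrpos.le
    have hNm : N < (m + 1) * L := by
      have h1 : (N : ℝ) < ((m + 1) * L : ℕ) := by
        push_cast
        calc (N : ℝ) ≤ R * L := hN1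
          _ < (m + 1) * L := mul_lt_mul_of_pos_right hR2 hLrpos
      exact_mod_cast h1
    have hxL : x * L ≤ N := le_trans (Nat.mul_le_mul_right L hm1) hmL
    refine ⟨N - x * L, ?_, ?_⟩
    · rw [hbadn, mem_filter, mem_range]
      refine ⟨?_, ?_⟩
      · have h1 : N < (x + Y) * L := lt_of_lt_of_le hNm (Nat.mul_le_mul_right L (by omega))
        rw [add_mul] at h1
        omega
      · rw [hP]
        intro i j
        have hcast : ((N - x * L : ℕ) : ℝ) + ((x * L : ℕ) : ℝ) = (N : ℝ) := by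
          rw [← Nat.cast_add]
          congr 1
          omega
        rw [hcast]
        have hdL : √(D (i, j) : ℝ) / L ≤ τ / 8 := by
          calc √(D (i, j) : ℝ) / L ≤ Z1 / L := div_le_div_of_nonneg_right (hsqrtD _) hLrpos.le
            _ ≤ τ / 8 := by
              rw [hτ, div_div, div_le_div_iff₀ hLrpos (by positivity), hLr, one_mul]
              have h1 : Z1 * (8 * (S : ℝ) ^ 2 * Z1 * 8) = 64 * ((G : ℝ) ^ 380 * (S : ℝ) ^ 2) := by
                have : Z1 * Z1 = (G : ℝ) ^ 380 := by rw [hZ1, ← pow_add]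
                rw [← this]; ring
              rw [h1]
              have h2 : (G : ℝ) ^ 380 * (S : ℝ) ^ 2 ≤ (G : ℝ) ^ 390 * (S : ℝ) ^ 3 :=
                mul_le_mul (pow_le_pow_right₀ hGr (by norm_num))
                  (pow_le_pow_right₀ hSr (by norm_num)) (by positivity) (by positivity)
              have h3 : 0 ≤ (G : ℝ) ^ 380 * (S : ℝ) ^ 2 := by positivity
              linarith
        apply grid_point (Real.sqrt_nonneg _) hLrpos hτ0 hτ1 hdL N hN1 hN2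
        apply hR3 (D (i, j)) (hDsq _) (hDsum _)
        · -- `D² / 4 ≤ (τ/4) √D R`
          set d : ℝ := √(D (i, j) : ℝ) with hd
          have hd2 : (D (i, j) : ℝ) = d * d := (Real.mul_self_sqrt (by positivity)).symm
          have hd0 : 0 ≤ d := Real.sqrt_nonneg _
          have hdZ : d ≤ Z1 := hsqrtD _
          have hR : Z1 ^ 3 * (8 * (S : ℝ) ^ 2 * Z1) ≤ R := by
            have h1 : Z1 ^ 3 * (8 * (S : ℝ) ^ 2 * Z1) = 8 * ((G : ℝ) ^ 760 * (S : ℝ) ^ 2) := by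
              have : Z1 ^ 4 = (G : ℝ) ^ 760 := by rw [hZ1, ← pow_mul]
              rw [← this]; ring
            rw [h1]
            refine le_trans ?_ (le_trans hxr (le_trans hmr hR1))
            refine le_trans ?_ hcond
            have h2 : (3840 * (G : ℝ) ^ 390 * (S : ℝ) ^ 3) ^ 31 =
                3840 ^ 31 * ((G : ℝ) ^ 12090 * (S : ℝ) ^ 93) := by
              rw [mul_assoc, mul_pow, mul_pow, ← pow_mul, ← pow_mul]
            have h3 : (1 : ℝ) ≤ (20 * (64 * (G : ℝ) ^ 200 * (S : ℝ) ^ 3) * q) ^ 3 := by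
              apply one_le_pow₀
              have h4 : (1 : ℝ) ≤ (G : ℝ) ^ 200 * (S : ℝ) ^ 3 :=
                one_le_mul_of_one_le_of_one_le (one_le_pow₀ hGr) hS3
              have h5 : (1 : ℝ) ≤ ((G : ℝ) ^ 200 * (S : ℝ) ^ 3) * q :=
                one_le_mul_of_one_le_of_one_le h4 hqr
              calc (1 : ℝ) ≤ 1280 * (((G : ℝ) ^ 200 * (S : ℝ) ^ 3) * q) := by linarith
                _ = _ := by ring
            have h4 : (G : ℝ) ^ 760 * (S : ℝ) ^ 2 ≤ (G : ℝ) ^ 12090 * (S : ℝ) ^ 93 :=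
              mul_le_mul (pow_le_pow_right₀ hGr (by norm_num))
                (pow_le_pow_right₀ hSr (by norm_num)) (by positivity) (by positivity)
            have h5 : 0 ≤ (G : ℝ) ^ 760 * (S : ℝ) ^ 2 := by positivity
            calc 8 * ((G : ℝ) ^ 760 * (S : ℝ) ^ 2) ≤
                  3840 ^ 31 * ((G : ℝ) ^ 12090 * (S : ℝ) ^ 93) := by
                    apply mul_le_mul (by norm_num) h4 h5 (by norm_num)
              _ = (3840 * (G : ℝ) ^ 390 * (S : ℝ) ^ 3) ^ 31 := h2.symm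
              _ ≤ (20 * (64 * (G : ℝ) ^ 200 * (S : ℝ) ^ 3) * q) ^ 3 *
                  (3840 * (G : ℝ) ^ 390 * (S : ℝ) ^ 3) ^ 31 := by
                    apply le_mul_of_one_le_left _ h3
                    positivity
          have h6 : d ^ 3 ≤ Z1 ^ 3 := pow_le_pow_left₀ hd0 hdZ 3
          have h7 : d ^ 3 ≤ τ * R := by
            rw [hτ, div_mul_eq_mul_div, one_mul, le_div_iff₀ (by positivity)]
            exact le_trans (mul_le_mul_of_nonneg_right h6 (by positivity)) hR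
          rw [hd2]
          have h8 : (d * d) ^ 2 / 4 = d * d ^ 3 / 4 := by ring
          rw [h8]
          have h9 : d * d ^ 3 ≤ d * (τ * R) := mul_le_mul_of_nonneg_left h7 hd0
          calc d * d ^ 3 / 4 ≤ d * (τ * R) / 4 := by linarith
            _ = τ / 4 * (d * R) := by ring
        · -- `8 τ √D ≤ 1 / S²`
          have h1 : τ * √(D (i, j) : ℝ) ≤ τ * Z1 := mul_le_mul_of_nonneg_left (hsqrtD _) hτ0.le
          have h2 : 8 * (τ * Z1) = (1 / (S : ℝ)) ^ 2 := by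
            rw [hτ]; field_simp
          linarith
    · have h1 : N - x * L + x * L = N := Nat.sub_add_cancel hxL
      rw [h1]
      exact Nat.div_eq_of_lt_le hmL hNm
  choose! f hf1 hf2 using hchoose
  have hcard : bad.card ≤ badn.card := by
    apply Finset.card_le_card_of_injOn f (fun m hm => hf1 m hm)
    intro m hm m' hm' h
    rw [← hf2 m hm, ← hf2 m' hm', h]
  have hcardr : (bad.card : ℝ) ≤ badn.card := by exact_mod_cast hcard
  -- final estimate
  have hfin : ((Y * L : ℕ) : ℝ) + (2 * ((9 : ℕ) + 1) * H * q) ^ 3 * L * B ^ (2 ^ (2 * 3 - 1) - 1) ≤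
      2 * Y * (7680 * (G : ℝ) ^ 390 * (S : ℝ) ^ 3) := by
    rw [← hLr]
    push_cast
    have h1 : (2 * ((9 : ℝ) + 1) * H * q) ^ 3 * L * B ^ 31 =
        ((20 * (64 * (G : ℝ) ^ 200 * (S : ℝ) ^ 3) * q) ^ 3 * B ^ 31) * L := by
      rw [hHr]
      norm_num
      ring
    rw [h1]
    have h2 := mul_le_mul_of_nonneg_right hcond hLrpos.le
    linarith
  calc (bad.card : ℝ) * (q : ℝ) ^ 3 ≤ (badn.card : ℝ) * (q : ℝ) ^ 3 :=
        mul_le_mul_of_nonneg_right hcardr (by positivity)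
    _ ≤ _ := hmom
    _ ≤ 2 * Y * (7680 * (G : ℝ) ^ 390 * (S : ℝ) ^ 3) *
        (4 * ((9 : ℕ) + 1) ^ 2 * H) ^ 3 := by
        apply mul_le_mul_of_nonneg_right hfin (by positivity)
    _ = _ := by
        rw [hHr]
        push_cast
        ring

end Run7.h770
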