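import Mathlib
import Pool.Agent.Run7.h770.Assemble

/-!
# Optimising the parameters
-/

set_option autoImplicit false

open Finset

namespace Run7.h770

/-- The bound for `η = 1 / S`. -/
theorem final_nat : ∃ K : ℝ, 0 < K ∧ ∀ (x Y S : ℕ), 1 ≤ Y → Y ≤ x → 1 ≤ S → ∀ bad : Finset ℕ,
    (∀ m ∈ bad, x ≤ m ∧ m < x + Y ∧ BadW (1 / S) m) →
    (bad.card : ℝ) ≤ K * (S : ℝ) ^ 14 * (Y : ℝ) ^ (99 / 100 : ℝ) := by
  obtain ⟨c, hc, hNN⟩ := card_NN_ge (1 / 380) (by norm_num)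
  -- a lower bound for `G`
  obtain ⟨G0, hG0⟩ := exists_nat_ge (6 / c + 1)
  have hG0pos : 0 < 6 / c := by positivity
  have hG0r : (1 : ℝ) ≤ G0 := by linarith
  -- constants
  obtain ⟨C2, hC2, hC2def⟩ : ∃ C2 : ℝ, 1 ≤ C2 ∧ C2 = 1280 ^ 3 * 3840 ^ 31 := ⟨_, by norm_num, rfl⟩
  set C3 : ℝ := C2 * (G0 : ℝ) ^ 13830 with hC3
  have hC31 : 1 ≤ C3 := one_le_mul_of_one_le_of_one_le hC2 (one_le_pow₀ hG0r)
  set K1 : ℝ := C3 ^ (1 / 100 : ℝ) with hK1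
  have hK1p : 0 < K1 := Real.rpow_pos_of_pos (by linarith) _
  set K2 : ℝ := 15360 * 25600 ^ 3 * (6 / c) ^ 3 * 2 ^ 147 * C2 ^ (1 / 100 : ℝ) with hK2
  have hK2p : 0 < K2 := by
    have : 0 < C2 ^ (1 / 100 : ℝ) := Real.rpow_pos_of_pos (by linarith) _
    positivity
  refine ⟨K1 + K2, by positivity, fun x Y S hY hYx hS bad hbad => ?_⟩
  have hYr : (1 : ℝ) ≤ Y := by exact_mod_cast hY
  have hY0 : (0 : ℝ) < Y := by linarith
  have hSr : (1 : ℝ) ≤ S := by exact_mod_cast hS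
  have hS0 : (0 : ℝ) < S := by linarith
  have hcardY : (bad.card : ℝ) ≤ Y := by
    have h1 : bad ⊆ Ico x (x + Y) := fun m hm => by
      obtain ⟨h1, h2, -⟩ := hbad m hm
      exact mem_Ico.mpr ⟨h1, h2⟩
    have h2 := Finset.card_le_card h1
    rw [Nat.card_Ico] at h2
    exact_mod_cast (le_trans h2 (by omega))
  have hYsplit : (Y : ℝ) = (Y : ℝ) ^ (99 / 100 : ℝ) * (Y : ℝ) ^ (1 / 100 : ℝ) := by
    rw [← Real.rpow_add hY0]; norm_num
  have hY99 : 0 < (Y : ℝ) ^ (99 / 100 : ℝ) := Real.rpow_pos_of_pos hY0 _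
  have hS102 : ((S : ℝ) ^ 102) ^ (1 / 100 : ℝ) ≤ (S : ℝ) ^ 2 := by
    rw [← Real.rpow_natCast, ← Real.rpow_mul hS0.le, ← Real.rpow_natCast]
    apply Real.rpow_le_rpow_of_exponent_le hSr
    norm_num
  rcases lt_or_ge (Y : ℝ) (C3 * (S : ℝ) ^ 102) with hsmall | hlarge
  · -- small `Y`: trivial bound
    have h1 : (Y : ℝ) ^ (1 / 100 : ℝ) ≤ K1 * (S : ℝ) ^ 2 := by
      calc (Y : ℝ) ^ (1 / 100 : ℝ) ≤ (C3 * (S : ℝ) ^ 102) ^ (1 / 100 : ℝ) :=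
            Real.rpow_le_rpow hY0.le hsmall.le (by norm_num)
        _ = K1 * ((S : ℝ) ^ 102) ^ (1 / 100 : ℝ) := by
            rw [Real.mul_rpow (by linarith) (by positivity)]
        _ ≤ K1 * (S : ℝ) ^ 2 := mul_le_mul_of_nonneg_left hS102 hK1p.le
    have h2 : (S : ℝ) ^ 2 ≤ (S : ℝ) ^ 14 := pow_le_pow_right₀ hSr (by norm_num)
    calc (bad.card : ℝ) ≤ Y := hcardY
      _ = (Y : ℝ) ^ (99 / 100 : ℝ) * (Y : ℝ) ^ (1 / 100 : ℝ) := hYsplit
      _ ≤ (Y : ℝ) ^ (99 / 100 : ℝ) * (K1 * (S : ℝ) ^ 2) := mul_le_mul_of_nonneg_left h1 hY99.le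
      _ ≤ (Y : ℝ) ^ (99 / 100 : ℝ) * ((K1 + K2) * (S : ℝ) ^ 14) := by
          apply mul_le_mul_of_nonneg_left _ hY99.le
          apply mul_le_mul (by linarith) h2 (by positivity) (by positivity)
      _ = (K1 + K2) * (S : ℝ) ^ 14 * (Y : ℝ) ^ (99 / 100 : ℝ) := by ring
  · -- large `Y`
    set a : ℝ := Y / (C2 * (S : ℝ) ^ 102) with ha
    have hCS : 0 < C2 * (S : ℝ) ^ 102 := by positivity
    have ha0 : 0 < a := by positivity
    have haG0 : (G0 : ℝ) ^ 13830 ≤ a := by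
      rw [ha, le_div_iff₀ hCS]
      calc (G0 : ℝ) ^ 13830 * (C2 * (S : ℝ) ^ 102) = C3 * (S : ℝ) ^ 102 := by rw [hC3]; ring
        _ ≤ (Y : ℝ) := hlarge
    set b : ℝ := a ^ (1 / 13830 : ℝ) with hb
    have hb0 : 0 < b := Real.rpow_pos_of_pos ha0 _
    have hba : b ^ 13830 = a := by
      rw [hb, ← Real.rpow_natCast, ← Real.rpow_mul ha0.le]
      norm_num
    have hbG0 : (G0 : ℝ) ≤ b := by
      have h1 : (G0 : ℝ) ^ 13830 ≤ b ^ 13830 := by rw [hba]; exact haG0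
      exact le_of_pow_le_pow_left₀ (by norm_num) hb0.le h1
    set G : ℕ := ⌊b⌋₊ with hG
    have hGb : (G : ℝ) ≤ b := Nat.floor_le hb0.le
    have hbG : b < G + 1 := Nat.lt_floor_add_one b
    have hG0G : G0 ≤ G := Nat.le_floor hbG0
    have hG0Gr : (G0 : ℝ) ≤ G := by exact_mod_cast hG0G
    have hGr : (1 : ℝ) ≤ G := by linarith
    have hG1 : 1 ≤ G := by exact_mod_cast hGr
    have hG0' : (0 : ℝ) < G := by linarith
    have hb2G : b ≤ 2 * G := by linarith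
    -- the number of squarefree sums of two squares
    have hNNG : c * (G : ℝ) ^ 379 ≤ ((NN (G ^ 380)).card : ℝ) := by
      have h1 := hNN (G ^ 380) (Nat.one_le_pow _ _ hG1)
      have h2 : ((G ^ 380 : ℕ) : ℝ) ^ (1 - 1 / 380 : ℝ) = (G : ℝ) ^ 379 := by
        push_cast
        rw [← Real.rpow_natCast (G : ℝ) 380, ← Real.rpow_mul hG0'.le, ← Real.rpow_natCast]
        norm_num
      rw [h2] at h1
      exact h1
    have hcG : 6 ≤ c * (G : ℝ) ^ 379 := by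
      have h1 : 6 / c ≤ (G : ℝ) ^ 379 := by
        calc 6 / c ≤ (G : ℝ) := by linarith
          _ ≤ (G : ℝ) ^ 379 := le_self_pow₀ hGr (by norm_num)
      rw [div_le_iff₀ hc] at h1
      linarith
    set Nc := (NN (G ^ 380)).card with hNc
    have hNc6 : 6 ≤ Nc := by
      have : (6 : ℝ) ≤ Nc := le_trans hcG hNNG
      exact_mod_cast this
    set q := Nc / 3 with hq
    have hq3 : 3 * q ≤ Nc := Nat.mul_div_le Nc 3
    have hq1 : 1 ≤ q := by omega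
    have hq6 : Nc ≤ 6 * q := by omega
    have hqr1 : (1 : ℝ) ≤ q := by exact_mod_cast hq1
    have hq0 : (0 : ℝ) < q := by linarith
    have hNcle : Nc ≤ G ^ 380 := by
      have h1 : NN (G ^ 380) ⊆ Icc 1 (G ^ 380) := by
        rw [NN]; exact Finset.filter_subset _ _
      have h2 := Finset.card_le_card h1
      rwa [Nat.card_Icc, Nat.add_sub_cancel] at h2
    have hqle : (q : ℝ) ≤ (G : ℝ) ^ 380 := by
      have : q ≤ G ^ 380 := by omega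
      exact_mod_cast this
    have hqge : c / 6 * (G : ℝ) ^ 379 ≤ q := by
      have h1 : (Nc : ℝ) ≤ 6 * q := by exact_mod_cast hq6
      linarith
    have hcond : (20 * (64 * (G : ℝ) ^ 200 * (S : ℝ) ^ 3) * q) ^ 3 *
        (3840 * (G : ℝ) ^ 390 * (S : ℝ) ^ 3) ^ 31 ≤ Y := by
      have h1 : 20 * (64 * (G : ℝ) ^ 200 * (S : ℝ) ^ 3) * q ≤
          1280 * ((G : ℝ) ^ 580 * (S : ℝ) ^ 3) := by
        calc 20 * (64 * (G : ℝ) ^ 200 * (S : ℝ) ^ 3) * q ≤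
              20 * (64 * (G : ℝ) ^ 200 * (S : ℝ) ^ 3) * (G : ℝ) ^ 380 :=
              mul_le_mul_of_nonneg_left hqle (by positivity)
          _ = 1280 * ((G : ℝ) ^ 580 * (S : ℝ) ^ 3) := by ring
      have h2 : (20 * (64 * (G : ℝ) ^ 200 * (S : ℝ) ^ 3) * q) ^ 3 ≤
          (1280 * ((G : ℝ) ^ 580 * (S : ℝ) ^ 3)) ^ 3 := pow_le_pow_left₀ (by positivity) h1 3
      have h3 : (1280 * ((G : ℝ) ^ 580 * (S : ℝ) ^ 3)) ^ 3 =
          1280 ^ 3 * ((G : ℝ) ^ 1740 * (S : ℝ) ^ 9) := by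
        rw [mul_pow, mul_pow, ← pow_mul, ← pow_mul]
      have h4 : (3840 * (G : ℝ) ^ 390 * (S : ℝ) ^ 3) ^ 31 =
          3840 ^ 31 * ((G : ℝ) ^ 12090 * (S : ℝ) ^ 93) := by
        rw [mul_assoc, mul_pow, mul_pow, ← pow_mul, ← pow_mul]
      have h5 : (G : ℝ) ^ 13830 * (S : ℝ) ^ 102 * C2 ≤ Y := by
        have h6 : (G : ℝ) ^ 13830 ≤ a := by
          rw [← hba]; exact pow_le_pow_left₀ hG0'.le hGb _
        rw [ha, le_div_iff₀ hCS] at h6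
        calc (G : ℝ) ^ 13830 * (S : ℝ) ^ 102 * C2 = (G : ℝ) ^ 13830 * (C2 * (S : ℝ) ^ 102) := by ring
          _ ≤ (Y : ℝ) := h6
      calc (20 * (64 * (G : ℝ) ^ 200 * (S : ℝ) ^ 3) * q) ^ 3 *
            (3840 * (G : ℝ) ^ 390 * (S : ℝ) ^ 3) ^ 31
          ≤ (1280 ^ 3 * ((G : ℝ) ^ 1740 * (S : ℝ) ^ 9)) *
            (3840 ^ 31 * ((G : ℝ) ^ 12090 * (S : ℝ) ^ 93)) := by
            rw [← h3, ← h4]
            exact mul_le_mul_of_nonneg_right h2 (by positivity)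
        _ = (G : ℝ) ^ (1740 + 12090) * (S : ℝ) ^ (9 + 93) * (1280 ^ 3 * 3840 ^ 31) := by
            rw [pow_add (G : ℝ) 1740 12090, pow_add (S : ℝ) 9 93]; ring
        _ ≤ (Y : ℝ) := by rw [← hC2def]; exact h5
    have hmain := count_bad x Y S G q hY hYx hS hG1 hq3 hq1 hcond bad hbad
    -- combine
    have h1 : (bad.card : ℝ) * ((c / 6) ^ 3 * (G : ℝ) ^ 1137) ≤
        15360 * 25600 ^ 3 * Y * ((G : ℝ) ^ 990 * (S : ℝ) ^ 12) := by
      have h2 : (c / 6) ^ 3 * (G : ℝ) ^ 1137 ≤ (q : ℝ) ^ 3 := by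
        calc (c / 6) ^ 3 * (G : ℝ) ^ 1137 = (c / 6 * (G : ℝ) ^ 379) ^ 3 := by
              rw [mul_pow, ← pow_mul]
          _ ≤ (q : ℝ) ^ 3 := pow_le_pow_left₀ (by positivity) hqge 3
      calc (bad.card : ℝ) * ((c / 6) ^ 3 * (G : ℝ) ^ 1137) ≤ (bad.card : ℝ) * (q : ℝ) ^ 3 :=
            mul_le_mul_of_nonneg_left h2 (Nat.cast_nonneg _)
        _ ≤ _ := hmain
        _ = 15360 * 25600 ^ 3 * Y * ((G : ℝ) ^ 990 * (S : ℝ) ^ 12) := by ring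
    have h2 : (bad.card : ℝ) * (G : ℝ) ^ 147 ≤
        15360 * 25600 ^ 3 * (6 / c) ^ 3 * Y * (S : ℝ) ^ 12 := by
      have h3 : ((c / 6) ^ 3 * (G : ℝ) ^ 990) * ((bad.card : ℝ) * (G : ℝ) ^ 147) ≤
          ((c / 6) ^ 3 * (G : ℝ) ^ 990) * (15360 * 25600 ^ 3 * (6 / c) ^ 3 * Y * (S : ℝ) ^ 12) := by
        calc ((c / 6) ^ 3 * (G : ℝ) ^ 990) * ((bad.card : ℝ) * (G : ℝ) ^ 147) =
              (bad.card : ℝ) * ((c / 6) ^ 3 * ((G : ℝ) ^ (990 + 147))) := by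
                rw [pow_add]; ring
          _ ≤ 15360 * 25600 ^ 3 * Y * ((G : ℝ) ^ 990 * (S : ℝ) ^ 12) := h1
          _ = ((c / 6) ^ 3 * (6 / c) ^ 3) * (15360 * 25600 ^ 3 * Y *
                ((G : ℝ) ^ 990 * (S : ℝ) ^ 12)) := by
              have : (c / 6) ^ 3 * (6 / c) ^ 3 = 1 := by
                rw [← mul_pow]
                have : c / 6 * (6 / c) = 1 := by field_simp
                rw [this, one_pow]
              rw [this, one_mul]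
          _ = _ := by ring
      exact le_of_mul_le_mul_left h3 (by positivity)
    -- lower bound for `G ^ 147`
    have h3 : a ^ (1 / 100 : ℝ) ≤ 2 ^ 147 * (G : ℝ) ^ 147 := by
      have hb1 : 1 ≤ b := by linarith
      calc a ^ (1 / 100 : ℝ) = b ^ (138.3 : ℝ) := by
            rw [hb, ← Real.rpow_mul ha0.le]; norm_num
        _ ≤ b ^ (147 : ℝ) := Real.rpow_le_rpow_of_exponent_le hb1 (by norm_num)
        _ = b ^ 147 := by
            rw [← Real.rpow_natCast]; norm_num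
        _ ≤ (2 * G) ^ 147 := pow_le_pow_left₀ hb0.le hb2G _
        _ = 2 ^ 147 * (G : ℝ) ^ 147 := by rw [mul_pow]
    have ha100 : 0 < a ^ (1 / 100 : ℝ) := Real.rpow_pos_of_pos ha0 _
    have hY100 : 0 < (Y : ℝ) ^ (1 / 100 : ℝ) := Real.rpow_pos_of_pos hY0 _
    have h4 : (Y : ℝ) ^ (1 / 100 : ℝ) ≤ a ^ (1 / 100 : ℝ) * (C2 ^ (1 / 100 : ℝ) * (S : ℝ) ^ 2) := by
      have h5 : (Y : ℝ) = a * (C2 * (S : ℝ) ^ 102) := by rw [ha]; field_simp
      calc (Y : ℝ) ^ (1 / 100 : ℝ) = (a * (C2 * (S : ℝ) ^ 102)) ^ (1 / 100 : ℝ) := by rw [← h5]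
        _ = a ^ (1 / 100 : ℝ) * (C2 ^ (1 / 100 : ℝ) * ((S : ℝ) ^ 102) ^ (1 / 100 : ℝ)) := by
            rw [Real.mul_rpow ha0.le (by positivity), Real.mul_rpow (by linarith) (by positivity)]
        _ ≤ _ := by
            apply mul_le_mul_of_nonneg_left _ ha100.le
            apply mul_le_mul_of_nonneg_left hS102
            exact Real.rpow_nonneg (by linarith) _
    have h5 : (bad.card : ℝ) * a ^ (1 / 100 : ℝ) ≤
        15360 * 25600 ^ 3 * (6 / c) ^ 3 * 2 ^ 147 * Y * (S : ℝ) ^ 12 := by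
      calc (bad.card : ℝ) * a ^ (1 / 100 : ℝ) ≤ (bad.card : ℝ) * (2 ^ 147 * (G : ℝ) ^ 147) :=
            mul_le_mul_of_nonneg_left h3 (Nat.cast_nonneg _)
        _ = 2 ^ 147 * ((bad.card : ℝ) * (G : ℝ) ^ 147) := by ring
        _ ≤ 2 ^ 147 * (15360 * 25600 ^ 3 * (6 / c) ^ 3 * Y * (S : ℝ) ^ 12) :=
            mul_le_mul_of_nonneg_left h2 (by positivity)
        _ = _ := by ring
    have hC2p : 0 < C2 ^ (1 / 100 : ℝ) := Real.rpow_pos_of_pos (by linarith) _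
    have h6 : (bad.card : ℝ) * (Y : ℝ) ^ (1 / 100 : ℝ) ≤
        (K2 * (S : ℝ) ^ 14 * (Y : ℝ) ^ (99 / 100 : ℝ)) * (Y : ℝ) ^ (1 / 100 : ℝ) := by
      calc (bad.card : ℝ) * (Y : ℝ) ^ (1 / 100 : ℝ) ≤
            (bad.card : ℝ) * (a ^ (1 / 100 : ℝ) * (C2 ^ (1 / 100 : ℝ) * (S : ℝ) ^ 2)) :=
            mul_le_mul_of_nonneg_left h4 (Nat.cast_nonneg _)
        _ = ((bad.card : ℝ) * a ^ (1 / 100 : ℝ)) * (C2 ^ (1 / 100 : ℝ) * (S : ℝ) ^ 2) := by ring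
        _ ≤ (15360 * 25600 ^ 3 * (6 / c) ^ 3 * 2 ^ 147 * Y * (S : ℝ) ^ 12) *
            (C2 ^ (1 / 100 : ℝ) * (S : ℝ) ^ 2) :=
            mul_le_mul_of_nonneg_right h5 (by positivity)
        _ = K2 * (S : ℝ) ^ 14 * Y := by rw [hK2]; ring
        _ = _ := by
            rw [mul_assoc (K2 * (S : ℝ) ^ 14), ← hYsplit]
    have h7 := le_of_mul_le_mul_right h6 hY100
    refine le_trans h7 ?_
    apply mul_le_mul_of_nonneg_right _ hY99.le
    apply mul_le_mul_of_nonneg_right _ (by positivity)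
    linarith

end Run7.h770
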