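import Mathlib
import Pool.Agent.Run7.h770.Greedy

/-!
# The window lemma for squares of primes `≡ 1 mod 4`
-/

set_option autoImplicit false

namespace Run7.h770

/-- The window lemma with a hypothesis on the multiplier `ρ = √n` where `n = u² + v²` with `u, v`
coprime. -/
theorem window_gen (u v : ℤ) (hcop : IsCoprime u v) {ρ : ℝ} (hρ1 : 1 ≤ ρ)
    (hρ : ρ ^ 2 = (u : ℝ) ^ 2 + (v : ℝ) ^ 2) {R η lo hi : ℝ}
    (hR : 1 ≤ R) (hη : 0 ≤ η) (hlo : ρ ^ 4 / 4 ≤ lo * (ρ * R)) (hhi : 8 * (hi * ρ) ≤ η ^ 2)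
    (h3 : lo ≤ Int.fract (ρ * R)) (h4 : Int.fract (ρ * R) ≤ hi) :
    ∃ a b : ℕ, R ^ 2 - η * √R ≤ ((a ^ 2 + b ^ 2 : ℕ) : ℝ) ∧ ((a ^ 2 + b ^ 2 : ℕ) : ℝ) ≤ R ^ 2 := by
  set t := Int.fract (ρ * R) with ht
  have ht0 : 0 ≤ t := Int.fract_nonneg _
  have ht1 : t < 1 := Int.fract_lt_one _
  set k : ℤ := ⌊ρ * R⌋ with hk
  have hkt : (k : ℝ) = ρ * R - t := by
    rw [ht, hk, Int.fract]; ring
  have hnR : 1 ≤ ρ * R := by nlinarith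
  have hρ0 : 0 ≤ ρ := by linarith
  set D : ℝ := ρ ^ 2 * R ^ 2 - (k : ℝ) ^ 2 with hD
  have hD2 : D = t * (2 * (ρ * R) - t) := by
    rw [hD, hkt]; ring
  have hDlo : (ρ ^ 2) ^ 2 / 4 ≤ D := by
    rw [hD2]
    calc (ρ ^ 2) ^ 2 / 4 = ρ ^ 4 / 4 := by ring
      _ ≤ lo * (ρ * R) := hlo
      _ ≤ t * (ρ * R) := mul_le_mul_of_nonneg_right h3 (by positivity)
      _ ≤ t * (2 * (ρ * R) - t) := mul_le_mul_of_nonneg_left (by linarith) ht0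
  have hDhi : 4 * D ≤ η ^ 2 * R := by
    rw [hD2]
    have h5 : t * (2 * (ρ * R) - t) ≤ t * (2 * (ρ * R)) :=
      mul_le_mul_of_nonneg_left (by linarith) ht0
    have h6 : t * ρ ≤ hi * ρ := mul_le_mul_of_nonneg_right h4 hρ0
    have h7 : 8 * (t * ρ) * R ≤ η ^ 2 * R := mul_le_mul_of_nonneg_right (by linarith) (by linarith)
    nlinarith
  have hD0 : 0 ≤ D := le_trans (by positivity) hDlo
  obtain ⟨a, b, hab1, hab2⟩ := greedy u v k hcop (ρ ^ 2) R D hρ hD (by positivity) hDlo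
  refine ⟨a.natAbs, b.natAbs, ?_, ?_⟩
  · have h8 : ((a.natAbs ^ 2 + b.natAbs ^ 2 : ℕ) : ℝ) = (a : ℝ) ^ 2 + (b : ℝ) ^ 2 := by
      push_cast
      rw [Nat.cast_natAbs, Nat.cast_natAbs, Int.cast_abs, Int.cast_abs, sq_abs, sq_abs]
    rw [h8]
    have h9 : 2 * √D ≤ η * √R := by
      have h10 : 2 * √D = √(4 * D) := by
        rw [Real.sqrt_mul (by norm_num : (0:ℝ) ≤ 4)]
        congr 1
        rw [show (4 : ℝ) = 2 ^ 2 by norm_num, Real.sqrt_sq (by norm_num)]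
      have h11 : η * √R = √(η ^ 2 * R) := by
        rw [Real.sqrt_mul (by positivity), Real.sqrt_sq hη]
      rw [h10, h11]
      exact Real.sqrt_le_sqrt hDhi
    linarith
  · have h8 : ((a.natAbs ^ 2 + b.natAbs ^ 2 : ℕ) : ℝ) = (a : ℝ) ^ 2 + (b : ℝ) ^ 2 := by
      push_cast
      rw [Nat.cast_natAbs, Nat.cast_natAbs, Int.cast_abs, Int.cast_abs, sq_abs, sq_abs]
    rw [h8]; exact hab2

/-- `p²` is a sum of two coprime squares if `p ≡ 1 mod 4` is prime. -/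
theorem prime_sq_rep {p : ℕ} (hp : p.Prime) (h1 : (p : ZMod 4) = 1) :
    ∃ u v : ℤ, IsCoprime u v ∧ (p : ℤ) ^ 2 = u ^ 2 + v ^ 2 := by
  have hp4 : p % 4 = 1 := by
    have h2 : ((p : ℕ) : ZMod 4) = ((1 : ℕ) : ZMod 4) := by simpa using h1
    rw [ZMod.natCast_eq_natCast_iff] at h2
    exact h2
  have := Fact.mk hp
  obtain ⟨a, b, hab⟩ := Nat.Prime.sq_add_sq (p := p) (by omega)
  have habz : (a : ℤ) ^ 2 + (b : ℤ) ^ 2 = p := by exact_mod_cast hab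
  have hpz : Prime (p : ℤ) := Nat.prime_iff_prime_int.mp hp
  refine ⟨(a : ℤ) ^ 2 - (b : ℤ) ^ 2, 2 * a * b, ?_, by rw [← habz]; ring⟩
  rw [Int.isCoprime_iff_gcd_eq_one, Int.gcd_eq_natAbs, ← Nat.coprime_iff_gcd_eq_one]
  apply Nat.Coprime.symm
  rw [Nat.Coprime, ← Int.gcd_eq_natAbs, Int.gcd_comm]
  by_contra hg
  obtain ⟨ℓ, hℓ, hℓd⟩ := Nat.exists_prime_and_dvd hg
  have hℓz : Prime (ℓ : ℤ) := Nat.prime_iff_prime_int.mp hℓ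
  have hd1 : (ℓ : ℤ) ∣ (a : ℤ) ^ 2 - (b : ℤ) ^ 2 :=
    (Int.natCast_dvd_natCast.mpr hℓd).trans (Int.gcd_dvd_left _ _)
  have hd2 : (ℓ : ℤ) ∣ 2 * a * b :=
    (Int.natCast_dvd_natCast.mpr hℓd).trans (Int.gcd_dvd_right _ _)
  -- `ℓ ∣ p²`, hence `ℓ = p`
  have hd3 : (ℓ : ℤ) ∣ (p : ℤ) ^ 2 := by
    have h3 : (p : ℤ) ^ 2 = ((a : ℤ) ^ 2 - (b : ℤ) ^ 2) * ((a : ℤ) ^ 2 - (b : ℤ) ^ 2) +
        (2 * a * b) * (2 * a * b) := by rw [← habz]; ring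
    rw [h3]
    exact dvd_add (Dvd.dvd.mul_right hd1 _) (Dvd.dvd.mul_right hd2 _)
  have hd4 : ℓ ∣ p := by
    have := hℓz.dvd_of_dvd_pow hd3
    exact_mod_cast this
  have hℓp : ℓ = p := (Nat.prime_dvd_prime_iff_eq hℓ hp).mp hd4
  subst hℓp
  -- `p ∣ a² - b²` and `p ∣ a² + b²` give `p ∣ 2 a²`
  have hd5 : (ℓ : ℤ) ∣ 2 * (a : ℤ) ^ 2 := by
    have h4 : 2 * (a : ℤ) ^ 2 = ((a : ℤ) ^ 2 - (b : ℤ) ^ 2) + ((a : ℤ) ^ 2 + (b : ℤ) ^ 2) := by ring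
    rw [h4, habz]
    exact dvd_add hd1 (dvd_refl _)
  have hd6 : (ℓ : ℤ) ∣ (a : ℤ) := by
    rcases hpz.dvd_or_dvd hd5 with h5 | h5
    · exfalso
      have h6 : ℓ ∣ 2 := by exact_mod_cast h5
      have h7 := Nat.le_of_dvd (by norm_num) h6
      have h8 := hℓ.two_le
      omega
    · exact hpz.dvd_of_dvd_pow h5
  have hd7 : ℓ ∣ a := by exact_mod_cast hd6
  -- then `a = 0` or `a ≥ p`, both impossible
  rcases Nat.eq_zero_or_pos a with ha | ha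
  · rw [ha] at hab
    have h5 : b ^ 2 = ℓ := by simpa using hab
    have h7 : ¬ (b ^ 2).Prime := Nat.Prime.not_prime_pow (le_refl 2)
    rw [h5] at h7
    exact h7 hℓ
  · have h5 := Nat.le_of_dvd ha hd7
    have h6 := hℓ.two_le
    nlinarith

end Run7.h770
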