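import Mathlib
import Pool.Agent.Helper379.Div3

/-!
# One-sided approximation by fractions whose denominator is a prime `≡ 1 mod 4`

For every `κ > 0`, almost every real `θ` satisfies `0 < {p θ} < κ / p` for some prime `p ≡ 1 mod 4`.
-/

set_option autoImplicit false

open Finset MeasureTheory

namespace Run7.h770

/-- The set of `θ` with `0 < {p θ} < κ / p`. -/
def EE (κ : ℝ) (p : ℕ) : Set ℝ := {θ | 0 < Int.fract ((p : ℝ) * θ) ∧ Int.fract ((p : ℝ) * θ) < κ / p}

/-- Its part in `[0, 1)`. -/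
def EI (κ : ℝ) (p : ℕ) : Set ℝ := EE κ p ∩ Set.Ico 0 1

theorem EI_eq (κ : ℝ) (hκ0 : 0 < κ) (hκ1 : κ ≤ 1) (p : ℕ) (hp : 0 < p) :
    EI κ p = ⋃ k ∈ range p, Set.Ioo ((k : ℝ) / p) ((k : ℝ) / p + κ / p ^ 2) := by
  have hpr : (0 : ℝ) < p := by exact_mod_cast hp
  have hp1 : (1 : ℝ) ≤ p := by exact_mod_cast hp
  ext θ
  simp only [EI, EE, Set.mem_inter_iff, Set.mem_ofPred_eq, Set.mem_Ico, Set.mem_iUnion, mem_range,
    Set.mem_Ioo, exists_prop]
  constructor
  · rintro ⟨⟨h1, h2⟩, h3, h4⟩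
    have h5 : 0 ≤ (p : ℝ) * θ := by positivity
    set k : ℕ := ⌊(p : ℝ) * θ⌋₊ with hk
    have h6 : Int.fract ((p : ℝ) * θ) = (p : ℝ) * θ - k := by
      rw [Int.fract, hk, natCast_floor_eq_intCast_floor h5]
    rw [h6] at h1 h2
    refine ⟨k, ?_, ?_, ?_⟩
    · rw [hk, Nat.floor_lt h5]
      nlinarith
    · rw [div_lt_iff₀ hpr]; linarith
    · have : θ = (k : ℝ) / p + ((p : ℝ) * θ - k) / p := by field_simp; ring
      rw [this]
      have h7 : ((p : ℝ) * θ - k) / p < κ / p ^ 2 := by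
        rw [div_lt_div_iff₀ hpr (by positivity)]
        rw [lt_div_iff₀ hpr] at h2
        nlinarith
      linarith
  · rintro ⟨k, hk, h1, h2⟩
    have hkr : (k : ℝ) + 1 ≤ p := by exact_mod_cast hk
    rw [div_lt_iff₀ hpr] at h1
    have h3 : (p : ℝ) * θ < k + κ / p := by
      have h4 : (p : ℝ) * θ < p * ((k : ℝ) / p + κ / p ^ 2) := mul_lt_mul_of_pos_left h2 hpr
      have h5 : p * ((k : ℝ) / p + κ / p ^ 2) = k + κ / p := by field_simp
      linarith
    have hκp : κ / p ≤ 1 := by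
      rw [div_le_one hpr]; linarith
    have h6 : Int.fract ((p : ℝ) * θ) = (p : ℝ) * θ - k := by
      rw [Int.fract]
      have : ⌊(p : ℝ) * θ⌋ = (k : ℤ) := by
        rw [Int.floor_eq_iff]
        push_cast
        constructor <;> linarith
      rw [this]; push_cast; ring
    rw [h6]
    refine ⟨⟨by linarith, by linarith⟩, ?_, ?_⟩
    · have : 0 < (p : ℝ) * θ := by
        have : (0 : ℝ) ≤ k := Nat.cast_nonneg k
        linarith
      by_contra hneg
      push Not at hneg
      have := mul_nonpos_of_nonneg_of_nonpos hpr.le hneg.le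
      linarith
    · have : (p : ℝ) * θ < p * 1 := by linarith
      exact lt_of_mul_lt_mul_left this hpr.le

theorem measurableSet_EI (κ : ℝ) (hκ0 : 0 < κ) (hκ1 : κ ≤ 1) (p : ℕ) (hp : 0 < p) :
    MeasurableSet (EI κ p) := by
  rw [EI_eq κ hκ0 hκ1 p hp]
  exact Finset.measurableSet_biUnion _ fun k _ => measurableSet_Ioo

theorem volume_EI (κ : ℝ) (hκ0 : 0 < κ) (hκ1 : κ ≤ 1) (p : ℕ) (hp : 2 ≤ p) :
    volume.real (EI κ p) = κ / p := by
  have hpr : (0 : ℝ) < p := by exact_mod_cast (by omega : 0 < p)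
  have hp2 : (2 : ℝ) ≤ p := by exact_mod_cast hp
  rw [EI_eq κ hκ0 hκ1 p (by omega), Measure.real, measure_biUnion_finset]
  · have h1 : ∀ k ∈ range p, volume (Set.Ioo ((k : ℝ) / p) ((k : ℝ) / p + κ / p ^ 2)) =
        ENNReal.ofReal (κ / p ^ 2) := by
      intro k _
      rw [Real.volume_Ioo]
      congr 1
      ring
    rw [Finset.sum_congr rfl h1, Finset.sum_const, card_range, nsmul_eq_mul, ENNReal.toReal_mul,
      ENNReal.toReal_natCast, ENNReal.toReal_ofReal (by positivity)]
    field_simp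
  · intro k _ l _ hkl
    simp only [Function.onFun]
    rw [Set.disjoint_left]
    rintro θ ⟨h1, h2⟩ ⟨h3, h4⟩
    apply hkl
    have hκp : κ / (p : ℝ) ^ 2 ≤ 1 / p := by
      rw [div_le_div_iff₀ (by positivity) hpr]
      nlinarith
    have h5 : (k : ℝ) / p < (l : ℝ) / p + 1 / p := by linarith
    have h6 : (l : ℝ) / p < (k : ℝ) / p + 1 / p := by linarith
    rw [← add_div, div_lt_div_iff_of_pos_right hpr] at h5 h6
    have h7 : k < l + 1 := by exact_mod_cast h5
    have h8 : l < k + 1 := by exact_mod_cast h6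
    omega
  · exact fun k _ => measurableSet_Ioo

/-- Quasi-independence. -/
theorem volume_inter (κ : ℝ) (hκ0 : 0 < κ) (hκ1 : κ ≤ 1) (p q : ℕ) (hp : 2 ≤ p) (hpq : p < q)
    (hcop : Nat.Coprime p q) :
    volume.real (EI κ p ∩ EI κ q) ≤ κ / p * (κ / q) + κ / q ^ 2 := by
  have hpr : (0 : ℝ) < p := by exact_mod_cast (by omega : 0 < p)
  have hqr : (0 : ℝ) < q := by exact_mod_cast (by omega : 0 < q)
  have hpqr : (p : ℝ) < q := by exact_mod_cast hpq
  have hq0 : 0 < q := by omega
  set A : Finset ℕ := (range q).filter (fun j => (((p * j) % q : ℕ) : ℝ) < κ * q / p) with hA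
  have hsub : EI κ p ∩ EI κ q ⊆ ⋃ j ∈ A, Set.Ico ((j : ℝ) / q) ((j : ℝ) / q + κ / q ^ 2) := by
    rintro θ ⟨⟨⟨h1, h2⟩, h3, h4⟩, ⟨⟨h5, h6⟩, -⟩⟩
    simp only [Set.mem_iUnion, Set.mem_Ico, exists_prop]
    have h7 : 0 ≤ (q : ℝ) * θ := by positivity
    set j : ℕ := ⌊(q : ℝ) * θ⌋₊ with hj
    have h8 : Int.fract ((q : ℝ) * θ) = (q : ℝ) * θ - j := by
      rw [Int.fract, hj, natCast_floor_eq_intCast_floor h7]
    rw [h8] at h5 h6
    have hjq : j < q := by
      rw [hj, Nat.floor_lt h7]; nlinarith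
    refine ⟨j, ?_, ?_, ?_⟩
    · rw [hA, mem_filter, mem_range]
      refine ⟨hjq, ?_⟩
      -- `p θ = p j / q + p (q θ - j) / q`
      have h9 : (p : ℝ) * θ = (p : ℝ) * j / q + p * ((q : ℝ) * θ - j) / q := by
        field_simp; ring
      have h10 : (p : ℝ) * j = q * ((p * j / q : ℕ) : ℝ) + ((p * j % q : ℕ) : ℝ) := by
        have := Nat.div_add_mod (p * j) q
        have h11 : ((p * j : ℕ) : ℝ) = ((q * (p * j / q) + p * j % q : ℕ) : ℝ) := by rw [this]
        push_cast at h11 ⊢
        linarith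
      set r : ℝ := ((p * j % q : ℕ) : ℝ) with hr
      have hrq : r + 1 ≤ q := by
        have : p * j % q + 1 ≤ q := Nat.mod_lt _ hq0
        rw [hr]
        exact_mod_cast this
      have hr0 : 0 ≤ r := Nat.cast_nonneg _
      have hps : p * ((q : ℝ) * θ - j) < 1 := by
        rw [lt_div_iff₀ hqr] at h6
        have : (p : ℝ) * ((q : ℝ) * θ - j) ≤ q * ((q : ℝ) * θ - j) :=
          mul_le_mul_of_nonneg_right hpqr.le h5.le
        nlinarith
      have hps0 : 0 < p * ((q : ℝ) * θ - j) := mul_pos hpr h5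
      have h12 : (p : ℝ) * θ = ((p * j / q : ℕ) : ℝ) + (r + p * ((q : ℝ) * θ - j)) / q := by
        rw [h9, h10]; field_simp
        ring
      have h13 : Int.fract ((p : ℝ) * θ) = (r + p * ((q : ℝ) * θ - j)) / q := by
        rw [Int.fract]
        have : ⌊(p : ℝ) * θ⌋ = ((p * j / q : ℕ) : ℤ) := by
          rw [Int.floor_eq_iff, h12, Int.cast_natCast]
          constructor
          · have : 0 ≤ (r + p * ((q : ℝ) * θ - j)) / q := by positivity
            linarith
          · have : (r + p * ((q : ℝ) * θ - j)) / q < 1 := by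
              rw [div_lt_one hqr]; linarith
            linarith
        rw [this, h12, Int.cast_natCast]; ring
      rw [h13, div_lt_div_iff₀ hqr hpr] at h2
      rw [lt_div_iff₀ hpr]
      nlinarith
    · rw [div_le_iff₀ hqr]; linarith
    · have : θ = (j : ℝ) / q + ((q : ℝ) * θ - j) / q := by field_simp; ring
      rw [this]
      have h9 : ((q : ℝ) * θ - j) / q < κ / q ^ 2 := by
        rw [div_lt_div_iff₀ hqr (by positivity)]
        rw [lt_div_iff₀ hqr] at h6
        nlinarith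
      linarith
  -- the cardinality of `A`
  have hAcard : (A.card : ℝ) ≤ κ * q / p + 1 := by
    have h1 : A.card ≤ (range (⌊κ * q / p⌋₊ + 1)).card := by
      apply Finset.card_le_card_of_injOn (fun j => (p * j) % q)
      · intro j hj
        rw [mem_coe, hA, mem_filter] at hj
        rw [mem_coe, mem_range, Nat.lt_succ_iff]
        exact Nat.le_floor hj.2.le
      · intro j hj j' hj' h
        rw [mem_coe, hA, mem_filter, mem_range] at hj hj'
        have h2 : p * j ≡ p * j' [MOD q] := h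
        have h3 : j ≡ j' [MOD q] := Nat.ModEq.cancel_left_of_coprime
          (by rw [Nat.gcd_comm]; exact hcop) h2
        exact Nat.ModEq.eq_of_lt_of_lt h3 hj.1 hj'.1
    rw [card_range] at h1
    have h2 : (⌊κ * q / p⌋₊ : ℝ) ≤ κ * q / p := Nat.floor_le (by positivity)
    have h3 : (A.card : ℝ) ≤ ((⌊κ * q / p⌋₊ + 1 : ℕ) : ℝ) := by exact_mod_cast h1
    push_cast at h3
    linarith
  have hvol : volume (EI κ p ∩ EI κ q) ≤ ENNReal.ofReal (A.card * (κ / q ^ 2)) := by
    calc volume (EI κ p ∩ EI κ q) ≤ volume (⋃ j ∈ A, Set.Ico ((j : ℝ) / q) ((j : ℝ) / q + κ / q ^ 2)) :=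
          measure_mono hsub
      _ ≤ ∑ j ∈ A, volume (Set.Ico ((j : ℝ) / q) ((j : ℝ) / q + κ / q ^ 2)) :=
          measure_biUnion_finset_le _ _
      _ = ∑ j ∈ A, ENNReal.ofReal (κ / q ^ 2) := by
          refine Finset.sum_congr rfl fun j _ => ?_
          rw [Real.volume_Ico]
          congr 1
          ring
      _ = ENNReal.ofReal (A.card * (κ / q ^ 2)) := by
          rw [Finset.sum_const, nsmul_eq_mul, ENNReal.ofReal_mul (Nat.cast_nonneg _),
            ENNReal.ofReal_natCast]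
  have h1 : volume.real (EI κ p ∩ EI κ q) ≤ A.card * (κ / q ^ 2) := by
    rw [Measure.real]
    exact ENNReal.toReal_le_of_le_ofReal (by positivity) hvol
  refine le_trans h1 ?_
  calc (A.card : ℝ) * (κ / q ^ 2) ≤ (κ * q / p + 1) * (κ / q ^ 2) :=
        mul_le_mul_of_nonneg_right hAcard (by positivity)
    _ = κ / p * (κ / q) + κ / q ^ 2 := by field_simp

/-- Chebyshev's inequality for a finite set of pairwise coprime moduli. -/
theorem volume_bad_le (κ : ℝ) (hκ0 : 0 < κ) (hκ1 : κ ≤ 1) (P : Finset ℕ) (hP : ∀ p ∈ P, 2 ≤ p)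
    (hcop : ∀ p ∈ P, ∀ q ∈ P, p ≠ q → Nat.Coprime p q) (hne : P.Nonempty) :
    volume.real (Set.Ico (0 : ℝ) 1 \ ⋃ p ∈ P, EI κ p) ≤ 3 / (∑ p ∈ P, κ / p) := by
  set μ : ℝ := ∑ p ∈ P, κ / (p : ℝ) with hμ
  have hμ0 : 0 < μ := Finset.sum_pos (fun p hp => by
    have : (0 : ℝ) < p := by exact_mod_cast (by have := hP p hp; omega : 0 < p)
    positivity) hne
  have hmeas : ∀ p ∈ P, MeasurableSet (EI κ p) := fun p hp =>
    measurableSet_EI κ hκ0 hκ1 p (by have := hP p hp; omega)
  have hsubI : ∀ p, EI κ p ⊆ Set.Ico (0 : ℝ) 1 := fun p => Set.inter_subset_right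
  set ν : Measure ℝ := volume.restrict (Set.Ico (0 : ℝ) 1) with hν
  have : IsFiniteMeasure ν := by rw [hν]; infer_instance
  have hνreal : ∀ S : Set ℝ, MeasurableSet S → S ⊆ Set.Ico (0 : ℝ) 1 → ν.real S = volume.real S := by
    intro S hS hSI
    rw [Measure.real, Measure.real, hν, Measure.restrict_apply hS, Set.inter_eq_left.mpr hSI]
  have hν1 : ν.real Set.univ = 1 := by
    rw [Measure.real, hν, Measure.restrict_apply_univ, Real.volume_Ico]; simp
  set g : ℕ → ℝ → ℝ := fun p => (EI κ p).indicator 1 with hg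
  have hgint : ∀ p ∈ P, Integrable (g p) ν := fun p hp =>
    (integrable_const (1 : ℝ)).indicator (hmeas p hp)
  have hgg : ∀ p q, (fun x => g p x * g q x) = (EI κ p ∩ EI κ q).indicator 1 := by
    intro p q
    funext x
    by_cases h1 : x ∈ EI κ p <;> by_cases h2 : x ∈ EI κ q <;> simp [hg, h1, h2]
  have hggint : ∀ p ∈ P, ∀ q ∈ P, Integrable (fun x => g p x * g q x) ν := by
    intro p hp q hq
    rw [hgg]
    exact (integrable_const (1 : ℝ)).indicator ((hmeas p hp).inter (hmeas q hq))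
  have h1 : ∀ p ∈ P, ∫ x, g p x ∂ν = κ / p := by
    intro p hp
    rw [hg, integral_indicator_one (hmeas p hp), hνreal _ (hmeas p hp) (hsubI p),
      volume_EI κ hκ0 hκ1 p (hP p hp)]
  have h2 : ∀ p ∈ P, ∀ q ∈ P, ∫ x, g p x * g q x ∂ν ≤ κ / p * (κ / q) +
      ((if p = q then κ / p else 0) + ((if p < q then κ / q ^ 2 else 0) +
        (if q < p then κ / p ^ 2 else 0))) := by
    intro p hp q hq
    have hp2 := hP p hp
    have hq2 := hP q hq
    have hpr : (0 : ℝ) < p := by exact_mod_cast (by omega : 0 < p)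
    have hqr : (0 : ℝ) < q := by exact_mod_cast (by omega : 0 < q)
    rw [hgg, integral_indicator_one ((hmeas p hp).inter (hmeas q hq)),
      hνreal _ ((hmeas p hp).inter (hmeas q hq)) (Set.inter_subset_left.trans (hsubI p))]
    rcases lt_trichotomy p q with h | h | h
    · rw [if_neg h.ne, if_pos h, if_neg h.not_gt]
      have := volume_inter κ hκ0 hκ1 p q hp2 h (hcop p hp q hq h.ne)
      linarith
    · subst h
      rw [if_pos rfl, if_neg (lt_irrefl _), Set.inter_self, volume_EI κ hκ0 hκ1 p hp2]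
      have : 0 < κ / p * (κ / p) := by positivity
      linarith
    · rw [if_neg h.ne', if_neg h.not_gt, if_pos h, Set.inter_comm]
      have := volume_inter κ hκ0 hκ1 q p hq2 h (hcop q hq p hp h.ne)
      linarith
  -- the sum function
  set F : ℝ → ℝ := fun x => ∑ p ∈ P, g p x with hF
  have hFint : Integrable F ν := integrable_finsetSum _ hgint
  have hF1 : ∫ x, F x ∂ν = μ := by
    rw [hF, integral_finsetSum _ hgint, hμ]
    exact Finset.sum_congr rfl h1
  have hFF : (fun x => F x * F x) = fun x => ∑ p ∈ P, ∑ q ∈ P, g p x * g q x := by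
    funext x
    rw [hF, Finset.sum_mul_sum]
  have hFFint : Integrable (fun x => F x * F x) ν := by
    rw [hFF]
    exact integrable_finsetSum _ fun p hp => integrable_finsetSum _ fun q hq => hggint p hp q hq
  have hF2 : ∫ x, F x * F x ∂ν ≤ μ ^ 2 + 3 * μ := by
    rw [hFF, integral_finsetSum _ (fun p hp => integrable_finsetSum _ fun q hq => hggint p hp q hq)]
    have h3 : ∀ p ∈ P, ∫ x, ∑ q ∈ P, g p x * g q x ∂ν = ∑ q ∈ P, ∫ x, g p x * g q x ∂ν := by
      intro p hp
      exact integral_finsetSum _ fun q hq => hggint p hp q hq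
    rw [Finset.sum_congr rfl h3]
    have hlt : ∀ q ∈ P, ∑ p ∈ P, (if p < q then κ / (q : ℝ) ^ 2 else 0) ≤ κ / q := by
      intro q hq
      have hqr : (0 : ℝ) < q := by exact_mod_cast (by have := hP q hq; omega : 0 < q)
      rw [← Finset.sum_filter, Finset.sum_const, nsmul_eq_mul]
      have h4 : (P.filter (fun p => p < q)).card ≤ q := by
        calc (P.filter (fun p => p < q)).card ≤ (range q).card := by
              apply Finset.card_le_card
              intro p hp
              rw [mem_filter] at hp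
              exact mem_range.mpr hp.2
          _ = q := card_range q
      have h5 : ((P.filter (fun p => p < q)).card : ℝ) ≤ q := by exact_mod_cast h4
      calc ((P.filter (fun p => p < q)).card : ℝ) * (κ / (q : ℝ) ^ 2) ≤ q * (κ / (q : ℝ) ^ 2) :=
            mul_le_mul_of_nonneg_right h5 (by positivity)
        _ = κ / q := by field_simp
    calc ∑ p ∈ P, ∑ q ∈ P, ∫ x, g p x * g q x ∂ν
        ≤ ∑ p ∈ P, ∑ q ∈ P, (κ / p * (κ / q) + ((if p = q then κ / p else 0) +
          ((if p < q then κ / (q : ℝ) ^ 2 else 0) + (if q < p then κ / (p : ℝ) ^ 2 else 0)))) :=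
          Finset.sum_le_sum fun p hp => Finset.sum_le_sum fun q hq => h2 p hp q hq
      _ = μ ^ 2 + (μ + ((∑ p ∈ P, ∑ q ∈ P, (if p < q then κ / (q : ℝ) ^ 2 else 0)) +
          ∑ p ∈ P, ∑ q ∈ P, (if q < p then κ / (p : ℝ) ^ 2 else 0))) := by
          simp only [Finset.sum_add_distrib]
          congr 1
          · rw [pow_two, hμ, Finset.sum_mul_sum]
          · congr 1
            rw [hμ]
            refine Finset.sum_congr rfl fun p hp => ?_
            rw [Finset.sum_ite_eq, if_pos hp]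
      _ ≤ μ ^ 2 + (μ + (μ + μ)) := by
          gcongr
          · rw [Finset.sum_comm, hμ]
            exact Finset.sum_le_sum fun q hq => hlt q hq
          · rw [hμ]
            exact Finset.sum_le_sum fun q hq => hlt q hq
      _ = μ ^ 2 + 3 * μ := by ring
  -- Chebyshev
  set S : Set ℝ := Set.Ico (0 : ℝ) 1 \ ⋃ p ∈ P, EI κ p with hS
  have hSmeas : MeasurableSet S :=
    measurableSet_Ico.diff (Finset.measurableSet_biUnion _ hmeas)
  have hFS : ∀ x ∈ S, F x = 0 := by
    intro x hx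
    rw [hF]
    apply Finset.sum_eq_zero
    intro p hp
    rw [hg]
    apply Set.indicator_of_notMem
    intro h3
    exact hx.2 (Set.mem_biUnion hp h3)
  have hle : ∀ x, μ ^ 2 * S.indicator 1 x ≤ (F x - μ) * (F x - μ) := by
    intro x
    by_cases hx : x ∈ S
    · rw [Set.indicator_of_mem hx, hFS x hx, Pi.one_apply]; nlinarith
    · rw [Set.indicator_of_notMem hx, mul_zero]; exact mul_self_nonneg _
  have hexp : (fun x => (F x - μ) * (F x - μ)) = fun x => F x * F x - (2 * μ) * F x + μ ^ 2 := by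
    funext x; ring
  have hintexp : Integrable (fun x => (F x - μ) * (F x - μ)) ν := by
    rw [hexp]
    exact (hFFint.sub (hFint.const_mul _)).add (integrable_const _)
  have h3 : ∫ x, μ ^ 2 * S.indicator 1 x ∂ν ≤ ∫ x, (F x - μ) * (F x - μ) ∂ν :=
    integral_mono (((integrable_const (1 : ℝ)).indicator hSmeas).const_mul _) hintexp hle
  have h4 : ∫ x, (F x - μ) * (F x - μ) ∂ν ≤ 3 * μ := by
    rw [hexp]
    have e1 : ∫ x, (F x * F x - 2 * μ * F x + μ ^ 2) ∂ν =
        (∫ x, (F x * F x - 2 * μ * F x) ∂ν) + ∫ x, μ ^ 2 ∂ν :=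
      integral_add (hFFint.sub (hFint.const_mul _)) (integrable_const _)
    have e2 : ∫ x, (F x * F x - 2 * μ * F x) ∂ν = (∫ x, F x * F x ∂ν) - ∫ x, 2 * μ * F x ∂ν :=
      integral_sub hFFint (hFint.const_mul _)
    rw [e1, e2, integral_const_mul, hF1, integral_const, hν1]
    simp only [smul_eq_mul, one_mul]
    nlinarith
  have h5 : ∫ x, μ ^ 2 * S.indicator 1 x ∂ν = μ ^ 2 * volume.real S := by
    rw [integral_const_mul, integral_indicator_one hSmeas, hνreal S hSmeas Set.sdiff_subset]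
  rw [h5] at h3
  rw [le_div_iff₀ hμ0]
  have h6 : μ ^ 2 * volume.real S ≤ 3 * μ := le_trans h3 h4
  have h7 : μ * (volume.real S * μ) ≤ μ * 3 := by nlinarith
  exact le_of_mul_le_mul_left h7 hμ0

/-- Periodicity. -/
theorem EE_add_int (κ : ℝ) (p : ℕ) (θ : ℝ) (k : ℤ) : θ + k ∈ EE κ p ↔ θ ∈ EE κ p := by
  have h : Int.fract ((p : ℝ) * (θ + k)) = Int.fract ((p : ℝ) * θ) := by
    have h1 : (p : ℝ) * (θ + k) = (p : ℝ) * θ + (((p : ℤ) * k : ℤ) : ℝ) := by
      push_cast; ring
    rw [h1, Int.fract_add_intCast]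
  simp only [EE, Set.mem_ofPred_eq, h]

/-- Finite sets of primes `≡ 1 mod 4` with large reciprocal sum. -/
theorem exists_primes_large (A : ℝ) : ∃ P : Finset ℕ, (∀ p ∈ P, p.Prime ∧ (p : ZMod 4) = 1) ∧
    A ≤ ∑ p ∈ P, (1 : ℝ) / p := by
  classical
  have h := Pool.Agent.Helper379.Div3.not_summable_inv_primes_mod (q := 4) (a := 1)
    (by decide : IsUnit (1 : ZMod 4))
  by_contra hcon
  push Not at hcon
  apply h
  refine summable_of_sum_le (c := A) (fun n => by split_ifs <;> positivity) ?_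
  intro u
  rw [← Finset.sum_filter]
  exact (hcon (u.filter (fun n => n.Prime ∧ (n : ZMod 4) = 1))
    (fun p hp => (mem_filter.mp hp).2)).le

/-- Almost every `θ` has a one-sided approximation by a fraction with prime denominator
`≡ 1 mod 4`. -/
theorem ae_exists (κ : ℝ) (hκ0 : 0 < κ) (hκ1 : κ ≤ 1) :
    ∀ᵐ θ : ℝ, ∃ p : ℕ, p.Prime ∧ (p : ZMod 4) = 1 ∧ θ ∈ EE κ p := by
  set W : Set ℝ := {θ | ∃ p : ℕ, p.Prime ∧ (p : ZMod 4) = 1 ∧ θ ∈ EE κ p} with hW
  -- the bad set in `[0, 1)` is null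
  have h0 : volume (Set.Ico (0 : ℝ) 1 \ W) = 0 := by
    have hfin : volume (Set.Ico (0 : ℝ) 1 \ W) ≠ ⊤ := by
      apply ne_top_of_le_ne_top _ (measure_mono Set.sdiff_subset)
      rw [Real.volume_Ico]; exact ENNReal.ofReal_ne_top
    have hle : ∀ ε : ℝ, 0 < ε → volume.real (Set.Ico (0 : ℝ) 1 \ W) ≤ ε := by
      intro ε hε
      obtain ⟨P, hP, hA⟩ := exists_primes_large (3 / (κ * ε) + 1)
      have hpos : 0 < 3 / (κ * ε) := by positivity
      have hne : P.Nonempty := by
        rw [Finset.nonempty_iff_ne_empty]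
        rintro rfl
        simp at hA
        linarith
      have h1 := volume_bad_le κ hκ0 hκ1 P (fun p hp => (hP p hp).1.two_le)
        (fun p hp q hq hpq => (Nat.coprime_primes (hP p hp).1 (hP q hq).1).mpr hpq) hne
      have h2 : ∑ p ∈ P, κ / (p : ℝ) = κ * ∑ p ∈ P, (1 : ℝ) / p := by
        rw [Finset.mul_sum]
        refine Finset.sum_congr rfl fun p _ => ?_
        ring
      have h3 : 3 / ε ≤ ∑ p ∈ P, κ / (p : ℝ) := by
        rw [h2]
        have h4 : 3 / ε = κ * (3 / (κ * ε)) := by field_simp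
        rw [h4]
        apply mul_le_mul_of_nonneg_left _ hκ0.le
        linarith
      calc volume.real (Set.Ico (0 : ℝ) 1 \ W) ≤
            volume.real (Set.Ico (0 : ℝ) 1 \ ⋃ p ∈ P, EI κ p) := by
            apply measureReal_mono
            · intro x hx
              refine ⟨hx.1, fun h5 => hx.2 ?_⟩
              simp only [Set.mem_iUnion, exists_prop] at h5
              obtain ⟨p, hp, hxp⟩ := h5
              exact ⟨p, (hP p hp).1, (hP p hp).2, hxp.1⟩
            · apply ne_top_of_le_ne_top _ (measure_mono Set.sdiff_subset)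
              rw [Real.volume_Ico]; exact ENNReal.ofReal_ne_top
        _ ≤ 3 / (∑ p ∈ P, κ / (p : ℝ)) := h1
        _ ≤ 3 / (3 / ε) := div_le_div_of_nonneg_left (by norm_num) (by positivity) h3
        _ = ε := by field_simp
    have h1 : volume.real (Set.Ico (0 : ℝ) 1 \ W) ≤ 0 := le_of_forall_pos_le_add (by
      intro ε hε; rw [zero_add]; exact hle ε hε)
    have h2 : volume.real (Set.Ico (0 : ℝ) 1 \ W) = 0 := le_antisymm h1 measureReal_nonneg
    rw [measureReal_def, ENNReal.toReal_eq_zero_iff] at h2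
    exact h2.resolve_right hfin
  -- translate
  have h1 : {θ : ℝ | ¬ θ ∈ W} ⊆ ⋃ k : ℤ, (fun θ => θ + (k : ℝ)) ⁻¹' (Set.Ico (0 : ℝ) 1 \ W) := by
    intro θ hθ
    rw [Set.mem_iUnion]
    refine ⟨-⌊θ⌋, ?_, ?_⟩
    · have h2 := Int.fract_nonneg θ
      have h3 := Int.fract_lt_one θ
      rw [Int.fract] at h2 h3
      constructor
      · push_cast; linarith
      · push_cast; linarith
    · rintro ⟨p, hp1, hp2, hp3⟩
      apply hθ
      exact ⟨p, hp1, hp2, (EE_add_int κ p θ _).mp hp3⟩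
  rw [ae_iff]
  apply measure_mono_null h1
  rw [measure_iUnion_null_iff]
  intro k
  rw [measure_preimage_add_right]
  exact h0

end Run7.h770
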