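import Mathlib

/-!
# Counting coincidences `h² (j' + θ) ≈ h'² (j + θ)`
-/

set_option autoImplicit false

open Finset

namespace Run7.h770

/-- Elements of `[0, J]` congruent to each other modulo `q`. -/
theorem card_le_of_modEq {J q : ℕ} (S : Finset (ℕ × ℕ)) (hS : ∀ z ∈ S, z.1 ≤ J)
    (hmod : ∀ z ∈ S, ∀ w ∈ S, z.1 ≡ w.1 [MOD q]) (hinj : ∀ z ∈ S, ∀ w ∈ S, z.1 = w.1 → z = w) :
    S.card ≤ J / q + 1 := by
  calc S.card ≤ (range (J / q + 1)).card := by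
        apply Finset.card_le_card_of_injOn (fun z => z.1 / q)
        · intro z hz
          rw [mem_coe, mem_range, Nat.lt_succ_iff]
          exact Nat.div_le_div_right (hS z hz)
        · intro z hz w hw h
          apply hinj z hz w hw
          have h1 : z.1 % q = w.1 % q := hmod z hz w hw
          have h2 : z.1 / q = w.1 / q := h
          rw [← Nat.div_add_mod z.1 q, ← Nat.div_add_mod w.1 q, h1, h2]
    _ = J / q + 1 := card_range _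

/-- The number of coincidences for given `h ≥ h'`. -/
theorem card_coinc_le {m J Q : ℕ} (hQ : 4 * Q ^ 2 * J ^ 2 ≤ m) (hm : 0 < m) (Y : ℝ) {h h' : ℕ}
    (hh : 0 < h) (hh' : 0 < h') (hhQ : h ≤ Q) (hhQ' : h' ≤ Q) (S : Finset (ℕ × ℕ))
    (hS1 : ∀ z ∈ S, z.1 ≤ J) (hS2 : ∀ z ∈ S, z.2 ≤ J)
    (hS : ∀ z ∈ S, |(h : ℝ) ^ 2 * (Y - ((m : ℝ) - z.2) ^ 2) -
      (h' : ℝ) ^ 2 * (Y - ((m : ℝ) - z.1) ^ 2)| < m / 4) :
    S.card ≤ J / (h / Nat.gcd h h') ^ 2 + 1 := by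
  set g := Nat.gcd h h' with hg
  have hg0 : 0 < g := Nat.gcd_pos_of_pos_left _ hh
  obtain ⟨a, ha⟩ : g ∣ h := Nat.gcd_dvd_left _ _
  obtain ⟨b, hb⟩ : g ∣ h' := Nat.gcd_dvd_right _ _
  have hag : h / g = a := by rw [ha]; exact Nat.mul_div_cancel_left _ hg0
  have hbg : h' / g = b := by rw [hb]; exact Nat.mul_div_cancel_left _ hg0
  have ha0 : 0 < a := Nat.pos_of_ne_zero (by rintro rfl; rw [mul_zero] at ha; omega)
  have hb0 : 0 < b := Nat.pos_of_ne_zero (by rintro rfl; rw [mul_zero] at hb; omega)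
  have hcop : Nat.Coprime a b := by
    rw [← hag, ← hbg]; exact Nat.coprime_div_gcd_div_gcd hg0
  have hmr : (0 : ℝ) < m := by exact_mod_cast hm
  have hQJ : 4 * (Q : ℝ) ^ 2 * (J : ℝ) ^ 2 ≤ m := by exact_mod_cast hQ
  -- key: the difference vanishes
  have key : ∀ z ∈ S, ∀ w ∈ S, (h : ℤ) ^ 2 * ((z.2 : ℤ) - w.2) = (h' : ℤ) ^ 2 * ((z.1 : ℤ) - w.1) := by
    intro z hz w hw
    have e1 := hS z hz
    have e2 := hS w hw
    rw [abs_lt] at e1 e2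
    set k : ℤ := (h : ℤ) ^ 2 * ((z.2 : ℤ) - w.2) - (h' : ℤ) ^ 2 * ((z.1 : ℤ) - w.1) with hk
    have hkr : (k : ℝ) = (h : ℝ) ^ 2 * ((z.2 : ℝ) - w.2) - (h' : ℝ) ^ 2 * ((z.1 : ℝ) - w.1) := by
      rw [hk]; push_cast; ring
    have hbd : ∀ x : ℕ, x ≤ J → (0 : ℝ) ≤ (x : ℝ) ^ 2 ∧ (x : ℝ) ^ 2 ≤ (J : ℝ) ^ 2 := by
      intro x hx
      refine ⟨by positivity, ?_⟩
      have : (x : ℝ) ≤ J := by exact_mod_cast hx
      exact pow_le_pow_left₀ (Nat.cast_nonneg _) this 2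
    have hbh : ∀ x : ℕ, x ≤ Q → (0 : ℝ) ≤ (x : ℝ) ^ 2 ∧ (x : ℝ) ^ 2 ≤ (Q : ℝ) ^ 2 := by
      intro x hx
      refine ⟨by positivity, ?_⟩
      have : (x : ℝ) ≤ Q := by exact_mod_cast hx
      exact pow_le_pow_left₀ (Nat.cast_nonneg _) this 2
    have hprod : ∀ x y : ℕ, x ≤ Q → y ≤ J → (0 : ℝ) ≤ (x : ℝ) ^ 2 * (y : ℝ) ^ 2 ∧
        (x : ℝ) ^ 2 * (y : ℝ) ^ 2 ≤ (Q : ℝ) ^ 2 * (J : ℝ) ^ 2 := by
      intro x y hx hy
      exact ⟨by positivity, mul_le_mul (hbh x hx).2 (hbd y hy).2 (hbd y hy).1 (by positivity)⟩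
    have p1 := hprod h z.2 hhQ (hS2 z hz)
    have p2 := hprod h w.2 hhQ (hS2 w hw)
    have p3 := hprod h' z.1 hhQ' (hS1 z hz)
    have p4 := hprod h' w.1 hhQ' (hS1 w hw)
    have hid : 2 * (m : ℝ) * k = ((h : ℝ) ^ 2 * (Y - ((m : ℝ) - z.2) ^ 2) -
        (h' : ℝ) ^ 2 * (Y - ((m : ℝ) - z.1) ^ 2)) - ((h : ℝ) ^ 2 * (Y - ((m : ℝ) - w.2) ^ 2) -
        (h' : ℝ) ^ 2 * (Y - ((m : ℝ) - w.1) ^ 2)) + ((h : ℝ) ^ 2 * (z.2 : ℝ) ^ 2 -
        (h : ℝ) ^ 2 * (w.2 : ℝ) ^ 2 - (h' : ℝ) ^ 2 * (z.1 : ℝ) ^ 2 +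
        (h' : ℝ) ^ 2 * (w.1 : ℝ) ^ 2) := by
      rw [hkr]; ring
    have hk1 : (k : ℝ) < 1 := by nlinarith
    have hk2 : -1 < (k : ℝ) := by nlinarith
    have hk3 : k < 1 := by exact_mod_cast hk1
    have hk4 : -1 < k := by exact_mod_cast hk2
    have hk0 : k = 0 := by omega
    rw [hk] at hk0
    linarith
  have key2 : ∀ z ∈ S, ∀ w ∈ S, (a : ℤ) ^ 2 * ((z.2 : ℤ) - w.2) = (b : ℤ) ^ 2 * ((z.1 : ℤ) - w.1) := by
    intro z hz w hw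
    have h1 := key z hz w hw
    rw [ha, hb] at h1
    push_cast at h1
    have hg1 : ((g : ℤ) ^ 2) ≠ 0 := by positivity
    apply mul_left_cancel₀ hg1
    linarith
  rw [hag]
  apply card_le_of_modEq S hS1
  · intro z hz w hw
    have h1 := key2 z hz w hw
    have h2 : ((a : ℤ) ^ 2) ∣ (b : ℤ) ^ 2 * ((z.1 : ℤ) - w.1) := ⟨_, h1.symm⟩
    have h3 : IsCoprime ((a : ℤ) ^ 2) ((b : ℤ) ^ 2) := by
      apply IsCoprime.pow
      exact Nat.isCoprime_iff_coprime.mpr hcop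
    have h4 := h3.dvd_of_dvd_mul_left h2
    have h5 : (w.1 : ℤ) ≡ z.1 [ZMOD ((a ^ 2 : ℕ) : ℤ)] := by
      rw [Int.modEq_iff_dvd]; push_cast; exact h4
    exact ((Int.natCast_modEq_iff).mp h5).symm
  · intro z hz w hw hzw
    have h1 := key2 z hz w hw
    rw [hzw, sub_self, mul_zero] at h1
    have h2 : (z.2 : ℤ) - w.2 = 0 := by
      rcases mul_eq_zero.mp h1 with h3 | h3
      · exfalso; have : (a : ℤ) ^ 2 ≠ 0 := by positivity
        exact this h3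
      · exact h3
    have h3 : z.2 = w.2 := by omega
    exact Prod.ext hzw h3

theorem sum_inv_sq_le (n : ℕ) : ∑ d ∈ Icc 1 n, (1 : ℝ) / (d : ℝ) ^ 2 ≤ 2 := by
  have h : ∀ n : ℕ, 1 ≤ n → ∑ d ∈ Icc 1 n, (1 : ℝ) / (d : ℝ) ^ 2 ≤ 2 - 1 / n := by
    intro n hn
    induction n, hn using Nat.le_induction with
    | base => norm_num
    | succ n hn ih =>
      rw [Finset.sum_Icc_succ_top (by omega)]
      have hn0 : (0 : ℝ) < n := by exact_mod_cast hn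
      have : (1 : ℝ) / ((n + 1 : ℕ) : ℝ) ^ 2 ≤ 1 / n - 1 / ((n + 1 : ℕ) : ℝ) := by
        push_cast
        rw [div_sub_div _ _ hn0.ne' (by positivity), div_le_div_iff₀ (by positivity) (by positivity)]
        nlinarith
      linarith
  rcases Nat.eq_zero_or_pos n with rfl | hn
  · simp
  · have h1 := h n hn
    have h2 : (0 : ℝ) < n := by exact_mod_cast hn
    have h3 : (0 : ℝ) < 1 / n := by positivity
    linarith

/-- `∑_{b ≤ a} gcd(a,b)² ≤ a ∑_{d ∣ a} d`. -/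
theorem sum_gcd_sq_le (a : ℕ) (ha : 0 < a) :
    ∑ b ∈ Icc 1 a, (Nat.gcd a b) ^ 2 ≤ a * ∑ d ∈ a.divisors, d := by
  calc ∑ b ∈ Icc 1 a, (Nat.gcd a b) ^ 2
      ≤ ∑ b ∈ Icc 1 a, ∑ d ∈ a.divisors, if d ∣ b then d ^ 2 else 0 := by
        refine Finset.sum_le_sum fun b _ => ?_
        have h1 : Nat.gcd a b ∈ a.divisors := Nat.mem_divisors.mpr ⟨Nat.gcd_dvd_left _ _, ha.ne'⟩
        calc (Nat.gcd a b) ^ 2 = if Nat.gcd a b ∣ b then (Nat.gcd a b) ^ 2 else 0 := by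
              rw [if_pos (Nat.gcd_dvd_right _ _)]
          _ ≤ _ := Finset.single_le_sum (f := fun d => if d ∣ b then d ^ 2 else 0)
              (fun _ _ => Nat.zero_le _) h1
    _ = ∑ d ∈ a.divisors, ∑ b ∈ Icc 1 a, if d ∣ b then d ^ 2 else 0 := Finset.sum_comm
    _ = ∑ d ∈ a.divisors, a * d := by
        refine Finset.sum_congr rfl fun d hd => ?_
        rw [Nat.mem_divisors] at hd
        obtain ⟨k, hk⟩ := hd.1
        have hd0 : 0 < d := Nat.pos_of_ne_zero (by rintro rfl; rw [zero_mul] at hk; omega)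
        rw [← Finset.sum_filter, Finset.sum_const, smul_eq_mul]
        have h2 : ((Icc 1 a).filter (fun b => d ∣ b)).card = a / d := by
          rw [show Icc 1 a = Ioc 0 a from rfl, Nat.Ioc_filter_dvd_card_eq_div]
        rw [h2, hk, Nat.mul_div_cancel_left _ hd0]
        ring
    _ = a * ∑ d ∈ a.divisors, d := by rw [Finset.mul_sum]

/-- The sum of `1/d` over divisors on average. -/
theorem sum_sum_divisors_inv (Q : ℕ) :
    ∑ a ∈ Icc 1 Q, ∑ d ∈ a.divisors, (1 : ℝ) / d ≤ 2 * Q := by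
  calc ∑ a ∈ Icc 1 Q, ∑ d ∈ a.divisors, (1 : ℝ) / d
      = ∑ a ∈ Icc 1 Q, ∑ d ∈ Icc 1 Q, if d ∣ a then (1 : ℝ) / d else 0 := by
        refine Finset.sum_congr rfl fun a ha => ?_
        rw [mem_Icc] at ha
        rw [← Finset.sum_filter]
        refine Finset.sum_congr ?_ fun _ _ => rfl
        ext d
        rw [Nat.mem_divisors, mem_filter, mem_Icc]
        constructor
        · rintro ⟨h1, h2⟩
          exact ⟨⟨Nat.pos_of_dvd_of_pos h1 (by omega), (Nat.le_of_dvd (by omega) h1).trans ha.2⟩, h1⟩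
        · rintro ⟨h1, h2⟩
          exact ⟨h2, by omega⟩
    _ = ∑ d ∈ Icc 1 Q, ∑ a ∈ Icc 1 Q, if d ∣ a then (1 : ℝ) / d else 0 := Finset.sum_comm
    _ ≤ ∑ d ∈ Icc 1 Q, Q * (1 / (d : ℝ) ^ 2) := by
        refine Finset.sum_le_sum fun d hd => ?_
        rw [mem_Icc] at hd
        rw [← Finset.sum_filter, Finset.sum_const, nsmul_eq_mul]
        have h2 : ((Icc 1 Q).filter (fun b => d ∣ b)).card = Q / d := by
          rw [show Icc 1 Q = Ioc 0 Q from rfl, Nat.Ioc_filter_dvd_card_eq_div]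
        rw [h2]
        have hd0 : (0 : ℝ) < d := by exact_mod_cast hd.1
        have h3 : ((Q / d : ℕ) : ℝ) ≤ (Q : ℝ) / d := Nat.cast_div_le
        calc ((Q / d : ℕ) : ℝ) * (1 / d) ≤ (Q : ℝ) / d * (1 / d) :=
              mul_le_mul_of_nonneg_right h3 (by positivity)
          _ = Q * (1 / (d : ℝ) ^ 2) := by field_simp
    _ = Q * ∑ d ∈ Icc 1 Q, 1 / (d : ℝ) ^ 2 := by rw [Finset.mul_sum]
    _ ≤ Q * 2 := mul_le_mul_of_nonneg_left (sum_inv_sq_le Q) (Nat.cast_nonneg _)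
    _ = 2 * Q := by ring

/-- `∑_{b ≤ a ≤ Q} (J / (a / gcd(a,b))² + 1) ≤ Q² + 2 J Q`. -/
theorem sum_pairs_le (J Q : ℕ) :
    ∑ a ∈ Icc 1 Q, ∑ b ∈ Icc 1 a, ((J / (a / Nat.gcd a b) ^ 2 + 1 : ℕ) : ℝ) ≤
      (Q : ℝ) ^ 2 + 2 * J * Q := by
  have h1 : ∀ a ∈ Icc 1 Q, ∑ b ∈ Icc 1 a, ((J / (a / Nat.gcd a b) ^ 2 + 1 : ℕ) : ℝ) ≤
      Q + J * ∑ d ∈ a.divisors, (1 : ℝ) / d := by
    intro a ha
    rw [mem_Icc] at ha
    have ha0 : 0 < a := by omega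
    have har : (0 : ℝ) < a := by exact_mod_cast ha0
    have h2 : ∀ b ∈ Icc 1 a, ((J / (a / Nat.gcd a b) ^ 2 + 1 : ℕ) : ℝ) ≤
        1 + J / (a : ℝ) ^ 2 * ((Nat.gcd a b : ℕ) : ℝ) ^ 2 := by
      intro b _
      have hg0 : 0 < Nat.gcd a b := Nat.gcd_pos_of_pos_left _ ha0
      have hgr : (0 : ℝ) < (Nat.gcd a b : ℕ) := by exact_mod_cast hg0
      have h3 : ((a / Nat.gcd a b : ℕ) : ℝ) = (a : ℝ) / (Nat.gcd a b : ℕ) :=
        Nat.cast_div (Nat.gcd_dvd_left _ _) hgr.ne'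
      have h4 : ((J / (a / Nat.gcd a b) ^ 2 : ℕ) : ℝ) ≤ (J : ℝ) / (((a / Nat.gcd a b) ^ 2 : ℕ) : ℝ) :=
        Nat.cast_div_le
      push_cast at h4 ⊢
      rw [h3] at h4
      have h5 : (J : ℝ) / ((a : ℝ) / (Nat.gcd a b : ℕ)) ^ 2 =
          J / (a : ℝ) ^ 2 * ((Nat.gcd a b : ℕ) : ℝ) ^ 2 := by
        field_simp
      rw [h5] at h4
      linarith
    refine le_trans (Finset.sum_le_sum h2) ?_
    rw [Finset.sum_add_distrib, ← Finset.mul_sum]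
    have h3 : ∑ b ∈ Icc 1 a, (1 : ℝ) = a := by simp
    rw [h3]
    have haQ : (a : ℝ) ≤ Q := by exact_mod_cast ha.2
    have h4 : ∑ b ∈ Icc 1 a, ((Nat.gcd a b : ℕ) : ℝ) ^ 2 ≤ a * ∑ d ∈ a.divisors, (d : ℝ) := by
      have h5 : ((∑ b ∈ Icc 1 a, (Nat.gcd a b) ^ 2 : ℕ) : ℝ) ≤
          ((a * ∑ d ∈ a.divisors, d : ℕ) : ℝ) := Nat.cast_le.mpr (sum_gcd_sq_le a ha0)
      rw [Nat.cast_mul, Nat.cast_sum, Nat.cast_sum] at h5
      simpa only [Nat.cast_pow] using h5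
    have h5 : ∑ d ∈ a.divisors, (d : ℝ) = a * ∑ d ∈ a.divisors, (1 : ℝ) / d := by
      rw [Finset.mul_sum, ← Nat.sum_div_divisors a (fun d => (d : ℝ))]
      refine Finset.sum_congr rfl fun d hd => ?_
      rw [Nat.mem_divisors] at hd
      have hd0 : 0 < d := Nat.pos_of_dvd_of_pos hd.1 ha0
      rw [Nat.cast_div hd.1 (by exact_mod_cast hd0.ne')]
      ring
    have h6 : (J : ℝ) / (a : ℝ) ^ 2 * ∑ b ∈ Icc 1 a, ((Nat.gcd a b : ℕ) : ℝ) ^ 2 ≤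
        J * ∑ d ∈ a.divisors, (1 : ℝ) / d := by
      calc (J : ℝ) / (a : ℝ) ^ 2 * ∑ b ∈ Icc 1 a, ((Nat.gcd a b : ℕ) : ℝ) ^ 2
          ≤ (J : ℝ) / (a : ℝ) ^ 2 * (a * (a * ∑ d ∈ a.divisors, (1 : ℝ) / d)) := by
            apply mul_le_mul_of_nonneg_left _ (by positivity)
            rw [← h5]; exact h4
        _ = J * ∑ d ∈ a.divisors, (1 : ℝ) / d := by field_simp
    linarith
  refine le_trans (Finset.sum_le_sum h1) ?_
  rw [Finset.sum_add_distrib, ← Finset.mul_sum, Finset.sum_const, Nat.card_Icc, nsmul_eq_mul]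
  have h2 := sum_sum_divisors_inv Q
  have h3 : (J : ℝ) * ∑ a ∈ Icc 1 Q, ∑ d ∈ a.divisors, (1 : ℝ) / d ≤ J * (2 * Q) :=
    mul_le_mul_of_nonneg_left h2 (Nat.cast_nonneg _)
  have h4 : ((Q + 1 - 1 : ℕ) : ℝ) = Q := by simp
  rw [h4]
  nlinarith

end Run7.h770
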