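import Mathlib
import Pool.Agent.Run7.h770.Sieve

/-!
# Oscillating integrals

A second derivative form of the first derivative test, the expansion of the mean square of an
exponential sum over an interval, and Chebyshev's inequality.
-/

set_option autoImplicit false

open Finset MeasureTheory

namespace Run7.h770

theorem hasDerivAt_e (x : ℝ) : HasDerivAt e (e x * (2 * Real.pi * Complex.I)) x := by
  have h1 : HasDerivAt (fun t : ℝ => Complex.I * ((2 * Real.pi * t : ℝ) : ℂ))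
      (Complex.I * ((2 * Real.pi * 1 : ℝ) : ℂ)) x := by
    apply HasDerivAt.const_mul
    exact ((hasDerivAt_id x).const_mul (2 * Real.pi)).ofReal_comp
  have h2 := h1.cexp
  have h3 : (fun t : ℝ => Complex.exp (Complex.I * ((2 * Real.pi * t : ℝ) : ℂ))) = e := rfl
  rw [h3] at h2
  refine h2.congr_deriv ?_
  rw [e]
  push_cast
  ring

theorem continuous_e : Continuous e := by
  unfold e
  fun_prop

/-- First derivative test, with a bound for the second derivative instead of monotonicity. -/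
theorem norm_integral_e_le {a b Δ M : ℝ} (hab : a ≤ b) (ψ ψ' ψ'' : ℝ → ℝ)
    (h1 : ∀ x ∈ Set.Icc a b, HasDerivAt ψ (ψ' x) x)
    (h2 : ∀ x ∈ Set.Icc a b, HasDerivAt ψ' (ψ'' x) x)
    (hc : ContinuousOn ψ'' (Set.Icc a b)) (hΔ : 0 < Δ)
    (hd : ∀ x ∈ Set.Icc a b, Δ ≤ |ψ' x|) (hM : ∀ x ∈ Set.Icc a b, |ψ'' x| ≤ M) :
    ‖∫ x in a..b, e (ψ x)‖ ≤ 1 / Δ + (b - a) * M / Δ ^ 2 := by
  have hne : ∀ x ∈ Set.Icc a b, ψ' x ≠ 0 := by
    intro x hx h
    have := hd x hx
    rw [h, abs_zero] at this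
    linarith
  set c : ℂ := 2 * Real.pi * Complex.I with hcdef
  have hc0 : c ≠ 0 := by
    rw [hcdef]
    simp [Real.pi_ne_zero]
  have hcn : ‖c‖ = 2 * Real.pi := by
    rw [hcdef]
    simp [abs_of_pos Real.pi_pos]
  have hpi : 1 ≤ Real.pi := by linarith [Real.pi_gt_three]
  have hc2 : 2 ≤ ‖c‖ := by rw [hcn]; linarith
  -- the antiderivative
  have hderiv : ∀ x ∈ Set.uIcc a b, HasDerivAt (fun x => e (ψ x) / (c * ψ' x))
      (e (ψ x) - e (ψ x) * ψ'' x / (c * (ψ' x) ^ 2)) x := by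
    intro x hx
    rw [Set.uIcc_of_le hab] at hx
    have h3 : HasDerivAt (fun x => e (ψ x)) (ψ' x • (e (ψ x) * c)) x :=
      HasDerivAt.scomp x (hasDerivAt_e (ψ x)) (h1 x hx)
    have h4 : HasDerivAt (fun x => c * (ψ' x : ℂ)) (c * (ψ'' x : ℂ)) x :=
      (h2 x hx).ofReal_comp.const_mul c
    have h5 : (ψ' x : ℂ) ≠ 0 := by exact_mod_cast hne x hx
    have h6 := h3.div h4 (mul_ne_zero hc0 h5)
    refine h6.congr_deriv ?_
    rw [Complex.real_smul]
    field_simp
  have hψc : ContinuousOn ψ (Set.Icc a b) := fun x hx => (h1 x hx).continuousAt.continuousWithinAt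
  have hψ'c : ContinuousOn ψ' (Set.Icc a b) := fun x hx => (h2 x hx).continuousAt.continuousWithinAt
  have hec : ContinuousOn (fun x => e (ψ x)) (Set.Icc a b) := continuous_e.comp_continuousOn hψc
  have hrc : ContinuousOn (fun x => e (ψ x) * ψ'' x / (c * (ψ' x : ℂ) ^ 2)) (Set.Icc a b) := by
    apply ContinuousOn.div
    · exact hec.mul (Complex.continuous_ofReal.comp_continuousOn hc)
    · exact continuousOn_const.mul ((Complex.continuous_ofReal.comp_continuousOn hψ'c).pow 2)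
    · intro x hx
      have h5 : (ψ' x : ℂ) ≠ 0 := by exact_mod_cast hne x hx
      exact mul_ne_zero hc0 (pow_ne_zero 2 h5)
  have hi1 : IntervalIntegrable (fun x => e (ψ x)) volume a b := by
    apply ContinuousOn.intervalIntegrable
    rwa [Set.uIcc_of_le hab]
  have hi2 : IntervalIntegrable (fun x => e (ψ x) * ψ'' x / (c * (ψ' x : ℂ) ^ 2)) volume a b := by
    apply ContinuousOn.intervalIntegrable
    rwa [Set.uIcc_of_le hab]
  have hFTC := intervalIntegral.integral_eq_sub_of_hasDerivAt hderiv (hi1.sub hi2)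
  rw [intervalIntegral.integral_sub hi1 hi2] at hFTC
  have heq : ∫ x in a..b, e (ψ x) = e (ψ b) / (c * ψ' b) - e (ψ a) / (c * ψ' a) +
      ∫ x in a..b, e (ψ x) * ψ'' x / (c * (ψ' x : ℂ) ^ 2) := by
    rw [← hFTC]; ring
  have hend : ∀ x ∈ Set.Icc a b, ‖e (ψ x) / (c * ψ' x)‖ ≤ 1 / (2 * Δ) := by
    intro x hx
    rw [norm_div, norm_e, norm_mul, Complex.norm_real, Real.norm_eq_abs]
    apply one_div_le_one_div_of_le (by positivity)
    have := hd x hx
    calc 2 * Δ ≤ ‖c‖ * Δ := mul_le_mul_of_nonneg_right hc2 hΔ.le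
      _ ≤ ‖c‖ * |ψ' x| := mul_le_mul_of_nonneg_left this (norm_nonneg _)
  have hM0 : 0 ≤ M := le_trans (abs_nonneg _) (hM a (Set.left_mem_Icc.mpr hab))
  have hint : ‖∫ x in a..b, e (ψ x) * ψ'' x / (c * (ψ' x : ℂ) ^ 2)‖ ≤ M / Δ ^ 2 * |b - a| := by
    apply intervalIntegral.norm_integral_le_of_norm_le_const
    intro x hx
    have hx' : x ∈ Set.Icc a b := by
      rw [Set.uIoc_of_le hab] at hx
      exact ⟨hx.1.le, hx.2⟩
    rw [norm_div, norm_mul, norm_e, one_mul, norm_mul, norm_pow, Complex.norm_real,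
      Complex.norm_real, Real.norm_eq_abs, Real.norm_eq_abs]
    have h7 := hd x hx'
    have h8 : Δ ^ 2 ≤ ‖c‖ * |ψ' x| ^ 2 := by
      calc Δ ^ 2 ≤ |ψ' x| ^ 2 := pow_le_pow_left₀ hΔ.le h7 2
        _ = 1 * |ψ' x| ^ 2 := (one_mul _).symm
        _ ≤ ‖c‖ * |ψ' x| ^ 2 := mul_le_mul_of_nonneg_right (by linarith) (by positivity)
    exact div_le_div₀ hM0 (hM x hx') (by positivity) h8
  rw [heq]
  have hA := hend b (Set.right_mem_Icc.mpr hab)
  have hB := hend a (Set.left_mem_Icc.mpr hab)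
  have habs : |b - a| = b - a := abs_of_nonneg (by linarith)
  rw [habs] at hint
  calc ‖e (ψ b) / (c * ψ' b) - e (ψ a) / (c * ψ' a) +
        ∫ x in a..b, e (ψ x) * ψ'' x / (c * (ψ' x : ℂ) ^ 2)‖
      ≤ ‖e (ψ b) / (c * ψ' b) - e (ψ a) / (c * ψ' a)‖ +
        ‖∫ x in a..b, e (ψ x) * ψ'' x / (c * (ψ' x : ℂ) ^ 2)‖ := norm_add_le _ _
    _ ≤ (‖e (ψ b) / (c * ψ' b)‖ + ‖e (ψ a) / (c * ψ' a)‖) + M / Δ ^ 2 * (b - a) :=
        add_le_add (norm_sub_le _ _) hint
    _ ≤ (1 / (2 * Δ) + 1 / (2 * Δ)) + M / Δ ^ 2 * (b - a) := by linarith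
    _ = 1 / Δ + (b - a) * M / Δ ^ 2 := by field_simp; ring

/-- Expansion of the mean square. -/
theorem integral_normSq_le {ι : Type*} (U : Finset ι) (A : ι → ℂ) (φ : ι → ℝ → ℝ) {a b : ℝ}
    (hab : a ≤ b) (hφ : ∀ u ∈ U, ContinuousOn (φ u) (Set.Icc a b)) :
    ∫ x in a..b, ‖∑ u ∈ U, A u * e (φ u x)‖ ^ 2 ≤
      ∑ u ∈ U, ∑ v ∈ U, ‖A u‖ * ‖A v‖ * ‖∫ x in a..b, e (φ u x - φ v x)‖ := by
  have hcont : ∀ u ∈ U, ∀ v ∈ U, ContinuousOn (fun x => e (φ u x - φ v x)) (Set.Icc a b) :=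
    fun u hu v hv => continuous_e.comp_continuousOn ((hφ u hu).sub (hφ v hv))
  have hii : ∀ u ∈ U, ∀ v ∈ U, IntervalIntegrable
      (fun x => A u * (starRingEnd ℂ) (A v) * e (φ u x - φ v x)) volume a b := by
    intro u hu v hv
    apply ContinuousOn.intervalIntegrable
    rw [Set.uIcc_of_le hab]
    exact continuousOn_const.mul (hcont u hu v hv)
  have key : ((∫ x in a..b, ‖∑ u ∈ U, A u * e (φ u x)‖ ^ 2 : ℝ) : ℂ) =
      ∑ u ∈ U, ∑ v ∈ U, A u * (starRingEnd ℂ) (A v) * ∫ x in a..b, e (φ u x - φ v x) := by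
    rw [← intervalIntegral.integral_ofReal]
    have hpt : ∀ x : ℝ, ((‖∑ u ∈ U, A u * e (φ u x)‖ ^ 2 : ℝ) : ℂ) =
        ∑ u ∈ U, ∑ v ∈ U, A u * (starRingEnd ℂ) (A v) * e (φ u x - φ v x) := by
      intro x
      push_cast
      rw [← Complex.mul_conj', map_sum, Finset.sum_mul_sum]
      refine Finset.sum_congr rfl fun u _ => Finset.sum_congr rfl fun v _ => ?_
      rw [map_mul, conj_e, sub_eq_add_neg, e_add]
      ring
    simp_rw [hpt]
    rw [intervalIntegral.integral_finsetSum]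
    · refine Finset.sum_congr rfl fun u hu => ?_
      rw [intervalIntegral.integral_finsetSum]
      · refine Finset.sum_congr rfl fun v hv => ?_
        rw [intervalIntegral.integral_const_mul]
      · exact fun v hv => hii u hu v hv
    · intro u hu
      apply ContinuousOn.intervalIntegrable
      rw [Set.uIcc_of_le hab]
      exact continuousOn_finsetSum _ fun v hv => continuousOn_const.mul (hcont u hu v hv)
  have h0 : 0 ≤ ∫ x in a..b, ‖∑ u ∈ U, A u * e (φ u x)‖ ^ 2 :=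
    intervalIntegral.integral_nonneg hab fun x _ => by positivity
  have hreal : ∫ x in a..b, ‖∑ u ∈ U, A u * e (φ u x)‖ ^ 2 =
      ‖∑ u ∈ U, ∑ v ∈ U, A u * (starRingEnd ℂ) (A v) * ∫ x in a..b, e (φ u x - φ v x)‖ := by
    rw [← key, Complex.norm_real, Real.norm_of_nonneg h0]
  rw [hreal]
  refine le_trans (norm_sum_le _ _) (Finset.sum_le_sum fun u _ => ?_)
  refine le_trans (norm_sum_le _ _) (Finset.sum_le_sum fun v _ => ?_)
  rw [norm_mul, norm_mul, RCLike.norm_conj]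

/-- Chebyshev's inequality. -/
theorem volume_le_of_integral {a b c : ℝ} (hab : a ≤ b) (hc : 0 < c) (f : ℝ → ℝ)
    (hf : ContinuousOn f (Set.Icc a b)) (h0 : ∀ x, 0 ≤ f x) (S : Set ℝ)
    (hS : ∀ x ∈ S, x ∈ Set.Icc a b ∧ c ≤ f x) :
    volume S ≤ ENNReal.ofReal ((∫ x in a..b, f x) / c) := by
  set ν : Measure ℝ := volume.restrict (Set.Icc a b) with hν
  have : IsFiniteMeasure ν := by rw [hν]; infer_instance
  have hfi : Integrable f ν := hf.integrableOn_Icc
  have h1 := mul_meas_ge_le_integral_of_nonneg (μ := ν) (f := f)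
    (Filter.Eventually.of_forall h0) hfi c
  have h2 : ∫ x, f x ∂ν = ∫ x in a..b, f x := by
    rw [hν, intervalIntegral.integral_of_le hab, integral_Icc_eq_integral_Ioc]
  rw [h2] at h1
  have h3 : ν.real {x | c ≤ f x} ≤ (∫ x in a..b, f x) / c := by
    rw [le_div_iff₀ hc]; linarith
  have h4 : volume S ≤ ν {x | c ≤ f x} := by
    have h5 : S ⊆ {x | c ≤ f x} ∩ Set.Icc a b := fun x hx => ⟨(hS x hx).2, (hS x hx).1⟩
    calc volume S ≤ volume ({x | c ≤ f x} ∩ Set.Icc a b) := measure_mono h5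
      _ ≤ ν {x | c ≤ f x} := by rw [hν]; exact Measure.le_restrict_apply _ _
  refine le_trans h4 ?_
  rw [← ENNReal.ofReal_toReal (measure_ne_top ν _)]
  exact ENNReal.ofReal_le_ofReal h3

end Run7.h770
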