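import Mathlib
import Pool.Agent.Run7.h770.Kernel
import Pool.Agent.Run7.h770.Osc
import Pool.Agent.Run7.h770.Coinc
import Pool.Prelude.Def_F_c1751164

/-!
# Short intervals: second moment of the near-axis lines
-/

set_option autoImplicit false

open Finset MeasureTheory N73befb9b

namespace Run7.h770

/-- The remainder after subtracting `(m - j)²`. -/
noncomputable def DD (m j : ℕ) (X : ℝ) : ℝ := X - ((m : ℝ) - j) ^ 2

theorem DD_lower {m j J : ℕ} (hj : 1 ≤ j) (hjJ : j ≤ J) (hJ : J ≤ m) {X : ℝ}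
    (hX : (m : ℝ) ^ 2 ≤ X) : (m : ℝ) ≤ DD m j X := by
  have h1 : (1 : ℝ) ≤ j := by exact_mod_cast hj
  have h2 : (j : ℝ) ≤ m := by exact_mod_cast hjJ.trans hJ
  unfold DD
  nlinarith [mul_nonneg (by linarith : (0:ℝ) ≤ (j:ℝ) - 1) (by linarith : (0:ℝ) ≤ (m:ℝ)),
    mul_nonneg (by linarith : (0:ℝ) ≤ (j:ℝ)) (by linarith : (0:ℝ) ≤ (m:ℝ) - j)]

theorem DD_upper {m j J : ℕ} (hj : 1 ≤ j) (hjJ : j ≤ J) (hJ : J ≤ m) {X : ℝ}
    (hX : X ≤ ((m : ℝ) + 2) ^ 2) : DD m j X ≤ 12 * m * J := by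
  have h1 : (1 : ℝ) ≤ j := by exact_mod_cast hj
  have h2 : (j : ℝ) ≤ J := by exact_mod_cast hjJ
  have h3 : (j : ℝ) ≤ m := by exact_mod_cast hjJ.trans hJ
  have h4 : DD m j X ≤ (2 + j) * (2 * m + 2 - j) := by
    unfold DD
    nlinarith
  have h5 : (2 + (j : ℝ)) * (2 * m + 2 - j) ≤ (3 * j) * (4 * m) :=
    mul_le_mul (by linarith) (by linarith) (by linarith) (by linarith)
  have h6 : (3 * (j : ℝ)) * (4 * m) ≤ 12 * m * J := by nlinarith
  linarith

/-- A small fractional part gives a sum of two squares. -/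
theorem success {m j : ℕ} (hjm : j ≤ m) {X η lam : ℝ} (hη : 0 ≤ η) (hX0 : (m : ℝ) ^ 2 ≤ X)
    (hD : 0 ≤ DD m j X) (hsize : 2 * √(DD m j X) * lam ≤ η * √(m : ℝ))
    (hf : Int.fract (√(DD m j X)) ≤ lam) :
    ∃ n : ℕ, IsSumOfTwoSquares n ∧ (n : ℝ) ∈ Set.Icc (X - η * X ^ (1 / 4 : ℝ)) X := by
  set s := √(DD m j X) with hs
  have hs0 : 0 ≤ s := Real.sqrt_nonneg _
  have hs2 : s ^ 2 = DD m j X := Real.sq_sqrt hD
  set b : ℕ := ⌊s⌋₊ with hb
  have hfr : Int.fract s = s - b := by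
    rw [Int.fract, hb, natCast_floor_eq_intCast_floor hs0]
  have hb0 : (0 : ℝ) ≤ b := Nat.cast_nonneg _
  have hfr0 : 0 ≤ s - b := by rw [← hfr]; exact Int.fract_nonneg _
  have hX1 : 0 ≤ X := le_trans (by positivity) hX0
  have hmX : √(m : ℝ) ≤ X ^ (1 / 4 : ℝ) := by
    have h1 : X ^ (1 / 4 : ℝ) = √(√X) := by
      rw [Real.sqrt_eq_rpow, Real.sqrt_eq_rpow, ← Real.rpow_mul hX1]
      norm_num
    rw [h1]
    exact Real.sqrt_le_sqrt (Real.le_sqrt_of_sq_le hX0)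
  refine ⟨(m - j) ^ 2 + b ^ 2, ⟨m - j, b, rfl⟩, ?_⟩
  have hn : (((m - j) ^ 2 + b ^ 2 : ℕ) : ℝ) = X - (s - b) * (s + b) := by
    push_cast
    rw [Nat.cast_sub hjm]
    have : (s - b) * (s + b) = DD m j X - (b : ℝ) ^ 2 := by rw [← hs2]; ring
    rw [this, DD]
    ring
  rw [hn, Set.mem_Icc]
  constructor
  · rw [hfr] at hf
    have h2 : (s - b) * (s + b) ≤ lam * (2 * s) := by
      apply mul_le_mul hf (by linarith) (by positivity)
      linarith
    have h3 : η * √(m : ℝ) ≤ η * X ^ (1 / 4 : ℝ) := mul_le_mul_of_nonneg_left hmX hη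
    linarith
  · have : 0 ≤ (s - b) * (s + b) := mul_nonneg hfr0 (by positivity)
    linarith

theorem hasDerivAt_DD (m j : ℕ) (X : ℝ) : HasDerivAt (fun X => DD m j X) 1 X := by
  unfold DD
  exact (hasDerivAt_id X).sub_const _

theorem hasDerivAt_sqrt_DD {m j : ℕ} {X : ℝ} (hD : 0 < DD m j X) :
    HasDerivAt (fun X => √(DD m j X)) (1 / (2 * √(DD m j X))) X :=
  (hasDerivAt_DD m j X).sqrt hD.ne'

theorem hasDerivAt_inv_sqrt_DD {m j : ℕ} {X : ℝ} (hD : 0 < DD m j X) :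
    HasDerivAt (fun X => 1 / (2 * √(DD m j X))) (-(1 / (4 * DD m j X * √(DD m j X)))) X := by
  have h1 := (hasDerivAt_sqrt_DD hD).const_mul 2
  have hs : 0 < √(DD m j X) := Real.sqrt_pos.mpr hD
  have h2 := h1.inv (by positivity)
  have h3 : (fun X => 1 / (2 * √(DD m j X))) = (fun X => 2 * √(DD m j X))⁻¹ := by
    funext x; simp [Pi.inv_apply]
  rw [h3]
  refine h2.congr_deriv ?_
  have h4 : √(DD m j X) ^ 2 = DD m j X := Real.sq_sqrt hD.le
  set s := √(DD m j X) with hs'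
  rw [← h4]
  field_simp
  norm_num

/-- The integral for a pair which is not a coincidence. -/
theorem pair_bound {m Q : ℕ} (hm : 0 < m) (hQ : 0 < Q) {Y L E : ℝ} (hL : 0 ≤ L) (hE : 0 < E)
    {h h' : ℤ} {j j' : ℕ} (hh : |(h : ℝ)| ≤ Q) (hh' : |(h' : ℝ)| ≤ Q)
    (hlo : ∀ x ∈ Set.Icc Y (Y + L), (m : ℝ) ≤ DD m j x ∧ (m : ℝ) ≤ DD m j' x)
    (hhi : ∀ x ∈ Set.Icc Y (Y + L), DD m j x ≤ E ^ 2 ∧ DD m j' x ≤ E ^ 2)
    (hnc : ∀ x ∈ Set.Icc Y (Y + L),
      (m : ℝ) / 8 ≤ |(h : ℝ) ^ 2 * DD m j' x - (h' : ℝ) ^ 2 * DD m j x|) :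
    ‖∫ x in Y..(Y + L), e (h * √(DD m j x) - h' * √(DD m j' x))‖ ≤
      1 / (m / (32 * Q * E ^ 3)) + L * (Q / (m * √m)) / (m / (32 * Q * E ^ 3)) ^ 2 := by
  have hmr : (0 : ℝ) < m := by exact_mod_cast hm
  have hQr : (0 : ℝ) < Q := by exact_mod_cast hQ
  have hsm : 0 < √(m : ℝ) := Real.sqrt_pos.mpr hmr
  have hpos : ∀ x ∈ Set.Icc Y (Y + L), 0 < DD m j x ∧ 0 < DD m j' x := fun x hx =>
    ⟨lt_of_lt_of_le hmr (hlo x hx).1, lt_of_lt_of_le hmr (hlo x hx).2⟩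
  have hder1 : ∀ x ∈ Set.Icc Y (Y + L), HasDerivAt
      (fun x => (h : ℝ) * √(DD m j x) - (h' : ℝ) * √(DD m j' x))
      ((h : ℝ) * (1 / (2 * √(DD m j x))) - (h' : ℝ) * (1 / (2 * √(DD m j' x)))) x := fun x hx =>
    ((hasDerivAt_sqrt_DD (hpos x hx).1).const_mul _).sub
      ((hasDerivAt_sqrt_DD (hpos x hx).2).const_mul _)
  have hder2 : ∀ x ∈ Set.Icc Y (Y + L), HasDerivAt
      (fun x => (h : ℝ) * (1 / (2 * √(DD m j x))) - (h' : ℝ) * (1 / (2 * √(DD m j' x))))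
      ((h : ℝ) * (-(1 / (4 * DD m j x * √(DD m j x)))) -
        (h' : ℝ) * (-(1 / (4 * DD m j' x * √(DD m j' x))))) x := fun x hx =>
    ((hasDerivAt_inv_sqrt_DD (hpos x hx).1).const_mul _).sub
      ((hasDerivAt_inv_sqrt_DD (hpos x hx).2).const_mul _)
  have hcD : ∀ i : ℕ, Continuous (fun x => DD m i x) := by
    intro i; unfold DD; fun_prop
  have hc : ContinuousOn (fun x => (h : ℝ) * (-(1 / (4 * DD m j x * √(DD m j x)))) -
        (h' : ℝ) * (-(1 / (4 * DD m j' x * √(DD m j' x))))) (Set.Icc Y (Y + L)) := by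
    apply ContinuousOn.sub
    · apply continuousOn_const.mul
      apply ContinuousOn.neg
      apply ContinuousOn.div continuousOn_const
      · exact ((continuous_const.mul (hcD j)).mul (hcD j).sqrt).continuousOn
      · intro x hx
        have h1 := (hpos x hx).1
        have h2 := Real.sqrt_pos.mpr h1
        positivity
    · apply continuousOn_const.mul
      apply ContinuousOn.neg
      apply ContinuousOn.div continuousOn_const
      · exact ((continuous_const.mul (hcD j')).mul (hcD j').sqrt).continuousOn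
      · intro x hx
        have h1 := (hpos x hx).2
        have h2 := Real.sqrt_pos.mpr h1
        positivity
  have hfin := norm_integral_e_le (Δ := m / (32 * Q * E ^ 3)) (M := Q / (m * √m))
    (by linarith : Y ≤ Y + L) _ _ _ hder1 hder2 hc (by positivity) ?_ ?_
  · refine le_trans hfin (le_of_eq ?_)
    congr 2
    ring
  · -- lower bound for the derivative
    intro x hx
    obtain ⟨p1, p2⟩ := hpos x hx
    set s := √(DD m j x) with hs
    set s' := √(DD m j' x) with hs'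
    have hs0 : 0 < s := Real.sqrt_pos.mpr p1
    have hs0' : 0 < s' := Real.sqrt_pos.mpr p2
    have hss : s ^ 2 = DD m j x := Real.sq_sqrt p1.le
    have hss' : s' ^ 2 = DD m j' x := Real.sq_sqrt p2.le
    have hsE : s ≤ E := by
      rw [hs]; exact Real.sqrt_le_iff.mpr ⟨hE.le, (hhi x hx).1⟩
    have hsE' : s' ≤ E := by
      rw [hs']; exact Real.sqrt_le_iff.mpr ⟨hE.le, (hhi x hx).2⟩
    have h1 := hnc x hx
    rw [← hss, ← hss'] at h1
    have h2 : |(h : ℝ) ^ 2 * s' ^ 2 - (h' : ℝ) ^ 2 * s ^ 2| =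
        |(h : ℝ) * s' - h' * s| * |(h : ℝ) * s' + h' * s| := by
      rw [← abs_mul]; congr 1; ring
    have h3 : |(h : ℝ) * s' + h' * s| ≤ 2 * Q * E := by
      calc |(h : ℝ) * s' + h' * s| ≤ |(h : ℝ) * s'| + |h' * s| := abs_add_le _ _
        _ = |(h : ℝ)| * s' + |(h' : ℝ)| * s := by
            rw [abs_mul, abs_mul, abs_of_pos hs0, abs_of_pos hs0']
        _ ≤ Q * E + Q * E := add_le_add
            (mul_le_mul hh hsE' hs0'.le hQr.le) (mul_le_mul hh' hsE hs0.le hQr.le)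
        _ = 2 * Q * E := by ring
    rw [h2] at h1
    have h4 : (m : ℝ) / 8 ≤ |(h : ℝ) * s' - h' * s| * (2 * Q * E) :=
      le_trans h1 (mul_le_mul_of_nonneg_left h3 (abs_nonneg _))
    have h5 : (h : ℝ) * (1 / (2 * s)) - (h' : ℝ) * (1 / (2 * s')) =
        ((h : ℝ) * s' - h' * s) / (2 * s * s') := by
      field_simp
    rw [h5, abs_div, abs_of_pos (by positivity : 0 < 2 * s * s'),
      div_le_div_iff₀ (by positivity) (by positivity)]
    have h6 : 2 * s * s' ≤ 2 * E ^ 2 := by nlinarith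
    calc (m : ℝ) * (2 * s * s') ≤ m * (2 * E ^ 2) := mul_le_mul_of_nonneg_left h6 hmr.le
      _ = (m / 8) * (16 * E ^ 2) := by ring
      _ ≤ (|(h : ℝ) * s' - h' * s| * (2 * Q * E)) * (16 * E ^ 2) :=
          mul_le_mul_of_nonneg_right h4 (by positivity)
      _ = |(h : ℝ) * s' - h' * s| * (32 * Q * E ^ 3) := by ring
  · intro x hx
    obtain ⟨p1, p2⟩ := hlo x hx
    have hb : ∀ (k : ℤ) (d : ℝ), |(k : ℝ)| ≤ Q → (m : ℝ) ≤ d →
        |(k : ℝ) * (-(1 / (4 * d * √d)))| ≤ (Q / (m * √m)) / 4 := by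
      intro k d hk hd
      have hd0 : 0 < d := lt_of_lt_of_le hmr hd
      have hsd : √(m : ℝ) ≤ √d := Real.sqrt_le_sqrt hd
      have hsd0 : 0 < √d := Real.sqrt_pos.mpr hd0
      rw [abs_mul, abs_neg, abs_of_pos (by positivity : 0 < 1 / (4 * d * √d)), div_div, mul_one_div]
      apply div_le_div₀ hQr.le hk (by positivity)
      have : (m : ℝ) * √m ≤ d * √d := mul_le_mul hd hsd hsm.le hd0.le
      linarith
    have h1 := hb h _ hh p1
    have h2 := hb h' _ hh' p2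
    have h3 : 0 ≤ (Q : ℝ) / (m * √m) := by positivity
    calc |(h : ℝ) * (-(1 / (4 * DD m j x * √(DD m j x)))) -
        (h' : ℝ) * (-(1 / (4 * DD m j' x * √(DD m j' x))))| ≤ _ := abs_sub _ _
      _ ≤ (Q / (m * √m)) / 4 + (Q / (m * √m)) / 4 := add_le_add h1 h2
      _ ≤ Q / (m * √m) := by linarith

end Run7.h770
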