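import Mathlib
import Pool.Agent.Run7.h770.Short
import Pool.Agent.Run7.h770.Core

/-!
# Short intervals: counting all coincidences, and the bound for a piece
-/

set_option autoImplicit false

open Finset MeasureTheory N73befb9b

namespace Run7.h770

/-- The bound for the number of coincidences of given absolute values of `h, h'`. -/
def GG (J a b : ℕ) : ℕ :=
  if b ≤ a then J / (a / Nat.gcd a b) ^ 2 + 1 else J / (b / Nat.gcd b a) ^ 2 + 1

theorem sum_GG_le (J Q : ℕ) :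
    ∑ a ∈ Icc 1 Q, ∑ b ∈ Icc 1 Q, ((GG J a b : ℕ) : ℝ) ≤ 2 * ((Q : ℝ) ^ 2 + 2 * J * Q) := by
  set g : ℕ → ℕ → ℝ := fun a b => ((J / (a / Nat.gcd a b) ^ 2 + 1 : ℕ) : ℝ) with hg
  have hg0 : ∀ a b, 0 ≤ g a b := fun a b => Nat.cast_nonneg _
  have h1 : ∀ a b, ((GG J a b : ℕ) : ℝ) ≤ (if b ≤ a then g a b else 0) + (if a ≤ b then g b a else 0) := by
    intro a b
    unfold GG
    split_ifs with h2 h3 h3
    · have := hg0 b a
      simp only [hg] at this ⊢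
      linarith
    · simp only [hg]; linarith
    · simp only [hg]; linarith
    · omega
  have h2 : ∀ a ∈ Icc 1 Q, ∑ b ∈ Icc 1 Q, (if b ≤ a then g a b else 0) = ∑ b ∈ Icc 1 a, g a b := by
    intro a ha
    rw [mem_Icc] at ha
    rw [← Finset.sum_filter]
    refine Finset.sum_congr ?_ fun _ _ => rfl
    ext b
    rw [mem_filter, mem_Icc, mem_Icc]
    omega
  calc ∑ a ∈ Icc 1 Q, ∑ b ∈ Icc 1 Q, ((GG J a b : ℕ) : ℝ)
      ≤ ∑ a ∈ Icc 1 Q, ∑ b ∈ Icc 1 Q,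
        ((if b ≤ a then g a b else 0) + (if a ≤ b then g b a else 0)) :=
        Finset.sum_le_sum fun a _ => Finset.sum_le_sum fun b _ => h1 a b
    _ = ∑ a ∈ Icc 1 Q, ∑ b ∈ Icc 1 Q, (if b ≤ a then g a b else 0) +
        ∑ a ∈ Icc 1 Q, ∑ b ∈ Icc 1 Q, (if a ≤ b then g b a else 0) := by
        rw [← Finset.sum_add_distrib]
        exact Finset.sum_congr rfl fun a _ => Finset.sum_add_distrib
    _ = ∑ a ∈ Icc 1 Q, ∑ b ∈ Icc 1 Q, (if b ≤ a then g a b else 0) +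
        ∑ b ∈ Icc 1 Q, ∑ a ∈ Icc 1 Q, (if a ≤ b then g b a else 0) := by
        congr 1
        exact Finset.sum_comm
    _ = ∑ a ∈ Icc 1 Q, ∑ b ∈ Icc 1 a, g a b + ∑ b ∈ Icc 1 Q, ∑ a ∈ Icc 1 b, g b a := by
        rw [Finset.sum_congr rfl h2]
    _ ≤ 2 * ((Q : ℝ) ^ 2 + 2 * J * Q) := by
        have := sum_pairs_le J Q
        linarith

/-- Summing over `h` with `0 < |h| ≤ Q`. -/
theorem sum_Ier_le (s H : ℕ) (f : ℕ → ℝ) (hf : ∀ a, 0 ≤ f a) :
    ∑ h ∈ Ier s H, f h.natAbs ≤ 2 * ∑ a ∈ Icc 1 ((s + 1) * H), f a := by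
  have hmaps : ∀ h ∈ Ier s H, h.natAbs ∈ Icc 1 ((s + 1) * H) := by
    intro h hh
    rw [Ier, mem_erase, mem_Icc] at hh
    rw [mem_Icc]
    omega
  rw [← Finset.sum_fiberwise_of_maps_to hmaps, Finset.mul_sum]
  refine Finset.sum_le_sum fun a _ => ?_
  have h1 : ∀ h ∈ (Ier s H).filter (fun h => h.natAbs = a), f h.natAbs = f a := by
    intro h hh
    rw [mem_filter] at hh
    rw [hh.2]
  rw [Finset.sum_congr rfl h1, Finset.sum_const, nsmul_eq_mul]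
  apply mul_le_mul_of_nonneg_right _ (hf a)
  have h2 : (Ier s H).filter (fun h => h.natAbs = a) ⊆ {(a : ℤ), -(a : ℤ)} := by
    intro h hh
    rw [mem_filter] at hh
    rw [mem_insert, mem_singleton]
    omega
  have h3 : ((Ier s H).filter (fun h => h.natAbs = a)).card ≤ 2 :=
    (Finset.card_le_card h2).trans Finset.card_le_two
  exact_mod_cast h3

/-- The index set of the exponential sum. -/
noncomputable def UU (J P : ℕ) : Finset (ℕ × ℤ) := Icc 1 J ×ˢ Ier 1 P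

theorem card_UU (J P : ℕ) : (UU J P).card = J * (4 * P) := by
  rw [UU, card_product, card_Ier, Nat.card_Icc]
  rw [Nat.add_sub_cancel]
  ring

/-- The number of coincidences. -/
theorem sum_coinc_le {m J P : ℕ} (hQ : 4 * (2 * P) ^ 2 * J ^ 2 ≤ m) (hm : 0 < m)
    (Y : ℝ) :
    ∑ u ∈ UU J P, ∑ v ∈ UU J P,
      (if |(u.2 : ℝ) ^ 2 * DD m v.1 Y - (v.2 : ℝ) ^ 2 * DD m u.1 Y| < m / 4 then (1 : ℝ) else 0) ≤
      8 * (((2 * P : ℕ) : ℝ) ^ 2 + 2 * J * (2 * P : ℕ)) := by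
  classical
  -- rearrange the sums
  have h1 : ∑ u ∈ UU J P, ∑ v ∈ UU J P,
      (if |(u.2 : ℝ) ^ 2 * DD m v.1 Y - (v.2 : ℝ) ^ 2 * DD m u.1 Y| < m / 4 then (1 : ℝ) else 0) =
      ∑ h ∈ Ier 1 P, ∑ h' ∈ Ier 1 P, ((((Icc 1 J) ×ˢ (Icc 1 J)).filter (fun z : ℕ × ℕ =>
        |(h : ℝ) ^ 2 * DD m z.2 Y - (h' : ℝ) ^ 2 * DD m z.1 Y| < m / 4)).card : ℝ) := by
    rw [UU, Finset.sum_product_right]
    refine Finset.sum_congr rfl fun h _ => ?_
    simp only [Finset.sum_product_right]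
    rw [Finset.sum_comm]
    refine Finset.sum_congr rfl fun h' _ => ?_
    rw [Finset.card_filter, Nat.cast_sum, Finset.sum_product]
    refine Finset.sum_congr rfl fun j _ => Finset.sum_congr rfl fun j' _ => ?_
    push_cast
    rfl
  rw [h1]
  -- the bound for a pair
  have h2 : ∀ h ∈ Ier 1 P, ∀ h' ∈ Ier 1 P, ((((Icc 1 J) ×ˢ (Icc 1 J)).filter (fun z : ℕ × ℕ =>
        |(h : ℝ) ^ 2 * DD m z.2 Y - (h' : ℝ) ^ 2 * DD m z.1 Y| < m / 4)).card : ℝ) ≤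
        ((GG J h.natAbs h'.natAbs : ℕ) : ℝ) := by
    intro h hh h' hh'
    rw [Ier, mem_erase, mem_Icc] at hh hh'
    set a := h.natAbs with ha
    set b := h'.natAbs with hb
    have ha0 : 0 < a := by omega
    have hb0 : 0 < b := by omega
    have haQ : a ≤ 2 * P := by omega
    have hbQ : b ≤ 2 * P := by omega
    have hasq : (h : ℝ) ^ 2 = (a : ℝ) ^ 2 := by
      rw [ha, Nat.cast_natAbs, Int.cast_abs, sq_abs]
    have hbsq : (h' : ℝ) ^ 2 = (b : ℝ) ^ 2 := by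
      rw [hb, Nat.cast_natAbs, Int.cast_abs, sq_abs]
    rw [hasq, hbsq]
    set S := ((Icc 1 J) ×ˢ (Icc 1 J)).filter (fun z : ℕ × ℕ =>
        |(a : ℝ) ^ 2 * DD m z.2 Y - (b : ℝ) ^ 2 * DD m z.1 Y| < m / 4) with hS
    have hmem : ∀ z ∈ S, z.1 ≤ J ∧ z.2 ≤ J ∧
        |(a : ℝ) ^ 2 * (Y - ((m : ℝ) - z.2) ^ 2) - (b : ℝ) ^ 2 * (Y - ((m : ℝ) - z.1) ^ 2)| <
          m / 4 := by
      intro z hz
      rw [hS, mem_filter, mem_product, mem_Icc, mem_Icc] at hz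
      exact ⟨hz.1.1.2, hz.1.2.2, hz.2⟩
    have hcard : S.card ≤ GG J a b := by
      unfold GG
      split_ifs with hab
      · exact card_coinc_le hQ hm Y ha0 hb0 haQ hbQ S (fun z hz => (hmem z hz).1)
          (fun z hz => (hmem z hz).2.1) (fun z hz => (hmem z hz).2.2)
      · have h3 := card_coinc_le hQ hm Y hb0 ha0 hbQ haQ (S.map (Equiv.prodComm ℕ ℕ).toEmbedding)
          (fun z hz => by
            rw [Finset.mem_map] at hz
            obtain ⟨w, hw, rfl⟩ := hz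
            exact (hmem w hw).2.1)
          (fun z hz => by
            rw [Finset.mem_map] at hz
            obtain ⟨w, hw, rfl⟩ := hz
            exact (hmem w hw).1)
          (fun z hz => by
            rw [Finset.mem_map] at hz
            obtain ⟨w, hw, rfl⟩ := hz
            rw [abs_sub_comm]
            exact (hmem w hw).2.2)
        rwa [Finset.card_map] at h3
    exact_mod_cast hcard
  calc ∑ h ∈ Ier 1 P, ∑ h' ∈ Ier 1 P, ((((Icc 1 J) ×ˢ (Icc 1 J)).filter (fun z : ℕ × ℕ =>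
        |(h : ℝ) ^ 2 * DD m z.2 Y - (h' : ℝ) ^ 2 * DD m z.1 Y| < m / 4)).card : ℝ)
      ≤ ∑ h ∈ Ier 1 P, ∑ h' ∈ Ier 1 P, ((GG J h.natAbs h'.natAbs : ℕ) : ℝ) :=
        Finset.sum_le_sum fun h hh => Finset.sum_le_sum fun h' hh' => h2 h hh h' hh'
    _ ≤ ∑ h ∈ Ier 1 P, 2 * ∑ b ∈ Icc 1 ((1 + 1) * P), ((GG J h.natAbs b : ℕ) : ℝ) :=
        Finset.sum_le_sum fun h _ => sum_Ier_le 1 P (fun b => ((GG J h.natAbs b : ℕ) : ℝ))
          (fun _ => Nat.cast_nonneg _)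
    _ ≤ 2 * ∑ a ∈ Icc 1 ((1 + 1) * P), 2 * ∑ b ∈ Icc 1 ((1 + 1) * P), ((GG J a b : ℕ) : ℝ) :=
        sum_Ier_le 1 P (fun a => 2 * ∑ b ∈ Icc 1 ((1 + 1) * P), ((GG J a b : ℕ) : ℝ))
          (fun _ => by positivity)
    _ = 4 * ∑ a ∈ Icc 1 (2 * P), ∑ b ∈ Icc 1 (2 * P), ((GG J a b : ℕ) : ℝ) := by
        rw [← Finset.mul_sum]; ring
    _ ≤ 4 * (2 * (((2 * P : ℕ) : ℝ) ^ 2 + 2 * J * (2 * P : ℕ))) :=
        mul_le_mul_of_nonneg_left (sum_GG_le J (2 * P)) (by norm_num)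
    _ = 8 * (((2 * P : ℕ) : ℝ) ^ 2 + 2 * J * (2 * P : ℕ)) := by ring

/-- A large fractional part is far from the centre of the window. -/
theorem far_of_fract {s lam : ℝ} (h1 : lam < Int.fract s) :
    lam / 2 ≤ |s - lam / 2 - round (s - lam / 2)| := by
  set t := Int.fract s with ht
  have ht1 : t < 1 := Int.fract_lt_one s
  set N : ℤ := round (s - lam / 2) with hN
  have hs : s = ⌊s⌋ + t := by rw [ht]; exact (Int.floor_add_fract s).symm
  by_contra h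
  push Not at h
  rw [abs_lt] at h
  have h2 : (N : ℝ) < ⌊s⌋ + 1 := by linarith
  have h3 : (⌊s⌋ : ℝ) < N := by linarith
  have h4 : N < ⌊s⌋ + 1 := by exact_mod_cast h2
  have h5 : ⌊s⌋ < N := by exact_mod_cast h3
  omega

/-- **The second moment bound for one piece.** -/
theorem piece_general {m J P : ℕ} (hm : 0 < m) (hJ : 0 < J) (hP : 0 < P) (hJm : J ≤ m)
    (hQ : 4 * (2 * P) ^ 2 * J ^ 2 ≤ m) {Y L E η lam : ℝ} (hL : 0 ≤ L) (hLm : L ≤ m)
    (hY1 : (m : ℝ) ^ 2 ≤ Y) (hY2 : Y ≤ ((m : ℝ) + 1) ^ 2) (hE : 0 < E)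
    (hE2 : 12 * (m : ℝ) * J ≤ E ^ 2) (hη : 0 ≤ η) (hlam : 0 < lam)
    (hElam : 2 * E * lam ≤ η * √(m : ℝ)) (hPlam : 4 * (1 / lam ^ 2) ^ 2 ≤ (P : ℝ) ^ 3)
    (hQL : 8 * ((2 * P : ℕ) : ℝ) ^ 2 * L ≤ m) :
    volume {X : ℝ | X ∈ Set.Icc Y (Y + L) ∧ ¬ ∃ n : ℕ, IsSumOfTwoSquares n ∧
      (n : ℝ) ∈ Set.Icc (X - η * X ^ (1 / 4 : ℝ)) X} ≤
    ENNReal.ofReal (128 * L * (((2 * P : ℕ) : ℝ) ^ 2 + 2 * J * (2 * P : ℕ)) / (J : ℝ) ^ 2 +
      64 * ((2 * P : ℕ) : ℝ) ^ 2 * (1 / (m / (32 * (2 * P : ℕ) * E ^ 3)) +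
        L * ((2 * P : ℕ) / (m * √m)) / (m / (32 * (2 * P : ℕ) * E ^ 3)) ^ 2)) := by
  have hmr : (0 : ℝ) < m := by exact_mod_cast hm
  have hm1 : (1 : ℝ) ≤ m := by exact_mod_cast hm
  have hJr : (0 : ℝ) < J := by exact_mod_cast hJ
  have hPr : (0 : ℝ) < P := by exact_mod_cast hP
  set Q : ℕ := 2 * P with hQdef
  have hQ0 : 0 < Q := by omega
  have hQr : (0 : ℝ) < Q := by exact_mod_cast hQ0
  set B : ℝ := 1 / (m / (32 * (Q : ℝ) * E ^ 3)) +
        L * (Q / (m * √m)) / (m / (32 * Q * E ^ 3)) ^ 2 with hB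
  have hB0 : 0 ≤ B := by positivity
  set A : ℕ × ℤ → ℂ := fun u => (cK 1 P u.2 : ℂ) * e (-(u.2 * (lam / 2))) with hA
  set φ : ℕ × ℤ → ℝ → ℝ := fun u x => (u.2 : ℝ) * √(DD m u.1 x) with hφ
  have hXr : ∀ x ∈ Set.Icc Y (Y + L), (m : ℝ) ^ 2 ≤ x ∧ x ≤ ((m : ℝ) + 2) ^ 2 := by
    intro x hx
    refine ⟨by linarith [hx.1], ?_⟩
    have := hx.2
    nlinarith
  have hcD : ∀ i : ℕ, Continuous (fun x => DD m i x) := by
    intro i; unfold DD; fun_prop
  have hφc : ∀ u ∈ UU J P, ContinuousOn (φ u) (Set.Icc Y (Y + L)) := fun u _ =>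
    (continuous_const.mul (hcD u.1).sqrt).continuousOn
  have hAn : ∀ u, ‖A u‖ ≤ (P : ℝ) ^ 3 := by
    intro u
    rw [hA]
    simp only
    rw [norm_mul, norm_e, mul_one, Complex.norm_natCast]
    have := cK_le 1 P u.2
    calc (cK 1 P u.2 : ℝ) ≤ ((P ^ (2 * 1 + 1) : ℕ) : ℝ) := by exact_mod_cast this
      _ = (P : ℝ) ^ 3 := by push_cast; norm_num
  -- each pair
  have hpair : ∀ u ∈ UU J P, ∀ v ∈ UU J P,
      ‖A u‖ * ‖A v‖ * ‖∫ x in Y..(Y + L), e (φ u x - φ v x)‖ ≤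
      (P : ℝ) ^ 6 * (L * (if |(u.2 : ℝ) ^ 2 * DD m v.1 Y - (v.2 : ℝ) ^ 2 * DD m u.1 Y| < m / 4
        then (1 : ℝ) else 0) + B) := by
    intro u hu v hv
    rw [UU, mem_product, mem_Icc] at hu hv
    have hint : ‖∫ x in Y..(Y + L), e (φ u x - φ v x)‖ ≤
        L * (if |(u.2 : ℝ) ^ 2 * DD m v.1 Y - (v.2 : ℝ) ^ 2 * DD m u.1 Y| < m / 4
        then (1 : ℝ) else 0) + B := by
      split_ifs with hco
      · have h1 : ‖∫ x in Y..(Y + L), e (φ u x - φ v x)‖ ≤ 1 * |Y + L - Y| :=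
          intervalIntegral.norm_integral_le_of_norm_le_const fun x _ => by rw [norm_e]
        have h2 : |Y + L - Y| = L := by rw [add_sub_cancel_left, abs_of_nonneg hL]
        rw [h2] at h1
        linarith
      · push Not at hco
        have h1 : |((u.2 : ℤ) : ℝ)| ≤ Q := by
          have := abs_le_of_mem_Ier hu.2
          rw [hQdef]; push_cast at this ⊢; linarith
        have h2 : |((v.2 : ℤ) : ℝ)| ≤ Q := by
          have := abs_le_of_mem_Ier hv.2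
          rw [hQdef]; push_cast at this ⊢; linarith
        have h3 := pair_bound (h := u.2) (h' := v.2) (j := u.1) (j' := v.1) hm hQ0 hL hE h1 h2
          (fun x hx => ⟨DD_lower hu.1.1 hu.1.2 hJm (hXr x hx).1,
            DD_lower hv.1.1 hv.1.2 hJm (hXr x hx).1⟩)
          (fun x hx => ⟨(DD_upper hu.1.1 hu.1.2 hJm (hXr x hx).2).trans hE2,
            (DD_upper hv.1.1 hv.1.2 hJm (hXr x hx).2).trans hE2⟩)
          (fun x hx => by
            have h4 : (u.2 : ℝ) ^ 2 * DD m v.1 x - (v.2 : ℝ) ^ 2 * DD m u.1 x =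
              ((u.2 : ℝ) ^ 2 * DD m v.1 Y - (v.2 : ℝ) ^ 2 * DD m u.1 Y) +
              ((u.2 : ℝ) ^ 2 - (v.2 : ℝ) ^ 2) * (x - Y) := by
              unfold DD; ring
            have h5 : |((u.2 : ℝ) ^ 2 - (v.2 : ℝ) ^ 2) * (x - Y)| ≤ (Q : ℝ) ^ 2 * L := by
              rw [abs_mul]
              have h6 : |x - Y| ≤ L := by
                rw [abs_of_nonneg (by linarith [hx.1])]; linarith [hx.2]
              have h7 : (u.2 : ℝ) ^ 2 ≤ (Q : ℝ) ^ 2 := by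
                rw [← sq_abs (u.2 : ℝ)]; exact pow_le_pow_left₀ (abs_nonneg _) h1 2
              have h8 : (v.2 : ℝ) ^ 2 ≤ (Q : ℝ) ^ 2 := by
                rw [← sq_abs (v.2 : ℝ)]; exact pow_le_pow_left₀ (abs_nonneg _) h2 2
              have h9 : |(u.2 : ℝ) ^ 2 - (v.2 : ℝ) ^ 2| ≤ (Q : ℝ) ^ 2 := by
                rw [abs_le]
                constructor
                · have := sq_nonneg (u.2 : ℝ); linarith
                · have := sq_nonneg (v.2 : ℝ); linarith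
              exact mul_le_mul h9 h6 (abs_nonneg _) (by positivity)
            rw [h4]
            have h10 : |(u.2 : ℝ) ^ 2 * DD m v.1 Y - (v.2 : ℝ) ^ 2 * DD m u.1 Y| -
              |((u.2 : ℝ) ^ 2 - (v.2 : ℝ) ^ 2) * (x - Y)| ≤ |((u.2 : ℝ) ^ 2 * DD m v.1 Y -
              (v.2 : ℝ) ^ 2 * DD m u.1 Y) + ((u.2 : ℝ) ^ 2 - (v.2 : ℝ) ^ 2) * (x - Y)| := by
              have := abs_sub_abs_le_abs_sub ((u.2 : ℝ) ^ 2 * DD m v.1 Y -
                (v.2 : ℝ) ^ 2 * DD m u.1 Y) (-(((u.2 : ℝ) ^ 2 - (v.2 : ℝ) ^ 2) * (x - Y)))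
              rw [abs_neg, sub_neg_eq_add] at this
              exact this
            have h11 : (Q : ℝ) ^ 2 * L ≤ m / 8 := by linarith
            linarith)
        have h4 : ‖∫ x in Y..(Y + L), e (φ u x - φ v x)‖ ≤ B := h3
        linarith
    have h1 : ‖A u‖ * ‖A v‖ ≤ (P : ℝ) ^ 6 := by
      calc ‖A u‖ * ‖A v‖ ≤ (P : ℝ) ^ 3 * (P : ℝ) ^ 3 :=
            mul_le_mul (hAn u) (hAn v) (norm_nonneg _) (by positivity)
        _ = (P : ℝ) ^ 6 := by ring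
    exact mul_le_mul h1 hint (norm_nonneg _) (by positivity)
  set N : ℝ := 8 * ((Q : ℝ) ^ 2 + 2 * J * Q) with hN
  have hI : ∫ x in Y..(Y + L), ‖∑ u ∈ UU J P, A u * e (φ u x)‖ ^ 2 ≤
      (P : ℝ) ^ 6 * (L * N + 4 * (Q : ℝ) ^ 2 * (J : ℝ) ^ 2 * B) := by
    refine le_trans (integral_normSq_le (UU J P) A φ (by linarith) hφc) ?_
    refine le_trans (Finset.sum_le_sum fun u hu => Finset.sum_le_sum fun v hv => hpair u hu v hv) ?_
    have h1 : ∑ u ∈ UU J P, ∑ v ∈ UU J P, (P : ℝ) ^ 6 *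
        (L * (if |(u.2 : ℝ) ^ 2 * DD m v.1 Y - (v.2 : ℝ) ^ 2 * DD m u.1 Y| < m / 4
        then (1 : ℝ) else 0) + B) = (P : ℝ) ^ 6 * (L * (∑ u ∈ UU J P, ∑ v ∈ UU J P,
        (if |(u.2 : ℝ) ^ 2 * DD m v.1 Y - (v.2 : ℝ) ^ 2 * DD m u.1 Y| < m / 4
        then (1 : ℝ) else 0)) + ((UU J P).card : ℝ) ^ 2 * B) := by
      simp only [Finset.mul_sum, Finset.sum_add_distrib, mul_add, Finset.sum_const, nsmul_eq_mul]
      ring
    rw [h1]
    apply mul_le_mul_of_nonneg_left _ (by positivity)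
    have h2 := mul_le_mul_of_nonneg_left (sum_coinc_le hQ hm Y) hL
    have h3 : ((UU J P).card : ℝ) ^ 2 = 4 * (Q : ℝ) ^ 2 * (J : ℝ) ^ 2 := by
      rw [card_UU, hQdef]; push_cast; ring
    rw [h3]
    rw [← hQdef] at h2
    linarith
  -- Chebyshev
  have hcheb := volume_le_of_integral (a := Y) (b := Y + L) (c := (J * (P : ℝ) ^ 3 / 4) ^ 2)
    (by linarith) (by positivity) (fun x => ‖∑ u ∈ UU J P, A u * e (φ u x)‖ ^ 2)
    (by
      apply ContinuousOn.pow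
      apply ContinuousOn.norm
      exact continuousOn_finsetSum _ fun u hu =>
        continuousOn_const.mul (continuous_e.comp_continuousOn (hφc u hu)))
    (fun x => by positivity)
    {X : ℝ | X ∈ Set.Icc Y (Y + L) ∧ ¬ ∃ n : ℕ, IsSumOfTwoSquares n ∧
      (n : ℝ) ∈ Set.Icc (X - η * X ^ (1 / 4 : ℝ)) X} (by
      rintro x ⟨hx, hbad⟩
      refine ⟨hx, ?_⟩
      apply pow_le_pow_left₀ (by positivity)
      -- the value of the sum
      have h1 : ∑ u ∈ UU J P, A u * e (φ u x) =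
          ((∑ j ∈ Icc 1 J, ‖PP P (√(DD m j x) - lam / 2)‖ ^ (2 * (1 + 1)) : ℝ) : ℂ) -
          (J : ℂ) * (cK 1 P 0 : ℂ) := by
        rw [UU, Finset.sum_product]
        push_cast
        have h2 : ∀ j ∈ Icc 1 J, ∑ h ∈ Ier 1 P, A (j, h) * e (φ (j, h) x) =
            ((‖PP P (√(DD m j x) - lam / 2)‖ ^ (2 * (1 + 1)) : ℝ) : ℂ) - (cK 1 P 0 : ℂ) := by
          intro j _
          rw [norm_PP_pow, Ier, ← Finset.add_sum_erase _ _
            (show (0 : ℤ) ∈ Icc (-(((1 + 1) * P : ℕ) : ℤ)) (((1 + 1) * P : ℕ) : ℤ) by simp)]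
          rw [Int.cast_zero, zero_mul, e_zero, mul_one, add_sub_cancel_left]
          refine Finset.sum_congr rfl fun h _ => ?_
          rw [hA, hφ]
          simp only
          rw [mul_assoc, ← e_add]
          congr 2
          ring
        rw [Finset.sum_congr rfl h2, Finset.sum_sub_distrib, Finset.sum_const, Nat.card_Icc,
          nsmul_eq_mul, Nat.add_sub_cancel]
        push_cast
        rfl
      have h2 : ∀ j ∈ Icc 1 J, ‖PP P (√(DD m j x) - lam / 2)‖ ^ (2 * (1 + 1)) ≤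
          (P : ℝ) ^ 3 / 4 := by
        intro j hj
        rw [mem_Icc] at hj
        have h3 : lam < Int.fract (√(DD m j x)) := by
          by_contra hf
          push Not at hf
          apply hbad
          have hD := DD_lower hj.1 hj.2 hJm (hXr x hx).1
          have hD2 := (DD_upper hj.1 hj.2 hJm (hXr x hx).2).trans hE2
          have hsE : √(DD m j x) ≤ E := Real.sqrt_le_iff.mpr ⟨hE.le, hD2⟩
          apply success (hj.2.trans hJm) hη (hXr x hx).1 (by linarith) _ hf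
          refine le_trans ?_ hElam
          exact mul_le_mul_of_nonneg_right (by linarith) hlam.le
        have h4 := norm_PP_le 1 P _ (lam / 2) (by linarith) (far_of_fract h3)
        refine le_trans h4 ?_
        have h5 : (1 / (4 * (lam / 2) ^ 2)) ^ (1 + 1) = (1 / lam ^ 2) ^ 2 := by
          congr 2; ring
        rw [h5]
        linarith
      have h3 : ∑ j ∈ Icc 1 J, ‖PP P (√(DD m j x) - lam / 2)‖ ^ (2 * (1 + 1)) ≤
          J * ((P : ℝ) ^ 3 / 4) := by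
        refine le_trans (Finset.sum_le_sum h2) ?_
        rw [Finset.sum_const, Nat.card_Icc, nsmul_eq_mul, Nat.add_sub_cancel]
      have h4 : (P : ℝ) ^ 3 / 2 ≤ (cK 1 P 0 : ℝ) := by
        have h5 := le_cK_zero 1 P hP
        have h6 : ((P ^ (2 * 1 + 1) : ℕ) : ℝ) ≤ (((1 + 1) * cK 1 P 0 : ℕ) : ℝ) := by
          exact_mod_cast h5
        push_cast at h6
        linarith
      rw [h1]
      have h5 : ((∑ j ∈ Icc 1 J, ‖PP P (√(DD m j x) - lam / 2)‖ ^ (2 * (1 + 1)) : ℝ) : ℂ) -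
          (J : ℂ) * (cK 1 P 0 : ℂ) =
          ((∑ j ∈ Icc 1 J, ‖PP P (√(DD m j x) - lam / 2)‖ ^ (2 * (1 + 1)) -
            J * (cK 1 P 0 : ℝ) : ℝ) : ℂ) := by push_cast; ring
      rw [h5, Complex.norm_real, Real.norm_eq_abs, le_abs]
      right
      have h6 : (J : ℝ) * ((P : ℝ) ^ 3 / 2) ≤ J * (cK 1 P 0 : ℝ) :=
        mul_le_mul_of_nonneg_left h4 hJr.le
      have h7 : (J : ℝ) * ((P : ℝ) ^ 3 / 2) = J * ((P : ℝ) ^ 3 / 4) + J * (P : ℝ) ^ 3 / 4 := by ring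
      linarith)
  refine le_trans hcheb (ENNReal.ofReal_le_ofReal ?_)
  rw [div_le_iff₀ (by positivity)]
  refine le_trans hI (le_of_eq ?_)
  rw [hN]
  field_simp
  ring

end Run7.h770
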