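import Mathlib
import Pool.Agent.Run7.h770.Short2

/-!
# Short intervals: the bound for one piece with explicit parameters
-/

set_option autoImplicit false

open Finset MeasureTheory N73befb9b

namespace Run7.h770

/-- The set of bad `X` in `[Y, Y + L]`. -/
def BadX (η Y L : ℝ) : Set ℝ :=
  {X : ℝ | X ∈ Set.Icc Y (Y + L) ∧ ¬ ∃ n : ℕ, IsSumOfTwoSquares n ∧
      (n : ℝ) ∈ Set.Icc (X - η * X ^ (1 / 4 : ℝ)) X}

theorem piece_special {m q : ℕ} (hm : 0 < m) (hq : 0 < q) {Y L η : ℝ} (hL : 0 < L)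
    (hη0 : 0 < η) (hη1 : η ≤ 1) (hY1 : (m : ℝ) ^ 2 ≤ Y) (hY2 : Y ≤ ((m : ℝ) + 1) ^ 2)
    (c1 : (q : ℝ) ^ 23 * √(m : ℝ) ≤ L) (c2 : 24000 * (q : ℝ) ^ 8 * L ≤ η ^ 4 * m)
    (c3 : (q : ℝ) ^ 40 ≤ √(m : ℝ)) (c4 : 12000 * (q : ℝ) ^ 20 ≤ η ^ 4 * m) :
    volume (BadX η Y L) ≤ ENNReal.ofReal (2 * 10 ^ 17 * (1 / η) ^ 10 * L / (q : ℝ) ^ 2) := by
  have hmr : (0 : ℝ) < m := by exact_mod_cast hm
  have hqr : (0 : ℝ) < q := by exact_mod_cast hq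
  have hq1 : (1 : ℝ) ≤ q := by exact_mod_cast hq
  set s := √(m : ℝ) with hs
  have hs0 : 0 < s := Real.sqrt_pos.mpr hmr
  have hs2 : s ^ 2 = m := Real.sq_sqrt hmr.le
  set v : ℝ := 1 / η with hv
  have hv1 : 1 ≤ v := by rw [hv, le_div_iff₀ hη0]; linarith
  have hηv : η * v = 1 := by rw [hv]; field_simp
  set P : ℕ := ⌈26 * (q : ℝ) ^ 4 * v ^ 2⌉₊ with hP
  have hP1 : 26 * (q : ℝ) ^ 4 * v ^ 2 ≤ P := Nat.le_ceil _
  have hq4 : (1 : ℝ) ≤ (q : ℝ) ^ 4 := one_le_pow₀ hq1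
  have hv2 : (1 : ℝ) ≤ v ^ 2 := one_le_pow₀ hv1
  have hqv : (1 : ℝ) ≤ (q : ℝ) ^ 4 * v ^ 2 := one_le_mul_of_one_le_of_one_le hq4 hv2
  have hP2 : (P : ℝ) ≤ 27 * ((q : ℝ) ^ 4 * v ^ 2) := by
    have := Nat.ceil_lt_add_one (show 0 ≤ 26 * (q : ℝ) ^ 4 * v ^ 2 by positivity)
    rw [← hP] at this
    linarith
  have hP0 : 0 < P := by
    have : (0 : ℝ) < P := lt_of_lt_of_le (by positivity) hP1
    exact_mod_cast this
  have hQ : ((2 * P : ℕ) : ℝ) ≤ 54 * ((q : ℝ) ^ 4 * v ^ 2) := by push_cast; linarith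
  set W : ℝ := (q : ℝ) ^ 4 * v ^ 2 with hW
  have hW0 : 0 < W := by positivity
  have hη4 : η ^ 4 * v ^ 4 = 1 := by rw [← mul_pow, hηv, one_pow]
  -- multiply the conditions by `v ^ 4`
  have c2' : 24000 * (q : ℝ) ^ 8 * v ^ 4 * L ≤ m := by
    have h1 := mul_le_mul_of_nonneg_right c2 (by positivity : 0 ≤ v ^ 4)
    have h2 : η ^ 4 * (m : ℝ) * v ^ 4 = m := by
      have h3 : η ^ 4 * (m : ℝ) * v ^ 4 = (η ^ 4 * v ^ 4) * m := by ring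
      rw [h3, hη4, one_mul]
    rw [h2] at h1
    linarith
  have c4' : 12000 * (q : ℝ) ^ 20 * v ^ 4 ≤ m := by
    have h1 := mul_le_mul_of_nonneg_right c4 (by positivity : 0 ≤ v ^ 4)
    have h2 : η ^ 4 * (m : ℝ) * v ^ 4 = m := by
      have h3 : η ^ 4 * (m : ℝ) * v ^ 4 = (η ^ 4 * v ^ 4) * m := by ring
      rw [h3, hη4, one_mul]
    rw [h2] at h1
    linarith
  have hv4 : (1 : ℝ) ≤ v ^ 4 := one_le_pow₀ hv1
  have hQsq : ((2 * P : ℕ) : ℝ) ^ 2 ≤ 2916 * ((q : ℝ) ^ 8 * v ^ 4) := by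
    calc ((2 * P : ℕ) : ℝ) ^ 2 ≤ (54 * W) ^ 2 := pow_le_pow_left₀ (Nat.cast_nonneg _) hQ 2
      _ = 2916 * ((q : ℝ) ^ 8 * v ^ 4) := by rw [hW]; ring
  have hJm : q ^ 6 ≤ m := by
    have h1 : ((q ^ 6 : ℕ) : ℝ) ≤ m := by
      push_cast
      have h2 : (q : ℝ) ^ 6 ≤ (q : ℝ) ^ 20 := pow_le_pow_right₀ hq1 (by norm_num)
      have h3 : (q : ℝ) ^ 20 * 1 ≤ (q : ℝ) ^ 20 * v ^ 4 :=
        mul_le_mul_of_nonneg_left hv4 (by positivity)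
      nlinarith
    exact_mod_cast h1
  have hQJ : 4 * (2 * P) ^ 2 * (q ^ 6) ^ 2 ≤ m := by
    have h1 : ((4 * (2 * P) ^ 2 * (q ^ 6) ^ 2 : ℕ) : ℝ) ≤ m := by
      have h2 : ((4 * (2 * P) ^ 2 * (q ^ 6) ^ 2 : ℕ) : ℝ) =
          4 * ((2 * P : ℕ) : ℝ) ^ 2 * (q : ℝ) ^ 12 := by push_cast; ring
      rw [h2]
      calc 4 * ((2 * P : ℕ) : ℝ) ^ 2 * (q : ℝ) ^ 12 ≤
          4 * (2916 * ((q : ℝ) ^ 8 * v ^ 4)) * (q : ℝ) ^ 12 := by gcongr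
        _ = 11664 * ((q : ℝ) ^ 20 * v ^ 4) := by ring
        _ ≤ 12000 * ((q : ℝ) ^ 20 * v ^ 4) := by
            apply mul_le_mul_of_nonneg_right (by norm_num) (by positivity)
        _ = 12000 * (q : ℝ) ^ 20 * v ^ 4 := by ring
        _ ≤ m := c4'
    exact_mod_cast h1
  have hLm : L ≤ m := by
    have h2 : (1 : ℝ) ≤ (q : ℝ) ^ 8 := one_le_pow₀ hq1
    have h3 : (1 : ℝ) ≤ (q : ℝ) ^ 8 * v ^ 4 := one_le_mul_of_one_le_of_one_le h2 hv4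
    calc L = 1 * L := (one_mul _).symm
      _ ≤ (24000 * ((q : ℝ) ^ 8 * v ^ 4)) * L := by
          apply mul_le_mul_of_nonneg_right _ hL.le
          linarith
      _ = 24000 * (q : ℝ) ^ 8 * v ^ 4 * L := by ring
      _ ≤ m := c2'
  set E : ℝ := 4 * s * (q : ℝ) ^ 3 with hE
  have hE0 : 0 < E := by positivity
  have hE2 : 12 * (m : ℝ) * ((q ^ 6 : ℕ) : ℝ) ≤ E ^ 2 := by
    rw [hE, ← hs2]; push_cast
    have : 0 ≤ s ^ 2 * (q : ℝ) ^ 6 := by positivity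
    nlinarith
  have hQL : 8 * ((2 * P : ℕ) : ℝ) ^ 2 * L ≤ m := by
    calc 8 * ((2 * P : ℕ) : ℝ) ^ 2 * L ≤ 8 * (2916 * ((q : ℝ) ^ 8 * v ^ 4)) * L := by gcongr
      _ = 23328 * ((q : ℝ) ^ 8 * v ^ 4 * L) := by ring
      _ ≤ 24000 * ((q : ℝ) ^ 8 * v ^ 4 * L) := by
          apply mul_le_mul_of_nonneg_right (by norm_num) (by positivity)
      _ = 24000 * (q : ℝ) ^ 8 * v ^ 4 * L := by ring
      _ ≤ m := c2'
  set lam : ℝ := η / (8 * (q : ℝ) ^ 3) with hlam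
  have hlam0 : 0 < lam := by positivity
  have hElam : 2 * E * lam ≤ η * s := by
    rw [hE, hlam]
    apply le_of_eq
    field_simp
    norm_num
  have hPlam : 4 * (1 / lam ^ 2) ^ 2 ≤ (P : ℝ) ^ 3 := by
    have h1 : 4 * (1 / lam ^ 2) ^ 2 = 16384 * (q : ℝ) ^ 12 * v ^ 4 := by
      rw [hlam, hv]; field_simp; norm_num
    have h2 : (26 * (q : ℝ) ^ 4 * v ^ 2) ^ 3 ≤ (P : ℝ) ^ 3 :=
      pow_le_pow_left₀ (by positivity) hP1 3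
    have h3 : (26 * (q : ℝ) ^ 4 * v ^ 2) ^ 3 = 17576 * ((q : ℝ) ^ 12 * v ^ 6) := by ring
    have h4 : v ^ 4 ≤ v ^ 6 := pow_le_pow_right₀ hv1 (by norm_num)
    rw [h1]
    calc 16384 * (q : ℝ) ^ 12 * v ^ 4 ≤ 17576 * (q : ℝ) ^ 12 * v ^ 6 := by gcongr; norm_num
      _ = (26 * (q : ℝ) ^ 4 * v ^ 2) ^ 3 := by ring
      _ ≤ (P : ℝ) ^ 3 := h2
  have hmain := piece_general hm (by positivity : 0 < q ^ 6) hP0 hJm hQJ hL.le hLm hY1 hY2 hE0 hE2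
    hη0.le hlam0 hElam hPlam hQL
  refine le_trans hmain (ENNReal.ofReal_le_ofReal ?_)
  set Q : ℝ := ((2 * P : ℕ) : ℝ) with hQdef
  have hQ0 : 0 < Q := by rw [hQdef]; exact_mod_cast (by omega : 0 < 2 * P)
  have e1 : 1 / ((m : ℝ) / (32 * Q * E ^ 3)) = 2048 * Q * s * (q : ℝ) ^ 9 := by
    rw [hE, ← hs2]; field_simp; norm_num
  have e2 : L * (Q / ((m : ℝ) * √(m : ℝ))) / ((m : ℝ) / (32 * Q * E ^ 3)) ^ 2 =
      4194304 * L * Q ^ 3 * (q : ℝ) ^ 18 / s := by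
    rw [← hs, hE, ← hs2]; field_simp; norm_num
  rw [e1, e2]
  push_cast
  have hvp : ∀ k : ℕ, k ≤ 10 → v ^ k ≤ v ^ 10 := fun k hk => pow_le_pow_right₀ hv1 hk
  -- term 1
  have t1 : 128 * L * (Q ^ 2 + 2 * (q : ℝ) ^ 6 * Q) / ((q : ℝ) ^ 6) ^ 2 ≤
      400000 * v ^ 10 * L / (q : ℝ) ^ 2 := by
    have h1 : Q ^ 2 ≤ 2916 * ((q : ℝ) ^ 10 * v ^ 10) := by
      refine le_trans hQsq ?_
      have h2 : (q : ℝ) ^ 8 ≤ (q : ℝ) ^ 10 := pow_le_pow_right₀ hq1 (by norm_num)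
      have h3 := hvp 4 (by norm_num)
      have h4 : (q : ℝ) ^ 8 * v ^ 4 ≤ (q : ℝ) ^ 10 * v ^ 10 := mul_le_mul h2 h3 (by positivity)
        (by positivity)
      linarith
    have h2 : 2 * (q : ℝ) ^ 6 * Q ≤ 108 * ((q : ℝ) ^ 10 * v ^ 10) := by
      have h3 := hvp 2 (by norm_num)
      calc 2 * (q : ℝ) ^ 6 * Q ≤ 2 * (q : ℝ) ^ 6 * (54 * W) := by gcongr
        _ = 108 * ((q : ℝ) ^ 10 * v ^ 2) := by rw [hW]; ring
        _ ≤ 108 * ((q : ℝ) ^ 10 * v ^ 10) := by gcongr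
    rw [div_le_div_iff₀ (by positivity) (by positivity)]
    have h3 : Q ^ 2 + 2 * (q : ℝ) ^ 6 * Q ≤ 3024 * ((q : ℝ) ^ 10 * v ^ 10) := by linarith
    calc 128 * L * (Q ^ 2 + 2 * (q : ℝ) ^ 6 * Q) * (q : ℝ) ^ 2
        ≤ 128 * L * (3024 * ((q : ℝ) ^ 10 * v ^ 10)) * (q : ℝ) ^ 2 := by gcongr
      _ = 387072 * (v ^ 10 * L * (q : ℝ) ^ 12) := by ring
      _ ≤ 400000 * (v ^ 10 * L * (q : ℝ) ^ 12) := by
          apply mul_le_mul_of_nonneg_right (by norm_num) (by positivity)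
      _ = 400000 * v ^ 10 * L * ((q : ℝ) ^ 6) ^ 2 := by ring
  -- term 2
  have t2 : 64 * Q ^ 2 * (2048 * Q * s * (q : ℝ) ^ 9) ≤
      21000000000 * v ^ 10 * L / (q : ℝ) ^ 2 := by
    have h1 : Q ^ 3 ≤ 157464 * ((q : ℝ) ^ 12 * v ^ 6) := by
      calc Q ^ 3 ≤ (54 * W) ^ 3 := pow_le_pow_left₀ hQ0.le hQ 3
        _ = 157464 * ((q : ℝ) ^ 12 * v ^ 6) := by rw [hW]; ring
    rw [le_div_iff₀ (by positivity)]
    calc 64 * Q ^ 2 * (2048 * Q * s * (q : ℝ) ^ 9) * (q : ℝ) ^ 2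
        = 131072 * Q ^ 3 * (s * (q : ℝ) ^ 11) := by ring
      _ ≤ 131072 * (157464 * ((q : ℝ) ^ 12 * v ^ 6)) * (s * (q : ℝ) ^ 11) := by gcongr
      _ = 20639121408 * v ^ 6 * ((q : ℝ) ^ 23 * s) := by ring
      _ ≤ 21000000000 * v ^ 10 * L := by
          have h2 := hvp 6 (by norm_num)
          gcongr
          norm_num
  -- term 3
  have t3 : 64 * Q ^ 2 * (4194304 * L * Q ^ 3 * (q : ℝ) ^ 18 / s) ≤
      130000000000000000 * v ^ 10 * L / (q : ℝ) ^ 2 := by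
    have h1 : Q ^ 5 ≤ 459165024 * ((q : ℝ) ^ 20 * v ^ 10) := by
      calc Q ^ 5 ≤ (54 * W) ^ 5 := pow_le_pow_left₀ hQ0.le hQ 5
        _ = 459165024 * ((q : ℝ) ^ 20 * v ^ 10) := by rw [hW]; ring
    rw [← mul_div_assoc, div_le_div_iff₀ hs0 (by positivity)]
    calc 64 * Q ^ 2 * (4194304 * L * Q ^ 3 * (q : ℝ) ^ 18) * (q : ℝ) ^ 2
        = 268435456 * L * (q : ℝ) ^ 20 * Q ^ 5 := by ring
      _ ≤ 268435456 * L * (q : ℝ) ^ 20 * (459165024 * ((q : ℝ) ^ 20 * v ^ 10)) := by gcongr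
      _ = (268435456 * 459165024) * (v ^ 10 * L * (q : ℝ) ^ 40) := by ring
      _ ≤ 130000000000000000 * (v ^ 10 * L * (q : ℝ) ^ 40) :=
          mul_le_mul_of_nonneg_right (by norm_num) (by positivity)
      _ ≤ 130000000000000000 * (v ^ 10 * L * s) := by gcongr
      _ = 130000000000000000 * v ^ 10 * L * s := by ring
  have hfin : 0 ≤ v ^ 10 * L / (q : ℝ) ^ 2 := by positivity
  calc 128 * L * (Q ^ 2 + 2 * (q : ℝ) ^ 6 * Q) / ((q : ℝ) ^ 6) ^ 2 +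
      64 * Q ^ 2 * (2048 * Q * s * (q : ℝ) ^ 9 + 4194304 * L * Q ^ 3 * (q : ℝ) ^ 18 / s)
      = 128 * L * (Q ^ 2 + 2 * (q : ℝ) ^ 6 * Q) / ((q : ℝ) ^ 6) ^ 2 +
        (64 * Q ^ 2 * (2048 * Q * s * (q : ℝ) ^ 9) +
        64 * Q ^ 2 * (4194304 * L * Q ^ 3 * (q : ℝ) ^ 18 / s)) := by ring
    _ ≤ 400000 * v ^ 10 * L / (q : ℝ) ^ 2 + (21000000000 * v ^ 10 * L / (q : ℝ) ^ 2 +
        130000000000000000 * v ^ 10 * L / (q : ℝ) ^ 2) := add_le_add t1 (add_le_add t2 t3)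
    _ = 130000021000400000 * (v ^ 10 * L / (q : ℝ) ^ 2) := by ring
    _ ≤ 200000000000000000 * (v ^ 10 * L / (q : ℝ) ^ 2) :=
        mul_le_mul_of_nonneg_right (by norm_num) hfin
    _ = 2 * 10 ^ 17 * v ^ 10 * L / (q : ℝ) ^ 2 := by ring

end Run7.h770
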