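import Mathlib

/-!
# The Bessel function `∫_0^{2π} cos (z cos t) dt` for large `z`
-/

set_option autoImplicit false

open MeasureTheory Set

namespace Run7.h770

/-- `2 π J₀(z)`. -/
noncomputable def J0 (z : ℝ) : ℝ := ∫ t in (0 : ℝ)..(2 * Real.pi), Real.cos (z * Real.cos t)

/-- Its derivative. -/
noncomputable def J1 (z : ℝ) : ℝ :=
  ∫ t in (0 : ℝ)..(2 * Real.pi), -(Real.cos t * Real.sin (z * Real.cos t))

/-- Its second derivative. -/
noncomputable def J2 (z : ℝ) : ℝ :=
  ∫ t in (0 : ℝ)..(2 * Real.pi), -(Real.cos t ^ 2 * Real.cos (z * Real.cos t))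

theorem hasDerivAt_J0 (z : ℝ) : HasDerivAt J0 (J1 z) z := by
  have h := intervalIntegral.hasDerivAt_integral_of_dominated_loc_of_deriv_le (μ := volume)
    (a := 0) (b := 2 * Real.pi) (bound := fun _ => (1 : ℝ))
    (F := fun z t => Real.cos (z * Real.cos t))
    (F' := fun z t => -(Real.cos t * Real.sin (z * Real.cos t)))
    (x₀ := z) (s := univ) Filter.univ_mem
    (Filter.Eventually.of_forall fun x => by
      apply Continuous.aestronglyMeasurable; fun_prop)
    (by apply Continuous.intervalIntegrable; fun_prop)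
    (by apply Continuous.aestronglyMeasurable; fun_prop)
    (Filter.Eventually.of_forall fun t _ x _ => by
      rw [norm_neg, norm_mul, Real.norm_eq_abs, Real.norm_eq_abs]
      calc |Real.cos t| * |Real.sin (x * Real.cos t)| ≤ 1 * 1 :=
            mul_le_mul (Real.abs_cos_le_one _) (Real.abs_sin_le_one _) (abs_nonneg _) (by norm_num)
        _ = 1 := by norm_num)
    (by apply Continuous.intervalIntegrable; fun_prop)
    (Filter.Eventually.of_forall fun t _ x _ => by
      have h1 : HasDerivAt (fun x : ℝ => x * Real.cos t) (1 * Real.cos t) x :=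
        (hasDerivAt_id x).mul_const _
      have h2 := h1.cos
      refine h2.congr_deriv ?_
      ring)
  exact h.2

theorem hasDerivAt_J1 (z : ℝ) : HasDerivAt J1 (J2 z) z := by
  have h := intervalIntegral.hasDerivAt_integral_of_dominated_loc_of_deriv_le (μ := volume)
    (a := 0) (b := 2 * Real.pi) (bound := fun _ => (1 : ℝ))
    (F := fun z t => -(Real.cos t * Real.sin (z * Real.cos t)))
    (F' := fun z t => -(Real.cos t ^ 2 * Real.cos (z * Real.cos t)))
    (x₀ := z) (s := univ) Filter.univ_mem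
    (Filter.Eventually.of_forall fun x => by
      apply Continuous.aestronglyMeasurable; fun_prop)
    (by apply Continuous.intervalIntegrable; fun_prop)
    (by apply Continuous.aestronglyMeasurable; fun_prop)
    (Filter.Eventually.of_forall fun t _ x _ => by
      rw [norm_neg, norm_mul, Real.norm_eq_abs, Real.norm_eq_abs, abs_pow]
      calc |Real.cos t| ^ 2 * |Real.cos (x * Real.cos t)| ≤ 1 ^ 2 * 1 :=
            mul_le_mul (pow_le_pow_left₀ (abs_nonneg _) (Real.abs_cos_le_one _) 2)
              (Real.abs_cos_le_one _) (abs_nonneg _) (by norm_num)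
        _ = 1 := by norm_num)
    (by apply Continuous.intervalIntegrable; fun_prop)
    (Filter.Eventually.of_forall fun t _ x _ => by
      have h1 : HasDerivAt (fun x : ℝ => x * Real.cos t) (1 * Real.cos t) x :=
        (hasDerivAt_id x).mul_const _
      have h2 := (h1.sin.const_mul (Real.cos t)).neg
      refine h2.congr_deriv ?_
      ring)
  exact h.2

/-- Bessel's equation. -/
theorem bessel_ode (z : ℝ) : z * (J0 z + J2 z) + J1 z = 0 := by
  have hper : ∫ t in (0 : ℝ)..(2 * Real.pi),
      (Real.cos t * Real.sin (z * Real.cos t) - z * (Real.sin t ^ 2 * Real.cos (z * Real.cos t))) = 0 := by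
    have hd : ∀ t ∈ uIcc (0 : ℝ) (2 * Real.pi), HasDerivAt
        (fun t => Real.sin t * Real.sin (z * Real.cos t))
        (Real.cos t * Real.sin (z * Real.cos t) -
          z * (Real.sin t ^ 2 * Real.cos (z * Real.cos t))) t := by
      intro t _
      have h1 := (Real.hasDerivAt_cos t).const_mul z
      have h2 := (Real.hasDerivAt_sin t).mul h1.sin
      refine h2.congr_deriv ?_
      ring
    rw [intervalIntegral.integral_eq_sub_of_hasDerivAt hd
      (by apply Continuous.intervalIntegrable; fun_prop)]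
    simp
  have e1 : J0 z + J2 z = ∫ t in (0 : ℝ)..(2 * Real.pi), Real.sin t ^ 2 * Real.cos (z * Real.cos t) := by
    rw [J0, J2, ← intervalIntegral.integral_add]
    · apply intervalIntegral.integral_congr
      intro t _
      have := Real.sin_sq t
      simp only
      rw [this]; ring
    · apply Continuous.intervalIntegrable; fun_prop
    · apply Continuous.intervalIntegrable; fun_prop
  have e2 : J1 z = -∫ t in (0 : ℝ)..(2 * Real.pi), Real.cos t * Real.sin (z * Real.cos t) := by
    rw [J1, ← intervalIntegral.integral_neg]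
  rw [intervalIntegral.integral_sub (by apply Continuous.intervalIntegrable; fun_prop)
    (by apply Continuous.intervalIntegrable; fun_prop), intervalIntegral.integral_const_mul] at hper
  rw [e1, e2]
  linarith

/-- `u = √z J`. -/
noncomputable def uu (z : ℝ) : ℝ := √z * J0 z

/-- `u'`. -/
noncomputable def uu1 (z : ℝ) : ℝ := J0 z / (2 * √z) + √z * J1 z

theorem hasDerivAt_uu {z : ℝ} (hz : 0 < z) : HasDerivAt uu (uu1 z) z := by
  have h1 := (Real.hasDerivAt_sqrt hz.ne').mul (hasDerivAt_J0 z)
  refine h1.congr_deriv ?_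
  rw [uu1]; ring

theorem hasDerivAt_uu1 {z : ℝ} (hz : 0 < z) :
    HasDerivAt uu1 (-(1 + 1 / (4 * z ^ 2)) * uu z) z := by
  have hs : 0 < √z := Real.sqrt_pos.mpr hz
  have hs2 : √z ^ 2 = z := Real.sq_sqrt hz.le
  have hsd := Real.hasDerivAt_sqrt hz.ne'
  have h1 := (hasDerivAt_J0 z).div (hsd.const_mul 2) (by positivity)
  have h2 := hsd.mul (hasDerivAt_J1 z)
  have h3 := h1.add h2
  refine h3.congr_deriv ?_
  have hode := bessel_ode z
  have hJ2 : J2 z = -J0 z - J1 z / z := by
    field_simp
    linarith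
  rw [hJ2, uu]
  set s := √z with hsdef
  rw [← hs2]
  field_simp
  ring

/-- The energy `u² + u'²` is bounded. -/
theorem energy_bound : ∃ C : ℝ, 0 < C ∧ ∀ z : ℝ, 1 ≤ z → uu z ^ 2 + uu1 z ^ 2 ≤ C ^ 2 := by
  set W : ℝ → ℝ := fun z => (uu z ^ 2 + uu1 z ^ 2) * Real.exp (1 / (4 * z)) with hW
  have hder : ∀ z : ℝ, 0 < z → HasDerivAt W
      ((2 * uu z * uu1 z + 2 * uu1 z * (-(1 + 1 / (4 * z ^ 2)) * uu z)) * Real.exp (1 / (4 * z)) +
        (uu z ^ 2 + uu1 z ^ 2) * (Real.exp (1 / (4 * z)) * (-(1 / (4 * z ^ 2))))) z := by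
    intro z hz
    have h1 := ((hasDerivAt_uu hz).pow 2).add ((hasDerivAt_uu1 hz).pow 2)
    have h2 : HasDerivAt (fun z : ℝ => 1 / (4 * z)) (-(1 / (4 * z ^ 2))) z := by
      have h3 := ((hasDerivAt_id z).const_mul 4).inv (by simp [hz.ne'])
      have h4 : (fun z : ℝ => 1 / (4 * z)) = (fun z : ℝ => 4 * id z)⁻¹ := by
        funext x; simp
      rw [h4]
      refine h3.congr_deriv ?_
      simp only [id]
      field_simp
    have h5 := h1.mul h2.exp
    refine h5.congr_deriv ?_
    simp only [Pi.add_apply, Pi.pow_apply]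
    norm_num
  have hanti : AntitoneOn W (Ici 1) := by
    apply antitoneOn_of_deriv_nonpos (convex_Ici 1)
    · intro z hz
      exact (hder z (lt_of_lt_of_le one_pos hz)).continuousAt.continuousWithinAt
    · intro z hz
      rw [interior_Ici] at hz
      exact (hder z (lt_trans one_pos hz)).differentiableAt.differentiableWithinAt
    · intro z hz
      rw [interior_Ici] at hz
      have hz0 : 0 < z := lt_trans one_pos hz
      rw [(hder z hz0).deriv]
      have he := Real.exp_pos (1 / (4 * z))
      have h1 : (2 * uu z * uu1 z + 2 * uu1 z * (-(1 + 1 / (4 * z ^ 2)) * uu z)) *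
          Real.exp (1 / (4 * z)) + (uu z ^ 2 + uu1 z ^ 2) *
          (Real.exp (1 / (4 * z)) * (-(1 / (4 * z ^ 2)))) =
          -((uu z + uu1 z) ^ 2 * (1 / (4 * z ^ 2)) * Real.exp (1 / (4 * z))) := by
        ring
      rw [h1]
      have : 0 ≤ (uu z + uu1 z) ^ 2 * (1 / (4 * z ^ 2)) * Real.exp (1 / (4 * z)) := by positivity
      linarith
  refine ⟨√(W 1) + 1, by positivity, fun z hz => ?_⟩
  have h1 : W z ≤ W 1 := hanti (self_mem_Ici) hz hz
  have h2 : uu z ^ 2 + uu1 z ^ 2 ≤ W z := by
    rw [hW]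
    have : 1 ≤ Real.exp (1 / (4 * z)) := Real.one_le_exp (by positivity)
    simp only
    nlinarith [sq_nonneg (uu z), sq_nonneg (uu1 z)]
  have h3 : 0 ≤ W 1 := by rw [hW]; positivity
  have h4 : W 1 = √(W 1) ^ 2 := (Real.sq_sqrt h3).symm
  have h5 : 0 ≤ √(W 1) := Real.sqrt_nonneg _
  nlinarith

/-- A function with derivative `O(1/z²)` has a limit with error `O(1/z)`. -/
theorem lim_of_deriv {f f' : ℝ → ℝ} {c : ℝ} (hf : ∀ z : ℝ, 0 < z → HasDerivAt f (f' z) z)
    (hb : ∀ z : ℝ, 1 ≤ z → |f' z| ≤ c / z ^ 2) : ∃ A : ℝ, ∀ z : ℝ, 1 ≤ z → |f z - A| ≤ c / z := by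
  have hinv : ∀ z : ℝ, 0 < z → HasDerivAt (fun z : ℝ => c / z) (-(c / z ^ 2)) z := by
    intro z hz
    have h3 := (hasDerivAt_inv hz.ne').const_mul c
    have h4 : (fun z : ℝ => c / z) = fun z => c * z⁻¹ := by
      funext x; rw [div_eq_mul_inv]
    rw [h4]
    refine h3.congr_deriv ?_
    field_simp
  have hp : AntitoneOn (fun z => f z + c / z) (Ici 1) := by
    apply antitoneOn_of_deriv_nonpos (convex_Ici 1)
    · intro z hz
      exact ((hf z (lt_of_lt_of_le one_pos hz)).add
        (hinv z (lt_of_lt_of_le one_pos hz))).continuousAt.continuousWithinAt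
    · intro z hz
      rw [interior_Ici] at hz
      exact ((hf z (lt_trans one_pos hz)).add
        (hinv z (lt_trans one_pos hz))).differentiableAt.differentiableWithinAt
    · intro z hz
      rw [interior_Ici] at hz
      have h1 := ((hf z (lt_trans one_pos hz)).add (hinv z (lt_trans one_pos hz))).deriv
      have h2 : (fun z => f z + c / z) = (f + fun z => c / z) := rfl
      rw [h2, h1]
      have h3 := (abs_le.mp (hb z (le_of_lt hz))).2
      linarith
  have hm : MonotoneOn (fun z => f z - c / z) (Ici 1) := by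
    apply monotoneOn_of_deriv_nonneg (convex_Ici 1)
    · intro z hz
      exact ((hf z (lt_of_lt_of_le one_pos hz)).sub
        (hinv z (lt_of_lt_of_le one_pos hz))).continuousAt.continuousWithinAt
    · intro z hz
      rw [interior_Ici] at hz
      exact ((hf z (lt_trans one_pos hz)).sub
        (hinv z (lt_trans one_pos hz))).differentiableAt.differentiableWithinAt
    · intro z hz
      rw [interior_Ici] at hz
      have h1 := ((hf z (lt_trans one_pos hz)).sub (hinv z (lt_trans one_pos hz))).deriv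
      have h2 : (fun z => f z - c / z) = (f - fun z => c / z) := rfl
      rw [h2, h1]
      have h3 := (abs_le.mp (hb z (le_of_lt hz))).1
      linarith
  have hc : 0 ≤ c := by
    have := hb 1 (le_refl _)
    have h2 := abs_nonneg (f' 1)
    simp at this
    linarith
  have hcross : ∀ z w : ℝ, 1 ≤ z → 1 ≤ w → f z - c / z ≤ f w + c / w := by
    intro z w hz hw
    have h1 : f z - c / z ≤ f (max z w) - c / (max z w) :=
      hm hz (le_trans hz (le_max_left _ _)) (le_max_left _ _)
    have h2 : f (max z w) + c / (max z w) ≤ f w + c / w :=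
      hp hw (le_trans hw (le_max_right _ _)) (le_max_right _ _)
    have h3 : 0 ≤ c / (max z w) := div_nonneg hc (by linarith [le_max_left z w])
    linarith
  set A := sSup ((fun z => f z - c / z) '' Ici 1) with hA
  have hbdd : BddAbove ((fun z => f z - c / z) '' Ici 1) := by
    refine ⟨f 1 + c / 1, ?_⟩
    rintro _ ⟨z, hz, rfl⟩
    exact hcross z 1 hz (le_refl _)
  refine ⟨A, fun z hz => ?_⟩
  rw [abs_le]
  constructor
  · have h1 : A ≤ f z + c / z := by
      apply csSup_le (by exact ⟨_, 1, self_mem_Ici, rfl⟩)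
      rintro _ ⟨w, hw, rfl⟩
      exact hcross w z hw hz
    linarith
  · have h1 : f z - c / z ≤ A := le_csSup hbdd ⟨z, hz, rfl⟩
    linarith

/-- **Asymptotics.** -/
theorem J0_asymp : ∃ A B C : ℝ, 0 < C ∧ ∀ z : ℝ, 1 ≤ z →
    |J0 z - (A * Real.cos z + B * Real.sin z) / √z| ≤ C / (z * √z) := by
  obtain ⟨C, hC, hbound⟩ := energy_bound
  have hu : ∀ z : ℝ, 1 ≤ z → |uu z| ≤ C := by
    intro z hz
    have h1 := hbound z hz
    have h2 : |uu z| ^ 2 ≤ C ^ 2 := by
      rw [sq_abs]; nlinarith [sq_nonneg (uu1 z)]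
    exact (pow_le_pow_iff_left₀ (abs_nonneg _) hC.le (by norm_num)).mp h2
  have hp : ∀ z : ℝ, 0 < z → HasDerivAt (fun z => uu z * Real.cos z - uu1 z * Real.sin z)
      (uu z / (4 * z ^ 2) * Real.sin z) z := by
    intro z hz
    have h1 := ((hasDerivAt_uu hz).mul (Real.hasDerivAt_cos z)).sub
      ((hasDerivAt_uu1 hz).mul (Real.hasDerivAt_sin z))
    refine h1.congr_deriv ?_
    ring
  have hq : ∀ z : ℝ, 0 < z → HasDerivAt (fun z => uu z * Real.sin z + uu1 z * Real.cos z)
      (-(uu z / (4 * z ^ 2)) * Real.cos z) z := by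
    intro z hz
    have h1 := ((hasDerivAt_uu hz).mul (Real.hasDerivAt_sin z)).add
      ((hasDerivAt_uu1 hz).mul (Real.hasDerivAt_cos z))
    refine h1.congr_deriv ?_
    ring
  have hbb : ∀ z : ℝ, 1 ≤ z → |uu z / (4 * z ^ 2)| ≤ (C / 4) / z ^ 2 := by
    intro z hz
    have hz0 : 0 < z := by linarith
    rw [abs_div, abs_of_pos (by positivity : 0 < 4 * z ^ 2), div_div]
    exact div_le_div_of_nonneg_right (hu z hz) (by positivity)
  obtain ⟨A, hA⟩ := lim_of_deriv (c := C / 4) hp (fun z hz => by
    rw [abs_mul]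
    calc |uu z / (4 * z ^ 2)| * |Real.sin z| ≤ (C / 4) / z ^ 2 * 1 :=
          mul_le_mul (hbb z hz) (Real.abs_sin_le_one _) (abs_nonneg _) (by positivity)
      _ = (C / 4) / z ^ 2 := mul_one _)
  obtain ⟨B, hB⟩ := lim_of_deriv (c := C / 4) hq (fun z hz => by
    rw [abs_mul, abs_neg]
    calc |uu z / (4 * z ^ 2)| * |Real.cos z| ≤ (C / 4) / z ^ 2 * 1 :=
          mul_le_mul (hbb z hz) (Real.abs_cos_le_one _) (abs_nonneg _) (by positivity)
      _ = (C / 4) / z ^ 2 := mul_one _)
  refine ⟨A, B, C, hC, fun z hz => ?_⟩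
  have hz0 : 0 < z := by linarith
  have hs : 0 < √z := Real.sqrt_pos.mpr hz0
  have h1 := hA z hz
  have h2 := hB z hz
  have h3 : uu z - (A * Real.cos z + B * Real.sin z) =
      (uu z * Real.cos z - uu1 z * Real.sin z - A) * Real.cos z +
      (uu z * Real.sin z + uu1 z * Real.cos z - B) * Real.sin z := by
    have := Real.sin_sq_add_cos_sq z
    linear_combination (-uu z) * this
  have h4 : |uu z - (A * Real.cos z + B * Real.sin z)| ≤ C / z := by
    rw [h3]
    calc _ ≤ |(uu z * Real.cos z - uu1 z * Real.sin z - A) * Real.cos z| +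
        |(uu z * Real.sin z + uu1 z * Real.cos z - B) * Real.sin z| := abs_add_le _ _
      _ ≤ (C / 4) / z * 1 + (C / 4) / z * 1 := by
          rw [abs_mul, abs_mul]
          exact add_le_add
            (mul_le_mul h1 (Real.abs_cos_le_one _) (abs_nonneg _) (by positivity))
            (mul_le_mul h2 (Real.abs_sin_le_one _) (abs_nonneg _) (by positivity))
      _ = (C / z) / 2 := by ring
      _ ≤ C / z := by
          have : 0 ≤ C / z := by positivity
          linarith
  have h5 : J0 z - (A * Real.cos z + B * Real.sin z) / √z =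
      (uu z - (A * Real.cos z + B * Real.sin z)) / √z := by
    rw [uu]; field_simp
  rw [h5, abs_div, abs_of_pos hs, ← div_div]
  exact div_le_div_of_nonneg_right h4 hs.le

end Run7.h770
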