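import Mathlib

/-!
# Near coincidences of `√n - √n' + ν` with zero
-/

set_option autoImplicit false

open Finset

namespace Run7.h770

/-- Smooth version of `min(x, 1/|λ|)`. -/
noncomputable def mm (x lam : ℝ) : ℝ := 1 / max x⁻¹ |lam|

/-- Distance to the nearest integer. -/
noncomputable def nd (t : ℝ) : ℝ := |t - round t|

/-- Harmonic sums. -/
noncomputable def hs (J : ℕ) : ℝ := ∑ j ∈ Icc 1 J, (1 : ℝ) / j

theorem mm_nonneg {x : ℝ} (hx : 0 < x) (lam : ℝ) : 0 ≤ mm x lam := by
  unfold mm; positivity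

theorem mm_le_left {x : ℝ} (hx : 0 < x) (lam : ℝ) : mm x lam ≤ x := by
  unfold mm
  rw [div_le_iff₀ (by positivity)]
  calc (1 : ℝ) = x * x⁻¹ := by field_simp
    _ ≤ x * max x⁻¹ |lam| := mul_le_mul_of_nonneg_left (le_max_left _ _) hx.le

theorem mm_anti {x a b : ℝ} (hx : 0 < x) (h : |a| ≤ |b|) : mm x b ≤ mm x a := by
  unfold mm
  apply one_div_le_one_div_of_le (by positivity)
  exact max_le_max_left _ h

theorem mm_le_inv {x lam : ℝ} (h : lam ≠ 0) : mm x lam ≤ 1 / |lam| := by
  unfold mm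
  exact one_div_le_one_div_of_le (abs_pos.mpr h) (le_max_right _ _)

theorem mm_neg (x lam : ℝ) : mm x (-lam) = mm x lam := by
  unfold mm; rw [abs_neg]

theorem hs_nonneg (J : ℕ) : 0 ≤ hs J := Finset.sum_nonneg fun _ _ => by positivity

theorem one_le_hs {J : ℕ} (hJ : 1 ≤ J) : 1 ≤ hs J := by
  have h : (1 : ℝ) / ((1 : ℕ) : ℝ) ≤ hs J :=
    Finset.single_le_sum (f := fun j : ℕ => (1 : ℝ) / j) (fun _ _ => by positivity)
      (mem_Icc.mpr ⟨le_refl 1, hJ⟩)
  simpa using h

theorem hs_mono {J K : ℕ} (h : J ≤ K) : hs J ≤ hs K :=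
  Finset.sum_le_sum_of_subset_of_nonneg (Finset.Icc_subset_Icc_right h) fun _ _ _ => by positivity

/-- Distinct positive integers `≤ J`: the sum of the reciprocals. -/
theorem sum_inv_le_hs {ι : Type*} (S : Finset ι) (f : ι → ℕ) (J : ℕ)
    (hf : ∀ i ∈ S, 1 ≤ f i ∧ f i ≤ J) (hinj : Set.InjOn f S) :
    ∑ i ∈ S, (1 : ℝ) / (f i : ℝ) ≤ hs J := by
  classical
  rw [← Finset.sum_image (f := fun j : ℕ => (1 : ℝ) / j) hinj]
  apply Finset.sum_le_sum_of_subset_of_nonneg
  · intro j hj
    rw [mem_image] at hj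
    obtain ⟨i, hi, rfl⟩ := hj
    rw [mem_Icc]; exact hf i hi
  · intro _ _ _; positivity

/-- One-sided well spaced points. -/
theorem spaced_one_side {ι : Type*} (S : Finset ι) (g : ι → ℝ) {x V d : ℝ} (hx : 0 < x)
    (hV : 0 < V) (hd : 0 < d) (J : ℕ) (hg0 : ∀ i ∈ S, 0 ≤ g i) (hgJ : ∀ i ∈ S, g i < (J + 1) * d)
    (hsp : ∀ i ∈ S, ∀ j ∈ S, i ≠ j → d ≤ |g i - g j|) :
    ∑ i ∈ S, mm x (g i / V) ≤ x + V / d * hs J := by
  classical
  set f : ι → ℕ := fun i => ⌊g i / d⌋₊ with hf
  have hf1 : ∀ i ∈ S, (f i : ℝ) * d ≤ g i := by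
    intro i hi
    have := Nat.floor_le (div_nonneg (hg0 i hi) hd.le)
    rwa [le_div_iff₀ hd] at this
  have hf2 : ∀ i ∈ S, g i < ((f i : ℝ) + 1) * d := by
    intro i hi
    have := Nat.lt_floor_add_one (g i / d)
    rwa [div_lt_iff₀ hd] at this
  have hinj : Set.InjOn f S := by
    intro i hi j hj hij
    by_contra hne
    have h1 := hsp i hi j hj hne
    have a1 := hf1 i hi
    have a2 := hf2 i hi
    have b1 := hf1 j hj
    have b2 := hf2 j hj
    have hij' : (f i : ℝ) = f j := by exact_mod_cast hij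
    rw [hij'] at a1 a2
    rcases abs_cases (g i - g j) with ⟨h2, _⟩ | ⟨h2, _⟩ <;> rw [h2] at h1 <;> nlinarith
  have hfJ : ∀ i ∈ S, f i ≤ J := by
    intro i hi
    have h1 : g i / d < ((J + 1 : ℕ) : ℝ) := by
      rw [div_lt_iff₀ hd]; push_cast; exact hgJ i hi
    have h2 := (Nat.floor_lt (div_nonneg (hg0 i hi) hd.le)).mpr h1
    have h3 : f i < J + 1 := h2
    omega
  have hS : S = S.filter (fun i => f i = 0) ∪ S.filter (fun i => ¬ f i = 0) :=
    (Finset.filter_union_filter_not_eq _ _).symm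
  have h0 : ∑ i ∈ S.filter (fun i => f i = 0), mm x (g i / V) ≤ x := by
    have hcard : (S.filter (fun i => f i = 0)).card ≤ 1 := by
      rw [Finset.card_le_one]
      intro a ha b hb
      rw [mem_filter] at ha hb
      exact hinj ha.1 hb.1 (ha.2.trans hb.2.symm)
    calc ∑ i ∈ S.filter (fun i => f i = 0), mm x (g i / V) ≤
        ∑ i ∈ S.filter (fun i => f i = 0), x := Finset.sum_le_sum fun i _ => mm_le_left hx _
      _ = (S.filter (fun i => f i = 0)).card * x := by rw [Finset.sum_const, nsmul_eq_mul]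
      _ ≤ 1 * x := by
          apply mul_le_mul_of_nonneg_right _ hx.le
          exact_mod_cast hcard
      _ = x := one_mul x
  have h1 : ∑ i ∈ S.filter (fun i => ¬ f i = 0), mm x (g i / V) ≤ V / d * hs J := by
    have h2 : ∀ i ∈ S.filter (fun i => ¬ f i = 0), mm x (g i / V) ≤ V / d * (1 / (f i : ℝ)) := by
      intro i hi
      rw [mem_filter] at hi
      have hfi : (0 : ℝ) < f i := by exact_mod_cast Nat.pos_of_ne_zero hi.2
      have hgi : 0 < g i := lt_of_lt_of_le (by positivity) (hf1 i hi.1)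
      refine le_trans (mm_le_inv (by positivity)) ?_
      rw [abs_of_pos (by positivity), one_div_div, div_mul_div_comm, mul_one]
      apply div_le_div_of_nonneg_left hV.le (by positivity)
      have := hf1 i hi.1
      linarith
    refine le_trans (Finset.sum_le_sum h2) ?_
    rw [← Finset.mul_sum]
    apply mul_le_mul_of_nonneg_left _ (by positivity)
    apply sum_inv_le_hs
    · intro i hi
      rw [mem_filter] at hi
      exact ⟨Nat.pos_of_ne_zero hi.2, hfJ i hi.1⟩
    · intro i hi j hj h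
      rw [mem_coe, mem_filter] at hi hj
      exact hinj hi.1 hj.1 h
  rw [hS, Finset.sum_union (Finset.disjoint_filter_filter_not _ _ _)]
  linarith

/-- Two-sided well spaced points. -/
theorem spaced_two_side {ι : Type*} (S : Finset ι) (g : ι → ℝ) {x V d : ℝ} (hx : 0 < x)
    (hV : 0 < V) (hd : 0 < d) (J : ℕ) (hgJ : ∀ i ∈ S, |g i| < (J + 1) * d)
    (hsp : ∀ i ∈ S, ∀ j ∈ S, i ≠ j → d ≤ |g i - g j|) :
    ∑ i ∈ S, mm x (g i / V) ≤ 2 * (x + V / d * hs J) := by
  classical
  have h1 := spaced_one_side (S.filter (fun i => 0 ≤ g i)) g hx hV hd J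
    (fun i hi => (mem_filter.mp hi).2)
    (fun i hi => lt_of_le_of_lt (le_abs_self _) (hgJ i (mem_filter.mp hi).1))
    (fun i hi j hj => hsp i (mem_filter.mp hi).1 j (mem_filter.mp hj).1)
  have h2 := spaced_one_side (S.filter (fun i => ¬ 0 ≤ g i)) (fun i => -g i) hx hV hd J
    (fun i hi => by
      have := (mem_filter.mp hi).2
      push Not at this
      linarith)
    (fun i hi => lt_of_le_of_lt (neg_le_abs _) (hgJ i (mem_filter.mp hi).1))
    (fun i hi j hj hij => by
      have := hsp i (mem_filter.mp hi).1 j (mem_filter.mp hj).1 hij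
      rw [← abs_neg] at this
      convert this using 2
      ring)
  have h3 : ∑ i ∈ S.filter (fun i => ¬ 0 ≤ g i), mm x (-g i / V) =
      ∑ i ∈ S.filter (fun i => ¬ 0 ≤ g i), mm x (g i / V) := by
    refine Finset.sum_congr rfl fun i _ => ?_
    rw [neg_div, mm_neg]
  rw [h3] at h2
  rw [← Finset.sum_filter_add_sum_filter_not S (fun i => 0 ≤ g i)]
  linarith

/-- Well spaced points modulo one. -/
theorem spaced_mod_one {ι : Type*} (S : Finset ι) (g : ι → ℝ) {x V d a Lam : ℝ} (hx : 0 < x)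
    (hV : 0 < V) (hd : 0 < d) (hLam : 0 ≤ Lam) (J : ℕ) (hJ : 1 / 2 < (J + 1) * d)
    (hg : ∀ i ∈ S, a ≤ g i ∧ g i ≤ a + Lam)
    (hsp : ∀ i ∈ S, ∀ j ∈ S, i ≠ j → d ≤ |g i - g j|) :
    ∑ i ∈ S, mm x (nd (g i) / V) ≤ (Lam + 2) * (2 * (x + V / d * hs J)) := by
  classical
  have hmaps : ∀ i ∈ S, round (g i) ∈ Icc (round a) (round (a + Lam)) := by
    intro i hi
    rw [mem_Icc]
    have hr : Monotone (round : ℝ → ℤ) := by
      intro s t hst
      rw [round_eq, round_eq]
      exact Int.floor_mono (by linarith)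
    exact ⟨hr (hg i hi).1, hr (hg i hi).2⟩
  rw [← Finset.sum_fiberwise_of_maps_to hmaps]
  have hcard : ((Icc (round a) (round (a + Lam))).card : ℝ) ≤ Lam + 2 := by
    rw [Int.card_Icc]
    have h1 := abs_sub_round a
    have h2 := abs_sub_round (a + Lam)
    rw [abs_le] at h1 h2
    have h3 : ((round (a + Lam) + 1 - round a : ℤ) : ℝ) ≤ Lam + 2 := by push_cast; linarith
    have h4 : (0 : ℝ) ≤ Lam + 2 := by linarith
    rcases le_total 0 (round (a + Lam) + 1 - round a) with h | h
    · have h5 : (((round (a + Lam) + 1 - round a).toNat : ℕ) : ℝ) =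
          ((round (a + Lam) + 1 - round a : ℤ) : ℝ) := by
        rw [← Int.cast_natCast, Int.toNat_of_nonneg h]
      rw [h5]; exact h3
    · rw [Int.toNat_of_nonpos h]; simpa using h4
  calc ∑ k ∈ Icc (round a) (round (a + Lam)), ∑ i ∈ S.filter (fun i => round (g i) = k),
        mm x (nd (g i) / V)
      ≤ ∑ k ∈ Icc (round a) (round (a + Lam)), 2 * (x + V / d * hs J) := by
        refine Finset.sum_le_sum fun k _ => ?_
        have h1 : ∑ i ∈ S.filter (fun i => round (g i) = k), mm x (nd (g i) / V) =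
            ∑ i ∈ S.filter (fun i => round (g i) = k), mm x ((g i - k) / V) := by
          refine Finset.sum_congr rfl fun i hi => ?_
          rw [mem_filter] at hi
          unfold mm nd
          rw [hi.2, abs_div, abs_abs, abs_div]
        rw [h1]
        apply spaced_two_side _ (fun i => g i - k) hx hV hd J
        · intro i hi
          rw [mem_filter] at hi
          have h2 := abs_sub_round (g i)
          rw [hi.2] at h2
          exact lt_of_le_of_lt h2 hJ
        · intro i hi j hj hij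
          rw [mem_filter] at hi hj
          have := hsp i hi.1 j hj.1 hij
          have h2 : g i - k - (g j - k) = g i - g j := by ring
          rw [h2]; exact this
    _ = ((Icc (round a) (round (a + Lam))).card : ℝ) * (2 * (x + V / d * hs J)) := by
        rw [Finset.sum_const, nsmul_eq_mul]
    _ ≤ (Lam + 2) * (2 * (x + V / d * hs J)) := by
        apply mul_le_mul_of_nonneg_right hcard
        have := hs_nonneg J
        positivity

/-- Inner sum over `n'`. -/
theorem inner_sum (X J : ℕ) {x y V : ℝ} (hx : 0 < x) (hX : 1 ≤ X) (hV : |y| + √(X : ℝ) ≤ V)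
    (hJ : V ^ 2 + 1 ≤ J) :
    ∑ n ∈ Icc 1 X, mm x (y - √(n : ℝ)) ≤ 4 * V * hs J + mm x (nd (y ^ 2) / V) := by
  classical
  have hXr : (1 : ℝ) ≤ X := by exact_mod_cast hX
  have hsX : 1 ≤ √(X : ℝ) := by rw [Real.le_sqrt' one_pos]; simpa using hXr
  have hy0 := abs_nonneg y
  have hV1 : 1 ≤ V := by linarith
  have hV0 : 0 < V := by linarith
  have hJ1 : 1 ≤ J := by
    have : (1 : ℝ) ≤ J := by nlinarith
    exact_mod_cast this
  have hh := hs_nonneg J
  have hmm0 := mm_nonneg hx (nd (y ^ 2) / V)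
  have hsn : ∀ n ∈ Icc 1 X, √(n : ℝ) ≤ √(X : ℝ) ∧ 1 ≤ √(n : ℝ) := by
    intro n hn
    rw [mem_Icc] at hn
    refine ⟨Real.sqrt_le_sqrt (by exact_mod_cast hn.2), ?_⟩
    rw [Real.le_sqrt' one_pos]
    simpa using (by exact_mod_cast hn.1 : (1 : ℝ) ≤ n)
  rcases le_or_gt 0 y with hy | hy
  · -- `y ≥ 0`
    rw [abs_of_nonneg hy] at hV
    set t := y ^ 2 with ht
    set n₀ : ℤ := round t with hn₀
    have ht0 : 0 ≤ t := by positivity
    have hr := abs_sub_round t
    rw [← hn₀, abs_le] at hr
    have hn₀0 : 0 ≤ n₀ := by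
      have : (-1 : ℝ) < n₀ := by linarith
      have h2 : (-1 : ℤ) < n₀ := by exact_mod_cast this
      omega
    -- each term
    have hterm : ∀ n ∈ Icc 1 X, mm x (y - √(n : ℝ)) ≤ mm x ((t - n) / V) := by
      intro n hn
      obtain ⟨h1, h2⟩ := hsn n hn
      apply mm_anti hx
      have h3 : (√(n : ℝ)) ^ 2 = n := Real.sq_sqrt (Nat.cast_nonneg _)
      have h4 : t - n = (y - √(n : ℝ)) * (y + √(n : ℝ)) := by
        rw [ht]; nlinarith
      rw [h4, abs_div, abs_mul, abs_of_pos hV0, abs_of_nonneg (by linarith : 0 ≤ y + √(n : ℝ)),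
        div_le_iff₀ hV0]
      exact mul_le_mul_of_nonneg_left (by linarith) (abs_nonneg _)
    refine le_trans (Finset.sum_le_sum hterm) ?_
    -- split according to the position relative to `n₀`
    have hsplit : ∀ n ∈ Icc 1 X, mm x ((t - n) / V) ≤
        (if (n : ℤ) = n₀ then mm x (nd t / V) else 0) +
        ((if n₀ < (n : ℤ) then 2 * V * (1 / (((n : ℤ) - n₀).toNat : ℝ)) else 0) +
        (if (n : ℤ) < n₀ then 2 * V * (1 / ((n₀ - (n : ℤ)).toNat : ℝ)) else 0)) := by
      intro n _
      rcases lt_trichotomy (n : ℤ) n₀ with h | h | h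
      · rw [if_neg h.ne, if_neg (not_lt.mpr h.le), if_pos h, zero_add, zero_add]
        have h1 : (((n₀ - (n : ℤ)).toNat : ℕ) : ℝ) = (n₀ : ℝ) - n := by
          rw [← Int.cast_natCast, Int.toNat_of_nonneg (by omega)]; push_cast; ring
        rw [h1]
        have h2 : (n : ℝ) + 1 ≤ n₀ := by exact_mod_cast h
        have h3 : ((n₀ : ℝ) - n) / 2 ≤ t - n := by linarith
        have h4 : 0 < (n₀ : ℝ) - n := by linarith
        refine le_trans (mm_le_inv (by
          have : 0 < (t - n) / V := by apply div_pos _ hV0; linarith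
          exact this.ne')) ?_
        rw [abs_of_pos (by apply div_pos _ hV0; linarith), one_div_div, mul_one_div]
        rw [div_le_div_iff₀ (by linarith) h4]
        nlinarith
      · rw [if_pos h, if_neg (by omega), if_neg (by omega), add_zero, add_zero]
        apply mm_anti hx
        have h2 : (n : ℝ) = n₀ := by exact_mod_cast h
        rw [abs_div, abs_div, nd, ← hn₀, abs_abs, h2]
      · rw [if_neg h.ne', if_pos h, if_neg (not_lt.mpr h.le), zero_add, add_zero]
        have h1 : ((((n : ℤ) - n₀).toNat : ℕ) : ℝ) = (n : ℝ) - n₀ := by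
          rw [← Int.cast_natCast, Int.toNat_of_nonneg (by omega)]; push_cast; ring
        rw [h1]
        have h2 : (n₀ : ℝ) + 1 ≤ n := by exact_mod_cast h
        have h3 : ((n : ℝ) - n₀) / 2 ≤ n - t := by linarith
        have h4 : 0 < (n : ℝ) - n₀ := by linarith
        have h5 : (t - n) / V = -((n - t) / V) := by ring
        rw [h5, mm_neg]
        refine le_trans (mm_le_inv (by
          have : 0 < (n - t) / V := by apply div_pos _ hV0; linarith
          exact this.ne')) ?_
        rw [abs_of_pos (by apply div_pos _ hV0; linarith), one_div_div, mul_one_div]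
        rw [div_le_div_iff₀ (by linarith) h4]
        nlinarith
    refine le_trans (Finset.sum_le_sum hsplit) ?_
    rw [Finset.sum_add_distrib, Finset.sum_add_distrib]
    have hA : ∑ n ∈ Icc 1 X, (if ((n : ℕ) : ℤ) = n₀ then mm x (nd t / V) else 0) ≤
        mm x (nd t / V) := by
      rw [← Finset.sum_filter, Finset.sum_const, nsmul_eq_mul]
      have hc : ((Icc 1 X).filter (fun n : ℕ => (n : ℤ) = n₀)).card ≤ 1 := by
        rw [Finset.card_le_one]
        intro a ha b hb
        rw [mem_filter] at ha hb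
        omega
      calc _ ≤ (1 : ℝ) * mm x (nd t / V) := by
            apply mul_le_mul_of_nonneg_right _ hmm0
            exact_mod_cast hc
        _ = _ := one_mul _
    have hXV : (X : ℝ) ≤ V ^ 2 := by
      have h1 : (√(X : ℝ)) ^ 2 = X := Real.sq_sqrt (by positivity)
      rw [← h1]
      exact pow_le_pow_left₀ (by positivity) (by linarith) 2
    have hXJ : X ≤ J := by
      have : (X : ℝ) ≤ J := by linarith
      exact_mod_cast this
    have hn₀J : n₀ ≤ J := by
      have h1 : t ≤ V ^ 2 := by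
        rw [ht]; exact pow_le_pow_left₀ hy (by linarith) 2
      have : (n₀ : ℝ) ≤ J := by linarith
      exact_mod_cast this
    have hB : ∑ n ∈ Icc 1 X, (if n₀ < ((n : ℕ) : ℤ) then
        2 * V * (1 / ((((n : ℕ) : ℤ) - n₀).toNat : ℝ)) else 0) ≤ 2 * V * hs J := by
      rw [← Finset.sum_filter, ← Finset.mul_sum]
      apply mul_le_mul_of_nonneg_left _ (by positivity)
      apply sum_inv_le_hs _ (fun n : ℕ => ((n : ℤ) - n₀).toNat)
      · intro n hn
        rw [mem_filter, mem_Icc] at hn
        omega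
      · intro a ha b hb hab
        rw [mem_coe, mem_filter] at ha hb
        simp only at hab
        omega
    have hC : ∑ n ∈ Icc 1 X, (if ((n : ℕ) : ℤ) < n₀ then
        2 * V * (1 / ((n₀ - ((n : ℕ) : ℤ)).toNat : ℝ)) else 0) ≤ 2 * V * hs J := by
      rw [← Finset.sum_filter, ← Finset.mul_sum]
      apply mul_le_mul_of_nonneg_left _ (by positivity)
      apply sum_inv_le_hs _ (fun n : ℕ => (n₀ - (n : ℤ)).toNat)
      · intro n hn
        rw [mem_filter, mem_Icc] at hn
        omega
      · intro a ha b hb hab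
        rw [mem_coe, mem_filter] at ha hb
        simp only at hab
        omega
    linarith
  · -- `y < 0`
    have hterm : ∀ n ∈ Icc 1 X, mm x (y - √(n : ℝ)) ≤ V * (1 / (n : ℝ)) := by
      intro n hn
      obtain ⟨h1, h2⟩ := hsn n hn
      rw [mem_Icc] at hn
      have hnr : (0 : ℝ) < n := by exact_mod_cast hn.1
      have h3 : y - √(n : ℝ) = -(√(n : ℝ) - y) := by ring
      rw [h3, mm_neg]
      have h5 : 0 < √(n : ℝ) - y := by linarith
      refine le_trans (mm_le_inv h5.ne') ?_
      rw [abs_of_pos h5, mul_one_div, div_le_div_iff₀ h5 hnr, one_mul]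
      have h4 : (√(n : ℝ)) ^ 2 = n := Real.sq_sqrt hnr.le
      nlinarith
    refine le_trans (Finset.sum_le_sum hterm) ?_
    rw [← Finset.mul_sum]
    have h1 : ∑ n ∈ Icc 1 X, (1 : ℝ) / (n : ℝ) ≤ hs J := by
      apply sum_inv_le_hs (Icc 1 X) (fun n => n) J
      · intro n hn
        rw [mem_Icc] at hn
        refine ⟨hn.1, hn.2.trans ?_⟩
        have hXV : (X : ℝ) ≤ V ^ 2 := by
          have h1 : (√(X : ℝ)) ^ 2 = X := Real.sq_sqrt (by positivity)
          rw [← h1]
          exact pow_le_pow_left₀ (by positivity) (by linarith) 2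
        have : (X : ℝ) ≤ J := by linarith
        exact_mod_cast this
      · intro a _ b _ h; exact h
    have h2 : V * ∑ n ∈ Icc 1 X, (1 : ℝ) / (n : ℝ) ≤ V * hs J := mul_le_mul_of_nonneg_left h1 hV0.le
    have h3 : 0 ≤ V * hs J := by positivity
    linarith

end Run7.h770
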