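import Mathlib
import Pool.Agent.Run7.h770.Near

/-!
# Near coincidences: the weighted double sum
-/

set_option autoImplicit false

open Finset

namespace Run7.h770

/-- The weights `n^(-1/4)`. -/
noncomputable def ww (n : ℕ) : ℝ := 1 / √(√(n : ℝ))

/-- The double sum over near coincidences. -/
noncomputable def II (X : ℕ) (x ν : ℝ) : ℝ :=
  ∑ n ∈ Icc 1 X, ∑ n' ∈ Icc 1 X, ww n * ww n' * mm x (√(n : ℝ) - √(n' : ℝ) + ν)

/-- One half of it. -/
noncomputable def I1 (X : ℕ) (x ν : ℝ) : ℝ :=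
  ∑ n ∈ Icc 1 X, 1 / √(n : ℝ) * ∑ n' ∈ Icc 1 X, mm x (√(n : ℝ) + ν - √(n' : ℝ))

theorem ww_nonneg (n : ℕ) : 0 ≤ ww n := by unfold ww; positivity

theorem ww_mul_le (n n' : ℕ) : ww n * ww n' ≤ (1 / √(n : ℝ) + 1 / √(n' : ℝ)) / 2 := by
  have h : ∀ k : ℕ, ww k ^ 2 = 1 / √(k : ℝ) := by
    intro k
    rw [ww, div_pow, one_pow, Real.sq_sqrt (Real.sqrt_nonneg _)]
  rw [← h n, ← h n']
  nlinarith [sq_nonneg (ww n - ww n')]

theorem II_le {x : ℝ} (hx : 0 < x) (X : ℕ) (ν : ℝ) :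
    II X x ν ≤ (I1 X x ν + I1 X x (-ν)) / 2 := by
  have h1 : II X x ν ≤ ∑ n ∈ Icc 1 X, ∑ n' ∈ Icc 1 X, (1 / √(n : ℝ) + 1 / √(n' : ℝ)) / 2 *
      mm x (√(n : ℝ) - √(n' : ℝ) + ν) := by
    refine Finset.sum_le_sum fun n _ => Finset.sum_le_sum fun n' _ => ?_
    exact mul_le_mul_of_nonneg_right (ww_mul_le n n') (mm_nonneg hx _)
  refine le_trans h1 (le_of_eq ?_)
  have h2 : ∑ n ∈ Icc 1 X, ∑ n' ∈ Icc 1 X, (1 / √(n : ℝ) + 1 / √(n' : ℝ)) / 2 *
      mm x (√(n : ℝ) - √(n' : ℝ) + ν) =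
      (∑ n ∈ Icc 1 X, ∑ n' ∈ Icc 1 X, 1 / √(n : ℝ) * mm x (√(n : ℝ) + ν - √(n' : ℝ)) +
      ∑ n ∈ Icc 1 X, ∑ n' ∈ Icc 1 X, 1 / √(n' : ℝ) * mm x (√(n' : ℝ) + -ν - √(n : ℝ))) / 2 := by
    rw [← Finset.sum_add_distrib, Finset.sum_div]
    refine Finset.sum_congr rfl fun n _ => ?_
    rw [← Finset.sum_add_distrib, Finset.sum_div]
    refine Finset.sum_congr rfl fun n' _ => ?_
    have e1 : √(n : ℝ) - √(n' : ℝ) + ν = √(n : ℝ) + ν - √(n' : ℝ) := by ring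
    have e2 : √(n' : ℝ) + -ν - √(n : ℝ) = -(√(n : ℝ) + ν - √(n' : ℝ)) := by ring
    rw [e1, e2, mm_neg]
    ring
  rw [h2, I1, I1]
  congr 2
  · refine Finset.sum_congr rfl fun n _ => ?_
    rw [Finset.mul_sum]
  · rw [Finset.sum_comm]
    refine Finset.sum_congr rfl fun n _ => ?_
    rw [Finset.mul_sum]

theorem sum_inv_sqrt_le (X : ℕ) : ∑ n ∈ Icc 1 X, 1 / √(n : ℝ) ≤ 2 * √(X : ℝ) := by
  induction X with
  | zero => simp
  | succ X ih =>
    rw [Finset.sum_Icc_succ_top (by omega)]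
    have h1 : (0 : ℝ) < ((X + 1 : ℕ) : ℝ) := by positivity
    have h2 : 0 < √((X + 1 : ℕ) : ℝ) := Real.sqrt_pos.mpr h1
    have h3 : 0 ≤ √(X : ℝ) := Real.sqrt_nonneg _
    have h4 : √((X + 1 : ℕ) : ℝ) ^ 2 = (X : ℝ) + 1 := by
      rw [Real.sq_sqrt h1.le]; push_cast; ring
    have h5 : √(X : ℝ) ^ 2 = X := Real.sq_sqrt (Nat.cast_nonneg _)
    have h6 : 1 / √((X + 1 : ℕ) : ℝ) ≤ 2 * √((X + 1 : ℕ) : ℝ) - 2 * √(X : ℝ) := by
      rw [div_le_iff₀ h2]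
      nlinarith [sq_nonneg (√((X + 1 : ℕ) : ℝ) - √(X : ℝ))]
    linarith

theorem nd_nat_add (n : ℕ) (t : ℝ) : nd (n + t) = nd t := by
  unfold nd
  rw [add_comm, round_add_natCast]
  push_cast
  congr 1
  ring

/-- The contribution of a dyadic block. -/
theorem block_le {M J : ℕ} (hM : 1 ≤ M) {x ν V s : ℝ} (hx : 0 < x) (hν : ν ≠ 0) (hV : 0 < V)
    (hMs : √(M : ℝ) ≤ s) (hJ : s ≤ J * |ν|) :
    ∑ n ∈ Ioc M (2 * M), 1 / √(n : ℝ) * mm x (nd ((√(n : ℝ) + ν) ^ 2) / V) ≤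
      4 * |ν| * x + 4 * x + 8 * V * s * hs J + 8 * V * hs J / |ν| := by
  have hMr : (1 : ℝ) ≤ M := by exact_mod_cast hM
  have hM0 : (0 : ℝ) < M := by linarith
  set r := √(M : ℝ) with hr
  have hr1 : 1 ≤ r := by rw [hr, Real.le_sqrt' one_pos]; simpa using hMr
  have hr0 : 0 < r := by linarith
  have hr2 : r ^ 2 = M := Real.sq_sqrt hM0.le
  have hν0 : 0 < |ν| := abs_pos.mpr hν
  have hh := hs_nonneg J
  set d : ℝ := |ν| / (2 * r) with hd
  have hd0 : 0 < d := by positivity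
  have hsn : ∀ n ∈ Ioc M (2 * M), r ≤ √(n : ℝ) ∧ √(n : ℝ) ≤ 2 * r := by
    intro n hn
    rw [mem_Ioc] at hn
    constructor
    · exact Real.sqrt_le_sqrt (by exact_mod_cast hn.1.le)
    · rw [Real.sqrt_le_iff]
      refine ⟨by positivity, ?_⟩
      have : (n : ℝ) ≤ 2 * M := by exact_mod_cast hn.2
      nlinarith
  have hmain : ∑ n ∈ Ioc M (2 * M), mm x (nd (2 * ν * √(n : ℝ) + ν ^ 2) / V) ≤
      (2 * |ν| * r + 2) * (2 * (x + V / d * hs J)) := by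
    rcases lt_or_gt_of_ne hν with hneg | hpos
    · apply spaced_mod_one (Ioc M (2 * M)) (fun n : ℕ => 2 * ν * √(n : ℝ) + ν ^ 2) (a := 4 * ν * r + ν ^ 2)
        (Lam := 2 * |ν| * r) hx hV hd0 (by positivity) J
      · rw [hd, mul_div_assoc', lt_div_iff₀ (by positivity)]
        nlinarith
      · intro n hn
        obtain ⟨h1, h2⟩ := hsn n hn
        rw [abs_of_neg hneg]
        constructor <;> nlinarith
      · intro n hn n' hn' hne
        obtain ⟨h1, h2⟩ := hsn n hn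
        obtain ⟨h3, h4⟩ := hsn n' hn'
        have e1 : 2 * ν * √(n : ℝ) + ν ^ 2 - (2 * ν * √(n' : ℝ) + ν ^ 2) =
            2 * ν * (√(n : ℝ) - √(n' : ℝ)) := by ring
        rw [e1, abs_mul, abs_mul, show |(2 : ℝ)| = 2 by norm_num]
        have h5 : 1 ≤ |(n : ℝ) - n'| := by
          have : (1 : ℤ) ≤ |(n : ℤ) - n'| := Int.one_le_abs (by omega)
          exact_mod_cast this
        have h6 : |(n : ℝ) - n'| = |√(n : ℝ) - √(n' : ℝ)| * (√(n : ℝ) + √(n' : ℝ)) := by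
          have a1 : √(n : ℝ) ^ 2 = n := Real.sq_sqrt (Nat.cast_nonneg _)
          have a2 : √(n' : ℝ) ^ 2 = n' := Real.sq_sqrt (Nat.cast_nonneg _)
          have a3 : (n : ℝ) - n' = (√(n : ℝ) - √(n' : ℝ)) * (√(n : ℝ) + √(n' : ℝ)) := by
            calc (n : ℝ) - n' = √(n : ℝ) ^ 2 - √(n' : ℝ) ^ 2 := by rw [a1, a2]
              _ = _ := by ring
          rw [a3, abs_mul, abs_of_nonneg (by positivity : 0 ≤ √(n : ℝ) + √(n' : ℝ))]
        have h7 : 1 ≤ |√(n : ℝ) - √(n' : ℝ)| * (4 * r) := by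
          refine le_trans h5 ?_
          rw [h6]
          exact mul_le_mul_of_nonneg_left (by linarith) (abs_nonneg _)
        rw [hd, div_le_iff₀ (by positivity)]
        nlinarith
    · apply spaced_mod_one (Ioc M (2 * M)) (fun n : ℕ => 2 * ν * √(n : ℝ) + ν ^ 2) (a := 2 * ν * r + ν ^ 2)
        (Lam := 2 * |ν| * r) hx hV hd0 (by positivity) J
      · rw [hd, mul_div_assoc', lt_div_iff₀ (by positivity)]
        nlinarith
      · intro n hn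
        obtain ⟨h1, h2⟩ := hsn n hn
        rw [abs_of_pos hpos]
        constructor <;> nlinarith
      · intro n hn n' hn' hne
        obtain ⟨h1, h2⟩ := hsn n hn
        obtain ⟨h3, h4⟩ := hsn n' hn'
        have e1 : 2 * ν * √(n : ℝ) + ν ^ 2 - (2 * ν * √(n' : ℝ) + ν ^ 2) =
            2 * ν * (√(n : ℝ) - √(n' : ℝ)) := by ring
        rw [e1, abs_mul, abs_mul, show |(2 : ℝ)| = 2 by norm_num]
        have h5 : 1 ≤ |(n : ℝ) - n'| := by
          have : (1 : ℤ) ≤ |(n : ℤ) - n'| := Int.one_le_abs (by omega)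
          exact_mod_cast this
        have h6 : |(n : ℝ) - n'| = |√(n : ℝ) - √(n' : ℝ)| * (√(n : ℝ) + √(n' : ℝ)) := by
          have a1 : √(n : ℝ) ^ 2 = n := Real.sq_sqrt (Nat.cast_nonneg _)
          have a2 : √(n' : ℝ) ^ 2 = n' := Real.sq_sqrt (Nat.cast_nonneg _)
          have a3 : (n : ℝ) - n' = (√(n : ℝ) - √(n' : ℝ)) * (√(n : ℝ) + √(n' : ℝ)) := by
            calc (n : ℝ) - n' = √(n : ℝ) ^ 2 - √(n' : ℝ) ^ 2 := by rw [a1, a2]
              _ = _ := by ring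
          rw [a3, abs_mul, abs_of_nonneg (by positivity : 0 ≤ √(n : ℝ) + √(n' : ℝ))]
        have h7 : 1 ≤ |√(n : ℝ) - √(n' : ℝ)| * (4 * r) := by
          refine le_trans h5 ?_
          rw [h6]
          exact mul_le_mul_of_nonneg_left (by linarith) (abs_nonneg _)
        rw [hd, div_le_iff₀ (by positivity)]
        nlinarith
  have h1 : ∀ n ∈ Ioc M (2 * M), 1 / √(n : ℝ) * mm x (nd ((√(n : ℝ) + ν) ^ 2) / V) ≤
      1 / r * mm x (nd (2 * ν * √(n : ℝ) + ν ^ 2) / V) := by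
    intro n hn
    obtain ⟨h2, h3⟩ := hsn n hn
    have h4 : (√(n : ℝ) + ν) ^ 2 = n + (2 * ν * √(n : ℝ) + ν ^ 2) := by
      have a1 : √(n : ℝ) ^ 2 = n := Real.sq_sqrt (Nat.cast_nonneg _)
      nlinarith
    rw [h4, nd_nat_add]
    apply mul_le_mul_of_nonneg_right _ (mm_nonneg hx _)
    exact one_div_le_one_div_of_le hr0 h2
  refine le_trans (Finset.sum_le_sum h1) ?_
  rw [← Finset.mul_sum]
  have h2 := mul_le_mul_of_nonneg_left hmain (by positivity : 0 ≤ 1 / r)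
  refine le_trans h2 ?_
  have h3 : 1 / r * ((2 * |ν| * r + 2) * (2 * (x + V / d * hs J))) =
      4 * |ν| * x + 4 * x / r + 8 * V * r * hs J + 8 * V * hs J / |ν| := by
    rw [hd]; field_simp; ring
  rw [h3]
  have h4 : 4 * x / r ≤ 4 * x := div_le_self (by positivity) hr1
  have h5 : 8 * V * r * hs J ≤ 8 * V * s * hs J := by
    apply mul_le_mul_of_nonneg_right _ hh
    exact mul_le_mul_of_nonneg_left hMs (by positivity)
  linarith

theorem dyadic_sum (a : ℕ → ℝ) (L : ℕ) :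
    ∑ n ∈ Icc 1 (2 ^ L), a n = a 1 + ∑ i ∈ range L, ∑ n ∈ Ioc (2 ^ i) (2 * 2 ^ i), a n := by
  induction L with
  | zero => simp
  | succ L ih =>
    rw [Finset.sum_range_succ, ← add_assoc, ← ih]
    have h1 : Icc 1 (2 ^ (L + 1)) = Icc 1 (2 ^ L) ∪ Ioc (2 ^ L) (2 * 2 ^ L) := by
      have h2 : 1 ≤ 2 ^ L := Nat.one_le_two_pow
      ext n
      rw [mem_union, mem_Icc, mem_Icc, mem_Ioc, pow_succ]
      omega
    rw [h1, Finset.sum_union]
    rw [Finset.disjoint_left]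
    intro n hn hn'
    rw [mem_Icc] at hn
    rw [mem_Ioc] at hn'
    omega

/-- The trivial bound. -/
theorem I1_le_trivial {X J : ℕ} {x ν V : ℝ} (hx : 0 < x) (hX : 1 ≤ X)
    (hV : 2 * √(X : ℝ) + |ν| ≤ V) (hJ : V ^ 2 + 1 ≤ J) :
    I1 X x ν ≤ 8 * V * √(X : ℝ) * hs J + 2 * √(X : ℝ) * x := by
  have hh := hs_nonneg J
  have hV0 : 0 ≤ V := le_trans (by positivity) hV
  have h1 : ∀ n ∈ Icc 1 X, 1 / √(n : ℝ) * ∑ n' ∈ Icc 1 X, mm x (√(n : ℝ) + ν - √(n' : ℝ)) ≤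
      1 / √(n : ℝ) * (4 * V * hs J + x) := by
    intro n hn
    rw [mem_Icc] at hn
    apply mul_le_mul_of_nonneg_left _ (by positivity)
    have h2 : √(n : ℝ) ≤ √(X : ℝ) := Real.sqrt_le_sqrt (by exact_mod_cast hn.2)
    refine le_trans (inner_sum X J hx hX (V := V) ?_ hJ) ?_
    · have := abs_add_le (√(n : ℝ)) ν
      rw [abs_of_nonneg (Real.sqrt_nonneg _)] at this
      linarith
    · linarith [mm_le_left hx (nd ((√(n : ℝ) + ν) ^ 2) / V)]
  refine le_trans (Finset.sum_le_sum h1) ?_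
  rw [← Finset.sum_mul]
  calc (∑ n ∈ Icc 1 X, 1 / √(n : ℝ)) * (4 * V * hs J + x) ≤ (2 * √(X : ℝ)) * (4 * V * hs J + x) :=
        mul_le_mul_of_nonneg_right (sum_inv_sqrt_le X) (by positivity)
    _ = _ := by ring

/-- The bound for `ν ≠ 0`. -/
theorem I1_le {X J L : ℕ} {x ν V : ℝ} (hx : 0 < x) (hX : 1 ≤ X) (hν : ν ≠ 0)
    (hV : 2 * √(X : ℝ) + |ν| ≤ V) (hJ : V ^ 2 + 1 ≤ J) (hJ2 : √(X : ℝ) ≤ J * |ν|)
    (hL : X ≤ 2 ^ L) (hL2 : 2 ^ L ≤ 2 * X) :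
    I1 X x ν ≤ (L + 1) * (8 * V * √(X : ℝ) * hs J + 4 * (1 + |ν|) * x + 8 * V * hs J / |ν|) := by
  have hh := hs_nonneg J
  have hXr : (1 : ℝ) ≤ X := by exact_mod_cast hX
  have hsX : 0 < √(X : ℝ) := Real.sqrt_pos.mpr (by linarith)
  have hν0 : 0 < |ν| := abs_pos.mpr hν
  have hV0 : 0 < V := by linarith
  set a : ℕ → ℝ := fun n => 1 / √(n : ℝ) * mm x (nd ((√(n : ℝ) + ν) ^ 2) / V) with ha
  have ha0 : ∀ n, 0 ≤ a n := fun n => mul_nonneg (by positivity) (mm_nonneg hx _)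
  have h1 : ∀ n ∈ Icc 1 X, 1 / √(n : ℝ) * ∑ n' ∈ Icc 1 X, mm x (√(n : ℝ) + ν - √(n' : ℝ)) ≤
      1 / √(n : ℝ) * (4 * V * hs J) + a n := by
    intro n hn
    rw [mem_Icc] at hn
    have h2 : √(n : ℝ) ≤ √(X : ℝ) := Real.sqrt_le_sqrt (by exact_mod_cast hn.2)
    rw [ha]
    simp only
    rw [← mul_add]
    apply mul_le_mul_of_nonneg_left _ (by positivity)
    apply inner_sum X J hx hX (V := V) _ hJ
    have := abs_add_le (√(n : ℝ)) ν
    rw [abs_of_nonneg (Real.sqrt_nonneg _)] at this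
    linarith
  have h2 : ∑ n ∈ Icc 1 X, a n ≤ x + L * (4 * |ν| * x + 4 * x + 8 * V * √(X : ℝ) * hs J +
      8 * V * hs J / |ν|) := by
    calc ∑ n ∈ Icc 1 X, a n ≤ ∑ n ∈ Icc 1 (2 ^ L), a n :=
          Finset.sum_le_sum_of_subset_of_nonneg (Finset.Icc_subset_Icc_right hL) fun n _ _ => ha0 n
      _ = a 1 + ∑ i ∈ range L, ∑ n ∈ Ioc (2 ^ i) (2 * 2 ^ i), a n := dyadic_sum a L
      _ ≤ x + ∑ i ∈ range L, (4 * |ν| * x + 4 * x + 8 * V * √(X : ℝ) * hs J +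
          8 * V * hs J / |ν|) := by
          apply add_le_add
          · rw [ha]
            simp only [Nat.cast_one, Real.sqrt_one, div_one, one_mul]
            exact mm_le_left hx _
          · refine Finset.sum_le_sum fun i hi => ?_
            rw [mem_range] at hi
            have h3 : 2 ^ i ≤ X := by
              have h4 : 2 ^ (i + 1) ≤ 2 ^ L := Nat.pow_le_pow_right (by norm_num) hi
              rw [pow_succ] at h4
              omega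
            have h5 : √((2 ^ i : ℕ) : ℝ) ≤ √(X : ℝ) := Real.sqrt_le_sqrt (by exact_mod_cast h3)
            exact block_le Nat.one_le_two_pow hx hν hV0 h5 hJ2
      _ = x + L * (4 * |ν| * x + 4 * x + 8 * V * √(X : ℝ) * hs J + 8 * V * hs J / |ν|) := by
          rw [Finset.sum_const, card_range, nsmul_eq_mul]
  have h3 : I1 X x ν ≤ (∑ n ∈ Icc 1 X, 1 / √(n : ℝ)) * (4 * V * hs J) + ∑ n ∈ Icc 1 X, a n := by
    rw [Finset.sum_mul, ← Finset.sum_add_distrib]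
    exact Finset.sum_le_sum h1
  have h4 : (∑ n ∈ Icc 1 X, 1 / √(n : ℝ)) * (4 * V * hs J) ≤ (2 * √(X : ℝ)) * (4 * V * hs J) :=
    mul_le_mul_of_nonneg_right (sum_inv_sqrt_le X) (by positivity)
  have h5 : 0 ≤ 8 * V * hs J / |ν| := by positivity
  have h6 : 0 ≤ |ν| * x := by positivity
  nlinarith

end Run7.h770
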