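import Mathlib
import Pool.Agent.Run7.h770.Kernel
import Pool.Agent.Run7.h770.Bessel
import Pool.Agent.Run7.h770.Near2

/-!
# Circles without lattice points in a thin annulus
-/

set_option autoImplicit false

open Finset MeasureTheory

namespace Run7.h770

/-- The square of the norm, as a natural number. -/
def nn (ξ : ℤ × ℤ) : ℕ := ξ.1.natAbs ^ 2 + ξ.2.natAbs ^ 2

theorem nn_cast (ξ : ℤ × ℤ) : (nn ξ : ℝ) = (ξ.1 : ℝ) ^ 2 + (ξ.2 : ℝ) ^ 2 := by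
  unfold nn
  push_cast
  rw [Nat.cast_natAbs, Nat.cast_natAbs, Int.cast_abs, Int.cast_abs, sq_abs, sq_abs]

theorem nn_cast_int (ξ : ℤ × ℤ) : (nn ξ : ℤ) = ξ.1 ^ 2 + ξ.2 ^ 2 := by
  unfold nn
  push_cast
  rw [sq_abs, sq_abs]

theorem nn_pos {ξ : ℤ × ℤ} (h : ξ ≠ 0) : 1 ≤ nn ξ := by
  unfold nn
  by_contra hc
  apply h
  have h1 : ξ.1.natAbs ^ 2 = 0 := by omega
  have h2 : ξ.2.natAbs ^ 2 = 0 := by omega
  rw [pow_eq_zero_iff (by norm_num)] at h1 h2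
  exact Prod.ext (Int.natAbs_eq_zero.mp h1) (Int.natAbs_eq_zero.mp h2)

/-- The frequencies of one kernel. -/
noncomputable def I0 (s H : ℕ) : Finset ℤ := Icc (-(((s + 1) * H : ℕ) : ℤ)) (((s + 1) * H : ℕ) : ℤ)

/-- Nonzero frequencies in the plane. -/
noncomputable def XX (s H : ℕ) : Finset (ℤ × ℤ) := (I0 s H ×ˢ I0 s H).erase 0

/-- The product of coefficients. -/
noncomputable def cc (s H : ℕ) (ξ : ℤ × ℤ) : ℕ := cK s H ξ.1 * cK s H ξ.2

/-- The exponential sum attached to a circle. -/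
noncomputable def GGs (s H : ℕ) (R : ℝ) : ℂ :=
  ∑ ξ ∈ XX s H, (cc s H ξ : ℂ) * (ww (nn ξ) : ℂ) * e (R * √(nn ξ : ℝ))

theorem e_re (t : ℝ) : (e t).re = Real.cos (2 * Real.pi * t) := by
  rw [e, mul_comm, Complex.exp_ofReal_mul_I_re]

/-- Rotation. -/
theorem integral_rotate (R : ℝ) (ξ : ℤ × ℤ) :
    ∫ t in (0 : ℝ)..(2 * Real.pi),
      Real.cos (2 * Real.pi * (R * ((ξ.1 : ℝ) * Real.cos t + (ξ.2 : ℝ) * Real.sin t))) =
    J0 (2 * Real.pi * (R * √(nn ξ : ℝ))) := by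
  set z : ℂ := ⟨(ξ.1 : ℝ), (ξ.2 : ℝ)⟩ with hz
  set φ := Complex.arg z with hφ
  have hnorm : ‖z‖ = √(nn ξ : ℝ) := by
    rw [nn_cast, Complex.norm_eq_sqrt_sq_add_sq]
  have h1 : (ξ.1 : ℝ) = ‖z‖ * Real.cos φ := by rw [hφ, Complex.norm_mul_cos_arg]
  have h2 : (ξ.2 : ℝ) = ‖z‖ * Real.sin φ := by rw [hφ, Complex.norm_mul_sin_arg]
  set f : ℝ → ℝ := fun t => Real.cos (2 * Real.pi * (R * ‖z‖) * Real.cos t) with hf
  have hper : Function.Periodic f (2 * Real.pi) := by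
    intro t
    rw [hf]
    simp only [Real.cos_add_two_pi]
  have h3 : ∀ t : ℝ, Real.cos (2 * Real.pi * (R * ((ξ.1 : ℝ) * Real.cos t +
      (ξ.2 : ℝ) * Real.sin t))) = f (t - φ) := by
    intro t
    rw [hf]
    simp only
    rw [Real.cos_sub, h1, h2]
    congr 1
    ring
  simp_rw [h3]
  rw [intervalIntegral.integral_comp_sub_right]
  have h4 : (2 * Real.pi - φ) = (0 - φ) + 2 * Real.pi := by ring
  rw [h4, hper.intervalIntegral_add_eq (0 - φ) 0, zero_add, J0, ← hnorm]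

/-- The kernel on the torus. -/
noncomputable def KK (s H : ℕ) (t : ℝ) : ℝ := ‖PP H t‖ ^ (2 * (s + 1))

theorem KK_nonneg (s H : ℕ) (t : ℝ) : 0 ≤ KK s H t := by unfold KK; positivity

theorem norm_PP_le_card (H : ℕ) (t : ℝ) : ‖PP H t‖ ≤ H := by
  unfold PP
  refine le_trans (norm_sum_le _ _) ?_
  simp only [norm_e, Finset.sum_const, card_range, nsmul_eq_mul, mul_one, le_refl]

theorem KK_le (s H : ℕ) (t : ℝ) : KK s H t ≤ (H : ℝ) ^ (2 * (s + 1)) :=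
  pow_le_pow_left₀ (norm_nonneg _) (norm_PP_le_card H t) _

theorem KK_prod (s H : ℕ) (R t : ℝ) :
    KK s H (R * Real.cos t) * KK s H (R * Real.sin t) =
    ∑ ξ ∈ I0 s H ×ˢ I0 s H, (cc s H ξ : ℝ) *
      Real.cos (2 * Real.pi * (R * ((ξ.1 : ℝ) * Real.cos t + (ξ.2 : ℝ) * Real.sin t))) := by
  have h1 : ((KK s H (R * Real.cos t) * KK s H (R * Real.sin t) : ℝ) : ℂ) =
      ∑ ξ ∈ I0 s H ×ˢ I0 s H, (cc s H ξ : ℂ) *
      e (R * ((ξ.1 : ℝ) * Real.cos t + (ξ.2 : ℝ) * Real.sin t)) := by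
    rw [Complex.ofReal_mul, KK, KK, norm_PP_pow, norm_PP_pow, Finset.sum_mul_sum,
      Finset.sum_product]
    refine Finset.sum_congr rfl fun a _ => Finset.sum_congr rfl fun b _ => ?_
    rw [cc]
    have h2 : R * ((a : ℝ) * Real.cos t + (b : ℝ) * Real.sin t) =
        (a : ℝ) * (R * Real.cos t) + (b : ℝ) * (R * Real.sin t) := by ring
    rw [h2, e_add]
    push_cast
    ring
  have h2 := congrArg Complex.re h1
  rw [Complex.ofReal_re, Complex.re_sum] at h2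
  rw [h2]
  refine Finset.sum_congr rfl fun ξ _ => ?_
  have h3 : ((cc s H ξ : ℕ) : ℂ) = (((cc s H ξ : ℕ) : ℝ) : ℂ) := by push_cast; rfl
  rw [h3, Complex.re_ofReal_mul, e_re]

theorem integral_KK (s H : ℕ) (R : ℝ) :
    ∫ t in (0 : ℝ)..(2 * Real.pi), KK s H (R * Real.cos t) * KK s H (R * Real.sin t) =
    ∑ ξ ∈ I0 s H ×ˢ I0 s H, (cc s H ξ : ℝ) * J0 (2 * Real.pi * (R * √(nn ξ : ℝ))) := by
  simp_rw [KK_prod]
  rw [intervalIntegral.integral_finsetSum]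
  · refine Finset.sum_congr rfl fun ξ _ => ?_
    rw [intervalIntegral.integral_const_mul, integral_rotate]
  · intro ξ _
    apply Continuous.intervalIntegrable
    fun_prop

/-- On a circle far from the lattice the kernel is small. -/
theorem KK_small {s H : ℕ} {R ρ : ℝ} (hR : 0 < R) (hρ : 0 < ρ)
    (hbad : ∀ a b : ℤ, ρ ≤ |√((a : ℝ) ^ 2 + (b : ℝ) ^ 2) - R|) (t : ℝ) :
    KK s H (R * Real.cos t) * KK s H (R * Real.sin t) ≤
      (1 / ρ ^ 2) ^ (s + 1) * (H : ℝ) ^ (2 * (s + 1)) := by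
  set y₁ := R * Real.cos t with hy₁
  set y₂ := R * Real.sin t with hy₂
  set z : ℂ := ⟨((round y₁ : ℤ) : ℝ), ((round y₂ : ℤ) : ℝ)⟩ with hz
  set w : ℂ := ⟨y₁, y₂⟩ with hw
  have hwn : ‖w‖ = R := by
    rw [Complex.norm_eq_sqrt_sq_add_sq]
    have : y₁ ^ 2 + y₂ ^ 2 = R ^ 2 := by
      rw [hy₁, hy₂]
      have := Real.sin_sq_add_cos_sq t
      nlinarith
    rw [hw]
    simp only
    rw [this, Real.sqrt_sq hR.le]
  have hzn : ‖z‖ = √(((round y₁ : ℤ) : ℝ) ^ 2 + ((round y₂ : ℤ) : ℝ) ^ 2) := by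
    rw [Complex.norm_eq_sqrt_sq_add_sq]
  have h1 := hbad (round y₁) (round y₂)
  have h2 : |‖z‖ - ‖w‖| ≤ ‖z - w‖ := abs_norm_sub_norm_le z w
  rw [hzn, hwn] at h2
  have h3 : ρ ≤ ‖z - w‖ := le_trans h1 h2
  have h4 : ‖z - w‖ ^ 2 = (y₁ - round y₁) ^ 2 + (y₂ - round y₂) ^ 2 := by
    rw [Complex.norm_eq_sqrt_sq_add_sq, Real.sq_sqrt (by positivity)]
    rw [hz, hw]
    simp only [Complex.sub_re, Complex.sub_im]
    ring
  have h5 : ρ ^ 2 ≤ (y₁ - round y₁) ^ 2 + (y₂ - round y₂) ^ 2 := by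
    rw [← h4]; exact pow_le_pow_left₀ hρ.le h3 2
  have hwin : (1 / (4 * (ρ / 2) ^ 2)) ^ (s + 1) = (1 / ρ ^ 2) ^ (s + 1) := by
    congr 2; ring
  by_cases hc : ρ / 2 ≤ |y₁ - round y₁|
  · have h6 := norm_PP_le s H y₁ (ρ / 2) (by positivity) hc
    rw [hwin] at h6
    exact mul_le_mul h6 (KK_le s H _) (KK_nonneg _ _ _) (by positivity)
  · push Not at hc
    have h7 : ρ / 2 ≤ |y₂ - round y₂| := by
      by_contra hd
      push Not at hd
      have a1 : (y₁ - round y₁) ^ 2 < (ρ / 2) ^ 2 := by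
        rw [← sq_abs]; exact pow_lt_pow_left₀ hc (abs_nonneg _) (by norm_num)
      have a2 : (y₂ - round y₂) ^ 2 < (ρ / 2) ^ 2 := by
        rw [← sq_abs]; exact pow_lt_pow_left₀ hd (abs_nonneg _) (by norm_num)
      nlinarith
    have h6 := norm_PP_le s H y₂ (ρ / 2) (by positivity) h7
    rw [hwin] at h6
    rw [mul_comm (KK s H y₁)]
    exact mul_le_mul h6 (KK_le s H _) (KK_nonneg _ _ _) (by positivity)

theorem sum_cc (s H : ℕ) : ∑ ξ ∈ I0 s H ×ˢ I0 s H, (cc s H ξ : ℝ) = (H : ℝ) ^ (4 * s + 4) := by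
  have h1 : ∑ h ∈ I0 s H, (cK s H h : ℝ) = (H : ℝ) ^ (2 * s + 2) := by
    have := sum_cK s H
    rw [I0]
    exact_mod_cast this
  rw [Finset.sum_product]
  have h2 : ∀ a ∈ I0 s H, ∑ b ∈ I0 s H, ((cc s H (a, b) : ℕ) : ℝ) =
      (cK s H a : ℝ) * (H : ℝ) ^ (2 * s + 2) := by
    intro a _
    rw [← h1, Finset.mul_sum]
    refine Finset.sum_congr rfl fun b _ => ?_
    rw [cc]; push_cast; ring
  rw [Finset.sum_congr rfl h2, ← Finset.sum_mul, h1, ← pow_add]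
  congr 1
  ring

/-- **Large exponential sum on a bad circle.** -/
theorem GGs_lower : ∃ C : ℝ, 1 ≤ C ∧ ∀ (s H : ℕ) (R ρ : ℝ), 0 < H → 1 ≤ R → 0 < ρ →
    (∀ a b : ℤ, ρ ≤ |√((a : ℝ) ^ 2 + (b : ℝ) ^ 2) - R|) →
    2 * ((s : ℝ) + 1) ^ 2 * (1 / ρ ^ 2) ^ (s + 1) ≤ (H : ℝ) ^ (2 * s) →
    C * ((s : ℝ) + 1) ^ 2 * (H : ℝ) ^ 2 ≤ R * √R →
    √R * (H : ℝ) ^ (4 * s + 2) ≤ C * ((s : ℝ) + 1) ^ 2 * ‖GGs s H R‖ := by
  obtain ⟨A, B, C, hC, hasy⟩ := J0_asymp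
  refine ⟨|A| + |B| + C + 1, by linarith [abs_nonneg A, abs_nonneg B], ?_⟩
  intro s H R ρ hH hR hρ hbad hc1 hc2
  have hR0 : 0 < R := by linarith
  have hsR : 0 < √R := Real.sqrt_pos.mpr hR0
  have hHr : (0 : ℝ) < H := by exact_mod_cast hH
  have hpi := Real.pi_gt_three
  have hA0 := abs_nonneg A
  have hB0 := abs_nonneg B
  set c₀ : ℝ := (cK s H 0 : ℝ) with hc₀
  have hc₀lo : (H : ℝ) ^ (2 * s + 1) ≤ ((s : ℝ) + 1) * c₀ := by
    have := le_cK_zero s H hH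
    have h1 : ((H ^ (2 * s + 1) : ℕ) : ℝ) ≤ (((s + 1) * cK s H 0 : ℕ) : ℝ) := by exact_mod_cast this
    push_cast at h1
    exact h1
  have hc₀pos : 0 < c₀ := by
    have h1 : 0 < (H : ℝ) ^ (2 * s + 1) := by positivity
    have h2 : 0 < ((s : ℝ) + 1) * c₀ := lt_of_lt_of_le h1 hc₀lo
    exact (pos_iff_pos_of_mul_pos h2).mp (by positivity)
  have hc₀sq : (H : ℝ) ^ (4 * s + 2) ≤ ((s : ℝ) + 1) ^ 2 * c₀ ^ 2 := by
    calc (H : ℝ) ^ (4 * s + 2) = ((H : ℝ) ^ (2 * s + 1)) ^ 2 := by rw [← pow_mul]; congr 1; ring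
      _ ≤ (((s : ℝ) + 1) * c₀) ^ 2 := pow_le_pow_left₀ (by positivity) hc₀lo 2
      _ = _ := by ring
  -- the average
  have havg : ∫ t in (0 : ℝ)..(2 * Real.pi), KK s H (R * Real.cos t) * KK s H (R * Real.sin t) ≤
      Real.pi * c₀ ^ 2 := by
    have h1 : ∫ t in (0 : ℝ)..(2 * Real.pi), KK s H (R * Real.cos t) * KK s H (R * Real.sin t) ≤
        ∫ t in (0 : ℝ)..(2 * Real.pi), (1 / ρ ^ 2) ^ (s + 1) * (H : ℝ) ^ (2 * (s + 1)) := by
      apply intervalIntegral.integral_mono_on (by positivity)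
      · apply Continuous.intervalIntegrable
        simp_rw [KK_prod]
        fun_prop
      · exact intervalIntegrable_const
      · intro t _
        exact KK_small hR0 hρ hbad t
    rw [intervalIntegral.integral_const, smul_eq_mul, sub_zero] at h1
    refine le_trans h1 ?_
    have h2 : ((s : ℝ) + 1) ^ 2 * (2 * ((1 / ρ ^ 2) ^ (s + 1) * (H : ℝ) ^ (2 * (s + 1)))) ≤
        ((s : ℝ) + 1) ^ 2 * c₀ ^ 2 := by
      calc ((s : ℝ) + 1) ^ 2 * (2 * ((1 / ρ ^ 2) ^ (s + 1) * (H : ℝ) ^ (2 * (s + 1))))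
          = (2 * ((s : ℝ) + 1) ^ 2 * (1 / ρ ^ 2) ^ (s + 1)) * (H : ℝ) ^ (2 * (s + 1)) := by ring
        _ ≤ (H : ℝ) ^ (2 * s) * (H : ℝ) ^ (2 * (s + 1)) :=
            mul_le_mul_of_nonneg_right hc1 (by positivity)
        _ = (H : ℝ) ^ (4 * s + 2) := by rw [← pow_add]; congr 1; ring
        _ ≤ _ := hc₀sq
    have h3 := le_of_mul_le_mul_left h2 (by positivity)
    nlinarith
  -- the zero term
  have hzero : ∑ ξ ∈ I0 s H ×ˢ I0 s H, (cc s H ξ : ℝ) * J0 (2 * Real.pi * (R * √(nn ξ : ℝ))) =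
      c₀ ^ 2 * (2 * Real.pi) +
      ∑ ξ ∈ XX s H, (cc s H ξ : ℝ) * J0 (2 * Real.pi * (R * √(nn ξ : ℝ))) := by
    rw [XX, ← Finset.add_sum_erase _ _ (show (0 : ℤ × ℤ) ∈ I0 s H ×ˢ I0 s H by
      rw [mem_product, I0, mem_Icc]; simp)]
    congr 1
    have h1 : nn 0 = 0 := by simp [nn]
    rw [h1, cc]
    simp only [Nat.cast_zero, Real.sqrt_zero, mul_zero, Nat.cast_mul, Prod.fst_zero, Prod.snd_zero]
    have h2 : J0 0 = 2 * Real.pi := by simp [J0]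
    rw [h2]; ring
  rw [integral_KK, hzero] at havg
  have hlow : Real.pi * c₀ ^ 2 ≤
      |∑ ξ ∈ XX s H, (cc s H ξ : ℝ) * J0 (2 * Real.pi * (R * √(nn ξ : ℝ)))| := by
    have h1 := neg_abs_le (∑ ξ ∈ XX s H, (cc s H ξ : ℝ) * J0 (2 * Real.pi * (R * √(nn ξ : ℝ))))
    nlinarith
  -- main term and error
  have hsplit : ∀ ξ ∈ XX s H, |(cc s H ξ : ℝ) * J0 (2 * Real.pi * (R * √(nn ξ : ℝ))) -
      (1 / √(2 * Real.pi * R)) * ((cc s H ξ : ℝ) * ww (nn ξ) *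
        (A * Real.cos (2 * Real.pi * (R * √(nn ξ : ℝ))) +
        B * Real.sin (2 * Real.pi * (R * √(nn ξ : ℝ)))))| ≤ (cc s H ξ : ℝ) * (C / (R * √R)) := by
    intro ξ hξ
    rw [XX, mem_erase] at hξ
    have hn1 : (1 : ℝ) ≤ nn ξ := by exact_mod_cast nn_pos hξ.1
    have hsn : 1 ≤ √(nn ξ : ℝ) := by rw [Real.le_sqrt' one_pos]; simpa using hn1
    set z := 2 * Real.pi * (R * √(nn ξ : ℝ)) with hz
    have hzR : R ≤ z := by
      rw [hz]
      have h1 : R * 1 ≤ R * √(nn ξ : ℝ) := mul_le_mul_of_nonneg_left hsn hR0.le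
      nlinarith
    have hz0 : 0 < z := by linarith
    have h1 := hasy z (by linarith)
    have h2 : √z = √(2 * Real.pi * R) * √(√(nn ξ : ℝ)) := by
      rw [← Real.sqrt_mul (by positivity), hz]; congr 1; ring
    have h3 : (1 / √(2 * Real.pi * R)) * ((cc s H ξ : ℝ) * ww (nn ξ) *
        (A * Real.cos z + B * Real.sin z)) =
        (cc s H ξ : ℝ) * ((A * Real.cos z + B * Real.sin z) / √z) := by
      rw [h2, ww]; field_simp
    rw [h3, ← mul_sub, abs_mul, abs_of_nonneg (Nat.cast_nonneg _)]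
    apply mul_le_mul_of_nonneg_left _ (Nat.cast_nonneg _)
    refine le_trans h1 ?_
    apply div_le_div_of_nonneg_left hC.le (by positivity)
    exact mul_le_mul hzR (Real.sqrt_le_sqrt hzR) hsR.le hz0.le
  set M : ℝ := ∑ ξ ∈ XX s H, (cc s H ξ : ℝ) * ww (nn ξ) *
        (A * Real.cos (2 * Real.pi * (R * √(nn ξ : ℝ))) +
        B * Real.sin (2 * Real.pi * (R * √(nn ξ : ℝ)))) with hM
  have herr : |∑ ξ ∈ XX s H, (cc s H ξ : ℝ) * J0 (2 * Real.pi * (R * √(nn ξ : ℝ))) -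
      (1 / √(2 * Real.pi * R)) * M| ≤ (H : ℝ) ^ (4 * s + 4) * (C / (R * √R)) := by
    rw [hM, Finset.mul_sum, ← Finset.sum_sub_distrib]
    refine le_trans (Finset.abs_sum_le_sum_abs _ _) (le_trans (Finset.sum_le_sum hsplit) ?_)
    rw [← Finset.sum_mul]
    apply mul_le_mul_of_nonneg_right _ (by positivity)
    rw [← sum_cc]
    exact Finset.sum_le_sum_of_subset_of_nonneg (Finset.erase_subset _ _)
      (fun _ _ _ => Nat.cast_nonneg _)
  -- the error is small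
  have herr2 : (H : ℝ) ^ (4 * s + 4) * (C / (R * √R)) ≤ c₀ ^ 2 := by
    rw [mul_div_assoc', div_le_iff₀ (by positivity)]
    have h1 : ((s : ℝ) + 1) ^ 2 * ((H : ℝ) ^ (4 * s + 4) * C) ≤
        ((s : ℝ) + 1) ^ 2 * (c₀ ^ 2 * (R * √R)) := by
      have h2 : C * ((s : ℝ) + 1) ^ 2 * (H : ℝ) ^ 2 ≤ R * √R := by
        refine le_trans ?_ hc2
        have : 0 ≤ ((s : ℝ) + 1) ^ 2 * (H : ℝ) ^ 2 := by positivity
        nlinarith
      calc ((s : ℝ) + 1) ^ 2 * ((H : ℝ) ^ (4 * s + 4) * C)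
          = (H : ℝ) ^ (4 * s + 2) * (C * ((s : ℝ) + 1) ^ 2 * (H : ℝ) ^ 2) := by
            rw [show 4 * s + 4 = (4 * s + 2) + 2 by ring, pow_add]; ring
        _ ≤ (((s : ℝ) + 1) ^ 2 * c₀ ^ 2) * (R * √R) :=
            mul_le_mul hc₀sq h2 (by positivity) (by positivity)
        _ = _ := by ring
    exact le_of_mul_le_mul_left h1 (by positivity)
  have hMlow : 2 * c₀ ^ 2 ≤ (1 / √(2 * Real.pi * R)) * |M| := by
    have h1 : |(1 / √(2 * Real.pi * R)) * M| = (1 / √(2 * Real.pi * R)) * |M| := by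
      rw [abs_mul, abs_of_nonneg (by positivity)]
    rw [← h1]
    have h2 := abs_sub_abs_le_abs_sub
      (∑ ξ ∈ XX s H, (cc s H ξ : ℝ) * J0 (2 * Real.pi * (R * √(nn ξ : ℝ))))
      ((1 / √(2 * Real.pi * R)) * M)
    have h3 : 3 * c₀ ^ 2 ≤ Real.pi * c₀ ^ 2 := mul_le_mul_of_nonneg_right hpi.le (by positivity)
    linarith
  -- `M` and `GGs`
  have hMG : |M| ≤ (|A| + |B|) * ‖GGs s H R‖ := by
    have h1 : M = A * (GGs s H R).re + B * (GGs s H R).im := by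
      rw [hM, GGs, Complex.re_sum, Complex.im_sum, Finset.mul_sum, Finset.mul_sum,
        ← Finset.sum_add_distrib]
      refine Finset.sum_congr rfl fun ξ _ => ?_
      have h2 : ((cc s H ξ : ℕ) : ℂ) * ((ww (nn ξ) : ℝ) : ℂ) =
          (((cc s H ξ : ℝ) * ww (nn ξ) : ℝ) : ℂ) := by push_cast; rfl
      have h3 : (e (R * √(nn ξ : ℝ))).im = Real.sin (2 * Real.pi * (R * √(nn ξ : ℝ))) := by
        rw [e, mul_comm, Complex.exp_ofReal_mul_I_im]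
      rw [h2, Complex.re_ofReal_mul, Complex.im_ofReal_mul, e_re, h3]
      ring
    rw [h1]
    calc |A * (GGs s H R).re + B * (GGs s H R).im| ≤
        |A * (GGs s H R).re| + |B * (GGs s H R).im| := abs_add_le _ _
      _ = |A| * |(GGs s H R).re| + |B| * |(GGs s H R).im| := by rw [abs_mul, abs_mul]
      _ ≤ |A| * ‖GGs s H R‖ + |B| * ‖GGs s H R‖ := add_le_add
          (mul_le_mul_of_nonneg_left (Complex.abs_re_le_norm _) hA0)
          (mul_le_mul_of_nonneg_left (Complex.abs_im_le_norm _) hB0)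
      _ = _ := by ring
  have h2piR : √R ≤ √(2 * Real.pi * R) := by
    apply Real.sqrt_le_sqrt
    nlinarith
  have hfin : √R * c₀ ^ 2 ≤ (|A| + |B| + C + 1) * ‖GGs s H R‖ := by
    have h1 : 2 * c₀ ^ 2 * √(2 * Real.pi * R) ≤ |M| := by
      have := mul_le_mul_of_nonneg_right hMlow (Real.sqrt_nonneg (2 * Real.pi * R))
      have h3 : 0 < √(2 * Real.pi * R) := Real.sqrt_pos.mpr (by positivity)
      have h4 : 1 / √(2 * Real.pi * R) * |M| * √(2 * Real.pi * R) = |M| := by field_simp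
      rwa [h4] at this
    have h2 : c₀ ^ 2 * √R ≤ c₀ ^ 2 * √(2 * Real.pi * R) := mul_le_mul_of_nonneg_left h2piR (by positivity)
    have h3 : 0 ≤ c₀ ^ 2 * √(2 * Real.pi * R) := by positivity
    have h5 : 0 ≤ (C + 1) * ‖GGs s H R‖ := by positivity
    nlinarith
  calc √R * (H : ℝ) ^ (4 * s + 2) ≤ √R * (((s : ℝ) + 1) ^ 2 * c₀ ^ 2) :=
        mul_le_mul_of_nonneg_left hc₀sq hsR.le
    _ = ((s : ℝ) + 1) ^ 2 * (√R * c₀ ^ 2) := by ring
    _ ≤ ((s : ℝ) + 1) ^ 2 * ((|A| + |B| + C + 1) * ‖GGs s H R‖) :=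
        mul_le_mul_of_nonneg_left hfin (by positivity)
    _ = _ := by ring

end Run7.h770
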