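import Mathlib
import Pool.Agent.Run7.h770.Circle
import Pool.Agent.Run7.h770.Core
import Pool.Agent.Run7.h770.Count
import Pool.Agent.Run7.h770.Greedy
import Pool.Agent.Run7.h770.Osc

/-!
# The mixed moment
-/

set_option autoImplicit false

open Finset MeasureTheory

namespace Run7.h770

/-- The sum over the windows. -/
noncomputable def FF (k P : ℕ) (S : Finset ℕ) (c R : ℝ) : ℂ :=
  ∑ N ∈ S, ∑ h ∈ Ier k P, (cK k P h : ℂ) * e (h * (√(N : ℝ) * R - c))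

theorem far_of_window {t τ : ℝ} (hτ1 : τ ≤ 1) (hτ0 : 0 < τ)
    (hbad : ¬ (τ / 2 ≤ Int.fract t ∧ Int.fract t ≤ τ)) :
    τ / 4 ≤ |t - 3 * τ / 4 - round (t - 3 * τ / 4)| := by
  by_contra h
  push Not at h
  apply hbad
  set N : ℤ := round (t - 3 * τ / 4) with hN
  rw [abs_lt] at h
  have h5 : Int.fract t = t - N := by
    rw [Int.fract]
    have : ⌊t⌋ = N := by
      rw [Int.floor_eq_iff]
      constructor <;> linarith [h.1, h.2]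
    rw [this]
  rw [h5]
  constructor <;> linarith [h.1, h.2]

theorem FF_lower {k P : ℕ} (hP : 0 < P) (S : Finset ℕ) {τ R : ℝ}
    (hPw : 2 * ((k : ℝ) + 1) * (1 / (4 * (τ / 4) ^ 2)) ^ (k + 1) ≤ (P : ℝ) ^ (2 * k + 1))
    (hτ0 : 0 < τ) (hfar : ∀ N ∈ S, τ / 4 ≤ |√(N : ℝ) * R - 3 * τ / 4 -
      round (√(N : ℝ) * R - 3 * τ / 4)|) :
    (S.card : ℝ) * (P : ℝ) ^ (2 * k + 1) ≤ 2 * ((k : ℝ) + 1) * ‖FF k P S (3 * τ / 4) R‖ := by
  have hk : (0 : ℝ) < (k : ℝ) + 1 := by positivity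
  have h1 : FF k P S (3 * τ / 4) R =
      ((∑ N ∈ S, ‖PP P (√(N : ℝ) * R - 3 * τ / 4)‖ ^ (2 * (k + 1)) -
        S.card * (cK k P 0 : ℝ) : ℝ) : ℂ) := by
    rw [FF]
    have h2 : ∀ N ∈ S, ∑ h ∈ Ier k P, (cK k P h : ℂ) * e (h * (√(N : ℝ) * R - 3 * τ / 4)) =
        ((‖PP P (√(N : ℝ) * R - 3 * τ / 4)‖ ^ (2 * (k + 1)) : ℝ) : ℂ) - (cK k P 0 : ℂ) := by
      intro N _
      rw [norm_PP_pow, Ier, ← Finset.add_sum_erase _ _
        (show (0 : ℤ) ∈ Icc (-(((k + 1) * P : ℕ) : ℤ)) (((k + 1) * P : ℕ) : ℤ) by simp)]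
      simp
    rw [Finset.sum_congr rfl h2, Finset.sum_sub_distrib, Finset.sum_const, nsmul_eq_mul]
    push_cast
    rfl
  have h2 : ∀ N ∈ S, ‖PP P (√(N : ℝ) * R - 3 * τ / 4)‖ ^ (2 * (k + 1)) ≤
      (P : ℝ) ^ (2 * k + 1) / (2 * ((k : ℝ) + 1)) := by
    intro N hN
    refine le_trans (norm_PP_le k P _ (τ / 4) (by positivity) (hfar N hN)) ?_
    rw [le_div_iff₀ (by positivity)]
    linarith
  have h3 : ∑ N ∈ S, ‖PP P (√(N : ℝ) * R - 3 * τ / 4)‖ ^ (2 * (k + 1)) ≤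
      S.card * ((P : ℝ) ^ (2 * k + 1) / (2 * ((k : ℝ) + 1))) := by
    refine le_trans (Finset.sum_le_sum h2) ?_
    rw [Finset.sum_const, nsmul_eq_mul]
  have h4 : (P : ℝ) ^ (2 * k + 1) / ((k : ℝ) + 1) ≤ (cK k P 0 : ℝ) := by
    have h5 := le_cK_zero k P hP
    have h6 : ((P ^ (2 * k + 1) : ℕ) : ℝ) ≤ (((k + 1) * cK k P 0 : ℕ) : ℝ) := by exact_mod_cast h5
    push_cast at h6
    rw [div_le_iff₀ hk]
    linarith
  have h5 : (S.card : ℝ) * ((P : ℝ) ^ (2 * k + 1) / ((k : ℝ) + 1)) ≤ S.card * (cK k P 0 : ℝ) :=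
    mul_le_mul_of_nonneg_left h4 (Nat.cast_nonneg _)
  have h6 : (S.card : ℝ) * ((P : ℝ) ^ (2 * k + 1) / (2 * ((k : ℝ) + 1))) ≤
      ‖FF k P S (3 * τ / 4) R‖ := by
    rw [h1, Complex.norm_real, Real.norm_eq_abs, le_abs]
    right
    have h7 : (S.card : ℝ) * ((P : ℝ) ^ (2 * k + 1) / ((k : ℝ) + 1)) =
        S.card * ((P : ℝ) ^ (2 * k + 1) / (2 * ((k : ℝ) + 1))) +
        S.card * ((P : ℝ) ^ (2 * k + 1) / (2 * ((k : ℝ) + 1))) := by field_simp; ring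
    linarith
  have h7 : (S.card : ℝ) * (P : ℝ) ^ (2 * k + 1) =
      2 * ((k : ℝ) + 1) * (S.card * ((P : ℝ) ^ (2 * k + 1) / (2 * ((k : ℝ) + 1)))) := by
    field_simp
  rw [h7]
  exact mul_le_mul_of_nonneg_left h6 (by positivity)

/-- The difference of two frequencies of the window sum. -/
theorem nu_bounds {Z k P : ℕ} (hZ : 1 ≤ Z) (hP : 0 < P) {N N' : ℕ} (hN : N ∈ NN Z) (hN' : N' ∈ NN Z)
    {h h' : ℤ} (hh : h ∈ Ier k P) (hh' : h' ∈ Ier k P) (hne : (N, h) ≠ (N', h')) :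
    1 ≤ |(h : ℝ) * √(N : ℝ) - (h' : ℝ) * √(N' : ℝ)| * (2 * ((k : ℝ) + 1) * P * √(Z : ℝ)) := by
  classical
  rw [NN, mem_filter, mem_Icc] at hN hN'
  have hZr : (1 : ℝ) ≤ Z := by exact_mod_cast hZ
  have hsZ : 1 ≤ √(Z : ℝ) := by rw [Real.le_sqrt' one_pos]; simpa using hZr
  have hPr : (1 : ℝ) ≤ P := by exact_mod_cast hP
  have hkr : (1 : ℝ) ≤ (k : ℝ) + 1 := by
    have : (0 : ℝ) ≤ k := Nat.cast_nonneg k
    linarith
  have ha := abs_le_of_mem_Ier hh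
  have ha' := abs_le_of_mem_Ier hh'
  have hs1 : √(N : ℝ) ≤ √(Z : ℝ) := Real.sqrt_le_sqrt (by exact_mod_cast hN.1.2)
  have hs2 : √(N' : ℝ) ≤ √(Z : ℝ) := Real.sqrt_le_sqrt (by exact_mod_cast hN'.1.2)
  have hW : |(h : ℝ) * √(N : ℝ) + (h' : ℝ) * √(N' : ℝ)| ≤ 2 * ((k : ℝ) + 1) * P * √(Z : ℝ) := by
    calc |(h : ℝ) * √(N : ℝ) + (h' : ℝ) * √(N' : ℝ)| ≤
        |(h : ℝ) * √(N : ℝ)| + |(h' : ℝ) * √(N' : ℝ)| := abs_add_le _ _
      _ = |(h : ℝ)| * √(N : ℝ) + |(h' : ℝ)| * √(N' : ℝ) := by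
          rw [abs_mul, abs_mul, abs_of_nonneg (Real.sqrt_nonneg _),
            abs_of_nonneg (Real.sqrt_nonneg _)]
      _ ≤ (((k : ℝ) + 1) * P) * √(Z : ℝ) + (((k : ℝ) + 1) * P) * √(Z : ℝ) := by
          apply add_le_add
          · exact mul_le_mul ha hs1 (Real.sqrt_nonneg _) (by positivity)
          · exact mul_le_mul ha' hs2 (Real.sqrt_nonneg _) (by positivity)
      _ = _ := by ring
  by_cases heq : h ^ 2 * (N : ℤ) = h' ^ 2 * (N' : ℤ)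
  · -- then `N = N'`, `h' = -h`
    have hh0 : h ≠ 0 := by rw [Ier, mem_erase] at hh; exact hh.1
    have hg : 0 < Int.gcd h h' := Int.gcd_pos_of_ne_zero_left _ hh0
    obtain ⟨a, b, hab, h1, h2⟩ := Int.exists_gcd_one hg
    have hgz : ((Int.gcd h h' : ℕ) : ℤ) ≠ 0 := by exact_mod_cast hg.ne'
    have h3 : (N : ℤ) * a ^ 2 = b ^ 2 * (N' : ℤ) := by
      have h4 : ((Int.gcd h h' : ℕ) : ℤ) ^ 2 * ((N : ℤ) * a ^ 2) =
          ((Int.gcd h h' : ℕ) : ℤ) ^ 2 * (b ^ 2 * (N' : ℤ)) := by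
        calc _ = (a * ((Int.gcd h h' : ℕ) : ℤ)) ^ 2 * N := by ring
          _ = h ^ 2 * N := by rw [← h1]
          _ = h' ^ 2 * N' := heq
          _ = (b * ((Int.gcd h h' : ℕ) : ℤ)) ^ 2 * N' := by rw [← h2]
          _ = _ := by ring
      exact mul_left_cancel₀ (pow_ne_zero 2 hgz) h4
    have hNN : N = N' := squarefree_eq_of_mul_sq hN.2.1 hN'.2.1
      (Int.isCoprime_iff_gcd_eq_one.mpr hab).symm h3
    subst hNN
    have hN0 : (N : ℤ) ≠ 0 := by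
      have := hN.1.1
      omega
    have h4 : h ^ 2 = h' ^ 2 := mul_right_cancel₀ hN0 heq
    have h5 : h' = -h := by
      rcases sq_eq_sq_iff_eq_or_eq_neg.mp h4 with h6 | h6
      · exfalso; apply hne; rw [h6]
      · rw [h6]; ring
    rw [h5]
    push_cast
    have h6 : (h : ℝ) * √(N : ℝ) - -(h : ℝ) * √(N : ℝ) = 2 * (h * √(N : ℝ)) := by ring
    rw [h6, abs_mul, abs_mul, abs_of_nonneg (Real.sqrt_nonneg _), abs_of_pos (by norm_num : (0:ℝ) < 2)]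
    have h7 : (1 : ℝ) ≤ |(h : ℝ)| := by exact_mod_cast Int.one_le_abs hh0
    have h8 : 1 ≤ √(N : ℝ) := by
      rw [Real.le_sqrt' one_pos]
      simpa using (by exact_mod_cast hN.1.1 : (1 : ℝ) ≤ N)
    have h9 : 1 ≤ |(h : ℝ)| * √(N : ℝ) := one_le_mul_of_one_le_of_one_le h7 h8
    have h10 : 1 ≤ 2 * ((k : ℝ) + 1) * P * √(Z : ℝ) := by
      have := one_le_mul_of_one_le_of_one_le (one_le_mul_of_one_le_of_one_le hkr hPr) hsZ
      linarith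
    nlinarith
  · have h1 : (1 : ℝ) ≤ |(h : ℝ) ^ 2 * N - (h' : ℝ) ^ 2 * N'| := by
      have h2 : (1 : ℤ) ≤ |h ^ 2 * (N : ℤ) - h' ^ 2 * (N' : ℤ)| :=
        Int.one_le_abs (sub_ne_zero.mpr heq)
      exact_mod_cast h2
    have h2 : (h : ℝ) ^ 2 * N - (h' : ℝ) ^ 2 * N' =
        ((h : ℝ) * √(N : ℝ) - (h' : ℝ) * √(N' : ℝ)) * ((h : ℝ) * √(N : ℝ) + (h' : ℝ) * √(N' : ℝ)) := by
      have a1 : √(N : ℝ) ^ 2 = N := Real.sq_sqrt (Nat.cast_nonneg _)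
      have a2 : √(N' : ℝ) ^ 2 = N' := Real.sq_sqrt (Nat.cast_nonneg _)
      calc (h : ℝ) ^ 2 * N - (h' : ℝ) ^ 2 * N' =
          (h : ℝ) ^ 2 * √(N : ℝ) ^ 2 - (h' : ℝ) ^ 2 * √(N' : ℝ) ^ 2 := by rw [a1, a2]
        _ = _ := by ring
    rw [h2, abs_mul] at h1
    exact le_trans h1 (mul_le_mul_of_nonneg_left hW (abs_nonneg _))

/-- Oscillating integral of a linear phase. -/
theorem integral_linear (x lam : ℝ) (hx : 0 < x) :
    ‖∫ t in x..(3 * x), e (t * lam)‖ ≤ 2 * mm x lam := by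
  have h1 : ‖∫ t in x..(3 * x), e (t * lam)‖ ≤ 2 * x := by
    have h2 : ‖∫ t in x..(3 * x), e (t * lam)‖ ≤ 1 * |3 * x - x| :=
      intervalIntegral.norm_integral_le_of_norm_le_const fun t _ => by rw [norm_e]
    have h3 : |3 * x - x| = 2 * x := by
      rw [show 3 * x - x = 2 * x by ring, abs_of_pos (by positivity)]
    rw [h3] at h2; linarith
  unfold mm
  rcases le_total |lam| x⁻¹ with h | h
  · rw [max_eq_left h]
    rw [one_div, inv_inv]; exact h1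
  · rw [max_eq_right h]
    have hl : 0 < |lam| := lt_of_lt_of_le (by positivity) h
    have h4 := norm_integral_e_le (a := x) (b := 3 * x) (Δ := |lam|) (M := 0) (by linarith)
      (fun t => t * lam) (fun _ => lam) (fun _ => 0)
      (fun t _ => by simpa using (hasDerivAt_id t).mul_const lam)
      (fun t _ => hasDerivAt_const t lam) continuousOn_const hl
      (fun t _ => le_refl _) (fun t _ => by simp)
    have h5 : 1 / |lam| + (3 * x - x) * 0 / |lam| ^ 2 = 1 / |lam| := by simp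
    rw [h5] at h4
    have : 0 ≤ 1 / |lam| := by positivity
    linarith

/-- Summing over lattice points. -/
theorem sum_XX_le {s H X : ℕ} {B : ℝ} (hX : 2 * ((s + 1) * H) ^ 2 ≤ X)
    (hB : ∀ n : ℕ, 1 ≤ n → n ≤ X → (((XX s H).filter (fun ξ => nn ξ = n)).card : ℝ) ≤ B)
    (f : ℕ → ℝ) (hf : ∀ n, 0 ≤ f n) :
    ∑ ξ ∈ XX s H, f (nn ξ) ≤ B * ∑ n ∈ Icc 1 X, f n := by
  have hmaps : ∀ ξ ∈ XX s H, nn ξ ∈ Icc 1 X := by
    intro ξ hξ
    rw [XX, mem_erase, mem_product, I0, mem_Icc, mem_Icc] at hξ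
    rw [mem_Icc]
    refine ⟨nn_pos hξ.1, le_trans ?_ hX⟩
    unfold nn
    have h1 : ξ.1.natAbs ≤ (s + 1) * H := by omega
    have h2 : ξ.2.natAbs ≤ (s + 1) * H := by omega
    have h3 := Nat.pow_le_pow_left h1 2
    have h4 := Nat.pow_le_pow_left h2 2
    omega
  rw [← Finset.sum_fiberwise_of_maps_to hmaps, Finset.mul_sum]
  refine Finset.sum_le_sum fun n hn => ?_
  rw [mem_Icc] at hn
  have h1 : ∀ ξ ∈ (XX s H).filter (fun ξ => nn ξ = n), f (nn ξ) = f n := by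
    intro ξ hξ
    rw [mem_filter] at hξ
    rw [hξ.2]
  rw [Finset.sum_congr rfl h1, Finset.sum_const, nsmul_eq_mul]
  exact mul_le_mul_of_nonneg_right (hB n hn.1 hn.2) (hf n)

theorem sum_sum_XX_le {s H X : ℕ} {B : ℝ} (hB0 : 0 ≤ B) (hX : 2 * ((s + 1) * H) ^ 2 ≤ X)
    (hB : ∀ n : ℕ, 1 ≤ n → n ≤ X → (((XX s H).filter (fun ξ => nn ξ = n)).card : ℝ) ≤ B)
    (F : ℕ → ℕ → ℝ) (hF : ∀ n m, 0 ≤ F n m) :
    ∑ ξ ∈ XX s H, ∑ η ∈ XX s H, F (nn ξ) (nn η) ≤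
      B ^ 2 * ∑ n ∈ Icc 1 X, ∑ m ∈ Icc 1 X, F n m := by
  calc ∑ ξ ∈ XX s H, ∑ η ∈ XX s H, F (nn ξ) (nn η)
      ≤ ∑ ξ ∈ XX s H, B * ∑ m ∈ Icc 1 X, F (nn ξ) m :=
        Finset.sum_le_sum fun ξ _ => sum_XX_le hX hB _ (fun m => hF _ m)
    _ ≤ B * ∑ n ∈ Icc 1 X, B * ∑ m ∈ Icc 1 X, F n m :=
        sum_XX_le hX hB (fun n => B * ∑ m ∈ Icc 1 X, F n m)
          (fun n => mul_nonneg hB0 (Finset.sum_nonneg fun m _ => hF n m))
    _ = B ^ 2 * ∑ n ∈ Icc 1 X, ∑ m ∈ Icc 1 X, F n m := by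
        rw [← Finset.mul_sum]; ring

end Run7.h770
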