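import Mathlib
import Pool.Agent.Run7.h770.Near
import Pool.Agent.Run7.h770.Kernel

/-!
# Quadratic exponential sums and the number of `k` with `α k² + β` close to an integer
-/

set_option autoImplicit false

open Finset

namespace Run7.h770

theorem nd_nonneg (t : ℝ) : 0 ≤ nd t := abs_nonneg _

theorem nd_le_half (t : ℝ) : nd t ≤ 1 / 2 := abs_sub_round t

theorem nd_neg (t : ℝ) : nd (-t) = nd t := by
  have h : ∀ s : ℝ, nd (-s) ≤ nd s := by
    intro s
    unfold nd
    refine le_trans (round_le (-s) (-round s)) ?_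
    rw [← abs_neg]
    apply le_of_eq
    congr 1
    push_cast
    ring
  apply le_antisymm (h t)
  have := h (-t)
  rwa [neg_neg] at this

theorem sum_Icc_symm (N : ℕ) (g : ℤ → ℝ) (hg : ∀ u, g (-u) = g u) :
    ∑ u ∈ Icc (-(N : ℤ)) N, g u = g 0 + 2 * ∑ u ∈ Icc 1 N, g (u : ℤ) := by
  induction N with
  | zero => simp
  | succ N ih =>
    have h1 : Icc (-((N + 1 : ℕ) : ℤ)) ((N + 1 : ℕ) : ℤ) =
        insert ((N : ℤ) + 1) (insert (-((N : ℤ) + 1)) (Icc (-(N : ℤ)) N)) := by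
      ext u
      simp only [mem_Icc, mem_insert]
      push_cast
      omega
    rw [h1, Finset.sum_insert, Finset.sum_insert, ih, Finset.sum_Icc_succ_top (by omega), hg]
    · push_cast
      ring
    · rw [mem_Icc]; omega
    · rw [mem_insert, mem_Icc]; omega

/-- Geometric sums over intervals of integers. -/
theorem geom_interval (t : ℝ) (a b : ℤ) {A : ℝ} (hA : 0 < A) (hcard : ((Icc a b).card : ℝ) ≤ A) :
    ‖∑ k ∈ Icc a b, e (t * k)‖ ≤ mm A (2 * nd t) := by
  have htriv : ‖∑ k ∈ Icc a b, e (t * k)‖ ≤ A := by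
    refine le_trans (norm_sum_le _ _) ?_
    simp only [norm_e, Finset.sum_const, nsmul_eq_mul, mul_one]
    exact hcard
  have hgeo : ‖∑ k ∈ Icc a b, e (t * k)‖ * (2 * nd t) ≤ 1 := by
    by_cases h0 : nd t = 0
    · rw [h0]; simp
    · have hnd : 0 < nd t := lt_of_le_of_ne (nd_nonneg t) (Ne.symm h0)
      set t' : ℝ := t - round t with ht'
      have h1 : ∑ k ∈ Icc a b, e (t * k) = ∑ j ∈ range (b + 1 - a).toNat, e (t' * (j + a)) := by
        refine Finset.sum_nbij' (fun k => (k - a).toNat) (fun n => (n : ℤ) + a) ?_ ?_ ?_ ?_ ?_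
        · intro k hk
          rw [mem_Icc] at hk
          rw [mem_range]
          omega
        · intro n hn
          rw [mem_range] at hn
          rw [mem_Icc]
          omega
        · intro k hk
          rw [mem_Icc] at hk
          omega
        · intro n hn
          simp
        · intro k hk
          rw [mem_Icc] at hk
          have h2 : (((k - a).toNat : ℕ) : ℝ) = (k : ℝ) - a := by
            rw [← Int.cast_natCast, Int.toNat_of_nonneg (by omega)]; push_cast; ring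
          rw [h2]
          have h3 : t * (k : ℝ) = t' * ((k : ℝ) - a + a) + ((round t * k : ℤ) : ℝ) := by
            rw [ht']; push_cast; ring
          rw [h3, e_add, e_int, mul_one]
      rw [h1]
      have h2 : t' ≠ 0 := by
        intro h
        apply h0
        rw [nd, ← ht', h, abs_zero]
      have h3 := norm_geom_le t' a (b + 1 - a).toNat h2 (abs_sub_round t)
      have h4 : |t'| = nd t := rfl
      rw [h4] at h3
      calc _ ≤ 1 / (2 * nd t) * (2 * nd t) :=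
            mul_le_mul_of_nonneg_right h3 (by positivity)
        _ = 1 := by field_simp
  unfold mm
  rw [abs_of_nonneg (by have := nd_nonneg t; positivity : 0 ≤ 2 * nd t)]
  have hm : 0 < max A⁻¹ (2 * nd t) := lt_max_of_lt_left (by positivity)
  rw [le_div_iff₀ hm]
  rcases le_total A⁻¹ (2 * nd t) with h | h
  · rw [max_eq_right h]; exact hgeo
  · rw [max_eq_left h]
    calc _ ≤ A * A⁻¹ := mul_le_mul_of_nonneg_right htriv (by positivity)
      _ = 1 := mul_inv_cancel₀ hA.ne'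

/-- The quadratic exponential sum. -/
noncomputable def SQ (K : ℕ) (θ : ℝ) : ℂ := ∑ k ∈ Icc (-(K : ℤ)) K, e (θ * (k : ℝ) ^ 2)

theorem SQ_zero (K : ℕ) : ‖SQ K 0‖ = 2 * K + 1 := by
  unfold SQ
  have h1 : ∀ k ∈ Icc (-(K : ℤ)) K, e (0 * (k : ℝ) ^ 2) = 1 := by
    intro k _
    rw [zero_mul, e_zero]
  rw [Finset.sum_congr rfl h1, Finset.sum_const, Int.card_Icc, nsmul_eq_mul, mul_one]
  have h2 : ((K : ℤ) + 1 - -(K : ℤ)).toNat = 2 * K + 1 := by omega
  rw [h2, Complex.norm_natCast]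
  push_cast
  ring

theorem norm_SQ_neg (K : ℕ) (θ : ℝ) : ‖SQ K (-θ)‖ = ‖SQ K θ‖ := by
  have h : SQ K (-θ) = (starRingEnd ℂ) (SQ K θ) := by
    unfold SQ
    rw [map_sum]
    refine Finset.sum_congr rfl fun k _ => ?_
    rw [conj_e]
    congr 1
    ring
  rw [h, Complex.norm_conj]

/-- Weyl's inequality by differencing. -/
theorem weyl_sq (K : ℕ) (θ : ℝ) :
    ‖SQ K θ‖ ^ 2 ≤ (2 * K + 1) + 2 * ∑ u ∈ Icc 1 (2 * K), mm (2 * K + 1) (2 * nd (2 * θ * u)) := by
  classical
  set I : Finset ℤ := Icc (-(K : ℤ)) K with hI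
  set T : Finset ℤ := Icc (-((2 * K : ℕ) : ℤ)) ((2 * K : ℕ) : ℤ) with hT
  have h1 : ((‖SQ K θ‖ ^ 2 : ℝ) : ℂ) = ∑ p ∈ I ×ˢ I, e (θ * ((p.2 : ℝ) ^ 2 - (p.1 : ℝ) ^ 2)) := by
    have h2 : ((‖SQ K θ‖ ^ 2 : ℝ) : ℂ) = (starRingEnd ℂ) (SQ K θ) * SQ K θ := by
      rw [Complex.conj_mul']
      push_cast
      rfl
    rw [h2, Finset.sum_product, SQ, map_sum, Finset.sum_mul_sum]
    refine Finset.sum_congr rfl fun a _ => Finset.sum_congr rfl fun b _ => ?_
    rw [conj_e, ← e_add]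
    congr 1
    ring
  have hmaps : ∀ p ∈ I ×ˢ I, p.2 - p.1 ∈ T := by
    intro p hp
    rw [mem_product, hI, mem_Icc, mem_Icc] at hp
    rw [hT, mem_Icc]
    push_cast
    omega
  have h3 : ‖SQ K θ‖ ^ 2 = ‖∑ u ∈ T, ∑ p ∈ (I ×ˢ I).filter (fun p => p.2 - p.1 = u),
      e (θ * ((p.2 : ℝ) ^ 2 - (p.1 : ℝ) ^ 2))‖ := by
    rw [Finset.sum_fiberwise_of_maps_to hmaps, ← h1, Complex.norm_real,
      Real.norm_of_nonneg (by positivity)]
  rw [h3]
  have h4 : ∀ u ∈ T, ‖∑ p ∈ (I ×ˢ I).filter (fun p => p.2 - p.1 = u),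
      e (θ * ((p.2 : ℝ) ^ 2 - (p.1 : ℝ) ^ 2))‖ ≤ mm (2 * K + 1) (2 * nd (2 * θ * u)) := by
    intro u _
    have h5 : ∑ p ∈ (I ×ˢ I).filter (fun p => p.2 - p.1 = u),
        e (θ * ((p.2 : ℝ) ^ 2 - (p.1 : ℝ) ^ 2)) =
        e (θ * (u : ℝ) ^ 2) * ∑ k ∈ Icc (max (-(K : ℤ)) (-(K : ℤ) - u)) (min (K : ℤ) ((K : ℤ) - u)),
          e (2 * θ * u * k) := by
      rw [Finset.mul_sum]
      refine Finset.sum_nbij' (fun p => p.1) (fun k => (k, k + u)) ?_ ?_ ?_ ?_ ?_
      · intro p hp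
        rw [mem_filter, mem_product, hI, mem_Icc, mem_Icc] at hp
        rw [mem_Icc]
        omega
      · intro k hk
        rw [mem_Icc] at hk
        rw [mem_filter, mem_product, hI, mem_Icc, mem_Icc]
        simp only
        omega
      · intro p hp
        rw [mem_filter] at hp
        ext
        · rfl
        · simp only
          omega
      · intro k _
        rfl
      · intro p hp
        rw [mem_filter] at hp
        rw [← e_add]
        congr 1
        have h6 : (p.2 : ℝ) = p.1 + u := by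
          have : p.2 = p.1 + u := by omega
          rw [this]; push_cast; ring
        rw [h6]
        ring
    rw [h5, norm_mul, norm_e, one_mul]
    apply geom_interval _ _ _ (by positivity)
    have h7 : (Icc (max (-(K : ℤ)) (-(K : ℤ) - u)) (min (K : ℤ) ((K : ℤ) - u))).card ≤ 2 * K + 1 := by
      rw [Int.card_Icc]
      omega
    exact_mod_cast h7
  refine le_trans (norm_sum_le _ _) (le_trans (Finset.sum_le_sum h4) ?_)
  rw [hT, sum_Icc_symm (2 * K) (fun u : ℤ => mm (2 * K + 1) (2 * nd (2 * θ * u))) (by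
    intro u
    have : 2 * θ * ((-u : ℤ) : ℝ) = -(2 * θ * u) := by push_cast; ring
    rw [this, nd_neg])]
  apply add_le_add
  · exact mm_le_left (by positivity) _
  · apply le_of_eq
    congr 1

/-- Grouping the products. -/
theorem hyperbola_sum (L U : ℕ) (D : ℝ) (g : ℕ → ℝ) (hg : ∀ w, 0 ≤ g w)
    (hD : ∀ w : ℕ, 1 ≤ w → w ≤ L * U → ((Nat.divisors w).card : ℝ) ≤ D) :
    ∑ h ∈ Icc 1 L, ∑ u ∈ Icc 1 U, g (h * u) ≤ D * ∑ w ∈ Icc 1 (L * U), g w := by
  classical
  rw [← Finset.sum_product']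
  have hmaps : ∀ p ∈ Icc 1 L ×ˢ Icc 1 U, p.1 * p.2 ∈ Icc 1 (L * U) := by
    intro p hp
    rw [mem_product, mem_Icc, mem_Icc] at hp
    rw [mem_Icc]
    exact ⟨Nat.mul_pos hp.1.1 hp.2.1, Nat.mul_le_mul hp.1.2 hp.2.2⟩
  rw [← Finset.sum_fiberwise_of_maps_to hmaps, Finset.mul_sum]
  refine Finset.sum_le_sum fun w hw => ?_
  rw [mem_Icc] at hw
  have h1 : ∀ p ∈ (Icc 1 L ×ˢ Icc 1 U).filter (fun p => p.1 * p.2 = w), g (p.1 * p.2) = g w := by
    intro p hp
    rw [mem_filter] at hp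
    rw [hp.2]
  rw [Finset.sum_congr rfl h1, Finset.sum_const, nsmul_eq_mul]
  apply mul_le_mul_of_nonneg_right _ (hg w)
  refine le_trans ?_ (hD w hw.1 hw.2)
  have h2 : ((Icc 1 L ×ˢ Icc 1 U).filter (fun p => p.1 * p.2 = w)).card ≤ (Nat.divisors w).card := by
    apply Finset.card_le_card_of_injOn (fun p => p.1)
    · intro p hp
      rw [mem_coe, mem_filter] at hp
      rw [mem_coe, Nat.mem_divisors]
      exact ⟨⟨p.2, hp.2.symm⟩, by omega⟩
    · intro p hp q hq hpq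
      rw [mem_coe, mem_filter, mem_product, mem_Icc, mem_Icc] at hp hq
      simp only at hpq
      have h3 : p.1 * p.2 = p.1 * q.2 := by rw [hp.2, hpq, hq.2]
      have h4 : p.2 = q.2 := Nat.eq_of_mul_eq_mul_left (by omega) h3
      exact Prod.ext hpq h4
  exact_mod_cast h2

/-- The mean square of the quadratic sums. -/
theorem sum_SQ_sq {K L J : ℕ} {ν D : ℝ} (hν : ν ≠ 0) (hJ : ν ^ 2 ≤ J) (hD0 : 0 ≤ D)
    (hD : ∀ w : ℕ, 1 ≤ w → w ≤ L * (2 * K) → ((Nat.divisors w).card : ℝ) ≤ D) :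
    ∑ h ∈ Icc 1 L, ‖SQ K (h * (1 / (2 * ν ^ 2)))‖ ^ 2 ≤
      L * (2 * K + 1) + 2 * (D * (((L * (2 * K) : ℕ) / ν ^ 2 + 2) *
        (2 * ((2 * K + 1) + ν ^ 2 / 2 * hs J)))) := by
  have hν2 : 0 < ν ^ 2 := by positivity
  have hh := hs_nonneg J
  have h1 : ∀ h ∈ Icc 1 L, ‖SQ K (h * (1 / (2 * ν ^ 2)))‖ ^ 2 ≤
      (2 * K + 1) + 2 * ∑ u ∈ Icc 1 (2 * K), mm (2 * K + 1) (2 * nd (((h * u : ℕ) : ℝ) / ν ^ 2)) := by
    intro h _
    refine le_trans (weyl_sq K _) (le_of_eq ?_)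
    congr 2
    refine Finset.sum_congr rfl fun u _ => ?_
    congr 3
    push_cast
    field_simp
  refine le_trans (Finset.sum_le_sum h1) ?_
  rw [Finset.sum_add_distrib, Finset.sum_const, Nat.card_Icc, Nat.add_sub_cancel, nsmul_eq_mul,
    ← Finset.mul_sum]
  apply add_le_add le_rfl
  apply mul_le_mul_of_nonneg_left _ (by norm_num)
  have hA : (0 : ℝ) < 2 * K + 1 := by positivity
  refine le_trans (hyperbola_sum L (2 * K) D (fun w => mm (2 * K + 1) (2 * nd ((w : ℝ) / ν ^ 2)))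
    (fun w => mm_nonneg hA _) hD) ?_
  apply mul_le_mul_of_nonneg_left _ hD0
  have h2 := spaced_mod_one (Icc 1 (L * (2 * K))) (fun w : ℕ => (w : ℝ) / ν ^ 2) (x := 2 * K + 1)
    (V := 1 / 2) (d := 1 / ν ^ 2) (a := 0) (Lam := (L * (2 * K) : ℕ) / ν ^ 2) hA (by norm_num)
    (by positivity) (by positivity) J (by
      rw [mul_one_div, lt_div_iff₀ hν2]
      linarith)
    (by
      intro w hw
      rw [mem_Icc] at hw
      refine ⟨by positivity, ?_⟩
      rw [zero_add]
      apply div_le_div_of_nonneg_right _ hν2.le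
      exact_mod_cast hw.2)
    (by
      intro i _ j _ hij
      rw [← sub_div, abs_div, abs_of_pos hν2]
      apply div_le_div_of_nonneg_right _ hν2.le
      have : (1 : ℤ) ≤ |(i : ℤ) - j| := Int.one_le_abs (by omega)
      exact_mod_cast this)
  refine le_trans (le_of_eq ?_) (le_trans h2 (le_of_eq ?_))
  · refine Finset.sum_congr rfl fun w _ => ?_
    congr 1
    ring
  · congr 3
    field_simp

end Run7.h770
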