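import Mathlib
import Pool.Agent.Run7.h770.Weyl
import Pool.Agent.Run7.h770.Near2
import Pool.Agent.Run7.h770.Circle

/-!
# Near coincidences `√n + ν ≈ √m` through Weyl sums
-/

set_option autoImplicit false

open Finset

namespace Run7.h770

/-- The Dirichlet kernel is large near the integers. -/
theorem PP_large {L : ℕ} (hL : 1 ≤ L) {t : ℝ} (ht : nd t ≤ 1 / (8 * L)) :
    (L : ℝ) ^ 2 / 2 ≤ ‖PP L t‖ ^ 2 := by
  have hLr : (1 : ℝ) ≤ L := by exact_mod_cast hL
  set t' := t - round t with ht'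
  have h1 : PP L t = ∑ a ∈ range L, e (a * t') := by
    unfold PP
    refine Finset.sum_congr rfl fun a _ => ?_
    have h2 : (a : ℝ) * t = a * t' + (((a : ℤ) * round t : ℤ) : ℝ) := by
      rw [ht']; push_cast; ring
    rw [h2, e_add, e_int, mul_one]
  have h2 : ∀ a ∈ range L, √2 / 2 ≤ (e (a * t')).re := by
    intro a ha
    rw [mem_range] at ha
    rw [e_re, ← Real.cos_abs, ← Real.cos_pi_div_four]
    apply Real.cos_le_cos_of_nonneg_of_le_pi (abs_nonneg _) (by linarith [Real.pi_pos])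
    have h3 : |t'| ≤ 1 / (8 * L) := ht
    have h4 : (a : ℝ) ≤ L := by exact_mod_cast ha.le
    rw [abs_mul, abs_of_pos (by positivity : 0 < 2 * Real.pi), abs_mul, Nat.abs_cast]
    calc 2 * Real.pi * ((a : ℝ) * |t'|) ≤ 2 * Real.pi * (L * (1 / (8 * L))) := by
          apply mul_le_mul_of_nonneg_left _ (by positivity)
          exact mul_le_mul h4 h3 (abs_nonneg _) (by positivity)
      _ = Real.pi / 4 := by field_simp; norm_num
  have h3 : (L : ℝ) * (√2 / 2) ≤ (PP L t).re := by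
    rw [h1, Complex.re_sum]
    calc (L : ℝ) * (√2 / 2) = ∑ _a ∈ range L, √2 / 2 := by
          rw [Finset.sum_const, card_range, nsmul_eq_mul]
      _ ≤ _ := Finset.sum_le_sum h2
  have h4 : (L : ℝ) * (√2 / 2) ≤ ‖PP L t‖ := le_trans h3 (Complex.re_le_norm _)
  calc (L : ℝ) ^ 2 / 2 = (L * (√2 / 2)) ^ 2 := by
        rw [mul_pow, div_pow, Real.sq_sqrt (by norm_num)]; ring
    _ ≤ ‖PP L t‖ ^ 2 := pow_le_pow_left₀ (by positivity) h4 2

/-- Counting by the Fejér kernel. -/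
theorem count_quad {K L : ℕ} (hL : 1 ≤ L) (α β : ℝ) :
    (((Icc (-(K : ℤ)) K).filter (fun k : ℤ => nd (α * (k : ℝ) ^ 2 + β) ≤ 1 / (8 * L))).card : ℝ) *
      ((L : ℝ) ^ 2 / 2) ≤ L * ((2 * K + 1) + 2 * ∑ h ∈ Icc 1 L, ‖SQ K (h * α)‖) := by
  classical
  set I : Finset ℤ := Icc (-(K : ℤ)) K with hI
  have h1 : ((I.filter (fun k : ℤ => nd (α * (k : ℝ) ^ 2 + β) ≤ 1 / (8 * L))).card : ℝ) *
      ((L : ℝ) ^ 2 / 2) ≤ ∑ k ∈ I, ‖PP L (α * (k : ℝ) ^ 2 + β)‖ ^ 2 := by
    rw [← nsmul_eq_mul, ← Finset.sum_const]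
    calc _ ≤ ∑ k ∈ I.filter (fun k : ℤ => nd (α * (k : ℝ) ^ 2 + β) ≤ 1 / (8 * L)),
          ‖PP L (α * (k : ℝ) ^ 2 + β)‖ ^ 2 := by
          refine Finset.sum_le_sum fun k hk => ?_
          rw [mem_filter] at hk
          exact PP_large hL hk.2
      _ ≤ _ := Finset.sum_le_sum_of_subset_of_nonneg (Finset.filter_subset _ _)
          fun _ _ _ => by positivity
  refine le_trans h1 ?_
  have h2 : ((∑ k ∈ I, ‖PP L (α * (k : ℝ) ^ 2 + β)‖ ^ 2 : ℝ) : ℂ) =
      ∑ l ∈ range L, ∑ l' ∈ range L, e (((l : ℝ) - l') * β) * SQ K (((l : ℝ) - l') * α) := by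
    push_cast
    have h3 : ∀ k ∈ I, ((‖PP L (α * (k : ℝ) ^ 2 + β)‖ : ℝ) : ℂ) ^ 2 =
        ∑ l ∈ range L, ∑ l' ∈ range L, e (((l : ℝ) - l') * β) *
          e (((l : ℝ) - l') * α * (k : ℝ) ^ 2) := by
      intro k _
      rw [← Complex.mul_conj', PP, map_sum, Finset.sum_mul_sum]
      refine Finset.sum_congr rfl fun l _ => Finset.sum_congr rfl fun l' _ => ?_
      rw [conj_e, ← e_add, ← e_add]
      congr 1
      ring
    rw [Finset.sum_congr rfl h3, Finset.sum_comm]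
    refine Finset.sum_congr rfl fun l _ => ?_
    rw [Finset.sum_comm]
    refine Finset.sum_congr rfl fun l' _ => ?_
    rw [SQ, Finset.mul_sum]
  have h3 : ∑ k ∈ I, ‖PP L (α * (k : ℝ) ^ 2 + β)‖ ^ 2 =
      ‖∑ l ∈ range L, ∑ l' ∈ range L, e (((l : ℝ) - l') * β) * SQ K (((l : ℝ) - l') * α)‖ := by
    rw [← h2, Complex.norm_real, Real.norm_of_nonneg (by positivity)]
  rw [h3]
  set g : ℤ → ℝ := fun u => ‖SQ K (u * α)‖ with hg
  have hg0 : ∀ u, 0 ≤ g u := fun u => norm_nonneg _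
  have h4 : ∀ l ∈ range L, ∑ l' ∈ range L, ‖e (((l : ℝ) - l') * β) * SQ K (((l : ℝ) - l') * α)‖ ≤
      (2 * K + 1) + 2 * ∑ h ∈ Icc 1 L, ‖SQ K (h * α)‖ := by
    intro l hl
    rw [mem_range] at hl
    have h5 : ∑ l' ∈ range L, ‖e (((l : ℝ) - l') * β) * SQ K (((l : ℝ) - l') * α)‖ =
        ∑ u ∈ (range L).image (fun l' : ℕ => (l : ℤ) - l'), g u := by
      rw [Finset.sum_image]
      · refine Finset.sum_congr rfl fun l' _ => ?_
        rw [norm_mul, norm_e, one_mul, hg]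
        push_cast
        rfl
      · intro a _ b _ hab
        simp only at hab
        omega
    rw [h5]
    have h6 : (range L).image (fun l' : ℕ => (l : ℤ) - l') ⊆ Icc (-(L : ℤ)) L := by
      intro u hu
      rw [mem_image] at hu
      obtain ⟨l', hl', rfl⟩ := hu
      rw [mem_range] at hl'
      rw [mem_Icc]
      omega
    refine le_trans (Finset.sum_le_sum_of_subset_of_nonneg h6 fun u _ _ => hg0 u) ?_
    rw [sum_Icc_symm L g (by
      intro u
      rw [hg]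
      simp only
      rw [← norm_SQ_neg]
      congr 2
      push_cast
      ring)]
    apply add_le_add
    · rw [hg]
      simp only [Int.cast_zero, zero_mul]
      rw [SQ_zero]
    · apply le_of_eq
      rw [hg]
      simp only [Int.cast_natCast]
  calc _ ≤ ∑ l ∈ range L, ∑ l' ∈ range L, ‖e (((l : ℝ) - l') * β) * SQ K (((l : ℝ) - l') * α)‖ := by
        refine le_trans (norm_sum_le _ _) ?_
        exact Finset.sum_le_sum fun l _ => norm_sum_le _ _
    _ ≤ ∑ _l ∈ range L, ((2 * K + 1) + 2 * ∑ h ∈ Icc 1 L, ‖SQ K (h * α)‖) := Finset.sum_le_sum h4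
    _ = _ := by rw [Finset.sum_const, card_range, nsmul_eq_mul]

/-- The number of `k` with `k² / (2 ν²) + β` close to an integer. -/
theorem count_parabola {K L J : ℕ} (hL : 1 ≤ L) {ν D r : ℝ} (β : ℝ) (hν1 : 1 ≤ |ν|)
    (hr : 2 * |ν| ≤ r) (hK : (K : ℝ) ≤ 5 * (|ν| * r)) (hJ : ν ^ 2 ≤ J) (hD1 : 1 ≤ D)
    (hD : ∀ w : ℕ, 1 ≤ w → w ≤ L * (2 * K) → ((Nat.divisors w).card : ℝ) ≤ D) :
    (((Icc (-(K : ℤ)) K).filter (fun k : ℤ => nd (1 / (2 * ν ^ 2) * (k : ℝ) ^ 2 + β) ≤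
      1 / (8 * L))).card : ℝ) ≤ 22 * (|ν| * r) / L + 96 * (√(D * hs J) * r) := by
  have hLr : (1 : ℝ) ≤ L := by exact_mod_cast hL
  have hν : ν ≠ 0 := by
    intro h; rw [h, abs_zero] at hν1; linarith
  have hν2 : |ν| ^ 2 = ν ^ 2 := sq_abs ν
  have hν3 : 1 ≤ ν ^ 2 := by rw [← hν2]; nlinarith
  have hJ1 : 1 ≤ J := by
    have : (1 : ℝ) ≤ J := by linarith
    exact_mod_cast this
  have hh := one_le_hs hJ1
  have hr0 : 0 < r := by linarith
  have hνr : 2 ≤ |ν| * r := by nlinarith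
  set N : ℝ := (((Icc (-(K : ℤ)) K).filter (fun k : ℤ => nd (1 / (2 * ν ^ 2) * (k : ℝ) ^ 2 + β) ≤
      1 / (8 * L))).card : ℝ) with hN
  have h1 := count_quad (K := K) hL (1 / (2 * ν ^ 2)) β
  rw [← hN] at h1
  have h2 := sum_SQ_sq (K := K) (L := L) hν hJ (by linarith) hD
  set S : ℝ := ∑ h ∈ Icc 1 L, ‖SQ K (h * (1 / (2 * ν ^ 2)))‖ with hS
  have hS0 : 0 ≤ S := Finset.sum_nonneg fun _ _ => norm_nonneg _
  have h3 : S ^ 2 ≤ L * ∑ h ∈ Icc 1 L, ‖SQ K (h * (1 / (2 * ν ^ 2)))‖ ^ 2 := by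
    have := sq_sum_le_card_mul_sum_sq (s := Icc 1 L) (f := fun h : ℕ => ‖SQ K (h * (1 / (2 * ν ^ 2)))‖)
    rw [Nat.card_Icc, Nat.add_sub_cancel] at this
    exact this
  have hA : (2 * (K : ℝ) + 1) ≤ 11 * (|ν| * r) := by linarith
  have hA0 : 0 ≤ 2 * (K : ℝ) + 1 := by positivity
  -- the bound for `Q`
  have h4 : ((L * (2 * K) : ℕ) : ℝ) / ν ^ 2 + 2 ≤ 11 * (L * r / |ν|) := by
    push_cast
    have a1 : (L : ℝ) * (2 * K) / ν ^ 2 ≤ 10 * (L * r / |ν|) := by
      rw [← hν2, div_le_iff₀ (by positivity)]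
      have : 10 * (L * r / |ν|) * |ν| ^ 2 = 10 * L * (|ν| * r) := by field_simp
      rw [this]
      nlinarith
    have a2 : 2 ≤ L * r / |ν| := by
      rw [le_div_iff₀ (by linarith)]
      nlinarith
    linarith
  have h5 : 2 * ((2 * (K : ℝ) + 1) + ν ^ 2 / 2 * hs J) ≤ 24 * (hs J * (|ν| * r)) := by
    have a1 : ν ^ 2 ≤ |ν| * r / 2 := by rw [← hν2]; nlinarith
    have a2 : ν ^ 2 / 2 * hs J ≤ |ν| * r / 4 * hs J := by
      apply mul_le_mul_of_nonneg_right _ (by linarith)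
      linarith
    have a3 : 11 * (|ν| * r) ≤ 11 * (hs J * (|ν| * r)) := by nlinarith
    have a4 : 0 ≤ hs J * (|ν| * r) := by positivity
    nlinarith
  have h6 : ∑ h ∈ Icc 1 L, ‖SQ K (h * (1 / (2 * ν ^ 2)))‖ ^ 2 ≤ 534 * (L * (D * hs J * r ^ 2)) := by
    refine le_trans h2 ?_
    have b1 : ((L * (2 * K) : ℕ) / ν ^ 2 + 2) * (2 * ((2 * (K : ℝ) + 1) + ν ^ 2 / 2 * hs J)) ≤
        (11 * (L * r / |ν|)) * (24 * (hs J * (|ν| * r))) :=
      mul_le_mul h4 h5 (by positivity) (by positivity)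
    have b2 : (11 * (L * r / |ν|)) * (24 * (hs J * (|ν| * r))) = 264 * (L * (hs J * r ^ 2)) := by
      field_simp; ring
    rw [b2] at b1
    have b3 : 2 * (D * (((L * (2 * K) : ℕ) / ν ^ 2 + 2) *
        (2 * ((2 * (K : ℝ) + 1) + ν ^ 2 / 2 * hs J)))) ≤ 2 * (D * (264 * (L * (hs J * r ^ 2)))) := by
      apply mul_le_mul_of_nonneg_left _ (by norm_num)
      exact mul_le_mul_of_nonneg_left b1 (by linarith)
    have b4 : (L : ℝ) * (2 * K + 1) ≤ 6 * (L * (D * hs J * r ^ 2)) := by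
      have c1 : (1 : ℝ) ≤ D * hs J := by nlinarith
      have c2 : 11 * (|ν| * r) ≤ 6 * r ^ 2 := by nlinarith
      have c3 : r ^ 2 ≤ D * hs J * r ^ 2 := by nlinarith [sq_nonneg r]
      have c4 : (2 * (K : ℝ) + 1) ≤ 6 * (D * hs J * r ^ 2) := by linarith
      nlinarith
    nlinarith
  have h7 : S ≤ 23.5 * (L * (√(D * hs J) * r)) := by
    have c1 : 0 ≤ D * hs J := by positivity
    have c2 : √(D * hs J) ^ 2 = D * hs J := Real.sq_sqrt c1
    have c3 : S ^ 2 ≤ (23.5 * (L * (√(D * hs J) * r))) ^ 2 := by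
      calc S ^ 2 ≤ L * (534 * (L * (D * hs J * r ^ 2))) :=
            le_trans h3 (mul_le_mul_of_nonneg_left h6 (by positivity))
        _ = 534 * (L ^ 2 * (D * hs J) * r ^ 2) := by ring
        _ ≤ 552.25 * (L ^ 2 * (D * hs J) * r ^ 2) :=
            mul_le_mul_of_nonneg_right (by norm_num) (by positivity)
        _ = (23.5 * (L * (√(D * hs J) * r))) ^ 2 := by
            have : (23.5 * (L * (√(D * hs J) * r))) ^ 2 = 552.25 * (L ^ 2 * (√(D * hs J)) ^ 2 * r ^ 2) := by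
              ring
            rw [this, c2]
    exact le_of_sq_le_sq c3 (by positivity)
  -- conclusion
  have h8 : N * ((L : ℝ) ^ 2 / 2) ≤ (22 * (|ν| * r) / L + 96 * (√(D * hs J) * r)) * ((L : ℝ) ^ 2 / 2) := by
    refine le_trans h1 ?_
    have c1 : (22 * (|ν| * r) / L + 96 * (√(D * hs J) * r)) * ((L : ℝ) ^ 2 / 2) =
        L * (11 * (|ν| * r) + 48 * (L * (√(D * hs J) * r))) := by
      field_simp; ring
    rw [c1]
    apply mul_le_mul_of_nonneg_left _ (by positivity)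
    have c2 : 0 ≤ L * (√(D * hs J) * r) := by positivity
    linarith
  exact le_of_mul_le_mul_right h8 (by positivity)

/-- The number of `n ∈ (M, 2M]` with `2 ν √n + ν²` close to an integer. -/
theorem count_curve {M J : ℕ} (hM : 1 ≤ M) {ν D δ : ℝ} (hδ : 0 < δ) (hν1 : 1 ≤ |ν|)
    (hr : 2 * |ν| ≤ √(M : ℝ)) (hJ : ν ^ 2 ≤ J) (hD1 : 1 ≤ D)
    (hD : ∀ w : ℕ, 1 ≤ w → (w : ℝ) ≤ ν ^ 2 / δ → ((Nat.divisors w).card : ℝ) ≤ D) :
    (((Ioc M (2 * M)).filter (fun n : ℕ => nd (2 * ν * √(n : ℝ) + ν ^ 2) ≤ δ)).card : ℝ) ≤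
      1500 * (δ * M) + 96 * (√(D * hs J) * √(M : ℝ)) := by
  classical
  have hMr : (1 : ℝ) ≤ M := by exact_mod_cast hM
  have hM0 : (0 : ℝ) < M := by linarith
  set r := √(M : ℝ) with hrdef
  have hr1 : 2 ≤ r := by linarith
  have hr0 : 0 < r := by linarith
  have hr2 : r ^ 2 = M := Real.sq_sqrt hM0.le
  have hν : ν ≠ 0 := by
    intro h; rw [h, abs_zero] at hν1; linarith
  have hν0 : 0 < |ν| := by linarith
  have hν2 : |ν| ^ 2 = ν ^ 2 := sq_abs ν
  have hνr : 2 ≤ |ν| * r := by nlinarith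
  have hnn : 0 ≤ 96 * (√(D * hs J) * r) := by positivity
  rcases le_or_gt (1 / 2) δ with hδ2 | hδ2
  · -- trivial bound
    have h1 : ((Ioc M (2 * M)).filter (fun n : ℕ => nd (2 * ν * √(n : ℝ) + ν ^ 2) ≤ δ)).card ≤ M := by
      refine le_trans (Finset.card_filter_le _ _) ?_
      rw [Nat.card_Ioc]; omega
    have h2 : (((Ioc M (2 * M)).filter (fun n : ℕ => nd (2 * ν * √(n : ℝ) + ν ^ 2) ≤ δ)).card : ℝ) ≤
        M := by exact_mod_cast h1
    nlinarith
  set K : ℕ := ⌊5 * (|ν| * r)⌋₊ with hKdef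
  have hK : (K : ℝ) ≤ 5 * (|ν| * r) := Nat.floor_le (by positivity)
  set Δ : ℝ := 4 * δ * r / |ν| with hΔ
  have hΔ0 : 0 < Δ := by positivity
  set c : ℤ → ℝ := fun k => 1 / (2 * ν ^ 2) * (k : ℝ) ^ 2 + ν ^ 2 / 2 with hc
  set T : Finset ((_ : ℤ) × ℤ) :=
    (Icc (-(K : ℤ)) K).sigma (fun k => Icc ⌈c k - Δ⌉ ⌊c k + Δ⌋) with hT
  set S := (Ioc M (2 * M)).filter (fun n : ℕ => nd (2 * ν * √(n : ℝ) + ν ^ 2) ≤ δ) with hS
  have hST : S.card ≤ T.card := by
    apply Finset.card_le_card_of_injOn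
      (fun n : ℕ => (⟨round (2 * ν * √(n : ℝ) + ν ^ 2),
        2 * (n : ℤ) + round (2 * ν * √(n : ℝ) + ν ^ 2)⟩ : (_ : ℤ) × ℤ))
    · intro n hn
      rw [mem_coe, hS, mem_filter, mem_Ioc] at hn
      rw [mem_coe, hT, mem_sigma]
      simp only
      set k : ℤ := round (2 * ν * √(n : ℝ) + ν ^ 2) with hk
      have hnr : (n : ℝ) ≤ 2 * M := by exact_mod_cast hn.1.2
      have hn0 : (0 : ℝ) ≤ n := Nat.cast_nonneg _
      have hsn0 : 0 ≤ √(n : ℝ) := Real.sqrt_nonneg _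
      have hsn2 : √(n : ℝ) ^ 2 = n := Real.sq_sqrt hn0
      have hsn : √(n : ℝ) ≤ 3 / 2 * r := by
        rw [Real.sqrt_le_iff]
        refine ⟨by positivity, ?_⟩
        nlinarith
      set θ : ℝ := 2 * ν * √(n : ℝ) + ν ^ 2 - k with hθ
      have hθd : |θ| ≤ δ := hn.2
      constructor
      · -- `|k| ≤ K`
        have a1 : |(k : ℝ)| ≤ 5 * (|ν| * r) := by
          have b1 : (k : ℝ) = 2 * ν * √(n : ℝ) + ν ^ 2 - θ := by rw [hθ]; ring
          have b2 : |(k : ℝ)| ≤ |2 * ν * √(n : ℝ)| + |ν ^ 2| + |θ| := by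
            rw [b1]
            refine le_trans (abs_sub _ _) ?_
            linarith [abs_add_le (2 * ν * √(n : ℝ)) (ν ^ 2)]
          have b3 : |2 * ν * √(n : ℝ)| ≤ 3 * (|ν| * r) := by
            rw [abs_mul, abs_mul, abs_of_nonneg hsn0, show |(2 : ℝ)| = 2 by norm_num]
            nlinarith
          have b4 : |ν ^ 2| ≤ |ν| * r / 2 := by
            rw [abs_of_nonneg (by positivity), ← hν2]
            nlinarith
          linarith
        have a2 : (k.natAbs : ℝ) ≤ 5 * (|ν| * r) := by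
          rw [Nat.cast_natAbs, Int.cast_abs]; exact a1
        have a3 : k.natAbs ≤ K := Nat.le_floor a2
        rw [mem_Icc]
        omega
      · -- `|c k - s| ≤ Δ`
        have a1 : c k - (2 * n + k) = -(2 * (ν * √(n : ℝ)) * θ / ν ^ 2) + θ ^ 2 / (2 * ν ^ 2) := by
          have b1 : (k : ℝ) = 2 * ν * √(n : ℝ) + ν ^ 2 - θ := by rw [hθ]; ring
          have b2 : (n : ℝ) = √(n : ℝ) ^ 2 := hsn2.symm
          rw [hc]
          simp only
          rw [b1]
          have b3 : (2 * (n : ℝ) + (2 * ν * √(n : ℝ) + ν ^ 2 - θ)) =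
              2 * √(n : ℝ) ^ 2 + (2 * ν * √(n : ℝ) + ν ^ 2 - θ) := by rw [hsn2]
          rw [b3]
          field_simp
          ring
        have a2 : |c k - (2 * n + k)| ≤ Δ := by
          rw [a1]
          refine le_trans (abs_add_le _ _) ?_
          rw [abs_neg]
          have b1 : |2 * (ν * √(n : ℝ)) * θ / ν ^ 2| ≤ 3 * δ * r / |ν| := by
            rw [abs_div, abs_mul, abs_mul, abs_mul, abs_of_nonneg hsn0,
              show |(2 : ℝ)| = 2 by norm_num, abs_of_pos (by positivity : 0 < ν ^ 2), ← hν2,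
              div_le_div_iff₀ (by positivity) hν0]
            have : √(n : ℝ) * |θ| ≤ 3 / 2 * r * δ :=
              mul_le_mul hsn hθd (abs_nonneg _) (by positivity)
            nlinarith [mul_le_mul_of_nonneg_left this (by positivity : 0 ≤ 2 * |ν| ^ 2)]
          have b2 : |θ ^ 2 / (2 * ν ^ 2)| ≤ δ * r / |ν| := by
            rw [abs_of_nonneg (by positivity), ← hν2, div_le_div_iff₀ (by positivity) hν0]
            have c1 : θ ^ 2 ≤ δ * δ := by
              rw [← sq_abs, pow_two]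
              exact mul_le_mul hθd hθd (abs_nonneg _) hδ.le
            have c2 : θ ^ 2 ≤ δ := by nlinarith
            have c3 : θ ^ 2 * |ν| ≤ δ * |ν| := mul_le_mul_of_nonneg_right c2 hν0.le
            have c4 : δ * |ν| ≤ δ * r * (2 * |ν| ^ 2) := by
              have : |ν| ≤ r * (2 * |ν| ^ 2) := by nlinarith
              nlinarith
            linarith
          have b3 : 3 * δ * r / |ν| + δ * r / |ν| = Δ := by rw [hΔ]; ring
          linarith
        rw [abs_le] at a2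
        rw [mem_Icc, Int.ceil_le, Int.le_floor]
        push_cast
        constructor <;> linarith
    · intro a _ b _ hab
      simp only [Sigma.mk.injEq, heq_eq_eq] at hab
      obtain ⟨h1, h2⟩ := hab
      omega
  have hSr : (S.card : ℝ) ≤ T.card := by exact_mod_cast hST
  refine le_trans hSr ?_
  rw [hT, card_sigma]
  push_cast
  have hfib : ∀ k : ℤ, ((Icc ⌈c k - Δ⌉ ⌊c k + Δ⌋).card : ℝ) ≤ 2 * Δ + 1 := by
    intro k
    rw [Int.card_Icc]
    have h1 := Int.le_ceil (c k - Δ)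
    have h2 := Int.floor_le (c k + Δ)
    rcases le_total 0 (⌊c k + Δ⌋ + 1 - ⌈c k - Δ⌉) with h | h
    · have h5 : (((⌊c k + Δ⌋ + 1 - ⌈c k - Δ⌉).toNat : ℕ) : ℝ) =
          ((⌊c k + Δ⌋ + 1 - ⌈c k - Δ⌉ : ℤ) : ℝ) := by
        rw [← Int.cast_natCast, Int.toNat_of_nonneg h]
      rw [h5]; push_cast; linarith
    · rw [Int.toNat_of_nonpos h]
      simp only [Nat.cast_zero]
      positivity
  have hI : ((Icc (-(K : ℤ)) K).card : ℝ) = 2 * K + 1 := by
    rw [Int.card_Icc]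
    have h2 : ((K : ℤ) + 1 - -(K : ℤ)).toNat = 2 * K + 1 := by omega
    rw [h2]; push_cast; ring
  rcases le_or_gt (1 / 16) Δ with hΔ2 | hΔ2
  · calc ∑ k ∈ Icc (-(K : ℤ)) K, ((Icc ⌈c k - Δ⌉ ⌊c k + Δ⌋).card : ℝ)
        ≤ ∑ _k ∈ Icc (-(K : ℤ)) K, 18 * Δ := Finset.sum_le_sum fun k _ => by
          linarith [hfib k]
      _ = (2 * K + 1) * (18 * Δ) := by rw [Finset.sum_const, nsmul_eq_mul, hI]
      _ ≤ (11 * (|ν| * r)) * (18 * Δ) := by
          apply mul_le_mul_of_nonneg_right _ (by positivity)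
          linarith
      _ = 792 * (δ * M) := by rw [hΔ, ← hr2]; field_simp; ring
      _ ≤ _ := by nlinarith
  · set L : ℕ := ⌊1 / (8 * Δ)⌋₊ with hLdef
    have hL2 : 2 ≤ 1 / (8 * Δ) := by
      rw [le_div_iff₀ (by positivity)]; linarith
    have hL1 : 1 ≤ L := Nat.le_floor (by push_cast; linarith)
    have hLr : (1 : ℝ) ≤ L := by exact_mod_cast hL1
    have hLle : (L : ℝ) ≤ 1 / (8 * Δ) := Nat.floor_le (by positivity)
    have hLge : 1 / (16 * Δ) ≤ L := by
      have h1 := Nat.lt_floor_add_one (1 / (8 * Δ))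
      rw [← hLdef] at h1
      have h2 : 1 / (16 * Δ) = 1 / (8 * Δ) / 2 := by
        field_simp; norm_num
      rw [h2]
      linarith
    have hΔL : Δ ≤ 1 / (8 * L) := by
      rw [le_div_iff₀ (by positivity)]
      rw [le_div_iff₀ (by positivity)] at hLle
      linarith
    have hfib2 : ∀ k ∈ Icc (-(K : ℤ)) K, ((Icc ⌈c k - Δ⌉ ⌊c k + Δ⌋).card : ℝ) ≤
        if nd (c k) ≤ 1 / (8 * L) then 1 else 0 := by
      intro k _
      split_ifs with h
      · have h1 : (Icc ⌈c k - Δ⌉ ⌊c k + Δ⌋).card ≤ 1 := by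
          have := hfib k
          have h2 : ((Icc ⌈c k - Δ⌉ ⌊c k + Δ⌋).card : ℝ) < 2 := by linarith
          have h3 : (Icc ⌈c k - Δ⌉ ⌊c k + Δ⌋).card < 2 := by exact_mod_cast h2
          omega
        exact_mod_cast h1
      · have h1 : (Icc ⌈c k - Δ⌉ ⌊c k + Δ⌋) = ∅ := by
          rw [Finset.eq_empty_iff_forall_notMem]
          intro z hz
          rw [mem_Icc, Int.ceil_le, Int.le_floor] at hz
          apply h
          unfold nd
          refine le_trans (round_le (c k) z) (le_trans ?_ hΔL)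
          rw [abs_le]
          constructor <;> linarith [hz.1, hz.2]
        rw [h1]; simp
    refine le_trans (Finset.sum_le_sum hfib2) ?_
    rw [← Finset.sum_filter, Finset.sum_const, nsmul_eq_mul, mul_one]
    have h1 := count_parabola (K := K) (L := L) (J := J) (D := D) (r := r) hL1 (ν ^ 2 / 2) hν1 hr hK hJ hD1 (by
      intro w hw1 hw2
      apply hD w hw1
      have b1 : (w : ℝ) ≤ L * (2 * K) := by exact_mod_cast hw2
      refine le_trans b1 ?_
      calc (L : ℝ) * (2 * K) ≤ 1 / (8 * Δ) * (2 * (5 * (|ν| * r))) := by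
            apply mul_le_mul hLle _ (by positivity) (by positivity)
            linarith
        _ = 10 / 32 * (ν ^ 2 / δ) := by
            rw [hΔ, ← hν2]; field_simp; norm_num
        _ ≤ ν ^ 2 / δ := by
            have : 0 ≤ ν ^ 2 / δ := by positivity
            linarith)
    refine le_trans h1 ?_
    apply add_le_add _ le_rfl
    rw [div_le_iff₀ (by positivity)]
    have h2 : 1 ≤ 16 * Δ * L := by
      rw [div_le_iff₀ (by positivity)] at hLge
      linarith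
    have h3 : 22 * (|ν| * r) ≤ 22 * (|ν| * r) * (16 * Δ * L) := by
      have : 0 ≤ 22 * (|ν| * r) := by positivity
      nlinarith
    have h4 : 22 * (|ν| * r) * (16 * Δ * L) = 1408 * (δ * M) * L := by
      rw [hΔ, ← hr2]; field_simp; ring
    rw [h4] at h3
    have h5 : 0 ≤ δ * M * L := by positivity
    nlinarith

/-- Dyadic decomposition of the weight. -/
theorem mm_dyadic {x lam : ℝ} (hx : 0 < x) (N : ℕ) (h : |lam| ≤ 2 ^ (N + 1) / x) :
    mm x lam ≤ ∑ j ∈ range (N + 1), x / 2 ^ j * (if |lam| ≤ 2 ^ (j + 1) / x then 1 else 0) := by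
  induction N with
  | zero =>
    rw [zero_add, Finset.sum_range_one, if_pos (by simpa using h)]
    simpa using mm_le_left hx lam
  | succ N ih =>
    rw [Finset.sum_range_succ]
    by_cases hc : |lam| ≤ 2 ^ (N + 1) / x
    · have h1 := ih hc
      have h2 : 0 ≤ x / 2 ^ (N + 1) * (if |lam| ≤ 2 ^ (N + 1 + 1) / x then (1 : ℝ) else 0) := by
        split_ifs <;> positivity
      linarith
    · push Not at hc
      rw [if_pos h, mul_one]
      have h1 : 0 < |lam| := lt_trans (by positivity) hc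
      have h2 : mm x lam ≤ 1 / |lam| := mm_le_inv (abs_pos.mp h1)
      have h3 : 1 / |lam| ≤ x / 2 ^ (N + 1) := by
        rw [div_lt_iff₀ hx] at hc
        rw [div_le_div_iff₀ h1 (by positivity)]
        linarith
      have h4 : 0 ≤ ∑ j ∈ range (N + 1), x / 2 ^ j * (if |lam| ≤ 2 ^ (j + 1) / x then (1 : ℝ) else 0) :=
        Finset.sum_nonneg fun j _ => by split_ifs <;> positivity
      linarith

/-- The contribution of a dyadic block, through Weyl sums. -/
theorem block_weyl {M J N : ℕ} {x ν V s D : ℝ} (hx : 0 < x) (hV : 1 ≤ V) (hM : 1 ≤ M)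
    (hν1 : 1 ≤ |ν|) (hr : 2 * |ν| ≤ √(M : ℝ)) (hs : √(M : ℝ) ≤ s) (hN : x ≤ 2 ^ N)
    (hJ : ν ^ 2 ≤ J) (hD1 : 1 ≤ D)
    (hD : ∀ w : ℕ, 1 ≤ w → (w : ℝ) ≤ ν ^ 2 * x → ((Nat.divisors w).card : ℝ) ≤ D) :
    ∑ n ∈ Ioc M (2 * M), 1 / √(n : ℝ) * mm x (nd ((√(n : ℝ) + ν) ^ 2) / V) ≤
      3000 * ((N + 1) * (V * s)) + 192 * (x * √(D * Run7.h770.hs J)) := by
  classical
  have hMr : (1 : ℝ) ≤ M := by exact_mod_cast hM
  have hM0 : (0 : ℝ) < M := by linarith
  set r := √(M : ℝ) with hrdef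
  have hr0 : 0 < r := by linarith
  have hr2 : r ^ 2 = M := Real.sq_sqrt hM0.le
  have hV0 : 0 < V := by linarith
  set E := √(D * Run7.h770.hs J) with hE
  have hE0 : 0 ≤ E := Real.sqrt_nonneg _
  have h1 : ∀ n ∈ Ioc M (2 * M), 1 / √(n : ℝ) * mm x (nd ((√(n : ℝ) + ν) ^ 2) / V) ≤
      1 / r * mm x (nd (2 * ν * √(n : ℝ) + ν ^ 2) / V) := by
    intro n hn
    rw [mem_Ioc] at hn
    have h2 : r ≤ √(n : ℝ) := Real.sqrt_le_sqrt (by exact_mod_cast hn.1.le)
    have h4 : (√(n : ℝ) + ν) ^ 2 = n + (2 * ν * √(n : ℝ) + ν ^ 2) := by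
      have a1 : √(n : ℝ) ^ 2 = n := Real.sq_sqrt (Nat.cast_nonneg _)
      nlinarith
    rw [h4, nd_nat_add]
    apply mul_le_mul_of_nonneg_right _ (mm_nonneg hx _)
    exact one_div_le_one_div_of_le hr0 h2
  refine le_trans (Finset.sum_le_sum h1) ?_
  rw [← Finset.mul_sum]
  have h2 : ∀ n ∈ Ioc M (2 * M), mm x (nd (2 * ν * √(n : ℝ) + ν ^ 2) / V) ≤
      ∑ j ∈ range (N + 1), x / 2 ^ j *
        (if nd (2 * ν * √(n : ℝ) + ν ^ 2) ≤ V * (2 ^ (j + 1) / x) then 1 else 0) := by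
    intro n _
    have h3 := nd_nonneg (2 * ν * √(n : ℝ) + ν ^ 2)
    have h4 : |nd (2 * ν * √(n : ℝ) + ν ^ 2) / V| = nd (2 * ν * √(n : ℝ) + ν ^ 2) / V :=
      abs_of_nonneg (by positivity)
    refine le_trans (mm_dyadic hx N ?_) (le_of_eq ?_)
    · rw [h4]
      calc nd (2 * ν * √(n : ℝ) + ν ^ 2) / V ≤ nd (2 * ν * √(n : ℝ) + ν ^ 2) := div_le_self h3 hV
        _ ≤ 1 := by linarith [nd_le_half (2 * ν * √(n : ℝ) + ν ^ 2)]
        _ ≤ 2 ^ (N + 1) / x := by
            rw [le_div_iff₀ hx, pow_succ]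
            have : (0 : ℝ) < 2 ^ N := by positivity
            linarith
    · refine Finset.sum_congr rfl fun j _ => ?_
      rw [h4]
      congr 2
      apply propext
      rw [div_le_iff₀ hV0, mul_comm V]
  have h3 : ∑ n ∈ Ioc M (2 * M), mm x (nd (2 * ν * √(n : ℝ) + ν ^ 2) / V) ≤
      ∑ j ∈ range (N + 1), x / 2 ^ j * (1500 * (V * (2 ^ (j + 1) / x) * M) + 96 * (E * r)) := by
    refine le_trans (Finset.sum_le_sum h2) ?_
    rw [Finset.sum_comm]
    refine Finset.sum_le_sum fun j _ => ?_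
    rw [← Finset.mul_sum]
    apply mul_le_mul_of_nonneg_left _ (by positivity)
    rw [← Finset.sum_filter, Finset.sum_const, nsmul_eq_mul, mul_one]
    apply count_curve hM (by positivity) hν1 hr hJ hD1
    intro w hw1 hw2
    apply hD w hw1
    refine le_trans hw2 ?_
    rw [div_le_iff₀ (by positivity)]
    have h5 : ν ^ 2 * x * (V * (2 ^ (j + 1) / x)) = ν ^ 2 * (V * 2 ^ (j + 1)) := by
      field_simp
    rw [h5]
    have h6 : (1 : ℝ) ≤ 2 ^ (j + 1) := one_le_pow₀ (by norm_num)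
    have h7 : 1 ≤ V * 2 ^ (j + 1) := by nlinarith
    nlinarith [sq_nonneg ν]
  have h4 : ∑ j ∈ range (N + 1), x / 2 ^ j * (1500 * (V * (2 ^ (j + 1) / x) * M) + 96 * (E * r)) ≤
      3000 * ((N + 1) * (V * M)) + 192 * (x * (E * r)) := by
    have h5 : ∀ j ∈ range (N + 1), x / 2 ^ j * (1500 * (V * (2 ^ (j + 1) / x) * M) + 96 * (E * r)) =
        3000 * (V * M) + 96 * (x * (E * r)) * (1 / 2) ^ j := by
      intro j _
      rw [one_div_pow, pow_succ]
      field_simp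
      ring
    rw [Finset.sum_congr rfl h5, Finset.sum_add_distrib, Finset.sum_const, card_range, nsmul_eq_mul,
      ← Finset.mul_sum]
    have h6 : ∑ j ∈ range (N + 1), (1 / 2 : ℝ) ^ j ≤ 2 := sum_geometric_two_le _
    have h7 : 0 ≤ 96 * (x * (E * r)) := by positivity
    push_cast
    nlinarith
  calc 1 / r * _ ≤ 1 / r * (3000 * ((N + 1) * (V * M)) + 192 * (x * (E * r))) :=
        mul_le_mul_of_nonneg_left (le_trans h3 h4) (by positivity)
    _ = 3000 * ((N + 1) * (V * r)) + 192 * (x * E) := by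
        rw [← hr2]; field_simp
    _ ≤ _ := by
        apply add_le_add _ le_rfl
        apply mul_le_mul_of_nonneg_left _ (by norm_num)
        apply mul_le_mul_of_nonneg_left _ (by positivity)
        exact mul_le_mul_of_nonneg_left hs hV0.le

end Run7.h770
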