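import Mathlib
import Pool.Agent.Run7.h770.Weyl2

/-!
# Near coincidences: the weighted double sum over large `n`
-/

set_option autoImplicit false

open Finset

namespace Run7.h770

/-- The double sum over near coincidences, high part. -/
noncomputable def IIh (M₀ X : ℕ) (x ν : ℝ) : ℝ :=
  ∑ n ∈ Ioc M₀ X, ∑ n' ∈ Ioc M₀ X, ww n * ww n' * mm x (√(n : ℝ) - √(n' : ℝ) + ν)

/-- One half of it. -/
noncomputable def I1h (M₀ X : ℕ) (x ν : ℝ) : ℝ :=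
  ∑ n ∈ Ioc M₀ X, 1 / √(n : ℝ) * ∑ n' ∈ Icc 1 X, mm x (√(n : ℝ) + ν - √(n' : ℝ))

theorem Ioc_subset_Icc_one (M₀ X : ℕ) : Ioc M₀ X ⊆ Icc 1 X := by
  intro n hn
  rw [mem_Ioc] at hn
  rw [mem_Icc]
  omega

theorem IIh_le {x : ℝ} (hx : 0 < x) (M₀ X : ℕ) (ν : ℝ) :
    IIh M₀ X x ν ≤ (I1h M₀ X x ν + I1h M₀ X x (-ν)) / 2 := by
  have h1 : IIh M₀ X x ν ≤ ∑ n ∈ Ioc M₀ X, ∑ n' ∈ Ioc M₀ X, (1 / √(n : ℝ) + 1 / √(n' : ℝ)) / 2 *
      mm x (√(n : ℝ) - √(n' : ℝ) + ν) := by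
    refine Finset.sum_le_sum fun n _ => Finset.sum_le_sum fun n' _ => ?_
    exact mul_le_mul_of_nonneg_right (ww_mul_le n n') (mm_nonneg hx _)
  refine le_trans h1 ?_
  have h2 : ∑ n ∈ Ioc M₀ X, ∑ n' ∈ Ioc M₀ X, (1 / √(n : ℝ) + 1 / √(n' : ℝ)) / 2 *
      mm x (√(n : ℝ) - √(n' : ℝ) + ν) =
      (∑ n ∈ Ioc M₀ X, ∑ n' ∈ Ioc M₀ X, 1 / √(n : ℝ) * mm x (√(n : ℝ) + ν - √(n' : ℝ)) +
      ∑ n ∈ Ioc M₀ X, ∑ n' ∈ Ioc M₀ X, 1 / √(n' : ℝ) * mm x (√(n' : ℝ) + -ν - √(n : ℝ))) / 2 := by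
    rw [← Finset.sum_add_distrib, Finset.sum_div]
    refine Finset.sum_congr rfl fun n _ => ?_
    rw [← Finset.sum_add_distrib, Finset.sum_div]
    refine Finset.sum_congr rfl fun n' _ => ?_
    have e1 : √(n : ℝ) - √(n' : ℝ) + ν = √(n : ℝ) + ν - √(n' : ℝ) := by ring
    have e2 : √(n' : ℝ) + -ν - √(n : ℝ) = -(√(n : ℝ) + ν - √(n' : ℝ)) := by ring
    rw [e1, e2, mm_neg]
    ring
  rw [h2]
  have h3 : ∀ ν' : ℝ, ∑ n ∈ Ioc M₀ X, ∑ n' ∈ Ioc M₀ X, 1 / √(n : ℝ) * mm x (√(n : ℝ) + ν' - √(n' : ℝ)) ≤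
      I1h M₀ X x ν' := by
    intro ν'
    unfold I1h
    refine Finset.sum_le_sum fun n _ => ?_
    rw [← Finset.mul_sum]
    apply mul_le_mul_of_nonneg_left _ (by positivity)
    exact Finset.sum_le_sum_of_subset_of_nonneg (Ioc_subset_Icc_one M₀ X) fun _ _ _ => mm_nonneg hx _
  have h4 : ∑ n ∈ Ioc M₀ X, ∑ n' ∈ Ioc M₀ X, 1 / √(n' : ℝ) * mm x (√(n' : ℝ) + -ν - √(n : ℝ)) ≤
      I1h M₀ X x (-ν) := by
    rw [Finset.sum_comm]
    exact h3 (-ν)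
  linarith [h3 ν]

theorem I1h_le_I1 {x : ℝ} (hx : 0 < x) (M₀ X : ℕ) (ν : ℝ) : I1h M₀ X x ν ≤ I1 X x ν := by
  unfold I1h I1
  exact Finset.sum_le_sum_of_subset_of_nonneg (Ioc_subset_Icc_one M₀ X) fun _ _ _ =>
    mul_nonneg (by positivity) (Finset.sum_nonneg fun _ _ => mm_nonneg hx _)

theorem dyadic_sum_from (a : ℕ → ℝ) (M T : ℕ) :
    ∑ n ∈ Ioc M (2 ^ T * M), a n =
      ∑ i ∈ range T, ∑ n ∈ Ioc (2 ^ i * M) (2 * (2 ^ i * M)), a n := by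
  induction T with
  | zero => simp
  | succ T ih =>
    rw [Finset.sum_range_succ, ← ih]
    have h0 : M ≤ 2 ^ T * M := Nat.le_mul_of_pos_left _ (by positivity)
    have h1 : Ioc M (2 ^ (T + 1) * M) = Ioc M (2 ^ T * M) ∪ Ioc (2 ^ T * M) (2 * (2 ^ T * M)) := by
      have h2 : 2 ^ (T + 1) * M = 2 * (2 ^ T * M) := by rw [pow_succ]; ring
      rw [h2]
      ext n
      rw [mem_union, mem_Ioc, mem_Ioc, mem_Ioc]
      omega
    rw [h1, Finset.sum_union]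
    rw [Finset.disjoint_left]
    intro n hn hn'
    rw [mem_Ioc] at hn hn'
    omega

/-- The bound for `|ν| ≥ 1`, through Weyl sums. -/
theorem I1h_le {M₀ X J T N : ℕ} {x ν V D : ℝ} (hx : 0 < x) (hM₀ : 1 ≤ M₀) (hX : 1 ≤ X)
    (hν1 : 1 ≤ |ν|) (hr : 2 * |ν| ≤ √(M₀ : ℝ)) (hV : 2 * √(X : ℝ) + |ν| ≤ V) (hJ : V ^ 2 + 1 ≤ J)
    (hT : X ≤ 2 ^ T * M₀) (hT2 : 2 ^ T * M₀ ≤ 2 * X) (hN : x ≤ 2 ^ N) (hD1 : 1 ≤ D)
    (hD : ∀ w : ℕ, 1 ≤ w → (w : ℝ) ≤ ν ^ 2 * x → ((Nat.divisors w).card : ℝ) ≤ D) :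
    I1h M₀ X x ν ≤ 8 * V * √(X : ℝ) * hs J +
      T * (3000 * ((N + 1) * (V * √(X : ℝ))) + 192 * (x * √(D * hs J))) := by
  have hh := hs_nonneg J
  have hXr : (1 : ℝ) ≤ X := by exact_mod_cast hX
  have hsX : 1 ≤ √(X : ℝ) := by rw [Real.le_sqrt' one_pos]; simpa using hXr
  have hν0 : 0 < |ν| := by linarith
  have hV1 : 1 ≤ V := by linarith
  have hνJ : ν ^ 2 ≤ J := by
    have h1 : |ν| ≤ V := by linarith
    have h2 : ν ^ 2 ≤ V ^ 2 := by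
      rw [← sq_abs ν]; exact pow_le_pow_left₀ hν0.le h1 2
    linarith
  set a : ℕ → ℝ := fun n => 1 / √(n : ℝ) * mm x (nd ((√(n : ℝ) + ν) ^ 2) / V) with ha
  have ha0 : ∀ n, 0 ≤ a n := fun n => mul_nonneg (by positivity) (mm_nonneg hx _)
  have h1 : ∀ n ∈ Ioc M₀ X, 1 / √(n : ℝ) * ∑ n' ∈ Icc 1 X, mm x (√(n : ℝ) + ν - √(n' : ℝ)) ≤
      1 / √(n : ℝ) * (4 * V * hs J) + a n := by
    intro n hn
    rw [mem_Ioc] at hn
    have h2 : √(n : ℝ) ≤ √(X : ℝ) := Real.sqrt_le_sqrt (by exact_mod_cast hn.2)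
    rw [ha]
    simp only
    rw [← mul_add]
    apply mul_le_mul_of_nonneg_left _ (by positivity)
    apply inner_sum X J hx hX (V := V) _ hJ
    have := abs_add_le (√(n : ℝ)) ν
    rw [abs_of_nonneg (Real.sqrt_nonneg _)] at this
    linarith
  have h2 : ∑ n ∈ Ioc M₀ X, a n ≤
      T * (3000 * ((N + 1) * (V * √(X : ℝ))) + 192 * (x * √(D * hs J))) := by
    calc ∑ n ∈ Ioc M₀ X, a n ≤ ∑ n ∈ Ioc M₀ (2 ^ T * M₀), a n :=
          Finset.sum_le_sum_of_subset_of_nonneg (Finset.Ioc_subset_Ioc_right hT) fun n _ _ => ha0 n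
      _ = ∑ i ∈ range T, ∑ n ∈ Ioc (2 ^ i * M₀) (2 * (2 ^ i * M₀)), a n := dyadic_sum_from a M₀ T
      _ ≤ ∑ _i ∈ range T, (3000 * ((N + 1) * (V * √(X : ℝ))) + 192 * (x * √(D * hs J))) := by
          refine Finset.sum_le_sum fun i hi => ?_
          rw [mem_range] at hi
          have h0 : M₀ ≤ 2 ^ i * M₀ := Nat.le_mul_of_pos_left _ (by positivity)
          have h3 : 2 ^ i * M₀ ≤ X := by
            have h4 : 2 ^ (i + 1) ≤ 2 ^ T := Nat.pow_le_pow_right (by norm_num) hi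
            have h5 : 2 ^ (i + 1) * M₀ ≤ 2 ^ T * M₀ := Nat.mul_le_mul_right _ h4
            rw [pow_succ] at h5
            have h6 : 2 ^ i * 2 * M₀ = 2 * (2 ^ i * M₀) := by ring
            rw [h6] at h5
            omega
          have h5 : √((2 ^ i * M₀ : ℕ) : ℝ) ≤ √(X : ℝ) := Real.sqrt_le_sqrt (by exact_mod_cast h3)
          have h6 : √(M₀ : ℝ) ≤ √((2 ^ i * M₀ : ℕ) : ℝ) := Real.sqrt_le_sqrt (by exact_mod_cast h0)
          exact block_weyl hx hV1 (le_trans hM₀ h0) hν1 (by linarith) h5 hN hνJ hD1 hD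
      _ = _ := by rw [Finset.sum_const, card_range, nsmul_eq_mul]
  have h3 : I1h M₀ X x ν ≤ (∑ n ∈ Ioc M₀ X, 1 / √(n : ℝ)) * (4 * V * hs J) +
      ∑ n ∈ Ioc M₀ X, a n := by
    rw [Finset.sum_mul, ← Finset.sum_add_distrib]
    exact Finset.sum_le_sum h1
  have h4 : (∑ n ∈ Ioc M₀ X, 1 / √(n : ℝ)) * (4 * V * hs J) ≤ (2 * √(X : ℝ)) * (4 * V * hs J) := by
    apply mul_le_mul_of_nonneg_right _ (by positivity)
    refine le_trans ?_ (sum_inv_sqrt_le X)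
    exact Finset.sum_le_sum_of_subset_of_nonneg (Ioc_subset_Icc_one M₀ X) fun _ _ _ => by positivity
  nlinarith

theorem exists_dyadic {M X : ℕ} (hM : 1 ≤ M) (hMX : M ≤ X) :
    ∃ T : ℕ, X ≤ 2 ^ T * M ∧ 2 ^ T * M ≤ 2 * X := by
  have hex : ∃ T : ℕ, X ≤ 2 ^ T * M := by
    refine ⟨X, ?_⟩
    have h1 : X < 2 ^ X := Nat.lt_two_pow_self
    calc X ≤ 2 ^ X := h1.le
      _ ≤ 2 ^ X * M := Nat.le_mul_of_pos_right _ hM
  classical
  refine ⟨Nat.find hex, Nat.find_spec hex, ?_⟩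
  rcases Nat.eq_zero_or_pos (Nat.find hex) with h | h
  · rw [h, pow_zero]; omega
  · have h1 := Nat.find_min hex (m := Nat.find hex - 1) (by omega)
    push Not at h1
    have h2 : 2 ^ (Nat.find hex) = 2 * 2 ^ (Nat.find hex - 1) := by
      rw [← pow_succ']; congr 1; omega
    rw [h2]
    nlinarith

/-- **The bound for all `ν ≠ 0`.** -/
theorem IIh_bound {M₀ X J T L : ℕ} {x ν D W V : ℝ} (hx : 0 < x) (hM₀ : 1 ≤ M₀) (hX : 1 ≤ X)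
    (hν : 1 ≤ |ν| * W) (hW : 0 < W)
    (hr : 2 * |ν| ≤ √(M₀ : ℝ)) (hV : 2 * √(X : ℝ) + |ν| ≤ V) (hJ : V ^ 2 + 1 ≤ J)
    (hJ2 : W * √(X : ℝ) ≤ J)
    (hT : X ≤ 2 ^ T * M₀) (hT2 : 2 ^ T * M₀ ≤ 2 * X)
    (hL : X ≤ 2 ^ L) (hL2 : 2 ^ L ≤ 2 * X) (hN : x ≤ 2 ^ L) (hD1 : 1 ≤ D)
    (hD : ∀ w : ℕ, 1 ≤ w → (w : ℝ) ≤ ν ^ 2 * x → ((Nat.divisors w).card : ℝ) ≤ D) :
    IIh M₀ X x ν ≤ 8 * V * √(X : ℝ) * hs J +
      T * (3000 * ((L + 1) * (V * √(X : ℝ))) + 192 * (x * √(D * hs J))) +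
      (L + 1) * (8 * V * √(X : ℝ) * hs J + 8 * x + 8 * V * hs J * W) := by
  have hh := hs_nonneg J
  have hXr : (1 : ℝ) ≤ X := by exact_mod_cast hX
  have hsX : 1 ≤ √(X : ℝ) := by rw [Real.le_sqrt' one_pos]; simpa using hXr
  have hν0 : 0 < |ν| := by
    rcases (abs_nonneg ν).lt_or_eq with h | h
    · exact h
    · rw [← h, zero_mul] at hν; linarith
  have hV0 : 0 < V := by linarith
  have hA0 : 0 ≤ 8 * V * √(X : ℝ) * hs J +
      T * (3000 * ((L + 1) * (V * √(X : ℝ))) + 192 * (x * √(D * hs J))) := by positivity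
  have hB0 : 0 ≤ ((L : ℝ) + 1) * (8 * V * √(X : ℝ) * hs J + 8 * x + 8 * V * hs J * W) := by
    positivity
  have key : ∀ ν' : ℝ, |ν'| = |ν| → I1h M₀ X x ν' ≤ 8 * V * √(X : ℝ) * hs J +
      T * (3000 * ((L + 1) * (V * √(X : ℝ))) + 192 * (x * √(D * hs J))) +
      (L + 1) * (8 * V * √(X : ℝ) * hs J + 8 * x + 8 * V * hs J * W) := by
    intro ν' hν'
    have hsq : ν' ^ 2 = ν ^ 2 := by rw [← sq_abs ν', hν', sq_abs]
    rcases le_or_gt 1 |ν'| with h | h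
    · have h1 := I1h_le (M₀ := M₀) (X := X) (J := J) (T := T) (N := L) (V := V) (D := D) hx hM₀ hX h
        (by rw [hν']; exact hr) (by rw [hν']; exact hV) hJ hT hT2 hN hD1
        (by rw [hsq]; exact hD)
      linarith
    · have hν'0 : ν' ≠ 0 := by
        intro h0; rw [h0, abs_zero] at hν'; linarith
      have hW1 : 1 / |ν'| ≤ W := by
        rw [hν', div_le_iff₀ hν0]; linarith
      have h1 := I1_le (X := X) (J := J) (L := L) (V := V) hx hX hν'0 (by rw [hν']; exact hV) hJ (by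
        rw [hν']
        have : √(X : ℝ) ≤ |ν| * W * √(X : ℝ) := by nlinarith
        nlinarith) hL hL2
      have h2 := I1h_le_I1 hx M₀ X ν'
      have h3 : ((L : ℝ) + 1) * (8 * V * √(X : ℝ) * hs J + 4 * (1 + |ν'|) * x + 8 * V * hs J / |ν'|) ≤
          (L + 1) * (8 * V * √(X : ℝ) * hs J + 8 * x + 8 * V * hs J * W) := by
        apply mul_le_mul_of_nonneg_left _ (by positivity)
        have a1 : 4 * (1 + |ν'|) * x ≤ 8 * x := by nlinarith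
        have a2 : 8 * V * hs J / |ν'| ≤ 8 * V * hs J * W := by
          rw [div_eq_mul_one_div]
          exact mul_le_mul_of_nonneg_left hW1 (by positivity)
        linarith
      linarith
  have h1 := key ν rfl
  have h2 := key (-ν) (abs_neg ν)
  have h3 := IIh_le hx M₀ X ν
  linarith

/-- The bound for `ν = 0`. -/
theorem IIh_zero {M₀ X J : ℕ} {x V : ℝ} (hx : 0 < x) (hX : 1 ≤ X)
    (hV : 2 * √(X : ℝ) ≤ V) (hJ : V ^ 2 + 1 ≤ J) :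
    IIh M₀ X x 0 ≤ 8 * V * √(X : ℝ) * hs J + 2 * √(X : ℝ) * x := by
  have h1 := I1_le_trivial (X := X) (J := J) (ν := 0) (V := V) hx hX (by simpa using hV) hJ
  have h2 := I1h_le_I1 hx M₀ X 0
  have h3 := IIh_le hx M₀ X 0
  rw [neg_zero] at h3
  linarith

end Run7.h770
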