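import Mathlib
import Pool.Agent.Run7.h770.Mixed2
import Pool.Agent.Run7.h770.Near3

/-!
# The mixed moment with the low frequencies removed
-/

set_option autoImplicit false

open Finset MeasureTheory

namespace Run7.h770

/-- The lattice frequencies of norm squared greater than `M₀`. -/
noncomputable def XXh (s H M₀ : ℕ) : Finset (ℤ × ℤ) := (XX s H).filter (fun ξ => M₀ < nn ξ)

/-- The high-frequency part of the lattice exponential sum. -/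
noncomputable def GGh (s H M₀ : ℕ) (R : ℝ) : ℂ :=
  ∑ ξ ∈ XXh s H M₀, (cc s H ξ : ℂ) * (ww (nn ξ) : ℂ) * e (R * √(nn ξ : ℝ))

theorem sum_ww_le (M : ℕ) : ∑ n ∈ Icc 1 M, ww n ≤ √(2 * (M * √(M : ℝ))) := by
  have h1 : (∑ n ∈ Icc 1 M, ww n) ^ 2 ≤ (Icc 1 M).card * ∑ n ∈ Icc 1 M, ww n ^ 2 :=
    sq_sum_le_card_mul_sum_sq
  have h2 : ∑ n ∈ Icc 1 M, ww n ^ 2 ≤ 2 * √(M : ℝ) := by
    refine le_trans (le_of_eq ?_) (sum_inv_sqrt_le M)
    refine Finset.sum_congr rfl fun n _ => ?_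
    rw [ww, div_pow, one_pow, Real.sq_sqrt (Real.sqrt_nonneg _)]
  rw [Nat.card_Icc, Nat.add_sub_cancel] at h1
  apply Real.le_sqrt_of_sq_le
  refine le_trans h1 ?_
  calc (M : ℝ) * ∑ n ∈ Icc 1 M, ww n ^ 2 ≤ M * (2 * √(M : ℝ)) :=
        mul_le_mul_of_nonneg_left h2 (Nat.cast_nonneg _)
    _ = _ := by ring

/-- The low part is small. -/
theorem low_le {s H X M₀ : ℕ} {B : ℝ} (hB0 : 0 ≤ B) (hX : 2 * ((s + 1) * H) ^ 2 ≤ X)
    (hB : ∀ n : ℕ, 1 ≤ n → n ≤ X → (((XX s H).filter (fun ξ => nn ξ = n)).card : ℝ) ≤ B) (R : ℝ) :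
    ‖GGs s H R - GGh s H M₀ R‖ ≤ (H : ℝ) ^ (4 * s + 2) * (B * √(2 * (M₀ * √(M₀ : ℝ)))) := by
  classical
  have h1 : GGs s H R - GGh s H M₀ R = ∑ ξ ∈ (XX s H).filter (fun ξ => ¬ M₀ < nn ξ),
      (cc s H ξ : ℂ) * (ww (nn ξ) : ℂ) * e (R * √(nn ξ : ℝ)) := by
    rw [GGs, GGh, XXh, ← Finset.sum_filter_add_sum_filter_not (XX s H) (fun ξ => M₀ < nn ξ)]
    ring
  rw [h1]
  have h2 : ∀ ξ ∈ (XX s H).filter (fun ξ => ¬ M₀ < nn ξ),
      ‖(cc s H ξ : ℂ) * (ww (nn ξ) : ℂ) * e (R * √(nn ξ : ℝ))‖ ≤ (H : ℝ) ^ (4 * s + 2) * ww (nn ξ) := by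
    intro ξ _
    rw [norm_mul, norm_mul, norm_e, mul_one, Complex.norm_natCast,
      Complex.norm_real, Real.norm_of_nonneg (ww_nonneg _)]
    have h3 : cc s H ξ ≤ H ^ (2 * s + 1) * H ^ (2 * s + 1) :=
      Nat.mul_le_mul (cK_le s H _) (cK_le s H _)
    have h4 : H ^ (2 * s + 1) * H ^ (2 * s + 1) = H ^ (4 * s + 2) := by
      rw [← pow_add]; congr 1; ring
    rw [h4] at h3
    exact mul_le_mul_of_nonneg_right (by exact_mod_cast h3) (ww_nonneg _)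
  refine le_trans (norm_sum_le _ _) (le_trans (Finset.sum_le_sum h2) ?_)
  rw [← Finset.mul_sum]
  apply mul_le_mul_of_nonneg_left _ (by positivity)
  have h3 : ∑ ξ ∈ (XX s H).filter (fun ξ => ¬ M₀ < nn ξ), ww (nn ξ) ≤
      B * ∑ n ∈ Icc 1 M₀, ww n := by
    have h4 : ∑ ξ ∈ (XX s H).filter (fun ξ => ¬ M₀ < nn ξ), ww (nn ξ) =
        ∑ ξ ∈ XX s H, (if nn ξ ≤ M₀ then ww (nn ξ) else 0) := by
      rw [Finset.sum_filter]
      refine Finset.sum_congr rfl fun ξ _ => ?_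
      by_cases h : nn ξ ≤ M₀
      · rw [if_pos h, if_pos (by omega)]
      · rw [if_neg h, if_neg (by omega)]
    rw [h4]
    refine le_trans (sum_XX_le hX hB (fun n => if n ≤ M₀ then ww n else 0)
      (fun n => by split_ifs; exacts [ww_nonneg n, le_rfl])) ?_
    apply mul_le_mul_of_nonneg_left _ hB0
    rw [← Finset.sum_filter]
    apply Finset.sum_le_sum_of_subset_of_nonneg
    · intro n hn
      rw [mem_filter, mem_Icc] at hn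
      rw [mem_Icc]
      omega
    · intro n _ _
      exact ww_nonneg n
  exact le_trans h3 (mul_le_mul_of_nonneg_left (sum_ww_le M₀) hB0)

theorem sum_XXh_le {s H M₀ X : ℕ} {B : ℝ} (hX : 2 * ((s + 1) * H) ^ 2 ≤ X)
    (hB : ∀ n : ℕ, 1 ≤ n → n ≤ X → (((XX s H).filter (fun ξ => nn ξ = n)).card : ℝ) ≤ B)
    (f : ℕ → ℝ) (hf : ∀ n, 0 ≤ f n) :
    ∑ ξ ∈ XXh s H M₀, f (nn ξ) ≤ B * ∑ n ∈ Ioc M₀ X, f n := by
  have h4 : ∑ ξ ∈ XXh s H M₀, f (nn ξ) =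
      ∑ ξ ∈ XX s H, (if M₀ < nn ξ then f (nn ξ) else 0) := by
    rw [XXh, Finset.sum_filter]
  rw [h4]
  refine le_trans (sum_XX_le hX hB (fun n => if M₀ < n then f n else 0)
    (fun n => by split_ifs; exacts [hf n, le_rfl])) (le_of_eq ?_)
  congr 1
  rw [← Finset.sum_filter]
  apply Finset.sum_congr _ fun _ _ => rfl
  ext n
  rw [mem_filter, mem_Icc, mem_Ioc]
  omega

theorem sum_sum_XXh_le {s H M₀ X : ℕ} {B : ℝ} (hB0 : 0 ≤ B) (hX : 2 * ((s + 1) * H) ^ 2 ≤ X)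
    (hB : ∀ n : ℕ, 1 ≤ n → n ≤ X → (((XX s H).filter (fun ξ => nn ξ = n)).card : ℝ) ≤ B)
    (F : ℕ → ℕ → ℝ) (hF : ∀ n m, 0 ≤ F n m) :
    ∑ ξ ∈ XXh s H M₀, ∑ η ∈ XXh s H M₀, F (nn ξ) (nn η) ≤
      B ^ 2 * ∑ n ∈ Ioc M₀ X, ∑ m ∈ Ioc M₀ X, F n m := by
  calc ∑ ξ ∈ XXh s H M₀, ∑ η ∈ XXh s H M₀, F (nn ξ) (nn η)
      ≤ ∑ ξ ∈ XXh s H M₀, B * ∑ m ∈ Ioc M₀ X, F (nn ξ) m :=
        Finset.sum_le_sum fun ξ _ => sum_XXh_le hX hB _ (fun m => hF _ m)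
    _ ≤ B * ∑ n ∈ Ioc M₀ X, B * ∑ m ∈ Ioc M₀ X, F n m :=
        sum_XXh_le hX hB (fun n => B * ∑ m ∈ Ioc M₀ X, F n m)
          (fun n => mul_nonneg hB0 (Finset.sum_nonneg fun m _ => hF n m))
    _ = B ^ 2 * ∑ n ∈ Ioc M₀ X, ∑ m ∈ Ioc M₀ X, F n m := by
        rw [← Finset.mul_sum]; ring

/-- The mean square of the product, high part. -/
theorem mixed_integral_h {s H k P M₀ X Z : ℕ} (hP : 0 < P) (hZ : 1 ≤ Z) {x B E0 E1 c σ : ℝ} (hx : 0 < x)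
    (hB0 : 0 ≤ B) (hE1 : 0 ≤ E1) (hX : 2 * ((s + 1) * H) ^ 2 ≤ X)
    (hB : ∀ n : ℕ, 1 ≤ n → n ≤ X → (((XX s H).filter (fun ξ => nn ξ = n)).card : ℝ) ≤ B)
    (h0 : IIh M₀ X x 0 ≤ E0)
    (h1 : ∀ ν : ℝ, 1 ≤ |ν| * (2 * ((k : ℝ) + 1) * P * √(Z : ℝ)) →
      |ν| ≤ 2 * ((k : ℝ) + 1) * P * √(Z : ℝ) → IIh M₀ X x ν ≤ E1) :
    ∫ R in x..(3 * x), ‖GGh s H M₀ R * FF k P (NN Z) c (R + σ)‖ ^ 2 ≤
      2 * B ^ 2 * ((H : ℝ) ^ (4 * s + 2) * (P : ℝ) ^ (2 * k + 1)) ^ 2 *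
      (((NN Z).card * (2 * ((k : ℝ) + 1) * P)) * E0 +
        ((NN Z).card * (2 * ((k : ℝ) + 1) * P)) ^ 2 * E1) := by
  classical
  set T : Finset (ℕ × ℤ) := NN Z ×ˢ Ier k P with hT
  set U : Finset ((ℤ × ℤ) × (ℕ × ℤ)) := XXh s H M₀ ×ˢ T with hU
  set A : (ℤ × ℤ) × (ℕ × ℤ) → ℂ := fun u => (cc s H u.1 : ℂ) * (ww (nn u.1) : ℂ) *
    ((cK k P u.2.2 : ℂ) * e (u.2.2 * (√(u.2.1 : ℝ) * σ - c))) with hA
  set φ : (ℤ × ℤ) × (ℕ × ℤ) → ℝ → ℝ := fun u R => R * (√(nn u.1 : ℝ) + u.2.2 * √(u.2.1 : ℝ)) with hφ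
  have hexp : ∀ R : ℝ, GGh s H M₀ R * FF k P (NN Z) c (R + σ) = ∑ u ∈ U, A u * e (φ u R) := by
    intro R
    have hF : FF k P (NN Z) c (R + σ) = ∑ a ∈ T, (cK k P a.2 : ℂ) *
        e (a.2 * (√(a.1 : ℝ) * (R + σ) - c)) := by
      rw [FF, hT, Finset.sum_product]
    rw [hF, GGh, Finset.sum_mul_sum, hU, Finset.sum_product]
    refine Finset.sum_congr rfl fun ξ _ => Finset.sum_congr rfl fun a _ => ?_
    rw [hA, hφ]
    simp only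
    have e1 : R * (√(nn ξ : ℝ) + (a.2 : ℝ) * √(a.1 : ℝ)) =
        R * √(nn ξ : ℝ) + R * ((a.2 : ℝ) * √(a.1 : ℝ)) := by ring
    have e2 : (a.2 : ℝ) * (√(a.1 : ℝ) * (R + σ) - c) =
        (a.2 : ℝ) * (√(a.1 : ℝ) * σ - c) + R * ((a.2 : ℝ) * √(a.1 : ℝ)) := by ring
    rw [e1, e2, e_add, e_add]
    ring
  simp_rw [hexp]
  refine le_trans (integral_normSq_le U A φ (by linarith)
    (fun u _ => by apply Continuous.continuousOn; rw [hφ]; fun_prop)) ?_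
  set C0 : ℝ := (H : ℝ) ^ (4 * s + 2) * (P : ℝ) ^ (2 * k + 1) with hC0
  have hAn : ∀ u, ‖A u‖ ≤ C0 * ww (nn u.1) := by
    intro u
    rw [hA]
    simp only
    rw [norm_mul, norm_mul, norm_mul, norm_e, mul_one, Complex.norm_natCast, Complex.norm_natCast,
      Complex.norm_real, Real.norm_of_nonneg (ww_nonneg _)]
    have h2 : (cc s H u.1 : ℝ) ≤ (H : ℝ) ^ (4 * s + 2) := by
      have h3 : cc s H u.1 ≤ H ^ (2 * s + 1) * H ^ (2 * s + 1) :=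
        Nat.mul_le_mul (cK_le s H _) (cK_le s H _)
      have h4 : H ^ (2 * s + 1) * H ^ (2 * s + 1) = H ^ (4 * s + 2) := by
        rw [← pow_add]; congr 1; ring
      rw [h4] at h3
      exact_mod_cast h3
    have h3 : (cK k P u.2.2 : ℝ) ≤ (P : ℝ) ^ (2 * k + 1) := by exact_mod_cast cK_le k P _
    calc (cc s H u.1 : ℝ) * ww (nn u.1) * (cK k P u.2.2 : ℝ) ≤
        (H : ℝ) ^ (4 * s + 2) * ww (nn u.1) * (P : ℝ) ^ (2 * k + 1) := by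
          apply mul_le_mul _ h3 (Nat.cast_nonneg _)
          · exact mul_nonneg (by positivity) (ww_nonneg _)
          · exact mul_le_mul_of_nonneg_right h2 (ww_nonneg _)
      _ = C0 * ww (nn u.1) := by rw [hC0]; ring
  have hC00 : 0 ≤ C0 := by rw [hC0]; positivity
  -- the bound for each pair
  have hpair : ∀ u ∈ U, ∀ v ∈ U, ‖A u‖ * ‖A v‖ * ‖∫ t in x..(3 * x), e (φ u t - φ v t)‖ ≤
      2 * C0 ^ 2 * (ww (nn u.1) * ww (nn v.1) * mm x (√(nn u.1 : ℝ) - √(nn v.1 : ℝ) +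
        (u.2.2 * √(u.2.1 : ℝ) - v.2.2 * √(v.2.1 : ℝ)))) := by
    intro u _ v _
    have h2 : ‖∫ t in x..(3 * x), e (φ u t - φ v t)‖ ≤ 2 * mm x (√(nn u.1 : ℝ) - √(nn v.1 : ℝ) +
        (u.2.2 * √(u.2.1 : ℝ) - v.2.2 * √(v.2.1 : ℝ))) := by
      have h3 : ∀ t : ℝ, φ u t - φ v t = t * (√(nn u.1 : ℝ) - √(nn v.1 : ℝ) +
        (u.2.2 * √(u.2.1 : ℝ) - v.2.2 * √(v.2.1 : ℝ))) := by
        intro t; rw [hφ]; ring
      simp_rw [h3]
      exact integral_linear x _ hx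
    calc ‖A u‖ * ‖A v‖ * ‖∫ t in x..(3 * x), e (φ u t - φ v t)‖ ≤
        (C0 * ww (nn u.1)) * (C0 * ww (nn v.1)) * (2 * mm x (√(nn u.1 : ℝ) - √(nn v.1 : ℝ) +
        (u.2.2 * √(u.2.1 : ℝ) - v.2.2 * √(v.2.1 : ℝ)))) := by
          apply mul_le_mul _ h2 (norm_nonneg _)
          · exact mul_nonneg (mul_nonneg hC00 (ww_nonneg _)) (mul_nonneg hC00 (ww_nonneg _))
          · exact mul_le_mul (hAn u) (hAn v) (norm_nonneg _) (mul_nonneg hC00 (ww_nonneg _))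
      _ = _ := by ring
  refine le_trans (Finset.sum_le_sum fun u hu => Finset.sum_le_sum fun v hv => hpair u hu v hv) ?_
  simp_rw [← Finset.mul_sum]
  -- rearrange
  have hre : ∑ u ∈ U, ∑ v ∈ U, (ww (nn u.1) * ww (nn v.1) * mm x (√(nn u.1 : ℝ) - √(nn v.1 : ℝ) +
        (u.2.2 * √(u.2.1 : ℝ) - v.2.2 * √(v.2.1 : ℝ)))) =
      ∑ a ∈ T, ∑ b ∈ T, ∑ ξ ∈ XXh s H M₀, ∑ η ∈ XXh s H M₀, (ww (nn ξ) * ww (nn η) *
        mm x (√(nn ξ : ℝ) - √(nn η : ℝ) + (a.2 * √(a.1 : ℝ) - b.2 * √(b.1 : ℝ)))) := by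
    rw [hU, Finset.sum_product_right]
    refine Finset.sum_congr rfl fun a _ => ?_
    rw [Finset.sum_comm]
    rw [Finset.sum_product_right]
    refine Finset.sum_congr rfl fun b _ => ?_
    rw [Finset.sum_comm]
  rw [hre]
  have hab : ∀ a ∈ T, ∀ b ∈ T, ∑ ξ ∈ XXh s H M₀, ∑ η ∈ XXh s H M₀, (ww (nn ξ) * ww (nn η) *
        mm x (√(nn ξ : ℝ) - √(nn η : ℝ) + (a.2 * √(a.1 : ℝ) - b.2 * √(b.1 : ℝ)))) ≤
      B ^ 2 * ((if a = b then E0 else 0) + E1) := by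
    intro a ha b hb
    refine le_trans (sum_sum_XXh_le hB0 hX hB (fun n m => ww n * ww m *
        mm x (√(n : ℝ) - √(m : ℝ) + (a.2 * √(a.1 : ℝ) - b.2 * √(b.1 : ℝ))))
        (fun n m => mul_nonneg (mul_nonneg (ww_nonneg _) (ww_nonneg _)) (mm_nonneg hx _))) ?_
    apply mul_le_mul_of_nonneg_left _ (by positivity)
    have hII : ∑ n ∈ Ioc M₀ X, ∑ m ∈ Ioc M₀ X, ww n * ww m *
        mm x (√(n : ℝ) - √(m : ℝ) + (a.2 * √(a.1 : ℝ) - b.2 * √(b.1 : ℝ))) =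
        IIh M₀ X x (a.2 * √(a.1 : ℝ) - b.2 * √(b.1 : ℝ)) := rfl
    rw [hII]
    by_cases hab : a = b
    · rw [if_pos hab, hab, sub_self]
      linarith
    · rw [if_neg hab, zero_add]
      rw [hT, mem_product] at ha hb
      apply h1
      · exact nu_bounds hZ hP ha.1 hb.1 ha.2 hb.2 hab
      · have ha' := ha.1
        have hb' := hb.1
        rw [NN, mem_filter, mem_Icc] at ha' hb'
        have hs1 : √(a.1 : ℝ) ≤ √(Z : ℝ) := Real.sqrt_le_sqrt (by exact_mod_cast ha'.1.2)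
        have hs2 : √(b.1 : ℝ) ≤ √(Z : ℝ) := Real.sqrt_le_sqrt (by exact_mod_cast hb'.1.2)
        calc |(a.2 : ℝ) * √(a.1 : ℝ) - (b.2 : ℝ) * √(b.1 : ℝ)| ≤
            |(a.2 : ℝ) * √(a.1 : ℝ)| + |(b.2 : ℝ) * √(b.1 : ℝ)| := abs_sub _ _
          _ = |(a.2 : ℝ)| * √(a.1 : ℝ) + |(b.2 : ℝ)| * √(b.1 : ℝ) := by
              rw [abs_mul, abs_mul, abs_of_nonneg (Real.sqrt_nonneg _),
                abs_of_nonneg (Real.sqrt_nonneg _)]
          _ ≤ (((k : ℝ) + 1) * P) * √(Z : ℝ) + (((k : ℝ) + 1) * P) * √(Z : ℝ) := by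
              apply add_le_add
              · exact mul_le_mul (abs_le_of_mem_Ier ha.2) hs1 (Real.sqrt_nonneg _) (by positivity)
              · exact mul_le_mul (abs_le_of_mem_Ier hb.2) hs2 (Real.sqrt_nonneg _) (by positivity)
          _ = _ := by ring
  have hTcard : (T.card : ℝ) = (NN Z).card * (2 * ((k : ℝ) + 1) * P) := by
    rw [hT, card_product, card_Ier]; push_cast; ring
  have hsum : ∑ a ∈ T, ∑ b ∈ T, ∑ ξ ∈ XXh s H M₀, ∑ η ∈ XXh s H M₀, (ww (nn ξ) * ww (nn η) *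
        mm x (√(nn ξ : ℝ) - √(nn η : ℝ) + (a.2 * √(a.1 : ℝ) - b.2 * √(b.1 : ℝ)))) ≤
      B ^ 2 * (T.card * E0 + (T.card : ℝ) ^ 2 * E1) := by
    refine le_trans (Finset.sum_le_sum fun a ha => Finset.sum_le_sum fun b hb => hab a ha b hb) ?_
    simp_rw [← Finset.mul_sum]
    apply mul_le_mul_of_nonneg_left _ (by positivity)
    have h2 : ∀ a ∈ T, ∑ b ∈ T, ((if a = b then E0 else 0) + E1) = E0 + T.card * E1 := by
      intro a ha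
      rw [Finset.sum_add_distrib, Finset.sum_ite_eq, if_pos ha, Finset.sum_const, nsmul_eq_mul]
    rw [Finset.sum_congr rfl h2, Finset.sum_const, nsmul_eq_mul]
    apply le_of_eq; ring
  rw [← hTcard]
  calc 2 * C0 ^ 2 * _ ≤ 2 * C0 ^ 2 * (B ^ 2 * (T.card * E0 + (T.card : ℝ) ^ 2 * E1)) :=
        mul_le_mul_of_nonneg_left hsum (by positivity)
    _ = _ := by ring

/-- **The mixed moment bound, high part.** -/
theorem mixed_bound_h : ∃ C : ℝ, 1 ≤ C ∧ ∀ (s H k P M₀ X Z : ℕ) (x ρ B E0 E1 : ℝ),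
    0 < H → 0 < P → 1 ≤ Z → 1 ≤ x → 0 < ρ → 0 ≤ B → 0 ≤ E1 →
    2 * ((s + 1) * H) ^ 2 ≤ X →
    (∀ n : ℕ, 1 ≤ n → n ≤ X → (((XX s H).filter (fun ξ => nn ξ = n)).card : ℝ) ≤ B) →
    IIh M₀ X x 0 ≤ E0 →
    (∀ ν : ℝ, 1 ≤ |ν| * (2 * ((k : ℝ) + 1) * P * √(Z : ℝ)) →
      |ν| ≤ 2 * ((k : ℝ) + 1) * P * √(Z : ℝ) → IIh M₀ X x ν ≤ E1) →
    2 * ((s : ℝ) + 1) ^ 2 * (1 / ρ ^ 2) ^ (s + 1) ≤ (H : ℝ) ^ (2 * s) →
    C * ((s : ℝ) + 1) ^ 2 * (H : ℝ) ^ 2 ≤ x * √x →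
    ρ ^ 2 * x ≤ 1 → 2 * (Z : ℝ) ≤ ρ * x →
    2 * ((k : ℝ) + 1) * (256 * Z / (ρ ^ 2 * x) ^ 2) ^ (k + 1) ≤ (P : ℝ) ^ (2 * k + 1) →
    0 < (NN Z).card →
    C * ((s : ℝ) + 1) ^ 2 * (B * √(2 * (M₀ * √(M₀ : ℝ)))) ≤ √x →
    volume (BadR x ρ) ≤ ENNReal.ofReal (8 * C ^ 2 * ((s : ℝ) + 1) ^ 4 * ((k : ℝ) + 1) ^ 2 * B ^ 2 *
      (((NN Z).card * (2 * ((k : ℝ) + 1) * P)) * E0 +
        ((NN Z).card * (2 * ((k : ℝ) + 1) * P)) ^ 2 * E1) / (x * ((NN Z).card : ℝ) ^ 2)) := by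
  obtain ⟨C₀, hC₀, hG⟩ := GGs_lower
  refine ⟨2 * C₀, by linarith, ?_⟩
  set C := 2 * C₀ with hCdef
  have hC : 1 ≤ C := by linarith
  intro s H k P M₀ X Z x ρ B E0 E1 hH hP hZ hx hρ hB0 hE1 hX hB h0 h1 c1 c2 c3 c4 c5 hcard c6
  have hx0 : 0 < x := by linarith
  have hHr : (0 : ℝ) < H := by exact_mod_cast hH
  have hPr : (0 : ℝ) < P := by exact_mod_cast hP
  have hnr : (0 : ℝ) < (NN Z).card := by exact_mod_cast hcard
  have hZr : (1 : ℝ) ≤ Z := by exact_mod_cast hZ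
  have hsZ0 : 0 < √(Z : ℝ) := Real.sqrt_pos.mpr (by linarith)
  have hsZ1 : 1 ≤ √(Z : ℝ) := by rw [Real.le_sqrt' one_pos]; simpa using hZr
  have hsZ2 : √(Z : ℝ) ^ 2 = Z := Real.sq_sqrt (by linarith)
  set τ := ρ ^ 2 * x / (8 * √(Z : ℝ)) with hτ
  have hτ0 : 0 < τ := by positivity
  have hτ1 : τ ≤ 1 := by
    rw [hτ, div_le_one (by positivity)]
    linarith
  set c : ℝ := 3 * τ / 4 with hc
  have hint := mixed_integral_h (s := s) (H := H) (k := k) (P := P) (M₀ := M₀) (X := X) (Z := Z) (c := c)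
    (σ := ρ / 2) hP hZ hx0 hB0 hE1 hX hB h0 h1
  set D : ℝ := (√x * (H : ℝ) ^ (4 * s + 2) / (C * ((s : ℝ) + 1) ^ 2)) *
    ((NN Z).card * (P : ℝ) ^ (2 * k + 1) / (2 * ((k : ℝ) + 1))) with hD
  have hD0 : 0 < D := by positivity
  have hcontG : Continuous (fun R => GGh s H M₀ R) := by
    unfold GGh
    apply continuous_finsetSum
    intro ξ _
    apply Continuous.mul continuous_const
    exact continuous_e.comp (by fun_prop)
  have hcontF : Continuous (fun R => FF k P (NN Z) c (R + ρ / 2)) := by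
    unfold FF
    apply continuous_finsetSum
    intro N _
    apply continuous_finsetSum
    intro h _
    apply Continuous.mul continuous_const
    exact continuous_e.comp (by fun_prop)
  have hcheb := volume_le_of_integral (a := x) (b := 3 * x) (c := D ^ 2) (by linarith) (by positivity)
    (fun R => ‖GGh s H M₀ R * FF k P (NN Z) c (R + ρ / 2)‖ ^ 2)
    (((hcontG.mul hcontF).norm.pow 2).continuousOn) (fun R => by positivity) (BadR x ρ) (by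
      rintro R ⟨hR, hbad⟩
      refine ⟨hR, pow_le_pow_left₀ hD0.le ?_ 2⟩
      have hR0 : 0 < R := by linarith [hR.1]
      have hg₀ := hG s H R ρ hH (by linarith [hR.1]) hρ hbad c1 (by
        have c2' : C₀ * ((s : ℝ) + 1) ^ 2 * (H : ℝ) ^ 2 ≤ x * √x := by
          refine le_trans ?_ c2
          have : 0 ≤ C₀ * ((s : ℝ) + 1) ^ 2 * (H : ℝ) ^ 2 := by positivity
          rw [hCdef]
          nlinarith
        refine le_trans c2' ?_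
        exact mul_le_mul hR.1 (Real.sqrt_le_sqrt hR.1) (Real.sqrt_nonneg _) hR0.le)
      have hg : √R * (H : ℝ) ^ (4 * s + 2) ≤ C * ((s : ℝ) + 1) ^ 2 * ‖GGh s H M₀ R‖ := by
        have hlow := low_le (M₀ := M₀) hB0 hX hB R
        have hn : ‖GGs s H R‖ ≤ ‖GGh s H M₀ R‖ + ‖GGs s H R - GGh s H M₀ R‖ := by
          have := norm_add_le (GGh s H M₀ R) (GGs s H R - GGh s H M₀ R)
          rwa [add_sub_cancel] at this
        set q := B * √(2 * (M₀ * √(M₀ : ℝ))) with hq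
        have hxR : √x ≤ √R := Real.sqrt_le_sqrt hR.1
        have h7 : C₀ * ((s : ℝ) + 1) ^ 2 * q ≤ √R / 2 := by
          have : C * ((s : ℝ) + 1) ^ 2 * q = 2 * (C₀ * ((s : ℝ) + 1) ^ 2 * q) := by
            rw [hCdef]; ring
          linarith
        have h8 : C₀ * ((s : ℝ) + 1) ^ 2 * ‖GGs s H R‖ ≤ C₀ * ((s : ℝ) + 1) ^ 2 *
            (‖GGh s H M₀ R‖ + (H : ℝ) ^ (4 * s + 2) * q) :=
          mul_le_mul_of_nonneg_left (by linarith) (by positivity)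
        have h9 : C₀ * ((s : ℝ) + 1) ^ 2 * ((H : ℝ) ^ (4 * s + 2) * q) ≤
            √R / 2 * (H : ℝ) ^ (4 * s + 2) := by
          calc C₀ * ((s : ℝ) + 1) ^ 2 * ((H : ℝ) ^ (4 * s + 2) * q) =
              (C₀ * ((s : ℝ) + 1) ^ 2 * q) * (H : ℝ) ^ (4 * s + 2) := by ring
            _ ≤ _ := mul_le_mul_of_nonneg_right h7 (by positivity)
        have h10 : C * ((s : ℝ) + 1) ^ 2 * ‖GGh s H M₀ R‖ =
            2 * (C₀ * ((s : ℝ) + 1) ^ 2 * ‖GGh s H M₀ R‖) := by rw [hCdef]; ring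
        rw [h10]
        have h11 : C₀ * ((s : ℝ) + 1) ^ 2 * (‖GGh s H M₀ R‖ + (H : ℝ) ^ (4 * s + 2) * q) =
            C₀ * ((s : ℝ) + 1) ^ 2 * ‖GGh s H M₀ R‖ +
            C₀ * ((s : ℝ) + 1) ^ 2 * ((H : ℝ) ^ (4 * s + 2) * q) := by ring
        rw [h11] at h8
        linarith
      have hf := FF_lower (k := k) hP (NN Z) (τ := τ) (R := R + ρ / 2) (by
        have h3 : (1 : ℝ) / (4 * (τ / 4) ^ 2) = 256 * Z / (ρ ^ 2 * x) ^ 2 := by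
          have h4 : (ρ ^ 2 * x / (8 * √(Z : ℝ)) / 4) ^ 2 = (ρ ^ 2 * x) ^ 2 / (1024 * Z) := by
            rw [div_div, div_pow]
            congr 1
            rw [mul_pow, mul_pow, hsZ2]
            ring
          rw [hτ, h4]; field_simp; norm_num
        rw [h3]; exact c5) hτ0 (fun N hN => far_of_window hτ1 hτ0
          (avoid_window hZ hx hR.1 hρ c4 hbad hN))
      rw [norm_mul, hD]
      apply mul_le_mul
      · rw [div_le_iff₀ (by positivity)]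
        have h3 : √x * (H : ℝ) ^ (4 * s + 2) ≤ √R * (H : ℝ) ^ (4 * s + 2) :=
          mul_le_mul_of_nonneg_right (Real.sqrt_le_sqrt hR.1) (by positivity)
        linarith
      · rw [div_le_iff₀ (by positivity)]
        linarith
      · positivity
      · exact norm_nonneg _)
  refine le_trans hcheb (ENNReal.ofReal_le_ofReal ?_)
  rw [div_le_iff₀ (by positivity)]
  refine le_trans hint (le_of_eq ?_)
  have hsx : √x ^ 2 = x := Real.sq_sqrt hx0.le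
  rw [hD]
  have h3 : (√x * (H : ℝ) ^ (4 * s + 2) / (C * ((s : ℝ) + 1) ^ 2) *
      ((NN Z).card * (P : ℝ) ^ (2 * k + 1) / (2 * ((k : ℝ) + 1)))) ^ 2 =
      x * ((H : ℝ) ^ (4 * s + 2) * (P : ℝ) ^ (2 * k + 1)) ^ 2 * ((NN Z).card : ℝ) ^ 2 /
      (4 * C ^ 2 * ((s : ℝ) + 1) ^ 4 * ((k : ℝ) + 1) ^ 2) := by
    rw [div_mul_div_comm, div_pow]
    have : (√x * (H : ℝ) ^ (4 * s + 2) * ((NN Z).card * (P : ℝ) ^ (2 * k + 1))) ^ 2 =
        √x ^ 2 * ((H : ℝ) ^ (4 * s + 2) * (P : ℝ) ^ (2 * k + 1)) ^ 2 * ((NN Z).card : ℝ) ^ 2 := by ring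
    rw [this, hsx]
    congr 1
    ring
  rw [h3]
  field_simp
  ring

end Run7.h770
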