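import Mathlib
import Pool.Agent.R481.S2.Divisor

/-!
# The number of representations as a sum of two squares is `O(n^ε)`
-/

set_option autoImplicit false

open Finset

namespace Run7.h770

/-- `u ∣ x y`-type splitting: if `M ∣ (s - t) (s + t)`, `u = gcd(M, s - t)`, `M = u v`, then
`v ∣ s + t`. -/
theorem dvd_part {M s t : ℤ} {u v : ℤ} (hM : 0 < M) (h : M ∣ (s - t) * (s + t))
    (hu : u = Int.gcd M (s - t)) (hv : M = u * v) : v ∣ s + t := by
  have hu0 : u ≠ 0 := by
    intro h0
    rw [h0, zero_mul] at hv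
    omega
  obtain ⟨r, hr⟩ : u ∣ s - t := by rw [hu]; exact Int.gcd_dvd_right _ _
  have hg : Int.gcd v r = 1 := by
    have h1 : Int.gcd (u * v) (u * r) = u.natAbs * Int.gcd v r := Int.gcd_mul_left _ _ _
    rw [← hv, ← hr] at h1
    have h2 : u.natAbs = Int.gcd M (s - t) := by rw [hu]; simp
    rw [h2] at h1
    have h3 : 0 < Int.gcd M (s - t) := Int.gcd_pos_of_ne_zero_left _ hM.ne'
    have h4 : Int.gcd M (s - t) * Int.gcd v r = Int.gcd M (s - t) * 1 := by omega
    exact Nat.eq_of_mul_eq_mul_left h3 h4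
  rw [hr, hv, mul_assoc] at h
  have h5 : v ∣ r * (s + t) := (mul_dvd_mul_iff_left hu0).mp h
  exact IsCoprime.dvd_of_dvd_mul_left (Int.isCoprime_iff_gcd_eq_one.mpr hg) h5

/-- Two primitive representations with the same gcd have determinant divisible by `M`. -/
theorem det_dvd {M a₀ b₀ a b c d : ℤ} (hM : 0 < M) (hodd : ¬ (2 : ℤ) ∣ M)
    (h0 : a₀ ^ 2 + b₀ ^ 2 = M) (h1 : a ^ 2 + b ^ 2 = M) (h2 : c ^ 2 + d ^ 2 = M)
    (c0 : IsCoprime a₀ b₀) (c1 : IsCoprime a b)
    (hg : Int.gcd M (a * b₀ - a₀ * b) = Int.gcd M (c * b₀ - a₀ * d)) :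
    M ∣ a * d - b * c := by
  set u : ℤ := ((Int.gcd M (a * b₀ - a₀ * b) : ℕ) : ℤ) with hu
  obtain ⟨v, hv⟩ : u ∣ M := Int.gcd_dvd_left _ _
  have hb0 : IsCoprime M b₀ := by
    rw [← h0]
    have h3 : IsCoprime (a₀ ^ 2) b₀ := c0.pow_left
    have h4 : a₀ ^ 2 + b₀ ^ 2 = a₀ ^ 2 + b₀ * b₀ := by ring
    rw [h4]
    exact IsCoprime.add_mul_left_left_iff.mpr h3
  have e1 : M ∣ (a * b₀ - a₀ * b) * (a * b₀ + a₀ * b) := by
    refine ⟨a ^ 2 - a₀ ^ 2, ?_⟩
    have : (a * b₀ - a₀ * b) * (a * b₀ + a₀ * b) = a ^ 2 * b₀ ^ 2 - a₀ ^ 2 * b ^ 2 := by ring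
    rw [this]
    have h3 : b₀ ^ 2 = M - a₀ ^ 2 := by linarith
    have h4 : b ^ 2 = M - a ^ 2 := by linarith
    rw [h3, h4]; ring
  have e2 : M ∣ (c * b₀ - a₀ * d) * (c * b₀ + a₀ * d) := by
    refine ⟨c ^ 2 - a₀ ^ 2, ?_⟩
    have : (c * b₀ - a₀ * d) * (c * b₀ + a₀ * d) = c ^ 2 * b₀ ^ 2 - a₀ ^ 2 * d ^ 2 := by ring
    rw [this]
    have h3 : b₀ ^ 2 = M - a₀ ^ 2 := by linarith
    have h4 : d ^ 2 = M - c ^ 2 := by linarith
    rw [h3, h4]; ring
  have p1 : v ∣ a * b₀ + a₀ * b := dvd_part hM e1 hu hv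
  have p2 : v ∣ c * b₀ + a₀ * d := dvd_part hM e2 (by rw [hu, hg]) hv
  have q1 : u ∣ a * b₀ - a₀ * b := by rw [hu]; exact Int.gcd_dvd_right _ _
  have q2 : u ∣ c * b₀ - a₀ * d := by rw [hu, hg]; exact Int.gcd_dvd_right _ _
  -- `u ∣ (a d - b c) b₀`
  have r1 : u ∣ (a * d - b * c) * b₀ := by
    have : (a * d - b * c) * b₀ = d * (a * b₀ - a₀ * b) - b * (c * b₀ - a₀ * d) := by ring
    rw [this]
    exact dvd_sub (Dvd.dvd.mul_left q1 _) (Dvd.dvd.mul_left q2 _)
  have r2 : v ∣ (a * d - b * c) * b₀ := by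
    have : (a * d - b * c) * b₀ = d * (a * b₀ + a₀ * b) - b * (c * b₀ + a₀ * d) := by ring
    rw [this]
    exact dvd_sub (Dvd.dvd.mul_left p1 _) (Dvd.dvd.mul_left p2 _)
  have s1 : u ∣ a * d - b * c :=
    IsCoprime.dvd_of_dvd_mul_right (hb0.of_isCoprime_of_dvd_left ⟨v, hv⟩) r1
  have s2 : v ∣ a * d - b * c :=
    IsCoprime.dvd_of_dvd_mul_right (hb0.of_isCoprime_of_dvd_left ⟨u, by rw [hv]; ring⟩) r2
  -- `u` and `v` are coprime
  have hcop : IsCoprime u v := by
    rw [Int.isCoprime_iff_gcd_eq_one]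
    by_contra hne
    obtain ⟨p, hp, hpd⟩ := Nat.exists_prime_and_dvd hne
    have hpz : Prime (p : ℤ) := Nat.prime_iff_prime_int.mp hp
    have hpu : (p : ℤ) ∣ u := (Int.natCast_dvd_natCast.mpr hpd).trans (Int.gcd_dvd_left _ _)
    have hpv : (p : ℤ) ∣ v := (Int.natCast_dvd_natCast.mpr hpd).trans (Int.gcd_dvd_right _ _)
    have hpM : (p : ℤ) ∣ M := hpu.trans ⟨v, hv⟩
    have h3 : (p : ℤ) ∣ 2 * (a * b₀) := by
      have h4 := dvd_add (hpu.trans q1) (hpv.trans p1)
      have h5 : a * b₀ - a₀ * b + (a * b₀ + a₀ * b) = 2 * (a * b₀) := by ring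
      rwa [h5] at h4
    rcases hpz.dvd_or_dvd h3 with h4 | h4
    · apply hodd
      have h5 : p ∣ 2 := by exact_mod_cast h4
      have h6 : p = 2 := (Nat.prime_dvd_prime_iff_eq hp Nat.prime_two).mp h5
      rw [h6] at hpM
      exact_mod_cast hpM
    · rcases hpz.dvd_or_dvd h4 with h5 | h5
      · have h6 : (p : ℤ) ∣ b ^ 2 := by
          have : b ^ 2 = M - a * a := by rw [← h1]; ring
          rw [this]
          exact dvd_sub hpM (Dvd.dvd.mul_right h5 _)
        have h7 := hpz.dvd_of_dvd_pow h6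
        have h8 := c1.isUnit_of_dvd' h5 h7
        exact hpz.not_unit h8
      · have h8 := hb0.isUnit_of_dvd' hpM h5
        exact hpz.not_unit h8
  rw [hv]
  exact hcop.mul_dvd s1 s2

/-- Primitive vectors with vanishing determinant and equal norm. -/
theorem eq_or_neg {M a b c d : ℤ} (h1 : a ^ 2 + b ^ 2 = M) (h2 : c ^ 2 + d ^ 2 = M)
    (hM : 0 < M) (c1 : IsCoprime a b) (hdet : a * d = b * c) :
    (c = a ∧ d = b) ∨ (c = -a ∧ d = -b) := by
  obtain ⟨x, y, hxy⟩ := c1
  -- `c = a k`, `d = b k`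
  set k := x * c + y * d with hk
  have hc : c = a * k := by
    have : a * k = (x * a + y * b) * c + y * (a * d - b * c) := by rw [hk]; ring
    rw [this, hxy, hdet]; ring
  have hd : d = b * k := by
    have : b * k = (x * a + y * b) * d - x * (a * d - b * c) := by rw [hk]; ring
    rw [this, hxy, hdet]; ring
  have hk2 : k ^ 2 = 1 := by
    have h3 : M * k ^ 2 = M * 1 := by
      rw [mul_one]
      calc M * k ^ 2 = (a ^ 2 + b ^ 2) * k ^ 2 := by rw [h1]
        _ = (a * k) ^ 2 + (b * k) ^ 2 := by ring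
        _ = c ^ 2 + d ^ 2 := by rw [← hc, ← hd]
        _ = M := h2
    exact mul_left_cancel₀ hM.ne' h3
  have hk3 : (k - 1) * (k + 1) = 0 := by linarith
  have hk4 : k = 1 ∨ k = -1 := by
    rcases mul_eq_zero.mp hk3 with h | h
    · left; linarith
    · right; linarith
  rcases hk4 with h | h
  · left; rw [hc, hd, h]; constructor <;> ring
  · right; rw [hc, hd, h]; constructor <;> ring

/-- Primitive representations of an odd number. -/
theorem card_prim_le (M : ℕ) (hM : 0 < M) (hodd : ¬ 2 ∣ M) (S : Finset (ℤ × ℤ))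
    (hS : ∀ z ∈ S, z.1 ^ 2 + z.2 ^ 2 = (M : ℤ) ∧ IsCoprime z.1 z.2) :
    S.card ≤ 4 * M.divisors.card := by
  classical
  rcases S.eq_empty_or_nonempty with hemp | ⟨z₀, hz₀⟩
  · rw [hemp]; simp
  have hMz : (0 : ℤ) < M := by exact_mod_cast hM
  have hoddz : ¬ (2 : ℤ) ∣ M := by
    intro h; apply hodd; exact_mod_cast h
  rw [Finset.card_eq_sum_card_fiberwise (f := fun z => Int.gcd (M : ℤ) (z.1 * z₀.2 - z₀.1 * z.2))
    (t := M.divisors)]
  · calc ∑ u ∈ M.divisors, (S.filter (fun z =>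
          Int.gcd (M : ℤ) (z.1 * z₀.2 - z₀.1 * z.2) = u)).card ≤ ∑ u ∈ M.divisors, 4 := by
          refine Finset.sum_le_sum fun u _ => ?_
          rcases (S.filter (fun z =>
            Int.gcd (M : ℤ) (z.1 * z₀.2 - z₀.1 * z.2) = u)).eq_empty_or_nonempty with he | ⟨z, hz⟩
          · rw [he]; simp
          rw [mem_filter] at hz
          have hsub : S.filter (fun z => Int.gcd (M : ℤ) (z.1 * z₀.2 - z₀.1 * z.2) = u) ⊆
              {z, (-z.1, -z.2), (-z.2, z.1), (z.2, -z.1)} := by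
            intro w hw
            rw [mem_filter] at hw
            obtain ⟨h1, c1⟩ := hS z hz.1
            obtain ⟨h2, c2⟩ := hS w hw.1
            have hdet := det_dvd hMz hoddz (hS z₀ hz₀).1 h1 h2 (hS z₀ hz₀).2 c1
              (hz.2.trans hw.2.symm)
            have hid : (z.1 * w.2 - z.2 * w.1) ^ 2 + (z.1 * w.1 + z.2 * w.2) ^ 2 = (M : ℤ) ^ 2 := by
              calc _ = (z.1 ^ 2 + z.2 ^ 2) * (w.1 ^ 2 + w.2 ^ 2) := by ring
                _ = (M : ℤ) ^ 2 := by rw [h1, h2]; ring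
            obtain ⟨q, hq⟩ := hdet
            simp only [mem_insert, mem_singleton]
            have hq2 : q ^ 2 ≤ 1 := by
              by_contra hcon
              push Not at hcon
              have h3 : (M : ℤ) ^ 2 * q ^ 2 ≤ (M : ℤ) ^ 2 := by
                have h4 : (z.1 * w.2 - z.2 * w.1) ^ 2 = (M : ℤ) ^ 2 * q ^ 2 := by rw [hq]; ring
                nlinarith [sq_nonneg (z.1 * w.1 + z.2 * w.2)]
              have h5 : 0 < (M : ℤ) ^ 2 := by positivity
              nlinarith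
            by_cases hq0 : q = 0
            · rw [hq0, mul_zero] at hq
              rcases eq_or_neg h1 h2 hMz c1 (by linarith) with h | h
              · left; exact Prod.ext h.1 h.2
              · right; left; exact Prod.ext h.1 h.2
            · have hq1 : q ^ 2 = 1 := by
                have : 0 < q ^ 2 := by positivity
                omega
              have h4 : (z.1 * w.2 - z.2 * w.1) ^ 2 = (M : ℤ) ^ 2 := by
                rw [hq, mul_pow, hq1, mul_one]
              have h5 : (z.1 * w.1 + z.2 * w.2) ^ 2 = 0 := by linarith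
              have h6 : z.1 * w.1 + z.2 * w.2 = 0 := by
                exact pow_eq_zero_iff (n := 2) (by norm_num) |>.mp h5
              -- apply `eq_or_neg` to `(-z.2, z.1)`
              have h7 : (-z.2) ^ 2 + z.1 ^ 2 = (M : ℤ) := by rw [← h1]; ring
              have c3 : IsCoprime (-z.2) z.1 := c1.symm.neg_left
              rcases eq_or_neg h7 h2 hMz c3 (by linarith) with h | h
              · right; right; left; exact Prod.ext h.1 h.2
              · right; right; right
                refine Prod.ext ?_ h.2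
                rw [h.1]; ring
          exact (Finset.card_le_card hsub).trans Finset.card_le_four
    _ = 4 * M.divisors.card := by rw [Finset.sum_const, smul_eq_mul, mul_comm]
  · intro z _
    rw [mem_coe, Nat.mem_divisors]
    refine ⟨?_, hM.ne'⟩
    have h := Int.gcd_dvd_left (M : ℤ) (z.1 * z₀.2 - z₀.1 * z.2)
    exact_mod_cast h

/-- All representations of an odd number. -/
theorem card_rep_odd_le (n : ℕ) (hn : 0 < n) (hodd : ¬ 2 ∣ n) (S : Finset (ℤ × ℤ))
    (hS : ∀ z ∈ S, z.1 ^ 2 + z.2 ^ 2 = (n : ℤ)) :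
    S.card ≤ 4 * n.divisors.card ^ 2 := by
  classical
  have hg : ∀ z ∈ S, 0 < Int.gcd z.1 z.2 ∧ (Int.gcd z.1 z.2) ^ 2 ∣ n := by
    intro z hz
    have h1 := hS z hz
    have hgpos : 0 < Int.gcd z.1 z.2 := by
      rw [Nat.pos_iff_ne_zero]
      intro h0
      rw [Int.gcd_eq_zero_iff] at h0
      rw [h0.1, h0.2] at h1
      have : (n : ℤ) = 0 := by rw [← h1]; norm_num
      omega
    refine ⟨hgpos, ?_⟩
    have h2 : ((Int.gcd z.1 z.2 : ℕ) : ℤ) ^ 2 ∣ (n : ℤ) := by
      rw [← h1]
      exact dvd_add (pow_dvd_pow_of_dvd (Int.gcd_dvd_left _ _) 2)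
        (pow_dvd_pow_of_dvd (Int.gcd_dvd_right _ _) 2)
    exact_mod_cast h2
  rw [Finset.card_eq_sum_card_fiberwise (f := fun z => Int.gcd z.1 z.2) (t := n.divisors)]
  · calc ∑ g ∈ n.divisors, (S.filter (fun z => Int.gcd z.1 z.2 = g)).card
        ≤ ∑ g ∈ n.divisors, 4 * n.divisors.card := by
          refine Finset.sum_le_sum fun g hgd => ?_
          rcases (S.filter (fun z => Int.gcd z.1 z.2 = g)).eq_empty_or_nonempty with he | ⟨z₁, hz₁⟩
          · rw [he]; simp
          rw [mem_filter] at hz₁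
          obtain ⟨hg0, M, hM⟩ := hg z₁ hz₁.1
          rw [hz₁.2] at hg0 hM
          have hM0 : 0 < M := Nat.pos_of_ne_zero (by rintro rfl; rw [mul_zero] at hM; omega)
          have hMn : M ∣ n := ⟨g ^ 2, by rw [hM]; ring⟩
          have hModd : ¬ 2 ∣ M := fun h => hodd (h.trans hMn)
          have hgz : (0 : ℤ) < g := by exact_mod_cast hg0
          have hcard : (S.filter (fun z => Int.gcd z.1 z.2 = g)).card ≤ 4 * M.divisors.card := by
            have h1 : ((S.filter (fun z => Int.gcd z.1 z.2 = g)).image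
                (fun z => (z.1 / (g : ℤ), z.2 / (g : ℤ)))).card =
                (S.filter (fun z => Int.gcd z.1 z.2 = g)).card := by
              apply Finset.card_image_of_injOn
              intro z hz w hw hzw
              rw [mem_coe, mem_filter] at hz hw
              simp only [Prod.mk.injEq] at hzw
              have d1 : (g : ℤ) ∣ z.1 := by rw [← hz.2]; exact Int.gcd_dvd_left _ _
              have d2 : (g : ℤ) ∣ z.2 := by rw [← hz.2]; exact Int.gcd_dvd_right _ _
              have d3 : (g : ℤ) ∣ w.1 := by rw [← hw.2]; exact Int.gcd_dvd_left _ _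
              have d4 : (g : ℤ) ∣ w.2 := by rw [← hw.2]; exact Int.gcd_dvd_right _ _
              refine Prod.ext ?_ ?_
              · rw [← Int.ediv_mul_cancel d1, ← Int.ediv_mul_cancel d3, hzw.1]
              · rw [← Int.ediv_mul_cancel d2, ← Int.ediv_mul_cancel d4, hzw.2]
            rw [← h1]
            apply card_prim_le M hM0 hModd
            intro w hw
            rw [mem_image] at hw
            obtain ⟨z, hz, rfl⟩ := hw
            rw [mem_filter] at hz
            obtain ⟨x, hx⟩ : (g : ℤ) ∣ z.1 := by rw [← hz.2]; exact Int.gcd_dvd_left _ _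
            obtain ⟨y, hy⟩ : (g : ℤ) ∣ z.2 := by rw [← hz.2]; exact Int.gcd_dvd_right _ _
            have e1 : z.1 / (g : ℤ) = x := by rw [hx]; exact Int.mul_ediv_cancel_left _ hgz.ne'
            have e2 : z.2 / (g : ℤ) = y := by rw [hy]; exact Int.mul_ediv_cancel_left _ hgz.ne'
            simp only [e1, e2]
            constructor
            · have h2 := hS z hz.1
              rw [hx, hy, hM] at h2
              push_cast at h2
              have h3 : (g : ℤ) ^ 2 * (x ^ 2 + y ^ 2) = (g : ℤ) ^ 2 * M := by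
                rw [← h2]; ring
              exact mul_left_cancel₀ (by positivity) h3
            · rw [Int.isCoprime_iff_gcd_eq_one]
              have h2 := hz.2
              rw [hx, hy, Int.gcd_mul_left, Int.natAbs_natCast] at h2
              have h3 : g * Int.gcd x y = g * 1 := by omega
              exact Nat.eq_of_mul_eq_mul_left hg0 h3
          have h4 : M.divisors.card ≤ n.divisors.card :=
            Finset.card_le_card (Nat.divisors_subset_of_dvd hn.ne' hMn)
          omega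
      _ = 4 * n.divisors.card ^ 2 := by rw [Finset.sum_const, smul_eq_mul]; ring
  · intro z hz
    rw [mem_coe, Nat.mem_divisors]
    obtain ⟨h0, h1⟩ := hg z hz
    exact ⟨(Dvd.intro_left _ (by rw [pow_two])).trans h1, hn.ne'⟩

/-- All representations. -/
theorem card_rep_le (n : ℕ) (hn : 0 < n) (S : Finset (ℤ × ℤ))
    (hS : ∀ z ∈ S, z.1 ^ 2 + z.2 ^ 2 = (n : ℤ)) : S.card ≤ 4 * n.divisors.card ^ 2 := by
  classical
  induction n using Nat.strong_induction_on generalizing S with
  | _ n ih =>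
    by_cases hodd : 2 ∣ n
    · obtain ⟨m, hm⟩ := hodd
      have hm0 : 0 < m := by omega
      have hpar : ∀ z ∈ S, (2 : ℤ) ∣ z.1 + z.2 ∧ (2 : ℤ) ∣ z.1 - z.2 := by
        intro z hz
        have h1 := hS z hz
        rw [hm] at h1
        push_cast at h1
        have h2 : (2 : ℤ) ∣ (z.1 + z.2) ^ 2 := ⟨m + z.1 * z.2, by
          have : (z.1 + z.2) ^ 2 = (z.1 ^ 2 + z.2 ^ 2) + 2 * (z.1 * z.2) := by ring
          rw [this, h1]; ring⟩
        have h3 : (2 : ℤ) ∣ z.1 + z.2 := Int.prime_two.dvd_of_dvd_pow h2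
        refine ⟨h3, ?_⟩
        have h4 : z.1 - z.2 = (z.1 + z.2) - 2 * z.2 := by ring
        rw [h4]
        exact dvd_sub h3 (Dvd.intro _ rfl)
      have h1 : (S.image (fun z => ((z.1 + z.2) / 2, (z.1 - z.2) / 2))).card = S.card := by
        apply Finset.card_image_of_injOn
        intro z hz w hw hzw
        rw [mem_coe] at hz hw
        simp only [Prod.mk.injEq] at hzw
        obtain ⟨a1, a2⟩ := hpar z hz
        obtain ⟨b1, b2⟩ := hpar w hw
        refine Prod.ext ?_ ?_ <;> omega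
      rw [← h1]
      have h2 := ih m (by omega) hm0 (S.image (fun z => ((z.1 + z.2) / 2, (z.1 - z.2) / 2))) (by
        intro w hw
        rw [mem_image] at hw
        obtain ⟨z, hz, rfl⟩ := hw
        obtain ⟨⟨x, hx⟩, ⟨y, hy⟩⟩ := hpar z hz
        have e1 : (z.1 + z.2) / 2 = x := by omega
        have e2 : (z.1 - z.2) / 2 = y := by omega
        simp only [e1, e2]
        have h3 := hS z hz
        rw [hm] at h3
        push_cast at h3
        have e3 : z.1 = x + y := by omega
        have e4 : z.2 = x - y := by omega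
        rw [e3, e4] at h3
        linarith)
      have h3 : m.divisors.card ≤ n.divisors.card :=
        Finset.card_le_card (Nat.divisors_subset_of_dvd hn.ne' ⟨2, by rw [hm]; ring⟩)
      calc _ ≤ 4 * m.divisors.card ^ 2 := h2
        _ ≤ 4 * n.divisors.card ^ 2 := Nat.mul_le_mul_left 4 (Nat.pow_le_pow_left h3 2)
    · exact card_rep_odd_le n hn hodd S hS

/-- **Representation bound.** -/
theorem rep_bound (ε : ℝ) (hε : 0 < ε) : ∃ C : ℝ, 0 < C ∧ ∀ n : ℕ, 0 < n → ∀ S : Finset (ℤ × ℤ),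
    (∀ z ∈ S, z.1 ^ 2 + z.2 ^ 2 = (n : ℤ)) → (S.card : ℝ) ≤ C * (n : ℝ) ^ ε := by
  obtain ⟨C, hC, hdiv⟩ := Pool.Agent.R481.S2.divisor_bound_real (ε / 2) (by positivity)
  refine ⟨4 * C ^ 2, by positivity, fun n hn S hS => ?_⟩
  have h1 : (S.card : ℝ) ≤ 4 * (n.divisors.card : ℝ) ^ 2 := by
    exact_mod_cast card_rep_le n hn S hS
  have h2 := hdiv n hn.ne'
  have hnr : (0 : ℝ) < n := by exact_mod_cast hn
  calc (S.card : ℝ) ≤ 4 * (n.divisors.card : ℝ) ^ 2 := h1
    _ ≤ 4 * (C * (n : ℝ) ^ (ε / 2)) ^ 2 := by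
        apply mul_le_mul_of_nonneg_left _ (by norm_num)
        exact pow_le_pow_left₀ (Nat.cast_nonneg _) h2 2
    _ = 4 * C ^ 2 * (n : ℝ) ^ ε := by
        have h3 : ((n : ℝ) ^ (ε / 2)) ^ 2 = (n : ℝ) ^ ε := by
          rw [← Real.rpow_natCast, ← Real.rpow_mul hnr.le]
          congr 1
          push_cast
          ring
        rw [mul_pow, h3]; ring

end Run7.h770
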