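import Mathlib
import Pool.Agent.Run7.h770.Mixed3
import Pool.Agent.Run7.h770.RepBound
import Pool.Agent.R481.S2.Divisor

/-!
# Choice of the parameters
-/

set_option autoImplicit false

open Finset MeasureTheory

namespace Run7.h770

theorem absorb {y c : ℝ} {a b : ℕ} (hy : 1 ≤ y) (hc : c ≤ y) (hab : a + 1 ≤ b) :
    c * y ^ a ≤ y ^ b := by
  calc c * y ^ a ≤ y * y ^ a := mul_le_mul_of_nonneg_right hc (by positivity)
    _ = y ^ (a + 1) := by rw [pow_succ]; ring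
    _ ≤ y ^ b := pow_le_pow_right₀ hy hab

theorem log_small {A y : ℝ} (hA : 0 ≤ A) (hy : (2 * A + 6) ^ 2 ≤ y) : 4 + A * Real.log y ≤ y := by
  have hy0 : 0 < y := lt_of_lt_of_le (by positivity) hy
  set r := √y with hr
  have hr2 : r ^ 2 = y := Real.sq_sqrt hy0.le
  have hr0 : 0 < r := Real.sqrt_pos.mpr hy0
  have hrA : 2 * A + 6 ≤ r := by
    rw [hr]; exact Real.le_sqrt_of_sq_le hy
  have h1 : Real.log y = 2 * Real.log r := by
    rw [← hr2, Real.log_pow]; push_cast; ring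
  have h2 : Real.log r ≤ r - 1 := Real.log_le_sub_one_of_pos hr0
  have h3 : A * Real.log y ≤ A * (2 * r) := by
    apply mul_le_mul_of_nonneg_left _ hA
    rw [h1]; linarith
  have h4 : (2 * A + 6) * r ≤ r ^ 2 := by nlinarith
  rw [hr2] at h4
  nlinarith

theorem hs_le_log {J : ℕ} : hs J ≤ 1 + Real.log J := by
  have h := harmonic_le_one_add_log J
  rw [harmonic_eq_sum_Icc] at h
  push_cast at h
  refine le_trans (le_of_eq ?_) h
  unfold hs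
  refine Finset.sum_congr rfl fun j _ => ?_
  rw [one_div]

/-- Powers of two. -/
theorem two_pow_log {L : ℕ} {t : ℝ} (h : (2 : ℝ) ^ L ≤ t) : (L : ℝ) ≤ 2 * Real.log t := by
  have h1 : Real.log ((2 : ℝ) ^ L) ≤ Real.log t := Real.log_le_log (by positivity) h
  rw [Real.log_pow] at h1
  have h2 : (0.5 : ℝ) ≤ Real.log 2 := by linarith [Real.log_two_gt_d9]
  have h3 : (0 : ℝ) ≤ L := Nat.cast_nonneg _
  nlinarith

theorem rpow_root {y : ℝ} (hy : 1 ≤ y) {b : ℕ} (hb : 0 < b) {w : ℝ} (hw0 : 0 ≤ w) (hw : w ≤ y ^ b) :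
    w ^ ((1 : ℝ) / b) ≤ y := by
  have h1 : w ^ ((1 : ℝ) / b) ≤ (y ^ b) ^ ((1 : ℝ) / b) :=
    Real.rpow_le_rpow hw0 hw (by positivity)
  refine le_trans h1 (le_of_eq ?_)
  rw [← Real.rpow_natCast, ← Real.rpow_mul (by linarith)]
  have hb' : (b : ℝ) ≠ 0 := by positivity
  rw [mul_one_div_cancel hb', Real.rpow_one]

theorem sqrt_pow_le {y w : ℝ} (hy : 1 ≤ y) {a : ℕ} (hw : w ≤ y ^ (2 * a)) : √w ≤ y ^ a := by
  rw [Real.sqrt_le_iff]
  refine ⟨by positivity, ?_⟩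
  rw [← pow_mul, mul_comm a 2]; exact hw

theorem const_bounds {C q p y : ℝ} (hC : 1 ≤ C) (hq : 1 ≤ q) (hp : 1 ≤ p)
    (h : 100 * (C ^ 2 * q ^ 4 * p ^ 2) ≤ y) :
    8 * q ^ 2 ≤ y ∧ 4 * (C * q ^ 2) ≤ y ∧ 4 * p ≤ y ∧ 16 * (C ^ 2 * q ^ 4 * p ^ 2) ≤ y := by
  have h1 : 1 ≤ C ^ 2 := one_le_pow₀ hC
  have h2 : 1 ≤ q ^ 2 := one_le_pow₀ hq
  have h3 : 1 ≤ p ^ 2 := one_le_pow₀ hp
  have h4 : q ^ 2 ≤ q ^ 4 := pow_le_pow_right₀ hq (by norm_num)
  have h5 : C ≤ C ^ 2 := by nlinarith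
  have h6 : p ≤ p ^ 2 := by nlinarith
  have h7 : q ^ 2 ≤ C ^ 2 * q ^ 4 := by nlinarith
  have h8 : C * q ^ 2 ≤ C ^ 2 * q ^ 4 := mul_le_mul h5 h4 (by positivity) (by positivity)
  have h9 : C ^ 2 * q ^ 4 ≤ C ^ 2 * q ^ 4 * p ^ 2 := by
    have : 0 ≤ C ^ 2 * q ^ 4 := by positivity
    nlinarith
  have h10 : p ≤ C ^ 2 * q ^ 4 * p ^ 2 := by
    have a1 : 1 ≤ C ^ 2 * q ^ 4 := by nlinarith
    nlinarith
  have h11 : 0 ≤ C ^ 2 * q ^ 4 * p ^ 2 := by positivity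
  refine ⟨by nlinarith, by nlinarith, by nlinarith, by linarith⟩

theorem exp1 (m : ℕ) : (m + 7) + ((6 * m + 37) * (2 * m + 15) + 1) ≤
    (3 * m + 21) * (2 * (2 * m + 14)) := by
  nlinarith

theorem exp2 (m : ℕ) : (m + 7) + ((2 * m + 3) * (m + 7) + 1) ≤ (m + 4) * (2 * (m + 6) + 1) := by
  nlinarith

/-- The off-diagonal bound. -/
theorem offdiag {M₀ X T L : ℕ} {x ν D W y u : ℝ} (hy1 : 1 ≤ y) (hx1 : 1 ≤ x) (hM₀1 : 1 ≤ M₀)
    (hX1 : 1 ≤ X) (hν1 : 1 ≤ |ν| * W) (hν2 : |ν| ≤ √(X : ℝ)) (hW0 : 0 < W)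
    (hr : 2 * |ν| ≤ √(M₀ : ℝ)) (hWX : W ≤ √(X : ℝ)) (hT1 : X ≤ 2 ^ T * M₀)
    (hT2 : 2 ^ T * M₀ ≤ 2 * X) (hL1 : X ≤ 2 ^ L) (hL2 : 2 ^ L ≤ 2 * X) (hxX : x ≤ X) (hD1 : 1 ≤ D)
    (hD : ∀ w : ℕ, 1 ≤ w → (w : ℝ) ≤ ν ^ 2 * x → ((Nat.divisors w).card : ℝ) ≤ D)
    (hXu : (X : ℝ) ≤ u) (hhs : hs (10 * X) ≤ y) (hTy : (T : ℝ) ≤ y) (hLy : (L : ℝ) + 1 ≤ y)
    (hD2 : x * √(D * hs (10 * X)) ≤ u) (hVW : √(X : ℝ) * y * W ≤ u) :
    IIh M₀ X x ν ≤ 10 ^ 4 * (y ^ 2 * u) := by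
  have hXr : (1 : ℝ) ≤ X := by exact_mod_cast hX1
  have hx0 : 0 < x := by linarith
  have hy0 : 0 < y := by linarith
  have hu0 : 0 < u := by linarith
  have hsX2 : √(X : ℝ) ^ 2 = X := Real.sq_sqrt (by linarith)
  have hsX0 : 0 ≤ √(X : ℝ) := Real.sqrt_nonneg _
  have hhs0 := hs_nonneg (10 * X)
  have hJr : ((10 * X : ℕ) : ℝ) = 10 * X := by push_cast; ring
  have hVX : 3 * √(X : ℝ) * √(X : ℝ) = 3 * X := by
    rw [mul_assoc, ← pow_two, hsX2]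
  have hb := IIh_bound (M₀ := M₀) (X := X) (J := 10 * X) (T := T) (L := L) (x := x) (ν := ν) (D := D)
    (W := W) (V := 3 * √(X : ℝ)) hx0 hM₀1 hX1 hν1 hW0 hr (by linarith) (by
      rw [hJr, mul_pow, hsX2]; linarith) (by
      rw [hJr]
      calc W * √(X : ℝ) ≤ √(X : ℝ) * √(X : ℝ) := mul_le_mul_of_nonneg_right hWX (by positivity)
        _ = X := by rw [← pow_two, hsX2]
        _ ≤ 10 * X := by linarith) hT1 hT2 hL1 hL2 (by
      have h1 : (X : ℝ) ≤ 2 ^ L := by exact_mod_cast hL1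
      exact le_trans hxX h1) hD1 hD
  refine le_trans hb ?_
  have e1 : 8 * (3 * √(X : ℝ)) * √(X : ℝ) * hs (10 * X) ≤ 24 * (u * y) := by
    calc 8 * (3 * √(X : ℝ)) * √(X : ℝ) * hs (10 * X) =
        8 * (3 * √(X : ℝ) * √(X : ℝ)) * hs (10 * X) := by ring
      _ = 24 * (X * hs (10 * X)) := by rw [hVX]; ring
      _ ≤ 24 * (u * y) := by
          apply mul_le_mul_of_nonneg_left _ (by norm_num)
          exact mul_le_mul hXu hhs hhs0 hu0.le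
  have e3 : (T : ℝ) * (3000 * ((L + 1) * (3 * √(X : ℝ) * √(X : ℝ))) +
      192 * (x * √(D * hs (10 * X)))) ≤ y * (9000 * (y * u) + 192 * u) := by
    rw [hVX]
    apply mul_le_mul hTy _ (by positivity) hy0.le
    have : ((L : ℝ) + 1) * (3 * X) ≤ y * (3 * u) := by
      apply mul_le_mul hLy _ (by positivity) hy0.le
      linarith
    linarith
  have e4 : 8 * (3 * √(X : ℝ)) * hs (10 * X) * W ≤ 24 * u := by
    calc 8 * (3 * √(X : ℝ)) * hs (10 * X) * W = 24 * (√(X : ℝ) * hs (10 * X) * W) := by ring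
      _ ≤ 24 * (√(X : ℝ) * y * W) := by
          apply mul_le_mul_of_nonneg_left _ (by norm_num)
          apply mul_le_mul_of_nonneg_right _ hW0.le
          exact mul_le_mul_of_nonneg_left hhs hsX0
      _ ≤ 24 * u := by linarith
  have e6 : ((L : ℝ) + 1) * (8 * (3 * √(X : ℝ)) * √(X : ℝ) * hs (10 * X) + 8 * x +
      8 * (3 * √(X : ℝ)) * hs (10 * X) * W) ≤ y * (24 * (u * y) + 8 * u + 24 * u) := by
    apply mul_le_mul hLy _ (by positivity) hy0.le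
    linarith
  have e9 : y * u ≤ y ^ 2 * u := by
    apply mul_le_mul_of_nonneg_right _ hu0.le
    calc y = y ^ 1 := (pow_one y).symm
      _ ≤ y ^ 2 := pow_le_pow_right₀ hy1 (by norm_num)
  have e10 : 24 * (u * y) + y * (9000 * (y * u) + 192 * u) + y * (24 * (u * y) + 8 * u + 24 * u) =
      9024 * (y ^ 2 * u) + 248 * (y * u) := by ring
  have e11 : 0 ≤ y ^ 2 * u := by positivity
  linarith

/-- The diagonal bound. -/
theorem diag {M₀ X : ℕ} {x y u : ℝ} (hy1 : 1 ≤ y) (hx1 : 1 ≤ x)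
    (hX1 : 1 ≤ X) (hXu : (X : ℝ) ≤ u) (hhs : hs (10 * X) ≤ y) :
    IIh M₀ X x 0 ≤ 24 * (u * y) + 2 * √(X : ℝ) * x := by
  have hXr : (1 : ℝ) ≤ X := by exact_mod_cast hX1
  have hsX2 : √(X : ℝ) ^ 2 = X := Real.sq_sqrt (by linarith)
  have hsX0 : 0 ≤ √(X : ℝ) := Real.sqrt_nonneg _
  have hhs0 := hs_nonneg (10 * X)
  have hJr : ((10 * X : ℕ) : ℝ) = 10 * X := by push_cast; ring
  have hVX : 3 * √(X : ℝ) * √(X : ℝ) = 3 * X := by
    rw [mul_assoc, ← pow_two, hsX2]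
  have hb := IIh_zero (M₀ := M₀) (X := X) (J := 10 * X) (x := x) (V := 3 * √(X : ℝ)) (by linarith) hX1
    (by linarith) (by rw [hJr, mul_pow, hsX2]; linarith)
  refine le_trans hb ?_
  have e1 : 8 * (3 * √(X : ℝ)) * √(X : ℝ) * hs (10 * X) ≤ 24 * (u * y) := by
    calc 8 * (3 * √(X : ℝ)) * √(X : ℝ) * hs (10 * X) =
        8 * (3 * √(X : ℝ) * √(X : ℝ)) * hs (10 * X) := by ring
      _ = 24 * (X * hs (10 * X)) := by rw [hVX]; ring
      _ ≤ 24 * (u * y) := by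
          apply mul_le_mul_of_nonneg_left _ (by norm_num)
          exact mul_le_mul hXu hhs hhs0 (by linarith)
  linarith

/-- The final arithmetic. -/
theorem final_arith {m : ℕ} {C q p B nZ P' v y x : ℝ} (hy1 : 1 ≤ y)
    (hv1 : 1 ≤ v) (hC : 1 ≤ C) (hq1 : 1 ≤ q) (hp1 : 1 ≤ p) (hP' : 0 ≤ P')
    (hx : x = y ^ (6 * m + 36)) (k4 : 16 * (C ^ 2 * q ^ 4 * p ^ 2) ≤ y)
    (hB0 : 0 ≤ B) (hB2 : B ≤ y ^ 2) (hn0 : 0 < nZ) (hn1 : y ^ (2 * m) ≤ nZ * v ^ 2)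
    (hW'1 : 2 * p * P' ≤ v * y ^ (m + 5)) :
    8 * C ^ 2 * q ^ 4 * p ^ 2 * B ^ 2 *
      ((nZ * (2 * p * P')) * (v * y ^ (9 * m + 59)) +
        (nZ * (2 * p * P')) ^ 2 * (v ^ 2 * y ^ (6 * m + 46))) / (x * nZ ^ 2) ≤
    v ^ 4 * y ^ (2 * m + 36) := by
  have hy0 : 0 < y := by linarith
  have hv0 : 0 < v := by linarith
  have hx0 : 0 < x := by rw [hx]; positivity
  rw [div_le_iff₀ (by positivity)]
  set W' : ℝ := 2 * p * P' with hW'
  have hW'0 : 0 ≤ W' := by positivity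
  have f1 : nZ * W' * (v * y ^ (9 * m + 59)) ≤ v ^ 4 * (nZ ^ 2 * x * y ^ (2 * m + 28)) := by
    calc nZ * W' * (v * y ^ (9 * m + 59)) ≤ nZ * (v * y ^ (m + 5)) * (v * y ^ (9 * m + 59)) := by
          apply mul_le_mul_of_nonneg_right _ (by positivity)
          exact mul_le_mul_of_nonneg_left hW'1 hn0.le
      _ = v ^ 2 * (nZ * (y ^ (2 * m) * (x * y ^ (2 * m + 28)))) := by
          have : y ^ (m + 5) * y ^ (9 * m + 59) = y ^ (2 * m) * (x * y ^ (2 * m + 28)) := by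
            rw [hx, ← pow_add, ← pow_add, ← pow_add]; congr 1; ring
          calc nZ * (v * y ^ (m + 5)) * (v * y ^ (9 * m + 59)) =
              v ^ 2 * (nZ * (y ^ (m + 5) * y ^ (9 * m + 59))) := by ring
            _ = _ := by rw [this]
      _ ≤ v ^ 2 * (nZ * ((nZ * v ^ 2) * (x * y ^ (2 * m + 28)))) := by
          apply mul_le_mul_of_nonneg_left _ (by positivity)
          apply mul_le_mul_of_nonneg_left _ hn0.le
          exact mul_le_mul_of_nonneg_right hn1 (by positivity)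
      _ = _ := by ring
  have f2 : (nZ * W') ^ 2 * (v ^ 2 * y ^ (6 * m + 46)) ≤
      v ^ 4 * (nZ ^ 2 * x * y ^ (2 * m + 28)) := by
    have g1 : W' ^ 2 ≤ v ^ 2 * y ^ (2 * m + 10) := by
      calc W' ^ 2 ≤ (v * y ^ (m + 5)) ^ 2 := pow_le_pow_left₀ hW'0 hW'1 2
        _ = v ^ 2 * y ^ (2 * m + 10) := by
            rw [mul_pow, ← pow_mul]
            have : (m + 5) * 2 = 2 * m + 10 := by ring
            rw [this]
    calc (nZ * W') ^ 2 * (v ^ 2 * y ^ (6 * m + 46)) =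
        v ^ 2 * (nZ ^ 2 * (W' ^ 2 * y ^ (6 * m + 46))) := by ring
      _ ≤ v ^ 2 * (nZ ^ 2 * ((v ^ 2 * y ^ (2 * m + 10)) * y ^ (6 * m + 46))) := by
          apply mul_le_mul_of_nonneg_left _ (by positivity)
          apply mul_le_mul_of_nonneg_left _ (by positivity)
          exact mul_le_mul_of_nonneg_right g1 (by positivity)
      _ = v ^ 4 * (nZ ^ 2 * (x * y ^ (2 * m + 20))) := by
          have : y ^ (2 * m + 10) * y ^ (6 * m + 46) = x * y ^ (2 * m + 20) := by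
            rw [hx, ← pow_add, ← pow_add]; congr 1; ring
          calc v ^ 2 * (nZ ^ 2 * ((v ^ 2 * y ^ (2 * m + 10)) * y ^ (6 * m + 46))) =
              v ^ 4 * (nZ ^ 2 * (y ^ (2 * m + 10) * y ^ (6 * m + 46))) := by ring
            _ = _ := by rw [this]
      _ ≤ v ^ 4 * (nZ ^ 2 * (x * y ^ (2 * m + 28))) := by
          apply mul_le_mul_of_nonneg_left _ (by positivity)
          apply mul_le_mul_of_nonneg_left _ (by positivity)
          apply mul_le_mul_of_nonneg_left _ hx0.le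
          exact pow_le_pow_right₀ hy1 (by omega)
      _ = _ := by ring
  have f3 : B ^ 2 ≤ y ^ 4 := by
    calc B ^ 2 ≤ (y ^ 2) ^ 2 := pow_le_pow_left₀ hB0 hB2 2
      _ = y ^ 4 := by rw [← pow_mul]
  calc 8 * C ^ 2 * q ^ 4 * p ^ 2 * B ^ 2 * (nZ * W' * (v * y ^ (9 * m + 59)) +
        (nZ * W') ^ 2 * (v ^ 2 * y ^ (6 * m + 46)))
      ≤ 8 * C ^ 2 * q ^ 4 * p ^ 2 * y ^ 4 * (v ^ 4 * (nZ ^ 2 * x * y ^ (2 * m + 28)) +
        v ^ 4 * (nZ ^ 2 * x * y ^ (2 * m + 28))) := by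
        apply mul_le_mul _ (by linarith) (by positivity) (by positivity)
        exact mul_le_mul_of_nonneg_left f3 (by positivity)
    _ = (16 * (C ^ 2 * q ^ 4 * p ^ 2)) * (v ^ 4 * (y ^ (2 * m + 32) * (nZ ^ 2 * x))) := by
        have : y ^ (2 * m + 32) = y ^ 4 * y ^ (2 * m + 28) := by rw [← pow_add]; congr 1; ring
        rw [this]; ring
    _ ≤ y * (v ^ 4 * (y ^ (2 * m + 32) * (nZ ^ 2 * x))) :=
        mul_le_mul_of_nonneg_right k4 (by positivity)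
    _ = v ^ 4 * y ^ (2 * m + 33) * (x * nZ ^ 2) := by
        have : y ^ (2 * m + 33) = y ^ (2 * m + 32) * y := by rw [← pow_succ]
        rw [this]; ring
    _ ≤ v ^ 4 * y ^ (2 * m + 36) * (x * nZ ^ 2) := by
        apply mul_le_mul_of_nonneg_right _ (by positivity)
        apply mul_le_mul_of_nonneg_left _ (by positivity)
        exact pow_le_pow_right₀ hy1 (by omega)

end Run7.h770
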