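import Mathlib
import Pool.Agent.Run7.h770.Param2

/-!
# The measure of the set of bad radii
-/

set_option autoImplicit false

open Finset MeasureTheory

namespace Run7.h770

theorem c1_ok {m H : ℕ} {y v q x ρ : ℝ} (hy1 : 1 ≤ y) (hv1 : 1 ≤ v) (hy8 : 10 ^ 8 ≤ y)
    (hvm : v ^ 2 ≤ y ^ (m + 7)) (hq : 8 * q ^ 2 ≤ y)
    (hx : x = (y ^ (3 * m + 18)) ^ 2) (hρ : 1 / ρ ^ 2 = 400 * v ^ 2 * x)
    (hH1 : v * y ^ (3 * m + 21) ≤ H) :
    2 * q ^ 2 * (1 / ρ ^ 2) ^ (2 * m + 14 + 1) ≤ (H : ℝ) ^ (2 * (2 * m + 14)) := by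
  have hy0 : 0 < y := by linarith
  have hv0 : 0 < v := by linarith
  have h1 : 1 / ρ ^ 2 ≤ v ^ 2 * y ^ (6 * m + 37) := by
    rw [hρ]
    calc 400 * v ^ 2 * x = v ^ 2 * (400 * y ^ (6 * m + 36)) := by
          have : y ^ (6 * m + 36) = x := by rw [hx, ← pow_mul]; congr 1; ring
          rw [this]; ring
      _ ≤ v ^ 2 * y ^ (6 * m + 37) := by
          apply mul_le_mul_of_nonneg_left _ (by positivity)
          exact absorb hy1 (by linarith) (by omega)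
  have h0 : 0 ≤ 1 / ρ ^ 2 := by positivity
  have hq2 : 2 * q ^ 2 ≤ y := by
    have := sq_nonneg q
    linarith
  calc 2 * q ^ 2 * (1 / ρ ^ 2) ^ (2 * m + 14 + 1) ≤
      y * (v ^ 2 * y ^ (6 * m + 37)) ^ (2 * m + 14 + 1) :=
        mul_le_mul hq2 (pow_le_pow_left₀ h0 h1 _) (by positivity) hy0.le
    _ = v ^ 2 * (y ^ ((6 * m + 37) * (2 * m + 15) + 1) * v ^ (2 * (2 * m + 14))) := by
        rw [mul_pow, ← pow_mul, ← pow_mul, pow_succ y ((6 * m + 37) * (2 * m + 15))]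
        have : v ^ (2 * (2 * m + 14 + 1)) = v ^ 2 * v ^ (2 * (2 * m + 14)) := by
          rw [← pow_add]; congr 1; ring
        rw [this]; ring
    _ ≤ y ^ (m + 7) * (y ^ ((6 * m + 37) * (2 * m + 15) + 1) * v ^ (2 * (2 * m + 14))) :=
        mul_le_mul_of_nonneg_right hvm (by positivity)
    _ = y ^ ((m + 7) + ((6 * m + 37) * (2 * m + 15) + 1)) * v ^ (2 * (2 * m + 14)) := by
        rw [← mul_assoc, ← pow_add]
    _ ≤ y ^ ((3 * m + 21) * (2 * (2 * m + 14))) * v ^ (2 * (2 * m + 14)) :=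
        mul_le_mul_of_nonneg_right (pow_le_pow_right₀ hy1 (exp1 m)) (by positivity)
    _ = (v * y ^ (3 * m + 21)) ^ (2 * (2 * m + 14)) := by
        rw [mul_pow, ← pow_mul]; ring
    _ ≤ (H : ℝ) ^ (2 * (2 * m + 14)) := pow_le_pow_left₀ (by positivity) hH1 _

theorem c2_ok {m H : ℕ} {y v C q x : ℝ} (hy1 : 1 ≤ y) (hv1 : 1 ≤ v) (hC : 1 ≤ C)
    (hvm : v ^ 2 ≤ y ^ (m + 7)) (k2 : 4 * (C * q ^ 2) ≤ y)
    (hx : x = (y ^ (3 * m + 18)) ^ 2) (hsx : √x = y ^ (3 * m + 18))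
    (hH2 : (H : ℝ) ≤ 2 * (v * y ^ (3 * m + 21))) :
    C * q ^ 2 * (H : ℝ) ^ 2 ≤ x * √x := by
  have hy0 : 0 < y := by linarith
  have hv0 : 0 < v := by linarith
  rw [hsx]
  calc C * q ^ 2 * (H : ℝ) ^ 2 ≤ C * q ^ 2 * (2 * (v * y ^ (3 * m + 21))) ^ 2 := by
        apply mul_le_mul_of_nonneg_left _ (by positivity)
        exact pow_le_pow_left₀ (by positivity) hH2 2
    _ = v ^ 2 * ((4 * (C * q ^ 2)) * y ^ (6 * m + 42)) := by
        have : y ^ (6 * m + 42) = (y ^ (3 * m + 21)) ^ 2 := by rw [← pow_mul]; congr 1; ring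
        rw [this]; ring
    _ ≤ y ^ (m + 7) * y ^ (6 * m + 43) := by
        apply mul_le_mul hvm (absorb hy1 k2 (by omega)) (by positivity) (by positivity)
    _ = y ^ (7 * m + 50) := by rw [← pow_add]; congr 1; ring
    _ ≤ y ^ (9 * m + 54) := pow_le_pow_right₀ hy1 (by omega)
    _ = x * y ^ (3 * m + 18) := by rw [hx, ← pow_mul, ← pow_add]; congr 1; ring

theorem c5_ok {m P : ℕ} {y v p Z x ρ : ℝ} (hy1 : 1 ≤ y) (hv1 : 1 ≤ v) (hy8 : 10 ^ 8 ≤ y)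
    (hvm : v ≤ y ^ (m + 7)) (hp : 0 ≤ p) (k3 : 4 * p ≤ y) (hZ0 : 0 ≤ Z) (hZ1 : Z * v ^ 2 ≤ y ^ (2 * m + 2))
    (hρ : ρ ^ 2 * x = 1 / (400 * v ^ 2)) (hP1 : v * y ^ (m + 4) ≤ P) :
    2 * p * (256 * Z / (ρ ^ 2 * x) ^ 2) ^ (m + 6 + 1) ≤ (P : ℝ) ^ (2 * (m + 6) + 1) := by
  have hy0 : 0 < y := by linarith
  have hv0 : 0 < v := by linarith
  have h1 : 256 * Z / (ρ ^ 2 * x) ^ 2 ≤ v ^ 2 * y ^ (2 * m + 3) := by
    have h2 : 256 * Z / (ρ ^ 2 * x) ^ 2 = 40960000 * (v ^ 2 * (Z * v ^ 2)) := by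
      rw [hρ]; field_simp; norm_num; ring
    rw [h2]
    calc 40960000 * (v ^ 2 * (Z * v ^ 2)) ≤ 40960000 * (v ^ 2 * y ^ (2 * m + 2)) := by
          apply mul_le_mul_of_nonneg_left _ (by norm_num)
          exact mul_le_mul_of_nonneg_left hZ1 (by positivity)
      _ = v ^ 2 * (40960000 * y ^ (2 * m + 2)) := by ring
      _ ≤ v ^ 2 * y ^ (2 * m + 3) := by
          apply mul_le_mul_of_nonneg_left _ (by positivity)
          exact absorb hy1 (by linarith) (by omega)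
  have h0 : 0 ≤ 256 * Z / (ρ ^ 2 * x) ^ 2 := by positivity
  calc 2 * p * (256 * Z / (ρ ^ 2 * x) ^ 2) ^ (m + 6 + 1) ≤
      y * (v ^ 2 * y ^ (2 * m + 3)) ^ (m + 6 + 1) :=
        mul_le_mul (by linarith) (pow_le_pow_left₀ h0 h1 _) (by positivity) hy0.le
    _ = v * (y ^ ((2 * m + 3) * (m + 7) + 1) * v ^ (2 * (m + 6) + 1)) := by
        rw [mul_pow, ← pow_mul, ← pow_mul, pow_succ y ((2 * m + 3) * (m + 7))]
        have : v ^ (2 * (m + 6 + 1)) = v * v ^ (2 * (m + 6) + 1) := by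
          rw [← pow_succ']; congr 1
        rw [this]; ring
    _ ≤ y ^ (m + 7) * (y ^ ((2 * m + 3) * (m + 7) + 1) * v ^ (2 * (m + 6) + 1)) :=
        mul_le_mul_of_nonneg_right hvm (by positivity)
    _ = y ^ ((m + 7) + ((2 * m + 3) * (m + 7) + 1)) * v ^ (2 * (m + 6) + 1) := by
        rw [← mul_assoc, ← pow_add]
    _ ≤ y ^ ((m + 4) * (2 * (m + 6) + 1)) * v ^ (2 * (m + 6) + 1) :=
        mul_le_mul_of_nonneg_right (pow_le_pow_right₀ hy1 (exp2 m)) (by positivity)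
    _ = (v * y ^ (m + 4)) ^ (2 * (m + 6) + 1) := by
        rw [mul_pow, ← pow_mul]; ring
    _ ≤ (P : ℝ) ^ (2 * (m + 6) + 1) := pow_le_pow_left₀ (by positivity) hP1 _

theorem c6_ok {m M₀ : ℕ} {y C q B : ℝ} (hy1 : 1 ≤ y) (hC : 1 ≤ C) (k2 : 4 * (C * q ^ 2) ≤ y)
    (hB2 : B ≤ y ^ 2) (hM1 : (M₀ : ℝ) ≤ y ^ (4 * m + 20)) :
    C * q ^ 2 * (B * √(2 * (M₀ * √(M₀ : ℝ)))) ≤ y ^ (3 * m + 18) := by
  have hy0 : 0 < y := by linarith
  have h1 : √(M₀ : ℝ) ≤ y ^ (2 * m + 10) :=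
    sqrt_pow_le hy1 (le_trans hM1 (le_of_eq (by congr 1; ring)))
  have h2 : √(2 * (M₀ * √(M₀ : ℝ))) ≤ 2 * y ^ (3 * m + 15) := by
    rw [Real.sqrt_le_iff]
    refine ⟨by positivity, ?_⟩
    calc 2 * ((M₀ : ℝ) * √(M₀ : ℝ)) ≤ 2 * (y ^ (4 * m + 20) * y ^ (2 * m + 10)) := by
          apply mul_le_mul_of_nonneg_left _ (by norm_num)
          exact mul_le_mul hM1 h1 (Real.sqrt_nonneg _) (by positivity)
      _ = 2 * y ^ (6 * m + 30) := by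
          rw [← pow_add]; congr 2; ring
      _ ≤ 4 * y ^ (6 * m + 30) := by
          have : 0 < y ^ (6 * m + 30) := by positivity
          linarith
      _ = (2 * y ^ (3 * m + 15)) ^ 2 := by
          rw [mul_pow, ← pow_mul]
          have : (3 * m + 15) * 2 = 6 * m + 30 := by ring
          rw [this]; norm_num
  calc C * q ^ 2 * (B * √(2 * (M₀ * √(M₀ : ℝ)))) ≤
      C * q ^ 2 * (y ^ 2 * (2 * y ^ (3 * m + 15))) := by
        apply mul_le_mul_of_nonneg_left _ (by positivity)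
        exact mul_le_mul hB2 h2 (Real.sqrt_nonneg _) (by positivity)
    _ = (2 * (C * q ^ 2)) * y ^ (3 * m + 17) := by
        have : y ^ (3 * m + 17) = y ^ 2 * y ^ (3 * m + 15) := by
          rw [← pow_add]; congr 1; ring
        rw [this]; ring
    _ ≤ y ^ (3 * m + 18) := by
        apply absorb hy1 _ (by omega)
        have : 0 ≤ C * q ^ 2 := by positivity
        linarith

theorem n_ok {m Z : ℕ} {y v cN nZ : ℝ} (hy1 : 1 ≤ y) (hv1 : 1 ≤ v) (hcN : 0 < cN) (hyN : 2 / cN ≤ y)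
    (hZr : (1 : ℝ) ≤ Z) (hZ1 : (Z : ℝ) ≤ y ^ (2 * m + 2)) (hZ2 : y ^ (2 * m + 2) / 2 ≤ Z * v ^ 2)
    (hn : cN * (Z : ℝ) ^ (1 - (1 : ℝ) / ((2 * m + 2 : ℕ) : ℝ)) ≤ nZ) :
    y ^ (2 * m) ≤ nZ * v ^ 2 := by
  have hy0 : 0 < y := by linarith
  have hv0 : 0 < v := by linarith
  refine le_trans ?_ (mul_le_mul_of_nonneg_right hn (by positivity))
  have h1 := rpow_root hy1 (b := 2 * m + 2) (by omega) (Nat.cast_nonneg Z) hZ1
  have hZ0r : (0 : ℝ) < Z := by linarith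
  rw [Real.rpow_sub hZ0r, Real.rpow_one]
  have h2 : 0 < (Z : ℝ) ^ ((1 : ℝ) / ((2 * m + 2 : ℕ) : ℝ)) := Real.rpow_pos_of_pos hZ0r _
  have h3 : (Z : ℝ) / y ≤ (Z : ℝ) / (Z : ℝ) ^ ((1 : ℝ) / ((2 * m + 2 : ℕ) : ℝ)) :=
    div_le_div_of_nonneg_left hZ0r.le h2 h1
  have h4 : y ^ (2 * m) ≤ cN * (Z / y) * v ^ 2 := by
    have h5 : 1 ≤ cN * y / 2 := by
      rw [div_le_iff₀ hcN] at hyN
      linarith
    have h6 : y ^ (2 * m + 2) / 2 / y ≤ Z * v ^ 2 / y := div_le_div_of_nonneg_right hZ2 hy0.le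
    have h7 : cN * (y ^ (2 * m + 2) / 2 / y) = (cN * y / 2) * y ^ (2 * m) := by
      rw [pow_add]; field_simp
    have h8 : cN * (y ^ (2 * m + 2) / 2 / y) ≤ cN * (Z * v ^ 2 / y) :=
      mul_le_mul_of_nonneg_left h6 hcN.le
    rw [h7] at h8
    have h9 : 0 < y ^ (2 * m) := by positivity
    calc y ^ (2 * m) ≤ (cN * y / 2) * y ^ (2 * m) := le_mul_of_one_le_left h9.le h5
      _ ≤ cN * (Z * v ^ 2 / y) := h8
      _ = cN * (Z / y) * v ^ 2 := by ring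
  refine le_trans h4 ?_
  apply mul_le_mul_of_nonneg_right _ (by positivity)
  exact mul_le_mul_of_nonneg_left h3 hcN.le

theorem H_ok {y v : ℝ} (hy1 : 1 ≤ y) (hv1 : 1 ≤ v) (a : ℕ) :
    v * y ^ a ≤ (⌈v * y ^ a⌉₊ : ℝ) ∧ (⌈v * y ^ a⌉₊ : ℝ) ≤ 2 * (v * y ^ a) ∧ 0 < ⌈v * y ^ a⌉₊ := by
  have h0 : 0 < v * y ^ a := by positivity
  refine ⟨Nat.le_ceil _, ?_, Nat.ceil_pos.mpr h0⟩
  have h1 := (Nat.ceil_lt_add_one h0.le).le
  have h2 : 1 ≤ y ^ a := one_le_pow₀ hy1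
  have h3 : 1 ≤ v * y ^ a := one_le_mul_of_one_le_of_one_le hv1 h2
  linarith

theorem X_ok {m H : ℕ} {y v q : ℝ} (hy1 : 1 ≤ y) (hv1 : 1 ≤ v) (hq1 : 1 ≤ q) (k1 : 8 * q ^ 2 ≤ y)
    (hH1 : v * y ^ (3 * m + 21) ≤ H) (hH2 : (H : ℝ) ≤ 2 * (v * y ^ (3 * m + 21))) {X : ℝ}
    (hX : X = 2 * (q * H) ^ 2) :
    X ≤ v ^ 2 * y ^ (6 * m + 43) ∧ y ^ (6 * m + 42) ≤ X := by
  have hy0 : 0 < y := by linarith
  have hv0 : 0 < v := by linarith
  have e1 : y ^ (6 * m + 42) = (y ^ (3 * m + 21)) ^ 2 := by rw [← pow_mul]; congr 1; ring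
  constructor
  · rw [hX]
    calc 2 * (q * (H : ℝ)) ^ 2 ≤ 2 * (q * (2 * (v * y ^ (3 * m + 21)))) ^ 2 := by
          apply mul_le_mul_of_nonneg_left _ (by norm_num)
          apply pow_le_pow_left₀ (by positivity)
          exact mul_le_mul_of_nonneg_left hH2 (by linarith)
      _ = v ^ 2 * ((8 * q ^ 2) * y ^ (6 * m + 42)) := by rw [e1]; ring
      _ ≤ v ^ 2 * y ^ (6 * m + 43) := by
          apply mul_le_mul_of_nonneg_left _ (by positivity)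
          exact absorb hy1 k1 (by omega)
  · rw [hX, e1]
    have h1 : y ^ (3 * m + 21) ≤ v * y ^ (3 * m + 21) := le_mul_of_one_le_left (by positivity) hv1
    have h2 : (y ^ (3 * m + 21)) ^ 2 ≤ (H : ℝ) ^ 2 :=
      pow_le_pow_left₀ (by positivity) (le_trans h1 hH1) 2
    have h3 : (H : ℝ) ^ 2 ≤ (q * H) ^ 2 := by
      apply pow_le_pow_left₀ (by positivity)
      exact le_mul_of_one_le_left (Nat.cast_nonneg H) hq1
    have h4 : 0 ≤ (q * (H : ℝ)) ^ 2 := by positivity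
    linarith

theorem M_ok {m : ℕ} {y : ℝ} (hy8 : 10 ^ 8 ≤ y) :
    (⌊y ^ (4 * m + 20)⌋₊ : ℝ) ≤ y ^ (4 * m + 20) ∧
    4 * y ^ (4 * m + 12) ≤ (⌊y ^ (4 * m + 20)⌋₊ : ℝ) ∧ 1 ≤ ⌊y ^ (4 * m + 20)⌋₊ := by
  have hy1 : 1 ≤ y := by linarith
  have h1 := Nat.lt_floor_add_one (y ^ (4 * m + 20))
  have h2 : y ≤ y ^ (4 * m + 20) := by
    calc y = y ^ 1 := (pow_one y).symm
      _ ≤ _ := pow_le_pow_right₀ hy1 (by omega)
  have h3 : 8 * y ^ (4 * m + 12) ≤ y ^ (4 * m + 20) := absorb hy1 (by linarith) (by omega)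
  refine ⟨Nat.floor_le (by positivity), by linarith, ?_⟩
  exact Nat.le_floor (by push_cast; linarith)

theorem Z_ok {m : ℕ} {y v : ℝ} (hy8 : 10 ^ 8 ≤ y) (hv1 : 1 ≤ v) (hv2 : v ^ 2 ≤ y ^ (2 * m + 1)) :
    (⌊y ^ (2 * m + 2) / v ^ 2⌋₊ : ℝ) * v ^ 2 ≤ y ^ (2 * m + 2) ∧
    y ^ (2 * m + 2) / 2 ≤ (⌊y ^ (2 * m + 2) / v ^ 2⌋₊ : ℝ) * v ^ 2 ∧
    1 ≤ ⌊y ^ (2 * m + 2) / v ^ 2⌋₊ := by
  have hy1 : 1 ≤ y := by linarith
  have hy0 : 0 < y := by linarith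
  have hv0 : 0 < v := by linarith
  have h0 : y ≤ y ^ (2 * m + 2) / v ^ 2 := by
    rw [le_div_iff₀ (by positivity)]
    calc y * v ^ 2 ≤ y * y ^ (2 * m + 1) := mul_le_mul_of_nonneg_left hv2 hy0.le
      _ = y ^ (2 * m + 2) := by rw [← pow_succ']
  have h1 := Nat.lt_floor_add_one (y ^ (2 * m + 2) / v ^ 2)
  have h2 : (⌊y ^ (2 * m + 2) / v ^ 2⌋₊ : ℝ) ≤ y ^ (2 * m + 2) / v ^ 2 :=
    Nat.floor_le (by positivity)
  refine ⟨?_, ?_, ?_⟩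
  · rwa [le_div_iff₀ (by positivity)] at h2
  · have h3 : y ^ (2 * m + 2) / v ^ 2 / 2 ≤ ⌊y ^ (2 * m + 2) / v ^ 2⌋₊ := by linarith
    have h4 := mul_le_mul_of_nonneg_right h3 (by positivity : 0 ≤ v ^ 2)
    refine le_trans (le_of_eq ?_) h4
    field_simp
  · exact Nat.le_floor (by push_cast; linarith)

theorem W_ok {m P Z : ℕ} {y v p : ℝ} (hy1 : 1 ≤ y) (hv1 : 1 ≤ v) (hp : 0 ≤ p) (k3 : 4 * p ≤ y)
    (hP2 : (P : ℝ) ≤ 2 * (v * y ^ (m + 4))) (hZ1 : (Z : ℝ) * v ^ 2 ≤ y ^ (2 * m + 2)) :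
    2 * p * P * √(Z : ℝ) ≤ y ^ (2 * m + 6) ∧ 2 * p * P ≤ v * y ^ (m + 5) := by
  have hy0 : 0 < y := by linarith
  have hv0 : 0 < v := by linarith
  have hsZ : √(Z : ℝ) * v ≤ y ^ (m + 1) := by
    have h1 : √((Z : ℝ) * v ^ 2) = √(Z : ℝ) * v := by
      rw [Real.sqrt_mul (Nat.cast_nonneg _), Real.sqrt_sq hv0.le]
    rw [← h1]
    exact sqrt_pow_le hy1 (le_trans hZ1 (le_of_eq (by congr 1)))
  constructor
  · calc 2 * p * (P : ℝ) * √(Z : ℝ) ≤ 2 * p * (2 * (v * y ^ (m + 4))) * √(Z : ℝ) := by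
          apply mul_le_mul_of_nonneg_right _ (Real.sqrt_nonneg _)
          exact mul_le_mul_of_nonneg_left hP2 (by positivity)
      _ = (4 * p) * (y ^ (m + 4) * (√(Z : ℝ) * v)) := by ring
      _ ≤ (4 * p) * (y ^ (m + 4) * y ^ (m + 1)) := by
          apply mul_le_mul_of_nonneg_left _ (by positivity)
          exact mul_le_mul_of_nonneg_left hsZ (by positivity)
      _ = (4 * p) * y ^ (2 * m + 5) := by rw [← pow_add]; congr 2; ring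
      _ ≤ y ^ (2 * m + 6) := absorb hy1 k3 (by omega)
  · calc 2 * p * (P : ℝ) ≤ 2 * p * (2 * (v * y ^ (m + 4))) :=
          mul_le_mul_of_nonneg_left hP2 (by positivity)
      _ = v * ((4 * p) * y ^ (m + 4)) := by ring
      _ ≤ v * y ^ (m + 5) := by
          apply mul_le_mul_of_nonneg_left _ hv0.le
          exact absorb hy1 k3 (by omega)

theorem log_ok {m X : ℕ} {A y : ℝ} (hA : A = 2 * (7 * m + 51)) (hy8 : 10 ^ 8 ≤ y)
    (hlog : 4 + A * Real.log y ≤ y) (hX1 : (1 : ℝ) ≤ X) (hX : (X : ℝ) ≤ y ^ (7 * m + 50)) :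
    hs (10 * X) ≤ y ∧ ∀ U : ℕ, (2 : ℝ) ^ U ≤ 2 * X → (U : ℝ) + 1 ≤ y := by
  have hy1 : 1 ≤ y := by linarith
  have hy0 : 0 < y := by linarith
  have hlogy : 0 ≤ Real.log y := Real.log_nonneg hy1
  have hm0 : (0 : ℝ) ≤ m := Nat.cast_nonneg _
  constructor
  · refine le_trans hs_le_log ?_
    have h1 : ((10 * X : ℕ) : ℝ) ≤ y ^ (7 * m + 51) := by
      push_cast
      calc 10 * (X : ℝ) ≤ 10 * y ^ (7 * m + 50) := by linarith
        _ ≤ y ^ (7 * m + 51) := absorb hy1 (by linarith) (by omega)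
    have h2 : Real.log ((10 * X : ℕ) : ℝ) ≤ (7 * m + 51) * Real.log y := by
      have h3 : Real.log ((10 * X : ℕ) : ℝ) ≤ Real.log (y ^ (7 * m + 51)) :=
        Real.log_le_log (by push_cast; positivity) h1
      rw [Real.log_pow] at h3
      push_cast at h3 ⊢
      exact h3
    have h3 : (7 * (m : ℝ) + 51) * Real.log y ≤ A * Real.log y := by
      apply mul_le_mul_of_nonneg_right _ hlogy
      rw [hA]; linarith
    linarith
  · intro U hU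
    have h2X : 2 * (X : ℝ) ≤ y ^ (7 * m + 51) := by
      calc 2 * (X : ℝ) ≤ 2 * y ^ (7 * m + 50) := by linarith
        _ ≤ y ^ (7 * m + 51) := absorb hy1 (by linarith) (by omega)
    have h1 := two_pow_log (le_trans hU h2X)
    rw [Real.log_pow] at h1
    push_cast at h1
    have h2 : 2 * ((7 * (m : ℝ) + 51) * Real.log y) = A * Real.log y := by rw [hA]; ring
    linarith

end Run7.h770
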