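import Mathlib
import Pool.Agent.Run7.h770.Param3

/-!
# The measure of the set of bad radii: assembly
-/

set_option autoImplicit false

open Finset MeasureTheory

namespace Run7.h770

/-- **The measure of the set of bad radii, main case.** -/
theorem param (m : ℕ) (hm3 : 3 ≤ m) : ∃ y₀ : ℝ, 1 ≤ y₀ ∧ ∀ y : ℝ, y₀ ≤ y → ∀ v : ℝ, 1 ≤ v →
    v ^ 3 ≤ y ^ (m + 7) →
    volume (BadR (y ^ (6 * m + 36)) (1 / (20 * v * y ^ (3 * m + 18)))) ≤
      ENNReal.ofReal (v ^ 4 * y ^ (2 * m + 36)) := by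
  classical
  obtain ⟨C, hC, hmix⟩ := mixed_bound_h
  obtain ⟨Cr, hCr, hrep⟩ := rep_bound ((1 : ℝ) / ((7 * m + 50 : ℕ) : ℝ)) (by positivity)
  obtain ⟨Cd, hCd, hdiv⟩ := Pool.Agent.R481.S2.divisor_bound_real
    ((1 : ℝ) / ((10 * m + 48 : ℕ) : ℝ)) (by positivity)
  obtain ⟨cN, hcN, hNN⟩ := card_NN_ge ((1 : ℝ) / ((2 * m + 2 : ℕ) : ℝ)) (by positivity)
  obtain ⟨q, hq⟩ : ∃ q : ℝ, q = 2 * m + 15 := ⟨_, rfl⟩
  obtain ⟨p, hp⟩ : ∃ p : ℝ, p = m + 7 := ⟨_, rfl⟩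
  obtain ⟨A, hA⟩ : ∃ A : ℝ, A = 2 * (7 * m + 51) := ⟨_, rfl⟩
  have hm0 : (0 : ℝ) ≤ m := Nat.cast_nonneg _
  have hq1 : 1 ≤ q := by rw [hq]; linarith
  have hp1 : 1 ≤ p := by rw [hp]; linarith
  have hA0 : 0 ≤ A := by rw [hA]; linarith
  have t1 : 0 ≤ 100 * (C ^ 2 * q ^ 4 * p ^ 2) := by positivity
  have t2 : 0 ≤ 2 / cN := by positivity
  have t3 : 0 ≤ (2 * A + 6) ^ 2 := by positivity
  refine ⟨10 ^ 8 + 100 * (C ^ 2 * q ^ 4 * p ^ 2) + Cr + Cd + 2 / cN + (2 * A + 6) ^ 2,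
    by linarith, ?_⟩
  intro y hy v hv1 hv3
  have hy8 : 10 ^ 8 ≤ y := by linarith
  have hyC : 100 * (C ^ 2 * q ^ 4 * p ^ 2) ≤ y := by linarith
  have hyr : Cr ≤ y := by linarith
  have hyd : Cd + 1 ≤ 2 * y := by linarith
  have hyN : 2 / cN ≤ y := by linarith
  have hyA : (2 * A + 6) ^ 2 ≤ y := by linarith
  clear hy t1 t2 t3
  have hy1 : 1 ≤ y := by linarith
  have hy0 : 0 < y := by linarith
  have hv0 : 0 < v := by linarith
  obtain ⟨k1, k2, k3, k4⟩ := const_bounds hC hq1 hp1 hyC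
  have hlog := log_small hA0 hyA
  -- powers of `v`
  have hv2 : v ^ 2 ≤ y ^ (m + 7) := le_trans (pow_le_pow_right₀ hv1 (by norm_num)) hv3
  have hvv : v ≤ y ^ (m + 7) := by
    refine le_trans ?_ hv2
    calc v = v ^ 1 := (pow_one v).symm
      _ ≤ v ^ 2 := pow_le_pow_right₀ hv1 (by norm_num)
  have hvZ : v ^ 2 ≤ y ^ (2 * m + 1) := by
    have h1 : (v ^ 2) ^ 3 ≤ (y ^ (2 * m + 1)) ^ 3 := by
      calc (v ^ 2) ^ 3 = (v ^ 3) ^ 2 := by ring
        _ ≤ (y ^ (m + 7)) ^ 2 := pow_le_pow_left₀ (by positivity) hv3 2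
        _ = y ^ ((m + 7) * 2) := by rw [← pow_mul]
        _ ≤ y ^ ((2 * m + 1) * 3) := pow_le_pow_right₀ hy1 (by omega)
        _ = (y ^ (2 * m + 1)) ^ 3 := by rw [← pow_mul]
    exact (pow_le_pow_iff_left₀ (by positivity) (by positivity) (by norm_num)).mp h1
  -- the parameters
  obtain ⟨H, hH⟩ : ∃ H : ℕ, H = ⌈v * y ^ (3 * m + 21)⌉₊ := ⟨_, rfl⟩
  obtain ⟨M₀, hM₀⟩ : ∃ M₀ : ℕ, M₀ = ⌊y ^ (4 * m + 20)⌋₊ := ⟨_, rfl⟩
  obtain ⟨Z, hZ⟩ : ∃ Z : ℕ, Z = ⌊y ^ (2 * m + 2) / v ^ 2⌋₊ := ⟨_, rfl⟩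
  obtain ⟨P, hP⟩ : ∃ P : ℕ, P = ⌈v * y ^ (m + 4)⌉₊ := ⟨_, rfl⟩
  obtain ⟨X, hX⟩ : ∃ X : ℕ, X = 2 * ((2 * m + 14 + 1) * H) ^ 2 := ⟨_, rfl⟩
  obtain ⟨hH1, hH2, hH0⟩ := H_ok hy1 hv1 (3 * m + 21)
  rw [← hH] at hH1 hH2 hH0
  obtain ⟨hP1, hP2, hP0⟩ := H_ok hy1 hv1 (m + 4)
  rw [← hP] at hP1 hP2 hP0
  obtain ⟨hM1, hM3, hM₀1⟩ := M_ok (m := m) hy8
  rw [← hM₀] at hM1 hM3 hM₀1
  obtain ⟨hZv, hZ2, hZ0⟩ := Z_ok hy8 hv1 hvZ
  rw [← hZ] at hZv hZ2 hZ0
  have hXr : (X : ℝ) = 2 * (q * H) ^ 2 := by rw [hX, hq]; push_cast; ring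
  obtain ⟨hXu, hX3⟩ := X_ok hy1 hv1 hq1 k1 hH1 hH2 hXr
  have hZr : (1 : ℝ) ≤ Z := by exact_mod_cast hZ0
  have hZ1 : (Z : ℝ) ≤ y ^ (2 * m + 2) := by
    refine le_trans ?_ hZv
    exact le_mul_of_one_le_right (Nat.cast_nonneg _) (one_le_pow₀ hv1)
  obtain ⟨hW1, hW'1⟩ := W_ok hy1 hv1 (by linarith) k3 hP2 hZv
  obtain ⟨u, hu⟩ : ∃ u : ℝ, u = v ^ 2 * y ^ (6 * m + 43) := ⟨_, rfl⟩
  rw [← hu] at hXu
  have huy : u ≤ y ^ (7 * m + 50) := by
    rw [hu]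
    calc v ^ 2 * y ^ (6 * m + 43) ≤ y ^ (m + 7) * y ^ (6 * m + 43) :=
          mul_le_mul_of_nonneg_right hv2 (by positivity)
      _ = y ^ (7 * m + 50) := by rw [← pow_add]; congr 1; ring
  have hXpos : (1 : ℝ) ≤ X := le_trans (one_le_pow₀ hy1) hX3
  have hX1 : 1 ≤ X := by exact_mod_cast hXpos
  have hXy : (X : ℝ) ≤ y ^ (7 * m + 50) := le_trans hXu huy
  obtain ⟨hhs, hlog2⟩ := log_ok hA hy8 hlog hXpos hXy
  have hM₀X : M₀ ≤ X := by
    have : (M₀ : ℝ) ≤ X := le_trans hM1 (le_trans (pow_le_pow_right₀ hy1 (by omega)) hX3)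
    exact_mod_cast this
  have hsX1 : √(X : ℝ) ≤ v * y ^ (3 * m + 22) := by
    rw [Real.sqrt_le_iff]
    refine ⟨by positivity, le_trans hXu ?_⟩
    rw [hu, mul_pow, ← pow_mul]
    apply mul_le_mul_of_nonneg_left _ (by positivity)
    exact pow_le_pow_right₀ hy1 (by omega)
  obtain ⟨T, hT1, hT2⟩ := exists_dyadic hM₀1 hM₀X
  obtain ⟨L, hL1, hL2⟩ := exists_dyadic (le_refl 1) hX1
  rw [mul_one] at hL1 hL2
  have hLy : (L : ℝ) + 1 ≤ y := hlog2 L (by exact_mod_cast hL2)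
  have hTy : (T : ℝ) ≤ y := by
    have h1 : (2 : ℝ) ^ T ≤ 2 * X := by
      have h2 : 2 ^ T ≤ 2 ^ T * M₀ := Nat.le_mul_of_pos_right _ hM₀1
      have h3 : 2 ^ T ≤ 2 * X := le_trans h2 hT2
      exact_mod_cast h3
    have := hlog2 T h1
    linarith
  have hkp : (((m + 6 : ℕ) : ℝ) + 1) = p := by rw [hp]; push_cast; ring
  have hsq : (((2 * m + 14 : ℕ) : ℝ) + 1) = q := by rw [hq]; push_cast; ring
  obtain ⟨W, hW⟩ : ∃ W : ℝ, W = 2 * p * P * √(Z : ℝ) := ⟨_, rfl⟩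
  rw [← hW] at hW1
  have hPr : (0 : ℝ) < P := by exact_mod_cast hP0
  have hsZ0 : 0 < √(Z : ℝ) := Real.sqrt_pos.mpr (by linarith)
  have hp0 : 0 < p := by linarith
  have hW0 : 0 < W := by rw [hW]; positivity
  have hWX : W ≤ √(X : ℝ) := by
    refine le_trans hW1 ?_
    apply Real.le_sqrt_of_sq_le
    rw [← pow_mul]
    exact le_trans (pow_le_pow_right₀ hy1 (by omega)) hX3
  -- the main variables
  obtain ⟨x, hx⟩ : ∃ x : ℝ, x = y ^ (6 * m + 36) := ⟨_, rfl⟩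
  have hx1 : 1 ≤ x := by rw [hx]; exact one_le_pow₀ hy1
  have hx0 : 0 < x := by linarith
  have hxx : x = (y ^ (3 * m + 18)) ^ 2 := by rw [hx, ← pow_mul]; congr 1; ring
  have hsx : √x = y ^ (3 * m + 18) := by rw [hxx, Real.sqrt_sq (by positivity)]
  obtain ⟨ρ, hρ⟩ : ∃ ρ : ℝ, ρ = 1 / (20 * v * y ^ (3 * m + 18)) := ⟨_, rfl⟩
  have hρ0 : 0 < ρ := by rw [hρ]; positivity
  have hρx : ρ ^ 2 * x = 1 / (400 * v ^ 2) := by
    rw [hρ, hxx]; field_simp; norm_num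
  have hρi : 1 / ρ ^ 2 = 400 * v ^ 2 * x := by
    rw [hρ, hxx]; field_simp; norm_num
  have hxX : x ≤ X := by
    refine le_trans ?_ hX3
    rw [hx]; exact pow_le_pow_right₀ hy1 (by omega)
  rw [← hx, ← hρ]
  -- `D`
  obtain ⟨D, hDdef⟩ : ∃ D : ℝ, D = (Cd + 1) * y := ⟨_, rfl⟩
  have hD1 : 1 ≤ D := by
    rw [hDdef]; exact one_le_mul_of_one_le_of_one_le (by linarith) hy1
  have hhs0 := hs_nonneg (10 * X)
  have hD2 : x * √(D * hs (10 * X)) ≤ u := by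
    have g1 : √(D * hs (10 * X)) ≤ y ^ 2 := by
      apply sqrt_pow_le hy1
      have h1 : D ≤ 2 * y ^ 2 := by
        rw [hDdef]
        calc (Cd + 1) * y ≤ (2 * y) * y := mul_le_mul_of_nonneg_right hyd hy0.le
          _ = 2 * y ^ 2 := by ring
      have h2 : D * hs (10 * X) ≤ (2 * y ^ 2) * y := mul_le_mul h1 hhs hhs0 (by positivity)
      have h3 : 2 * y ^ 3 ≤ y ^ (2 * 2) := absorb hy1 (by linarith) (by norm_num)
      have h4 : (2 * y ^ 2) * y = 2 * y ^ 3 := by ring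
      linarith
    calc x * √(D * hs (10 * X)) ≤ x * y ^ 2 := mul_le_mul_of_nonneg_left g1 hx0.le
      _ = y ^ (6 * m + 38) := by rw [hx, ← pow_add]
      _ ≤ y ^ (6 * m + 43) := pow_le_pow_right₀ hy1 (by omega)
      _ ≤ u := by rw [hu]; exact le_mul_of_one_le_left (by positivity) (one_le_pow₀ hv1)
  have hVW : √(X : ℝ) * y * W ≤ u := by
    calc √(X : ℝ) * y * W ≤ (v * y ^ (3 * m + 22)) * y * y ^ (2 * m + 6) := by
          apply mul_le_mul _ hW1 hW0.le (by positivity)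
          exact mul_le_mul_of_nonneg_right hsX1 hy0.le
      _ = v * y ^ (5 * m + 29) := by
          have : y ^ (5 * m + 29) = y ^ (3 * m + 22) * y * y ^ (2 * m + 6) := by
            rw [← pow_succ, ← pow_add]; congr 1; ring
          rw [this]; ring
      _ ≤ v ^ 2 * y ^ (6 * m + 43) := by
          apply mul_le_mul _ (pow_le_pow_right₀ hy1 (by omega)) (by positivity) (by positivity)
          calc v = v ^ 1 := (pow_one v).symm
            _ ≤ v ^ 2 := pow_le_pow_right₀ hv1 (by norm_num)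
      _ = u := hu.symm
  -- the off-diagonal bound
  have hE1 : ∀ ν : ℝ, 1 ≤ |ν| * W → |ν| ≤ W → IIh M₀ X x ν ≤ v ^ 2 * y ^ (6 * m + 46) := by
    intro ν hν1 hν2
    have hν3 : |ν| ≤ y ^ (2 * m + 6) := le_trans hν2 hW1
    refine le_trans (offdiag hy1 hx1 hM₀1 hX1 hν1 (le_trans hν2 hWX) hW0 ?_ hWX hT1 hT2 hL1 hL2 hxX
      hD1 ?_ hXu hhs hTy hLy hD2 hVW) ?_
    · apply Real.le_sqrt_of_sq_le
      calc (2 * |ν|) ^ 2 = 4 * |ν| ^ 2 := by ring
        _ ≤ 4 * (y ^ (2 * m + 6)) ^ 2 := by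
            apply mul_le_mul_of_nonneg_left _ (by norm_num)
            exact pow_le_pow_left₀ (abs_nonneg _) hν3 2
        _ = 4 * y ^ (4 * m + 12) := by
            rw [← pow_mul]
            have : (2 * m + 6) * 2 = 4 * m + 12 := by ring
            rw [this]
        _ ≤ M₀ := hM3
    · intro w hw1 hw2
      have h1 : (w : ℝ) ≤ y ^ (10 * m + 48) := by
        refine le_trans hw2 ?_
        calc ν ^ 2 * x ≤ (y ^ (2 * m + 6)) ^ 2 * x := by
              apply mul_le_mul_of_nonneg_right _ hx0.le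
              rw [← sq_abs]
              exact pow_le_pow_left₀ (abs_nonneg _) hν3 2
          _ = y ^ (10 * m + 48) := by
              rw [hx, ← pow_mul, ← pow_add]; congr 1; ring
      have h2 := rpow_root hy1 (b := 10 * m + 48) (by omega) (Nat.cast_nonneg w) h1
      refine le_trans (hdiv w (by omega)) ?_
      calc Cd * (w : ℝ) ^ ((1 : ℝ) / ((10 * m + 48 : ℕ) : ℝ)) ≤ Cd * y :=
            mul_le_mul_of_nonneg_left h2 hCd.le
        _ ≤ (Cd + 1) * y := mul_le_mul_of_nonneg_right (by linarith) hy0.le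
        _ = D := hDdef.symm
    · rw [hu]
      calc 10 ^ 4 * (y ^ 2 * (v ^ 2 * y ^ (6 * m + 43))) =
          v ^ 2 * (10 ^ 4 * y ^ (6 * m + 45)) := by
            have : y ^ (6 * m + 45) = y ^ 2 * y ^ (6 * m + 43) := by
              rw [← pow_add]; congr 1; ring
            rw [this]; ring
        _ ≤ v ^ 2 * y ^ (6 * m + 46) := by
            apply mul_le_mul_of_nonneg_left _ (by positivity)
            exact absorb hy1 (by linarith) (by omega)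
  -- the diagonal bound
  have hE0 : IIh M₀ X x 0 ≤ v * y ^ (9 * m + 59) := by
    refine le_trans (diag hy1 hx1 hX1 hXu hhs) ?_
    have e2 : u * y ≤ v * y ^ (9 * m + 58) := by
      calc u * y = v * (v * y ^ (6 * m + 44)) := by rw [hu]; ring
        _ ≤ v * (y ^ (m + 7) * y ^ (6 * m + 44)) := by
            apply mul_le_mul_of_nonneg_left _ hv0.le
            exact mul_le_mul_of_nonneg_right hvv (by positivity)
        _ = v * y ^ (7 * m + 51) := by rw [← pow_add]; congr 2; ring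
        _ ≤ v * y ^ (9 * m + 58) := by
            apply mul_le_mul_of_nonneg_left _ hv0.le
            exact pow_le_pow_right₀ hy1 (by omega)
    have e3 : 2 * √(X : ℝ) * x ≤ 2 * (v * y ^ (9 * m + 58)) := by
      calc 2 * √(X : ℝ) * x ≤ 2 * (v * y ^ (3 * m + 22)) * x := by
            apply mul_le_mul_of_nonneg_right _ hx0.le
            exact mul_le_mul_of_nonneg_left hsX1 (by norm_num)
        _ = 2 * (v * y ^ (9 * m + 58)) := by
            have : y ^ (9 * m + 58) = y ^ (3 * m + 22) * x := by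
              rw [hx, ← pow_add]; congr 1; ring
            rw [this]; ring
    have e4 : 26 * y ^ (9 * m + 58) ≤ y ^ (9 * m + 59) := absorb hy1 (by linarith) (by omega)
    have e5 := mul_le_mul_of_nonneg_left e4 hv0.le
    linarith
  -- representation bound
  obtain ⟨B, hB⟩ : ∃ B : ℝ, B = Cr * y := ⟨_, rfl⟩
  have hB0 : 0 ≤ B := by rw [hB]; positivity
  have hB2 : B ≤ y ^ 2 := by
    rw [hB, pow_two]; exact mul_le_mul_of_nonneg_right hyr hy0.le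
  have hBn : ∀ n : ℕ, 1 ≤ n → n ≤ X →
      (((XX (2 * m + 14) H).filter (fun ξ => nn ξ = n)).card : ℝ) ≤ B := by
    intro n hn1 hn2
    refine le_trans (hrep n (by omega) _ (by
      intro z hz
      rw [mem_filter] at hz
      rw [← nn_cast_int, hz.2])) ?_
    have h1 : (n : ℝ) ≤ y ^ (7 * m + 50) := le_trans (by exact_mod_cast hn2) hXy
    have h2 := rpow_root hy1 (b := 7 * m + 50) (by omega) (Nat.cast_nonneg n) h1
    rw [hB]
    exact mul_le_mul_of_nonneg_left h2 hCr.le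
  -- the number of squarefree sums of two squares
  have hn1 := n_ok hy1 hv1 hcN hyN hZr hZ1 hZ2 (hNN Z hZ0)
  have hn0 : (0 : ℝ) < ((NN Z).card : ℝ) := by
    by_contra h
    push Not at h
    have h1 : ((NN Z).card : ℝ) * v ^ 2 ≤ 0 := mul_nonpos_of_nonpos_of_nonneg h (by positivity)
    have h2 : 0 < y ^ (2 * m) := by positivity
    linarith
  have hncard : 0 < (NN Z).card := by exact_mod_cast hn0
  have hc4 : 2 * (Z : ℝ) ≤ ρ * x := by
    have h1 : ρ * x = y ^ (3 * m + 18) / (20 * v) := by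
      rw [hρ, hxx]; field_simp
    rw [h1, le_div_iff₀ (by positivity)]
    have hvle : v ≤ v ^ 2 := by
      calc v = v ^ 1 := (pow_one v).symm
        _ ≤ v ^ 2 := pow_le_pow_right₀ hv1 (by norm_num)
    calc 2 * (Z : ℝ) * (20 * v) = 40 * (Z * v) := by ring
      _ ≤ 40 * (Z * v ^ 2) := by
          apply mul_le_mul_of_nonneg_left _ (by norm_num)
          exact mul_le_mul_of_nonneg_left hvle (Nat.cast_nonneg _)
      _ ≤ 40 * y ^ (2 * m + 2) := mul_le_mul_of_nonneg_left hZv (by norm_num)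
      _ ≤ y ^ (3 * m + 18) := absorb hy1 (by linarith) (by omega)
  have hc3 : ρ ^ 2 * x ≤ 1 := by
    rw [hρx, div_le_one (by positivity)]
    have := one_le_pow₀ hv1 (n := 2)
    linarith
  -- application
  have hmain := hmix (2 * m + 14) H (m + 6) P M₀ X Z x ρ B (v * y ^ (9 * m + 59))
    (v ^ 2 * y ^ (6 * m + 46)) hH0 hP0 hZ0 hx1 hρ0 hB0 (by positivity) hX.ge hBn hE0
    (by rw [hkp, ← hW]; exact hE1)
    (by rw [hsq]; exact c1_ok hy1 hv1 hy8 hv2 k1 hxx hρi hH1)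
    (by rw [hsq]; exact c2_ok hy1 hv1 hC hv2 k2 hxx hsx hH2)
    hc3 hc4
    (by rw [hkp]; exact c5_ok hy1 hv1 hy8 hvv hp0.le k3 (Nat.cast_nonneg _) hZv hρx hP1)
    hncard
    (by rw [hsq, hsx]; exact c6_ok hy1 hC k2 hB2 hM1)
  refine le_trans hmain (ENNReal.ofReal_le_ofReal ?_)
  rw [hsq, hkp]
  exact final_arith hy1 hv1 hC hq1 hp1 (Nat.cast_nonneg _) hx k4 hB0 hB2 hn0 hn1 hW'1

end Run7.h770
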