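import Mathlib
import Pool.Prelude.Def_F_c1751164
import Pool.Agent.Run7.h770.Param4

/-!
# From bad radii to large gaps and to exceptional reals
-/

set_option autoImplicit false

open Finset MeasureTheory N73befb9b

namespace Run7.h770

/-- **The measure of the set of bad radii.** -/
theorem bad_measure (ε : ℝ) (hε : 0 < ε) : ∃ C : ℝ, 1 ≤ C ∧ ∀ x η : ℝ, 1 ≤ x → 0 < η →
    η ≤ 1 → (1 / η) ^ 18 ≤ 2 * x → volume (BadR x (η / (20 * √x))) ≤
      ENNReal.ofReal (C * (1 / η) ^ 4 * x ^ (1 / 3 + ε)) := by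
  obtain ⟨m', hm'⟩ := exists_nat_gt (24 / ε)
  obtain ⟨m, hmdef⟩ : ∃ m : ℕ, m = m' + 3 := ⟨_, rfl⟩
  have hm : 24 / ε < m := by rw [hmdef]; push_cast; linarith
  obtain ⟨y₀, hy₀, h⟩ := param m (by omega)
  obtain ⟨y₁, hy₁⟩ : ∃ y₁ : ℝ, y₁ = y₀ + 1 := ⟨_, rfl⟩
  have hy₁2 : 2 ≤ y₁ := by linarith
  obtain ⟨N, hN⟩ : ∃ N : ℕ, N = 6 * m + 36 := ⟨_, rfl⟩
  have hNr : (N : ℝ) = 6 * m + 36 := by rw [hN]; push_cast; ring
  have hm0 : (0 : ℝ) ≤ m := Nat.cast_nonneg _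
  have hN0 : (0 : ℝ) < N := by rw [hNr]; linarith
  have hy₁N : 1 ≤ y₁ ^ N := one_le_pow₀ (by linarith)
  refine ⟨2 * y₁ ^ N, by linarith, ?_⟩
  intro x η hx hη0 hη1 hηx
  have hx0 : 0 < x := by linarith
  set y : ℝ := x ^ ((1 : ℝ) / N) with hy
  have hy1 : 1 ≤ y := Real.one_le_rpow hx (by positivity)
  have hy0 : 0 < y := by linarith
  have hyN : y ^ N = x := by
    rw [hy, ← Real.rpow_natCast, ← Real.rpow_mul hx0.le, one_div_mul_cancel hN0.ne', Real.rpow_one]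
  have hsx : √x = y ^ (3 * m + 18) := by
    rw [← hyN, hN, show 6 * m + 36 = (3 * m + 18) * 2 by ring, pow_mul,
      Real.sqrt_sq (by positivity)]
  have hv : 1 ≤ 1 / η := by rw [le_div_iff₀ hη0]; linarith
  have hv4 : 1 ≤ (1 / η) ^ 4 := one_le_pow₀ hv
  have hxe : 1 ≤ x ^ (1 / 3 + ε) := Real.one_le_rpow hx (by positivity)
  by_cases h1 : y < y₁
  · have triv : volume (BadR x (η / (20 * √x))) ≤ ENNReal.ofReal (2 * x) := by
      have h1 : BadR x (η / (20 * √x)) ⊆ Set.Icc x (3 * x) := fun R hR => hR.1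
      calc volume (BadR x (η / (20 * √x))) ≤ volume (Set.Icc x (3 * x)) := measure_mono h1
        _ = ENNReal.ofReal (2 * x) := by rw [Real.volume_Icc]; congr 1; ring
    refine le_trans triv (ENNReal.ofReal_le_ofReal ?_)
    have h2 : x ≤ y₁ ^ N := by
      rw [← hyN]; exact pow_le_pow_left₀ hy0.le h1.le N
    calc 2 * x ≤ 2 * y₁ ^ N := by linarith
      _ = 2 * y₁ ^ N * 1 * 1 := by ring
      _ ≤ 2 * y₁ ^ N * (1 / η) ^ 4 * x ^ (1 / 3 + ε) := by
          apply mul_le_mul _ hxe (by norm_num) (by positivity)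
          exact mul_le_mul_of_nonneg_left hv4 (by positivity)
  · push Not at h1
    have h2 : (1 / η) ^ 3 ≤ y ^ (m + 7) := by
      have h3 : ((1 / η) ^ 3) ^ 6 ≤ (y ^ (m + 7)) ^ 6 := by
        calc ((1 / η) ^ 3) ^ 6 = (1 / η) ^ 18 := by rw [← pow_mul]
          _ ≤ 2 * x := hηx
          _ ≤ y * x := mul_le_mul_of_nonneg_right (by linarith) hx0.le
          _ = y ^ (6 * m + 37) := by rw [← hyN, hN, ← pow_succ']
          _ ≤ y ^ ((m + 7) * 6) := pow_le_pow_right₀ hy1 (by omega)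
          _ = (y ^ (m + 7)) ^ 6 := by rw [← pow_mul]
      exact (pow_le_pow_iff_left₀ (by positivity) (by positivity) (by norm_num)).mp h3
    have h3 := h y (by linarith) (1 / η) hv h2
    rw [← hN, hyN, ← hsx] at h3
    have h5 : 1 / (20 * (1 / η) * √x) = η / (20 * √x) := by field_simp
    rw [h5] at h3
    refine le_trans h3 (ENNReal.ofReal_le_ofReal ?_)
    have h4 : y ^ (2 * m + 36) ≤ x ^ (1 / 3 + ε) := by
      rw [hy, ← Real.rpow_natCast, ← Real.rpow_mul hx0.le]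
      apply Real.rpow_le_rpow_of_exponent_le hx
      rw [one_div_mul_eq_div, div_le_iff₀ hN0, hNr]
      push_cast
      have h5 : 24 < m * ε := by rwa [div_lt_iff₀ hε] at hm
      nlinarith
    calc (1 / η) ^ 4 * y ^ (2 * m + 36) ≤ (1 / η) ^ 4 * x ^ (1 / 3 + ε) :=
          mul_le_mul_of_nonneg_left h4 (by positivity)
      _ = 1 * (1 / η) ^ 4 * x ^ (1 / 3 + ε) := by ring
      _ ≤ 2 * y₁ ^ N * (1 / η) ^ 4 * x ^ (1 / 3 + ε) := by
          apply mul_le_mul_of_nonneg_right _ (by positivity)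
          apply mul_le_mul_of_nonneg_right _ (by positivity)
          linarith

/-- A sum of two squares followed by a large gap. -/
def GapStart (η : ℝ) (n : ℕ) : Prop :=
  IsSumOfTwoSquares n ∧
    ∀ m : ℕ, IsSumOfTwoSquares m → n < m → (n : ℝ) + η * (n : ℝ) ^ (1 / 4 : ℝ) ≤ m

theorem rpow_quarter (t : ℝ) (ht : 0 ≤ t) : t ^ (1 / 4 : ℝ) = √(√t) := by
  rw [Real.sqrt_eq_rpow, Real.sqrt_eq_rpow, ← Real.rpow_mul ht]
  norm_num

theorem next_radius {x η : ℝ} {n m : ℕ} (hx : 1 ≤ x) (hη0 : 0 < η) (hη1 : η ≤ 1)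
    (hn1 : x ^ 2 ≤ n) (hn2 : (n : ℝ) ≤ 4 * x ^ 2) (h : (n : ℝ) + η * (n : ℝ) ^ (1 / 4 : ℝ) ≤ m) :
    √(n : ℝ) + 3 * (η / (20 * √x)) ≤ √(m : ℝ) := by
  have hx0 : 0 < x := by linarith
  rw [rpow_quarter _ (Nat.cast_nonneg n)] at h
  set R := √(n : ℝ) with hR
  have hR2 : R ^ 2 = n := Real.sq_sqrt (Nat.cast_nonneg _)
  have hR1 : x ≤ R := Real.le_sqrt_of_sq_le hn1
  have hR3 : R ≤ 2 * x := by
    rw [hR, Real.sqrt_le_iff]
    refine ⟨by linarith, by nlinarith⟩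
  set w := √R with hw
  set t := √x with ht
  have ht2 : t ^ 2 = x := Real.sq_sqrt hx0.le
  have hw2 : w ^ 2 = R := Real.sq_sqrt (by linarith)
  have ht1 : 1 ≤ t := by rw [ht, Real.le_sqrt' one_pos]; simpa using hx
  have htw : t ≤ w := Real.sqrt_le_sqrt hR1
  have hw1 : w ≤ 3 / 2 * t := by
    apply le_of_sq_le_sq _ (by positivity)
    nlinarith
  apply Real.le_sqrt_of_sq_le
  refine le_trans ?_ h
  set ρ := η / (20 * t) with hρ
  have hρ0 : 0 < ρ := by positivity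
  have h1 : ρ * t = η / 20 := by rw [hρ]; field_simp
  have h2 : ρ ≤ η / 20 := by nlinarith
  have h3 : ρ * w ≤ 3 / 40 * η := by nlinarith
  have h4 : ρ * R ≤ 3 / 40 * η * w := by rw [← hw2]; nlinarith
  have h5 : ρ ^ 2 ≤ η / 400 := by nlinarith
  nlinarith

theorem sots_of_int (a b : ℤ) : ∃ m : ℕ, IsSumOfTwoSquares m ∧
    √((a : ℝ) ^ 2 + (b : ℝ) ^ 2) = √(m : ℝ) := by
  refine ⟨a.natAbs ^ 2 + b.natAbs ^ 2, ⟨_, _, rfl⟩, ?_⟩
  congr 1
  push_cast
  rw [Nat.cast_natAbs, Nat.cast_natAbs]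
  push_cast
  rw [sq_abs, sq_abs]

/-- The number of large gaps in a dyadic range of the radii. -/
theorem gap_block {x η V : ℝ} (hx : 1 ≤ x) (hη0 : 0 < η) (hη1 : η ≤ 1) (S : Finset ℕ)
    (hS : ∀ n ∈ S, GapStart η n ∧ x ^ 2 ≤ (n : ℝ) ∧ (n : ℝ) ≤ 4 * x ^ 2) (hV0 : 0 ≤ V)
    (hV : volume (BadR x (η / (20 * √x))) ≤ ENNReal.ofReal V) :
    (S.card : ℝ) * (η / (20 * √x)) ≤ V := by
  classical
  have hx0 : 0 < x := by linarith
  have ht1 : 1 ≤ √x := by rw [Real.le_sqrt' one_pos]; simpa using hx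
  set ρ := η / (20 * √x) with hρ
  have hρ0 : 0 < ρ := by positivity
  have hρ1 : ρ ≤ 1 / 20 := by
    rw [hρ, div_le_div_iff₀ (by positivity) (by norm_num)]
    nlinarith
  have hsub : (⋃ n ∈ S, Set.Icc (√(n : ℝ) + ρ) (√(n : ℝ) + 2 * ρ)) ⊆ BadR x ρ := by
    intro R hR
    rw [Set.mem_iUnion₂] at hR
    obtain ⟨n, hn, hR1, hR2⟩ := hR
    obtain ⟨⟨_, hgap⟩, hn1, hn2⟩ := hS n hn
    have hs1 : x ≤ √(n : ℝ) := Real.le_sqrt_of_sq_le hn1
    have hs2 : √(n : ℝ) ≤ 2 * x := by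
      rw [Real.sqrt_le_iff]
      exact ⟨by linarith, by nlinarith⟩
    refine ⟨⟨by linarith, by linarith⟩, ?_⟩
    intro a b
    obtain ⟨m, hm, hab⟩ := sots_of_int a b
    rw [hab]
    rcases le_or_gt m n with h | h
    · have h1 : √(m : ℝ) ≤ √(n : ℝ) := Real.sqrt_le_sqrt (by exact_mod_cast h)
      rw [abs_sub_comm, abs_of_nonneg (by linarith)]
      linarith
    · have h1 := next_radius hx hη0 hη1 hn1 hn2 (hgap m hm h)
      rw [← hρ] at h1
      rw [abs_of_nonneg (by linarith)]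
      linarith
  have hdisj : Set.PairwiseDisjoint (S : Set ℕ) (fun n : ℕ => Set.Icc (√(n : ℝ) + ρ) (√(n : ℝ) + 2 * ρ)) := by
    have key : ∀ n ∈ S, ∀ m ∈ S, n < m → √(n : ℝ) + 3 * ρ ≤ √(m : ℝ) := by
      intro n hn m hm hnm
      obtain ⟨⟨_, hgap⟩, hn1, hn2⟩ := hS n hn
      obtain ⟨⟨hm', _⟩, _, _⟩ := hS m hm
      exact next_radius hx hη0 hη1 hn1 hn2 (hgap m hm' hnm)
    intro n hn m hm hnm
    rw [Function.onFun, Set.disjoint_left]
    intro R hR1 hR2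
    rcases lt_or_gt_of_ne hnm with h | h
    · have := key n hn m hm h
      linarith [hR1.2, hR2.1]
    · have := key m hm n hn h
      linarith [hR2.2, hR1.1]
  have h1 : (S.card : ENNReal) * ENNReal.ofReal ρ ≤ ENNReal.ofReal V := by
    calc (S.card : ENNReal) * ENNReal.ofReal ρ =
        ∑ n ∈ S, volume (Set.Icc (√(n : ℝ) + ρ) (√(n : ℝ) + 2 * ρ)) := by
          have h2 : ∀ n ∈ S, volume (Set.Icc (√(n : ℝ) + ρ) (√(n : ℝ) + 2 * ρ)) =
              ENNReal.ofReal ρ := by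
            intro n _
            rw [Real.volume_Icc]; congr 1; ring
          rw [Finset.sum_congr rfl h2, Finset.sum_const, nsmul_eq_mul]
      _ = volume (⋃ n ∈ S, Set.Icc (√(n : ℝ) + ρ) (√(n : ℝ) + 2 * ρ)) :=
          (measure_biUnion_finset hdisj (fun n _ => measurableSet_Icc)).symm
      _ ≤ volume (BadR x ρ) := measure_mono hsub
      _ ≤ ENNReal.ofReal V := hV
  have h2 : (S.card : ENNReal) * ENNReal.ofReal ρ = ENNReal.ofReal (S.card * ρ) := by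
    rw [ENNReal.ofReal_mul (Nat.cast_nonneg _), ENNReal.ofReal_natCast]
  rw [h2] at h1
  exact (ENNReal.ofReal_le_ofReal_iff hV0).mp h1

/-- Summation over dyadic ranges. -/
theorem quarter_induction {F : ℝ → ℝ} {a b κ X₁ : ℝ} (ha : 0 ≤ a) (hb : 0 ≤ b) (hκ : 1 / 4 ≤ κ)
    (h0 : ∀ X, 1 ≤ X → X < 16 → F X ≤ a)
    (h1 : ∀ X, 16 ≤ X → X ≤ X₁ → F X ≤ F (X / 4) + b * X ^ κ) :
    ∀ X, 1 ≤ X → X ≤ X₁ → F X ≤ (a + 4 * b) * X ^ κ := by
  have key : ∀ n : ℕ, ∀ X, 1 ≤ X → X ≤ X₁ → X < 16 * 4 ^ n → F X ≤ (a + 4 * b) * X ^ κ := by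
    intro n
    induction n with
    | zero =>
      intro X hX1 _ hX2
      have h2 : 1 ≤ X ^ κ := Real.one_le_rpow hX1 (by linarith)
      have h3 := h0 X hX1 (by simpa using hX2)
      nlinarith
    | succ n ih =>
      intro X hX1 hX3 hX2
      rcases lt_or_ge X 16 with h | h
      · have h2 : 1 ≤ X ^ κ := Real.one_le_rpow hX1 (by linarith)
        have h3 := h0 X hX1 h
        nlinarith
      · have h3 := ih (X / 4) (by linarith) (by linarith) (by rw [pow_succ] at hX2; linarith)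
        have h4 := h1 X h hX3
        have h5 : (X / 4) ^ κ ≤ 3 / 4 * X ^ κ := by
          rw [Real.div_rpow (by linarith) (by norm_num), div_eq_mul_one_div, mul_comm]
          apply mul_le_mul_of_nonneg_right _ (by positivity)
          have h6 : (4 / 3 : ℝ) ≤ 4 ^ κ := by
            calc (4 / 3 : ℝ) = ((4 / 3 : ℝ) ^ (4 : ℕ)) ^ (1 / 4 : ℝ) := by
                  rw [← Real.rpow_natCast, ← Real.rpow_mul (by norm_num)]; norm_num
              _ ≤ (4 : ℝ) ^ (1 / 4 : ℝ) := Real.rpow_le_rpow (by norm_num) (by norm_num) (by norm_num)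
              _ ≤ 4 ^ κ := Real.rpow_le_rpow_of_exponent_le (by norm_num) hκ
          rw [div_le_div_iff₀ (by positivity) (by norm_num)]
          linarith
        have h6 : 0 ≤ X ^ κ := by positivity
        have h7 : (a + 4 * b) * (X / 4) ^ κ ≤ (a + 4 * b) * (3 / 4 * X ^ κ) :=
          mul_le_mul_of_nonneg_left h5 (by positivity)
        nlinarith [mul_nonneg ha h6]
  intro X hX hX₁
  obtain ⟨n, hn⟩ := pow_unbounded_of_one_lt X (by norm_num : (1 : ℝ) < 4)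
  exact key n X hX hX₁ (by
    have : (0 : ℝ) < 4 ^ n := by positivity
    linarith)

/-- The starting points of gaps of length at least `g`, up to `X`. -/
def GapSet (g X : ℝ) : Set ℕ :=
  {n : ℕ | (n : ℝ) ≤ X ∧ IsSumOfTwoSquares n ∧
    ∀ m : ℕ, IsSumOfTwoSquares m → n < m → (n : ℝ) + g ≤ m}

theorem gapSet_finite (g X : ℝ) : (GapSet g X).Finite := by
  apply (Set.finite_Iic ⌊X⌋₊).subset
  intro n hn
  exact Nat.le_floor hn.1

/-- One dyadic block of gaps. -/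
theorem gapSet_block {C ε : ℝ} (hC : 1 ≤ C) (hε : 0 < ε)
    (hbad : ∀ x η : ℝ, 1 ≤ x → 0 < η →
      η ≤ 1 → (1 / η) ^ 18 ≤ 2 * x → volume (BadR x (η / (20 * √x))) ≤
      ENNReal.ofReal (C * (1 / η) ^ 4 * x ^ (1 / 3 + ε)))
    {g X Y : ℝ} (hX : 16 ≤ X) (hXY : X ≤ Y) (hg1 : Y ^ (2 / 9 : ℝ) ≤ g) (hg2 : g ≤ Y ^ (1 / 4 : ℝ)) :
    ((GapSet g X).ncard : ℝ) ≤ (GapSet g (X / 4)).ncard +
      (20 * C * (Y ^ (5 / 4 + ε) / g ^ 5)) * X ^ (5 / 12 : ℝ) := by
  classical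
  have hY1 : 1 ≤ Y := by linarith
  have hY0 : 0 < Y := by linarith
  have hX0 : 0 < X := by linarith
  have hg0 : 0 < g := lt_of_lt_of_le (by positivity) hg1
  set x : ℝ := √X / 2 with hx
  have hsX2 : √X ^ 2 = X := Real.sq_sqrt hX0.le
  have hsX4 : 4 ≤ √X := by
    apply Real.le_sqrt_of_sq_le; linarith
  have hx2 : 2 ≤ x := by rw [hx]; linarith
  have hx1 : 1 ≤ x := by linarith
  have hx0 : 0 < x := by linarith
  have hxx : x ^ 2 = X / 4 := by rw [hx, div_pow, hsX2]; norm_num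
  -- `η`
  set Q : ℝ := X ^ (1 / 4 : ℝ) with hQ
  have hQ1 : 1 ≤ Q := Real.one_le_rpow (by linarith) (by norm_num)
  have hQ0 : 0 < Q := by linarith
  obtain ⟨η, hη⟩ : ∃ η : ℝ, η = min 1 (g / Q) := ⟨_, rfl⟩
  have hη0 : 0 < η := by rw [hη]; exact lt_min one_pos (by positivity)
  have hη1 : η ≤ 1 := by rw [hη]; exact min_le_left _ _
  have hηg : η * Q ≤ g := by
    have : η ≤ g / Q := by rw [hη]; exact min_le_right _ _
    rwa [le_div_iff₀ hQ0] at this
  have hv : 1 / η = max 1 (Q / g) := by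
    rw [hη]
    rcases le_total 1 (g / Q) with h | h
    · rw [min_eq_left h, div_one]
      rw [le_div_iff₀ hQ0] at h
      rw [max_eq_left]
      rw [div_le_one hg0]; linarith
    · rw [min_eq_right h, one_div_div]
      rw [div_le_one hQ0] at h
      rw [max_eq_right]
      rw [le_div_iff₀ hg0]; linarith
  have hQ18 : Q ^ 18 = X ^ 4 * √X := by
    rw [hQ, ← Real.rpow_natCast, ← Real.rpow_mul hX0.le, Real.sqrt_eq_rpow, ← Real.rpow_natCast X 4,
      ← Real.rpow_add hX0]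
    norm_num
  have hη18 : (1 / η) ^ 18 ≤ 2 * x := by
    rw [hv]
    rcases le_total 1 (Q / g) with h | h
    · rw [max_eq_right h, div_pow, div_le_iff₀ (by positivity), hQ18]
      have h1 : X ^ 4 ≤ g ^ 18 := by
        calc X ^ 4 ≤ Y ^ 4 := pow_le_pow_left₀ hX0.le hXY 4
          _ = (Y ^ (2 / 9 : ℝ)) ^ 18 := by
              rw [← Real.rpow_natCast (Y ^ (2 / 9 : ℝ)), ← Real.rpow_mul hY0.le,
                ← Real.rpow_natCast Y 4]
              norm_num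
          _ ≤ g ^ 18 := pow_le_pow_left₀ (by positivity) hg1 18
      have h2 : 2 * x = √X := by rw [hx]; ring
      rw [h2, mul_comm]
      exact mul_le_mul_of_nonneg_left h1 (by positivity)
    · rw [max_eq_left h, one_pow]; linarith
  have hvol := hbad x η hx1 hη0 hη1 hη18
  -- the new gaps
  set S : Finset ℕ := (gapSet_finite g X).toFinset \ (gapSet_finite g (X / 4)).toFinset with hS
  have hcard : (GapSet g X).ncard ≤ (GapSet g (X / 4)).ncard + S.card := by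
    rw [Set.ncard_eq_toFinset_card _ (gapSet_finite g X),
      Set.ncard_eq_toFinset_card _ (gapSet_finite g (X / 4)), hS]
    have := Finset.le_card_sdiff (gapSet_finite g (X / 4)).toFinset (gapSet_finite g X).toFinset
    omega
  have hcard' : ((GapSet g X).ncard : ℝ) ≤ (GapSet g (X / 4)).ncard + S.card := by
    exact_mod_cast hcard
  refine le_trans hcard' (add_le_add le_rfl ?_)
  have hblock := gap_block hx1 hη0 hη1 S (by
    intro n hn
    rw [hS, Finset.mem_sdiff, Set.Finite.mem_toFinset, Set.Finite.mem_toFinset] at hn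
    obtain ⟨⟨hn1, hn2, hn3⟩, hn4⟩ := hn
    have h1 : X / 4 < n := by
      by_contra h
      push Not at h
      exact hn4 ⟨h, hn2, hn3⟩
    refine ⟨⟨hn2, ?_⟩, ?_, ?_⟩
    · intro m hm hnm
      have h2 := hn3 m hm hnm
      have h3 : (n : ℝ) ^ (1 / 4 : ℝ) ≤ Q := Real.rpow_le_rpow (Nat.cast_nonneg _) hn1 (by norm_num)
      have h4 : η * (n : ℝ) ^ (1 / 4 : ℝ) ≤ η * Q := mul_le_mul_of_nonneg_left h3 hη0.le
      linarith
    · rw [hxx]; exact h1.le
    · rw [hxx]; linarith) (by positivity) hvol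
  -- arithmetic
  have hsx0 : 0 < √x := Real.sqrt_pos.mpr hx0
  have h1 : (S.card : ℝ) ≤ 20 * C * ((1 / η) ^ 5 * (√x * x ^ (1 / 3 + ε))) := by
    have h2 : (S.card : ℝ) = (S.card : ℝ) * (η / (20 * √x)) * (20 * √x * (1 / η)) := by
      field_simp
    rw [h2]
    calc (S.card : ℝ) * (η / (20 * √x)) * (20 * √x * (1 / η)) ≤
        (C * (1 / η) ^ 4 * x ^ (1 / 3 + ε)) * (20 * √x * (1 / η)) :=
          mul_le_mul_of_nonneg_right hblock (by positivity)
      _ = _ := by ring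
  refine le_trans h1 ?_
  rw [mul_assoc (20 * C)]
  apply mul_le_mul_of_nonneg_left _ (by positivity)
  have h2 : √x * x ^ (1 / 3 + ε) ≤ X ^ (5 / 12 : ℝ) * Y ^ ε := by
    have h3 : √x * x ^ (1 / 3 + ε) = x ^ (5 / 6 + ε) := by
      rw [Real.sqrt_eq_rpow, ← Real.rpow_add hx0]; congr 1; ring
    rw [h3]
    have h4 : x ≤ √X := by rw [hx]; linarith
    calc x ^ (5 / 6 + ε) ≤ (√X) ^ (5 / 6 + ε) := Real.rpow_le_rpow hx0.le h4 (by positivity)
      _ = X ^ (5 / 12 : ℝ) * X ^ (ε / 2) := by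
          rw [Real.sqrt_eq_rpow, ← Real.rpow_mul hX0.le, ← Real.rpow_add hX0]
          congr 1; ring
      _ ≤ X ^ (5 / 12 : ℝ) * Y ^ ε := by
          apply mul_le_mul_of_nonneg_left _ (by positivity)
          calc X ^ (ε / 2) ≤ X ^ ε := Real.rpow_le_rpow_of_exponent_le (by linarith) (by linarith)
            _ ≤ Y ^ ε := Real.rpow_le_rpow hX0.le hXY hε.le
  have h3 : (1 / η) ^ 5 ≤ Y ^ (5 / 4 : ℝ) / g ^ 5 := by
    have hY54 : Y ^ (5 / 4 : ℝ) = (Y ^ (1 / 4 : ℝ)) ^ 5 := by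
      rw [← Real.rpow_natCast (Y ^ (1 / 4 : ℝ)), ← Real.rpow_mul hY0.le]; norm_num
    rw [hY54, ← div_pow]
    apply pow_le_pow_left₀ (by positivity)
    rw [hv]
    apply max_le
    · rw [le_div_iff₀ hg0]; linarith
    · apply div_le_div_of_nonneg_right _ hg0.le
      exact Real.rpow_le_rpow hX0.le hXY (by norm_num)
  calc (1 / η) ^ 5 * (√x * x ^ (1 / 3 + ε)) ≤
      (Y ^ (5 / 4 : ℝ) / g ^ 5) * (X ^ (5 / 12 : ℝ) * Y ^ ε) :=
        mul_le_mul h3 h2 (by positivity) (by positivity)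
    _ = Y ^ (5 / 4 + ε) / g ^ 5 * X ^ (5 / 12 : ℝ) := by
        rw [Real.rpow_add hY0]; ring

/-- **The number of large gaps.** -/
theorem few_gaps (ε : ℝ) (hε : 0 < ε) : ∃ C : ℝ, 0 < C ∧ ∀ X g : ℝ, 1 ≤ X →
    X ^ (2 / 9 : ℝ) ≤ g → g ≤ X ^ (1 / 4 : ℝ) →
    ((GapSet g X).ncard : ℝ) ≤ C * X ^ (5 / 3 + ε) / g ^ 5 := by
  obtain ⟨C, hC, hbad⟩ := bad_measure ε hε
  refine ⟨17 + 80 * C, by linarith, ?_⟩
  intro X g hX hg1 hg2
  have hX0 : 0 < X := by linarith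
  have hg0 : 0 < g := lt_of_lt_of_le (by positivity) hg1
  have h1 := quarter_induction (F := fun Y => ((GapSet g Y).ncard : ℝ)) (a := 17)
    (b := 20 * C * (X ^ (5 / 4 + ε) / g ^ 5)) (κ := 5 / 12) (X₁ := X) (by norm_num) (by positivity)
    (by norm_num) (by
      intro Y hY1 hY2
      have h2 : GapSet g Y ⊆ (Finset.range 17 : Set ℕ) := by
        intro n hn
        have h3 : (n : ℝ) < 16 := lt_of_le_of_lt hn.1 hY2
        have h4 : n < 16 := by exact_mod_cast h3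
        simp only [Finset.coe_range, Set.mem_Iio]
        omega
      have h3 : (GapSet g Y).ncard ≤ 17 := by
        calc (GapSet g Y).ncard ≤ ((Finset.range 17 : Finset ℕ) : Set ℕ).ncard :=
              Set.ncard_le_ncard h2 (Finset.finite_toSet _)
          _ = 17 := by rw [Set.ncard_coe_finset, Finset.card_range]
      exact_mod_cast h3)
    (fun Y hY1 hY2 => gapSet_block hC hε hbad hY1 hY2 hg1 hg2) X hX le_rfl
  refine le_trans h1 ?_
  have h2 : 1 ≤ X ^ (5 / 4 + ε) / g ^ 5 := by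
    rw [one_le_div (by positivity)]
    calc g ^ 5 ≤ (X ^ (1 / 4 : ℝ)) ^ 5 := pow_le_pow_left₀ hg0.le hg2 5
      _ = X ^ (5 / 4 : ℝ) := by
          rw [← Real.rpow_natCast (X ^ (1 / 4 : ℝ)), ← Real.rpow_mul hX0.le]; norm_num
      _ ≤ X ^ (5 / 4 + ε) := Real.rpow_le_rpow_of_exponent_le hX (by linarith)
  have h3 : X ^ (5 / 3 + ε) = X ^ (5 / 4 + ε) * X ^ (5 / 12 : ℝ) := by
    rw [← Real.rpow_add hX0]; congr 1; ring
  rw [h3]
  have h4 : (17 : ℝ) + 4 * (20 * C * (X ^ (5 / 4 + ε) / g ^ 5)) ≤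
      (17 + 80 * C) * (X ^ (5 / 4 + ε) / g ^ 5) := by linarith
  calc (17 + 4 * (20 * C * (X ^ (5 / 4 + ε) / g ^ 5))) * X ^ (5 / 12 : ℝ) ≤
      ((17 + 80 * C) * (X ^ (5 / 4 + ε) / g ^ 5)) * X ^ (5 / 12 : ℝ) :=
        mul_le_mul_of_nonneg_right h4 (by positivity)
    _ = _ := by ring

end Run7.h770
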